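import Pool.Agent.LibHP4.Defs

set_option autoImplicit false

namespace Pool.Agent.LibHP

/-- The gradient at an affine point. -/
theorem cuG_affine {R : Type} [CommRing R] (c : Fin 10 → R) (x y : R) :
    cuG c ![1, x, y] 1 = cuX c x y ∧ cuG c ![1, x, y] 2 = cuY c x y ∧
      cuG c ![1, x, y] 0 + x * cuX c x y + y * cuY c x y = 3 * cuF c x y := by
  refine ⟨?_, ?_, ?_⟩
  · simp [cuG, cuX]
  · simp [cuG, cuY]
  · simp [cuG, cuX, cuY, cuF]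
    ring

private theorem A1_taylor {K : Type} [Field K] (c : Fin 10 → K) (x y h l : K) :
    cuF c (x + h) (y + l) = cuF c x y + cuX c x y * h + cuY c x y * l + cuXX c x y * h ^ 2 +
      cuXY c x y * h * l + cuYY c x y * l ^ 2 + c 6 * h ^ 3 + c 7 * h ^ 2 * l + c 8 * h * l ^ 2 +
      c 9 * l ^ 3 := by
  unfold cuF cuX cuY cuXX cuXY cuYY
  ring

private theorem A1_core {K : Type} [Field K] (X Y XX XY YY Q2 Q3 c6 c7 c8 c9 h l : K)
    (hQ2 : Q2 = XX * Y ^ 2 - XY * X * Y + YY * X ^ 2)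
    (hQ3 : Q3 = -(c6 * Y ^ 3) + c7 * Y ^ 2 * X - c8 * Y * X ^ 2 + c9 * X ^ 3)
    (h1 : h * Q3 = Q2 * Y) (h2 : l * Q3 = -(Q2 * X)) :
    Q3 ^ 3 * (X * h + Y * l + XX * h ^ 2 +
      XY * h * l + YY * l ^ 2 + c6 * h ^ 3 + c7 * h ^ 2 * l + c8 * h * l ^ 2 +
      c9 * l ^ 3) = 0 := by
  have e1 : Q3 ^ 3 * (X * h + Y * l + XX * h ^ 2 +
      XY * h * l + YY * l ^ 2 + c6 * h ^ 3 + c7 * h ^ 2 * l + c8 * h * l ^ 2 +
      c9 * l ^ 3) = Q3 ^ 2 * (X * (h * Q3) + Y * (l * Q3)) +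
        Q3 * (XX * (h * Q3) ^ 2 + XY * (h * Q3) * (l * Q3) + YY * (l * Q3) ^ 2) +
        (c6 * (h * Q3) ^ 3 + c7 * (h * Q3) ^ 2 * (l * Q3) + c8 * (h * Q3) * (l * Q3) ^ 2 +
          c9 * (l * Q3) ^ 3) := by
    ring
  rw [e1, h1, h2]
  linear_combination (-(Q3 * Q2 ^ 2)) * hQ2 + Q2 ^ 3 * hQ3

/-- The tangent residual point lies on the cubic. -/
theorem cu_move_eq {K : Type} [Field K] (c : Fin 10 → K) (x y x' y' : K) (h0 : cuF c x y = 0)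
    (hq : cuQ3 c x y ≠ 0) (h1 : (x' - x) * cuQ3 c x y = cuQ2 c x y * cuY c x y)
    (h2 : (y' - y) * cuQ3 c x y = -(cuQ2 c x y * cuX c x y)) : cuF c x' y' = 0 := by
  have h3 := A1_core (cuX c x y) (cuY c x y) (cuXX c x y) (cuXY c x y) (cuYY c x y) (cuQ2 c x y)
    (cuQ3 c x y) (c 6) (c 7) (c 8) (c 9) (x' - x) (y' - y) rfl rfl h1 h2
  have h4 := A1_taylor c x y (x' - x) (y' - y)
  rw [add_sub_cancel, add_sub_cancel, h0] at h4
  rw [h4]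
  rcases mul_eq_zero.1 h3 with h5 | h5
  · exact absurd h5 (pow_ne_zero _ hq)
  · linear_combination h5

end Pool.Agent.LibHP
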