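import Pool.Agent.LibHP4.A1b

set_option autoImplicit false

namespace Pool.Agent.LibHP

/-- The derivation and the tangent residual map. -/
theorem PMove.flow_comm {B K : Type} [Field B] [CharZero B] [Field K] [Algebra B K]
    {c : Fin 10 → B} {x y : K} {D : K →ₐ[B] K} (h : PMove B K c x y D) {δ : Derivation B K K}
    (hδ : IsFlow B K c x y δ) (z : K) : δ (D z) = -2 * D (δ z) := by
  obtain ⟨hx, hy⟩ := cu_move_der δ c x y (D x) (D y) hδ h.q3 h.d1 h.d2
  have hz : z ∈ IntermediateField.adjoin B {x, y} := by rw [h.gen]; trivial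
  have hDc : ∀ b : B, D (algebraMap B K b) = algebraMap B K b := fun b => D.commutes b
  induction hz using IntermediateField.adjoin_induction with
  | mem u hu =>
    rcases hu with rfl | rfl
    · rw [hx, hδ.1]
      unfold cuY
      simp only [map_add, map_mul, map_pow, hDc, map_ofNat]
    · rw [hy, hδ.2]
      unfold cuX
      simp only [map_add, map_mul, map_pow, hDc, map_ofNat, map_neg]
      ring
  | algebraMap b =>
    rw [hDc, δ.map_algebraMap, map_zero, mul_zero]
  | add u v _ _ hu hv =>
    rw [map_add, map_add, map_add, map_add, hu, hv, mul_add]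
  | inv u _ hu =>
    by_cases h0 : u = 0
    · subst h0
      rw [inv_zero, map_zero, map_zero, map_zero, mul_zero]
    · have h1 : D u ≠ 0 := by
        intro h2
        exact h0 (D.toRingHom.injective (by simpa using h2))
      have e1 : ∀ w : K, w ≠ 0 → δ w⁻¹ = -(w⁻¹ ^ 2 * δ w) := by
        intro w hw
        have := δ.leibniz w w⁻¹
        rw [mul_inv_cancel₀ hw, δ.map_one_eq_zero] at this
        rw [smul_eq_mul, smul_eq_mul] at this
        field_simp
        field_simp at this
        linear_combination -this
      rw [map_inv₀, e1 _ h1, e1 _ h0, hu, map_neg, map_mul, map_pow, map_inv₀]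
      ring
  | mul u v _ _ hu hv =>
    rw [map_mul, δ.leibniz, δ.leibniz, map_add, smul_eq_mul, smul_eq_mul, smul_eq_mul, smul_eq_mul,
      map_mul, map_mul, hu, hv]
    ring

end Pool.Agent.LibHP
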