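import Pool.Agent.LibHP4.Defs

set_option autoImplicit false

namespace Pool.Agent.LibHP

theorem A11_val_lt {L : Type} [Field L] (W : ValuationSubring L) {x : L} (hx : x ≠ 0) :
    W.valuation x < 1 ↔ x⁻¹ ∉ W := by
  rw [← W.valuation_le_one_iff x⁻¹, map_inv₀, not_le, one_lt_inv₀]
  exact (Valuation.pos_iff W.valuation).2 hx

theorem A11_val_one {L : Type} [Field L] (W : ValuationSubring L) {x : L} (hx : x ≠ 0) :
    W.valuation x = 1 ↔ x ∈ W ∧ x⁻¹ ∈ W := by
  constructor
  · intro h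
    refine ⟨(W.valuation_le_one_iff x).1 h.le, ?_⟩
    rw [← W.valuation_le_one_iff, map_inv₀, h, inv_one]
  · rintro ⟨h1, h2⟩
    refine le_antisymm ((W.valuation_le_one_iff x).2 h1) ?_
    by_contra hcon
    exact (A11_val_lt W hx).1 (not_le.1 hcon) h2

theorem A11_unif {K : Type} [Field K] (O : ValuationSubring K) (π u : K) (h : IsUnif O π)
    (hu : u ∈ O) (hu' : u⁻¹ ∈ O) (hu0 : u ≠ 0) : IsUnif O (π * u) := by
  obtain ⟨h1, h2, h3, h4⟩ := h
  refine ⟨O.mul_mem _ _ h1 hu, mul_ne_zero h2 hu0, ?_, ?_⟩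
  · intro hc
    apply h3
    have : π⁻¹ = (π * u)⁻¹ * u := by
      field_simp
    rw [this]
    exact O.mul_mem _ _ hc hu
  · intro a ha ha0
    obtain ⟨n, v, hv, hv', e⟩ := h4 a ha ha0
    refine ⟨n, v * (u⁻¹) ^ n, O.mul_mem _ _ hv (pow_mem hu' n), ?_, ?_⟩
    · rw [mul_inv, ← inv_pow, inv_inv]
      exact O.mul_mem _ _ hv' (pow_mem hu n)
    · rw [e, mul_pow, mul_assoc, mul_comm (u⁻¹ ^ n), mul_assoc, ← mul_pow, mul_inv_cancel₀ hu0,
        one_pow, mul_one]

/-- a uniformizer is a unit times any other one -/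
theorem A11_two {K : Type} [Field K] (O : ValuationSubring K) (s t : K) (hs : IsUnif O s)
    (ht : IsUnif O t) : ∃ u : K, u ∈ O ∧ u⁻¹ ∈ O ∧ t = u * s := by
  obtain ⟨s1, s2, s3, s4⟩ := hs
  obtain ⟨t1, t2, t3, t4⟩ := ht
  obtain ⟨n, u, hu, hu', e⟩ := s4 t t1 t2
  obtain ⟨m, w, hw, hw', e'⟩ := t4 s s1 s2
  have hn : n ≠ 0 := by
    rintro rfl
    rw [pow_zero, mul_one] at e
    exact t3 (e ▸ hu')
  have hm : m ≠ 0 := by
    rintro rfl
    rw [pow_zero, mul_one] at e'
    exact s3 (e' ▸ hw')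
  obtain ⟨n', rfl⟩ := Nat.exists_eq_succ_of_ne_zero hn
  rcases Nat.eq_zero_or_pos n' with rfl | hn'
  · refine ⟨u, hu, hu', ?_⟩
    rw [e]
    simp
  · exfalso
    obtain ⟨m', rfl⟩ := Nat.exists_eq_succ_of_ne_zero hm
    obtain ⟨n'', rfl⟩ := Nat.exists_eq_succ_of_ne_zero hn'.ne'
    apply t3
    -- t = u (w t^(m'+1))^(n''+2)
    have h1 : t = u * (w * t ^ (m' + 1)) ^ (n'' + 2) := by
      rw [← e']
      exact e
    have h2 : (1 : K) = t * (u * w ^ (n'' + 2) * t ^ (m' * (n'' + 2) + n'')) := by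
      have h3 : t * 1 = t * (t * (u * w ^ (n'' + 2) * t ^ (m' * (n'' + 2) + n''))) := by
        rw [mul_one]
        conv_lhs => rw [h1]
        ring
      exact mul_left_cancel₀ t2 h3
    have h3 : t⁻¹ = u * w ^ (n'' + 2) * t ^ (m' * (n'' + 2) + n'') :=
      inv_eq_of_mul_eq_one_right h2.symm
    rw [h3]
    exact O.mul_mem _ _ (O.mul_mem _ _ hu (pow_mem hw _)) (pow_mem t1 _)

/-- An endomorphism multiplying a regular vector field without zeros by a constant is
unramified. -/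
theorem etale_of_regDer {B K : Type} [Field B] [Field K] [Algebra B K] {δ : Derivation B K K}
    (hδ : RegDer B K δ) (D : K →ₐ[B] K) (m : B) (hm : m ≠ 0)
    (hD : ∀ z, δ (D z) = algebraMap B K m * D (δ z)) : EtaleEndo B K D := by
  intro V hV t ht
  have hV' : ∀ b : B, algebraMap B K b ∈ V.comap (D : K →+* K) := by
    intro b
    rw [ValuationSubring.mem_comap]
    show D (algebraMap B K b) ∈ V
    rw [D.commutes]
    exact hV b
  have hmem : ∀ z : K, z ∈ V.comap (D : K →+* K) ↔ D z ∈ V := fun z => Iff.rfl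
  have hV't : V.comap (D : K →+* K) ≠ ⊤ := by
    intro h
    exact ht.2.2.1 (h ▸ ValuationSubring.mem_top _)
  have hDt0 : D t ≠ 0 := (_root_.map_ne_zero D).2 ht.2.1
  have hDt1 : D t ∈ V := ht.1
  have hDt2 : (D t)⁻¹ ∉ V := by
    intro h
    apply ht.2.2.1
    rw [hmem, map_inv₀]
    exact h
  have hVt : V ≠ ⊤ := by
    intro h
    exact hDt2 (h ▸ ValuationSubring.mem_top _)
  -- delta t is a unit
  obtain ⟨hreg', t0, ht0, hδt0⟩ := hδ _ hV' hV't
  obtain ⟨u, hu, hu', htu⟩ := A11_two _ t0 t ht0 ht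
  have hu0 : u ≠ 0 := by
    rintro rfl
    rw [zero_mul] at htu
    exact ht.2.1 htu
  have hδt : (V.comap (D : K →+* K)).valuation (δ t) = 1 := by
    have h1 : δ t = u * δ t0 + t0 * δ u := by
      rw [htu, Derivation.leibniz, smul_eq_mul, smul_eq_mul]
    rw [h1]
    have h2 : (V.comap (D : K →+* K)).valuation (u * δ t0) = 1 := by
      rw [map_mul, hδt0, mul_one]
      exact (A11_val_one _ hu0).2 ⟨hu, hu'⟩
    have h3 : (V.comap (D : K →+* K)).valuation (t0 * δ u) < 1 := by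
      rw [map_mul]
      have h4 : (V.comap (D : K →+* K)).valuation t0 < 1 :=
        (A11_val_lt _ ht0.2.1).2 ht0.2.2.1
      have h5 : (V.comap (D : K →+* K)).valuation (δ u) ≤ 1 :=
        (ValuationSubring.valuation_le_one_iff _ _).2 (hreg' u hu)
      exact mul_lt_one_of_lt_of_le h4 h5
    rw [Valuation.map_add_eq_of_lt_left _ (by rw [h2]; exact h3), h2]
  have hδt0' : δ t ≠ 0 := by
    intro h
    rw [h, map_zero] at hδt
    exact zero_ne_one hδt
  -- delta (D t) is a unit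
  have hδDt : V.valuation (δ (D t)) = 1 := by
    rw [hD, map_mul]
    have h1 : V.valuation (algebraMap B K m) = 1 := by
      apply (A11_val_one _ ((_root_.map_ne_zero (algebraMap B K)).2 hm)).2
      refine ⟨hV m, ?_⟩
      rw [← map_inv₀]
      exact hV _
    have h2 : V.valuation (D (δ t)) = 1 := by
      obtain ⟨h3, h4⟩ := (A11_val_one _ hδt0').1 hδt
      apply (A11_val_one _ ((_root_.map_ne_zero D).2 hδt0')).2
      refine ⟨h3, ?_⟩
      rw [← map_inv₀]
      exact h4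
    rw [h1, h2, mul_one]
  obtain ⟨hreg, s, hs, -⟩ := hδ V hV hVt
  obtain ⟨e, w, hw, hw', hDtw⟩ := hs.2.2.2 (D t) hDt1 hDt0
  have hw0 : w ≠ 0 := by
    rintro rfl
    rw [zero_mul] at hDtw
    exact hDt0 hDtw
  have hs1 : V.valuation s < 1 := (A11_val_lt _ hs.2.1).2 hs.2.2.1
  rcases e with _ | _ | e
  · exfalso
    rw [pow_zero, mul_one] at hDtw
    exact hDt2 (hDtw ▸ hw')
  · rw [hDtw, zero_add, pow_one, mul_comm]
    exact A11_unif V s w hs hw hw' hw0
  · exfalso
    have h1 : δ (D t) = s * (s ^ (e + 1) * δ w + w * (((e + 1 + 1 : ℕ) : K) * s ^ e * δ s)) := by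
      rw [hDtw, Derivation.leibniz, Derivation.leibniz_pow]
      simp only [smul_eq_mul, nsmul_eq_mul]
      have : e + 1 + 1 - 1 = e + 1 := rfl
      rw [this]
      ring
    have h2 : s ^ (e + 1) * δ w + w * (((e + 1 + 1 : ℕ) : K) * s ^ e * δ s) ∈ V := by
      apply V.add_mem
      · exact V.mul_mem _ _ (pow_mem hs.1 _) (hreg w hw)
      · exact V.mul_mem _ _ hw (V.mul_mem _ _ (V.mul_mem _ _ (natCast_mem V _)
          (pow_mem hs.1 _)) (hreg s hs.1))
    have h3 : V.valuation (δ (D t)) < 1 := by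
      rw [h1, map_mul]
      exact mul_lt_one_of_lt_of_le hs1 ((V.valuation_le_one_iff _).2 h2)
    rw [hδDt] at h3
    exact lt_irrefl _ h3

theorem EtaleEndo.pow {B K : Type} [Field B] [Field K] [Algebra B K] {D : K →ₐ[B] K}
    (h : EtaleEndo B K D) (n : ℕ) : EtaleEndo B K (D ^ n) := by
  induction n with
  | zero =>
    intro V hV t ht
    have h1 : V.comap ((D ^ 0 : K →ₐ[B] K) : K →+* K) = V := by
      ext z
      rw [ValuationSubring.mem_comap]
      rfl
    rw [h1] at ht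
    exact ht
  | succ n ih =>
    intro V hV t ht
    have h1 : V.comap ((D ^ (n + 1) : K →ₐ[B] K) : K →+* K) =
        (V.comap ((D ^ n : K →ₐ[B] K) : K →+* K)).comap (D : K →+* K) := by
      ext z
      rw [ValuationSubring.mem_comap, ValuationSubring.mem_comap, ValuationSubring.mem_comap,
        pow_succ]
      rfl
    rw [h1] at ht
    have hV' : ∀ b : B, algebraMap B K b ∈ V.comap ((D ^ n : K →ₐ[B] K) : K →+* K) := by
      intro b
      rw [ValuationSubring.mem_comap]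
      show (D ^ n) (algebraMap B K b) ∈ V
      rw [AlgHom.commutes]
      exact hV b
    have h2 := h _ hV' t ht
    have h3 := ih V hV (D t) h2
    have h4 : (D ^ (n + 1)) t = (D ^ n) (D t) := by
      rw [pow_succ]
      rfl
    rw [h4]
    exact h3

end Pool.Agent.LibHP
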