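import Pool.Agent.LibHP4.Defs
import Pool.Agent.LibHP3.R5

set_option autoImplicit false

namespace Pool.Agent.LibHP

open Polynomial in
/-- elements of `Ω(u)` as reduced fractions -/
theorem A12_frac {Ω K : Type} [Field Ω] [Field K] [Algebra Ω K] (u : K)
    (hK : IntermediateField.adjoin Ω {u} = ⊤) (z : K) :
    ∃ P Q : Polynomial Ω, IsCoprime P Q ∧ aeval u Q ≠ 0 ∧ z * aeval u Q = aeval u P := by
  classical
  have hz : z ∈ IntermediateField.adjoin Ω {u} := by
    rw [hK]
    exact IntermediateField.mem_top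
  obtain ⟨r, s, hrs⟩ := (IntermediateField.mem_adjoin_simple_iff Ω z).1 hz
  by_cases hs : aeval u s = 0
  · rw [hs, div_zero] at hrs
    refine ⟨0, 1, isCoprime_zero_left.2 isUnit_one, by simp, by simp [hrs]⟩
  · have hs0 : s ≠ 0 := by
      rintro rfl
      exact hs (by simp)
    obtain ⟨g, hg⟩ : ∃ g : Polynomial Ω, g = EuclideanDomain.gcd r s := ⟨_, rfl⟩
    have hg0 : g ≠ 0 := by
      rw [hg]
      intro h
      exact hs0 (EuclideanDomain.gcd_eq_zero_iff.1 h).2
    obtain ⟨r', hr'⟩ : g ∣ r := hg ▸ EuclideanDomain.gcd_dvd_left r s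
    obtain ⟨s', hs'⟩ : g ∣ s := hg ▸ EuclideanDomain.gcd_dvd_right r s
    refine ⟨r', s', ?_, ?_, ?_⟩
    · have h1 := EuclideanDomain.gcd_eq_gcd_ab r s
      rw [← hg] at h1
      refine ⟨EuclideanDomain.gcdA r s, EuclideanDomain.gcdB r s, ?_⟩
      apply mul_left_cancel₀ hg0
      calc g * (EuclideanDomain.gcdA r s * r' + EuclideanDomain.gcdB r s * s')
          = (g * r') * EuclideanDomain.gcdA r s + (g * s') * EuclideanDomain.gcdB r s := by ring
        _ = r * EuclideanDomain.gcdA r s + s * EuclideanDomain.gcdB r s := by rw [← hr', ← hs']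
        _ = g * 1 := by rw [← h1, mul_one]
    · intro h
      apply hs
      rw [hs', map_mul, h, mul_zero]
    · have hgu : aeval u g ≠ 0 := by
        intro h
        apply hs
        rw [hs', map_mul, h, zero_mul]
      have hs'u : aeval u s' ≠ 0 := by
        intro h
        apply hs
        rw [hs', map_mul, h, mul_zero]
      rw [hrs, hr', hs', map_mul, map_mul]
      field_simp

theorem A12_val_lt {L : Type} [Field L] (W : ValuationSubring L) {x : L} (hx : x ≠ 0) :
    W.valuation x < 1 ↔ x⁻¹ ∉ W := by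
  rw [← W.valuation_le_one_iff x⁻¹, map_inv₀, not_le, one_lt_inv₀]
  exact (Valuation.pos_iff W.valuation).2 hx

theorem A12_const {Ω K : Type} [Field Ω] [Field K] [Algebra Ω K] (V : ValuationSubring K)
    (hV : ∀ c : Ω, algebraMap Ω K c ∈ V) (c : Ω) (hc : c ≠ 0) :
    V.valuation (algebraMap Ω K c) = 1 := by
  refine le_antisymm ((V.valuation_le_one_iff _).2 (hV c)) ?_
  by_contra hcon
  have h0 : algebraMap Ω K c ≠ 0 := (_root_.map_ne_zero (algebraMap Ω K)).2 hc
  have h1 := (A12_val_lt V h0).1 (not_le.1 hcon)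
  apply h1
  rw [← map_inv₀]
  exact hV _

open Polynomial in
theorem A12_mem {Ω K : Type} [Field Ω] [Field K] [Algebra Ω K] (V : ValuationSubring K)
    (hV : ∀ c : Ω, algebraMap Ω K c ∈ V) (u : K) (huV : u ∈ V) (P : Polynomial Ω) : aeval u P ∈ V := by
  rw [aeval_eq_sum_range]
  apply sum_mem
  intro i _
  rw [Algebra.smul_def]
  exact V.mul_mem _ _ (hV _) (pow_mem huV i)

open Polynomial in
theorem A12_zero {Ω K : Type} [Field Ω] [Field K] [Algebra Ω K] (V : ValuationSubring K)
    (hV : ∀ c : Ω, algebraMap Ω K c ∈ V) (u : K) (huV : u ∈ V) (c : Ω)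
    (huc : V.valuation (u - algebraMap Ω K c) < 1) (P : Polynomial Ω) (hP : P.eval c = 0) :
    ∃ Q : Polynomial Ω, P = (X - C c) * Q ∧ V.valuation (aeval u P) < 1 := by
  obtain ⟨Q, hQ⟩ := dvd_iff_isRoot.2 hP
  refine ⟨Q, hQ, ?_⟩
  have h1 : aeval u P = (u - algebraMap Ω K c) * aeval u Q := by
    rw [hQ, map_mul, map_sub, aeval_X, aeval_C]
  rw [h1, map_mul]
  exact mul_lt_one_of_lt_of_le huc ((V.valuation_le_one_iff _).2 (A12_mem V hV u huV Q))

open Polynomial in
theorem A12_one {Ω K : Type} [Field Ω] [Field K] [Algebra Ω K] (V : ValuationSubring K)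
    (hV : ∀ c : Ω, algebraMap Ω K c ∈ V) (u : K) (huV : u ∈ V) (c : Ω)
    (huc : V.valuation (u - algebraMap Ω K c) < 1) (P : Polynomial Ω) (hP : P.eval c ≠ 0) :
    V.valuation (aeval u P) = 1 := by
  have h1 : (P - C (P.eval c)).eval c = 0 := by simp
  obtain ⟨-, -, h2⟩ := A12_zero V hV u huV c huc _ h1
  have h3 : aeval u P = algebraMap Ω K (P.eval c) + aeval u (P - C (P.eval c)) := by
    rw [map_sub, aeval_C]
    ring
  have h4 := A12_const V hV _ hP
  rw [h3, Valuation.map_add_eq_of_lt_left _ (by rw [h4]; exact h2), h4]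

open Polynomial in
/-- the derivative of the coordinate is a unit -/
theorem A12_unit {Ω K : Type} [Field Ω] [CharZero Ω] [IsAlgClosed Ω] [Field K]
    [Algebra Ω K] {δ : Derivation Ω K K} (hδ : RegDer Ω K δ) (u : K) (hu : Transcendental Ω u)
    (hK : IntermediateField.adjoin Ω {u} = ⊤) (V : ValuationSubring K)
    (hV : ∀ c : Ω, algebraMap Ω K c ∈ V) (c : Ω)
    (huc : V.valuation (u - algebraMap Ω K c) < 1) : V.valuation (δ u) = 1 := by
  have hne : u - algebraMap Ω K c ≠ 0 := by
    intro h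
    rw [sub_eq_zero] at h
    exact hu (h ▸ isAlgebraic_algebraMap c)
  have huV : u ∈ V := by
    have h1 : u - algebraMap Ω K c ∈ V := (V.valuation_le_one_iff _).1 huc.le
    have h2 := V.add_mem _ _ h1 (hV c)
    rwa [sub_add_cancel] at h2
  have hVt : V ≠ ⊤ := by
    intro h
    exact (A12_val_lt V hne).1 huc (h ▸ ValuationSubring.mem_top _)
  obtain ⟨hreg, t, ht, hδt⟩ := hδ V hV hVt
  refine le_antisymm ((V.valuation_le_one_iff _).2 (hreg u huV)) ?_
  by_contra hcon
  have hg : V.valuation (δ u) < 1 := not_le.1 hcon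
  -- `t = w (u - c)` with `w ∈ V`
  have htv : V.valuation t < 1 := (A12_val_lt V ht.2.1).2 ht.2.2.1
  obtain ⟨P, Q, hPQ, hQ0, hz⟩ := A12_frac u hK t
  have hQc : Q.eval c ≠ 0 := by
    intro h
    have hPc : P.eval c ≠ 0 := by
      intro h'
      obtain ⟨a, b, hab⟩ := hPQ
      have := congrArg (eval c) hab
      simp [h, h'] at this
    obtain ⟨-, -, h1⟩ := A12_zero V hV u huV c huc Q h
    have h2 := A12_one V hV u huV c huc P hPc
    rw [← hz, map_mul] at h2
    have h3 : V.valuation t * V.valuation (aeval u Q) < 1 :=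
      mul_lt_one_of_lt_of_le htv h1.le
    rw [h2] at h3
    exact lt_irrefl _ h3
  have hQ1 := A12_one V hV u huV c huc Q hQc
  have hPc : P.eval c = 0 := by
    by_contra h
    have h1 := A12_one V hV u huV c huc P h
    rw [← hz, map_mul, hQ1, mul_one] at h1
    rw [h1] at htv
    exact lt_irrefl _ htv
  obtain ⟨P1, hP1, -⟩ := A12_zero V hV u huV c huc P hPc
  obtain ⟨w, hw⟩ : ∃ w : K, w = aeval u P1 * (aeval u Q)⁻¹ := ⟨_, rfl⟩
  have hwV : w ∈ V := by
    rw [hw]
    apply V.mul_mem _ _ (A12_mem V hV u huV P1)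
    rw [← V.valuation_le_one_iff, map_inv₀, hQ1, inv_one]
  have htw : t = w * (u - algebraMap Ω K c) := by
    have h1 : aeval u P = (u - algebraMap Ω K c) * aeval u P1 := by
      rw [hP1, map_mul, map_sub, aeval_X, aeval_C]
    rw [h1] at hz
    rw [hw]
    field_simp
    rw [hz]
    ring
  have h1 : δ t = w * δ u + (u - algebraMap Ω K c) * δ w := by
    rw [htw, Derivation.leibniz, map_sub, Derivation.map_algebraMap, sub_zero, smul_eq_mul,
      smul_eq_mul]
  have h2 : V.valuation (δ t) < 1 := by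
    rw [h1]
    apply Valuation.map_add_lt
    · rw [map_mul, mul_comm]
      exact mul_lt_one_of_lt_of_le hg ((V.valuation_le_one_iff _).2 hwV)
    · rw [map_mul]
      exact mul_lt_one_of_lt_of_le huc ((V.valuation_le_one_iff _).2 (hreg w hwV))
  rw [hδt] at h2
  exact lt_irrefl _ h2

open Polynomial in
/-- A field with a regular vector field without zeros is not rational. -/
theorem RegDer.not_rational {Ω K : Type} [Field Ω] [CharZero Ω] [IsAlgClosed Ω] [Field K]
    [Algebra Ω K] {δ : Derivation Ω K K} (hδ : RegDer Ω K δ) (u : K) (hu : Transcendental Ω u) :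
    IntermediateField.adjoin Ω {u} ≠ ⊤ := by
  intro hK
  have hu0 : u ≠ 0 := by
    rintro rfl
    exact hu isAlgebraic_zero
  obtain ⟨P, Q, hPQ, hQ0, hz⟩ := A12_frac u hK (δ u)
  -- no roots
  have key : ∀ c : Ω, Q.eval c ≠ 0 ∧ P.eval c ≠ 0 := by
    intro c
    obtain ⟨V, hV, huc⟩ := exists_place_at Ω K u hu c
    have hg := A12_unit hδ u hu hK V hV c huc
    have huV : u ∈ V := by
      have h1 : u - algebraMap Ω K c ∈ V := (V.valuation_le_one_iff _).1 huc.le
      have h2 := V.add_mem _ _ h1 (hV c)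
      rwa [sub_add_cancel] at h2
    have hval : V.valuation (aeval u Q) = V.valuation (aeval u P) := by
      rw [← hz, map_mul, hg, one_mul]
    have hnot : ¬ (Q.eval c = 0 ∧ P.eval c = 0) := by
      rintro ⟨h, h'⟩
      obtain ⟨a, b, hab⟩ := hPQ
      have := congrArg (eval c) hab
      simp [h, h'] at this
    constructor
    · intro h
      obtain ⟨-, -, h1⟩ := A12_zero V hV u huV c huc Q h
      have h2 := A12_one V hV u huV c huc P (fun h' => hnot ⟨h, h'⟩)
      rw [hval, h2] at h1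
      exact lt_irrefl _ h1
    · intro h
      obtain ⟨-, -, h1⟩ := A12_zero V hV u huV c huc P h
      have h2 := A12_one V hV u huV c huc Q (fun h' => hnot ⟨h', h⟩)
      rw [← hval, h2] at h1
      exact lt_irrefl _ h1
  have hdQ : Q.degree = 0 := by
    by_contra h
    obtain ⟨c, hc⟩ := IsAlgClosed.exists_root Q h
    exact (key c).1 hc
  have hdP : P.degree = 0 := by
    by_contra h
    obtain ⟨c, hc⟩ := IsAlgClosed.exists_root P h
    exact (key c).2 hc
  rw [eq_C_of_degree_eq_zero hdQ, eq_C_of_degree_eq_zero hdP, aeval_C, aeval_C] at hz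
  have hq0 : Q.coeff 0 ≠ 0 := by
    intro h
    have := (key 0).1
    rw [eq_C_of_degree_eq_zero hdQ, h] at this
    simp at this
  -- the place at infinity
  have hui : Transcendental Ω u⁻¹ := by
    intro h
    apply hu
    rw [← inv_inv u]
    exact h.inv
  have hKi : IntermediateField.adjoin Ω {u⁻¹} = ⊤ := by
    rw [eq_top_iff, ← hK, IntermediateField.adjoin_le_iff]
    intro z hz
    rw [Set.mem_singleton_iff] at hz
    have h1 : u⁻¹ ∈ IntermediateField.adjoin Ω {u⁻¹} :=
      IntermediateField.subset_adjoin _ _ rfl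
    have h2 := inv_mem h1
    rw [inv_inv] at h2
    rw [hz]
    exact h2
  obtain ⟨V, hV, huc⟩ := exists_place_at Ω K u⁻¹ hui 0
  have hg := A12_unit hδ u⁻¹ hui hKi V hV 0 huc
  rw [map_zero, sub_zero] at huc
  have hgu : δ u ∈ V := by
    have h1 : δ u = algebraMap Ω K (P.coeff 0 * (Q.coeff 0)⁻¹) := by
      have h2 : algebraMap Ω K (Q.coeff 0) ≠ 0 := (_root_.map_ne_zero (algebraMap Ω K)).2 hq0
      rw [map_mul, map_inv₀, ← hz]
      field_simp
    rw [h1]
    exact hV _
  have h3 : V.valuation (δ u⁻¹) < 1 := by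
    rw [Derivation.leibniz_inv, smul_eq_mul, map_mul, Valuation.map_neg, map_pow]
    exact mul_lt_one_of_lt_of_le (pow_lt_one₀ zero_le' huc (by norm_num))
      ((V.valuation_le_one_iff _).2 hgu)
  rw [hg] at h3
  exact lt_irrefl _ h3

end Pool.Agent.LibHP
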