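import Pool.Agent.LibHP4.Defs

set_option autoImplicit false

namespace Pool.Agent.LibHP

open Polynomial in
theorem A13a_contra {Ω K : Type} [Field Ω] [Field K] [Algebra Ω K]
    (hK : ∀ u : K, Transcendental Ω u → IntermediateField.adjoin Ω {u} ≠ ⊤) (x w : K)
    (hx : Transcendental Ω x) (hgen : IntermediateField.adjoin Ω {x, w} = ⊤) (u : K)
    (h1 : x ∈ IntermediateField.adjoin Ω {u}) (h2 : w ∈ IntermediateField.adjoin Ω {u}) :
    False := by
  have htop : IntermediateField.adjoin Ω {u} = ⊤ := by
    rw [← top_le_iff, ← hgen, IntermediateField.adjoin_le_iff]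
    intro y hy
    rcases hy with rfl | hy
    · exact h1
    · rw [Set.mem_singleton_iff] at hy
      rw [hy]
      exact h2
  refine hK u ?_ htop
  intro hu
  have h3 : Algebra.IsAlgebraic Ω (IntermediateField.adjoin Ω {u}) :=
    IntermediateField.isAlgebraic_adjoin_simple hu.isIntegral
  have h4 : IsAlgebraic Ω (⟨x, h1⟩ : IntermediateField.adjoin Ω {u}) :=
    Algebra.IsAlgebraic.isAlgebraic _
  have h5 : IsAlgebraic Ω (algebraMap (IntermediateField.adjoin Ω {u}) K ⟨x, h1⟩) :=
    h4.algebraMap
  exact hx h5

open Polynomial in
theorem A13a_main {Ω K : Type} [Field Ω] [CharZero Ω] [IsAlgClosed Ω] [Field K] [Algebra Ω K]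
    (hK : ∀ u : K, Transcendental Ω u → IntermediateField.adjoin Ω {u} ≠ ⊤) (x : K)
    (hx : Transcendental Ω x) (n : ℕ) : ∀ (w : K) (q : Polynomial Ω), q ≠ 0 → q.natDegree = n →
    IntermediateField.adjoin Ω {x, w} = ⊤ → w ^ 2 = Polynomial.aeval x q →
    ∃ S : Finset Ω, 3 ≤ S.card ∧ ∀ r ∈ S, q.eval r = 0 := by
  classical
  induction n using Nat.strong_induction_on with
  | _ n ih =>
    intro w q hq0 hn hgen hq
    have hxm : x ∈ IntermediateField.adjoin Ω {x} := IntermediateField.mem_adjoin_simple_self Ω x
    by_cases hdbl : ∃ r : Ω, (X - C r) ^ 2 ∣ q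
    · obtain ⟨r, q', hq'⟩ := hdbl
      have hq'0 : q' ≠ 0 := by
        rintro rfl
        exact hq0 (by rw [hq', mul_zero])
      have hdeg : q.natDegree = 2 + q'.natDegree := by
        rw [hq', natDegree_mul (pow_ne_zero 2 (X_sub_C_ne_zero r)) hq'0, natDegree_pow,
          natDegree_X_sub_C]
      have hxr : x - algebraMap Ω K r ≠ 0 := by
        intro e
        apply hx
        refine ⟨X - C r, X_sub_C_ne_zero r, ?_⟩
        rw [map_sub, aeval_X, aeval_C, e]
      have hw' : (w / (x - algebraMap Ω K r)) ^ 2 = aeval x q' := by
        rw [div_pow, hq, hq', map_mul, map_pow, map_sub, aeval_X, aeval_C,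
          mul_div_cancel_left₀ _ (pow_ne_zero 2 hxr)]
      have hgen' : IntermediateField.adjoin Ω {x, w / (x - algebraMap Ω K r)} = ⊤ := by
        rw [← top_le_iff, ← hgen, IntermediateField.adjoin_le_iff]
        have hx1 : x ∈ IntermediateField.adjoin Ω {x, w / (x - algebraMap Ω K r)} :=
          IntermediateField.subset_adjoin _ _ (Set.mem_insert _ _)
        intro y hy
        rcases hy with rfl | hy
        · exact hx1
        · rw [Set.mem_singleton_iff] at hy
          rw [hy]
          have h1 : w = (w / (x - algebraMap Ω K r)) * (x - algebraMap Ω K r) := by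
            rw [div_mul_cancel₀ _ hxr]
          have h2 : w / (x - algebraMap Ω K r) ∈
              IntermediateField.adjoin Ω {x, w / (x - algebraMap Ω K r)} :=
            IntermediateField.subset_adjoin _ _ (Set.mem_insert_of_mem _ rfl)
          have h3 := mul_mem h2 (sub_mem hx1 ((IntermediateField.adjoin Ω
            {x, w / (x - algebraMap Ω K r)}).algebraMap_mem r))
          rw [← h1] at h3
          exact h3
      obtain ⟨S, hS, hS'⟩ := ih q'.natDegree (by omega) (w / (x - algebraMap Ω K r)) q' hq'0 rfl
        hgen' hw'
      refine ⟨S, hS, fun s hs => ?_⟩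
      rw [hq', eval_mul, hS' s hs, mul_zero]
    · -- no double root
      have hnodup : q.roots.Nodup := by
        rw [Multiset.nodup_iff_count_le_one]
        intro r
        rw [count_roots]
        by_contra hcon
        apply hdbl
        exact ⟨r, (le_rootMultiplicity_iff hq0).1 (by omega)⟩
      have hsplit : q.Splits := IsAlgClosed.splits q
      have hcard : q.roots.card = q.natDegree := hsplit.natDegree_eq_card_roots.symm
      have hprod : q = C q.leadingCoeff * (q.roots.map (fun a => X - C a)).prod :=
        hsplit.eq_prod_roots
      have hlc : q.leadingCoeff ≠ 0 := leadingCoeff_ne_zero.2 hq0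
      have hlc' : algebraMap Ω K q.leadingCoeff ≠ 0 := by
        intro e
        exact hlc ((algebraMap Ω K).injective (by rw [e, map_zero]))
      by_cases h3 : 3 ≤ q.natDegree
      · refine ⟨q.roots.toFinset, ?_, fun r hr => ?_⟩
        · rw [Multiset.toFinset_card_of_nodup hnodup, hcard]
          exact h3
        · rw [Multiset.mem_toFinset] at hr
          exact (mem_roots hq0).1 hr
      · exfalso
        have hlt : q.roots.card = 0 ∨ q.roots.card = 1 ∨ q.roots.card = 2 := by omega
        rcases hlt with h0 | h1 | h2
        · -- constant
          rw [Multiset.card_eq_zero] at h0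
          rw [h0, Multiset.map_zero, Multiset.prod_zero, mul_one] at hprod
          obtain ⟨b, hb⟩ := IsAlgClosed.exists_pow_nat_eq q.leadingCoeff (n := 2) (by norm_num)
          have hw : w ^ 2 = (algebraMap Ω K b) ^ 2 := by
            rw [hq, hprod, aeval_C, ← map_pow, hb]
          have hwm : w ∈ IntermediateField.adjoin Ω {x} := by
            rcases sq_eq_sq_iff_eq_or_eq_neg.1 hw with h | h
            · rw [h]
              exact (IntermediateField.adjoin Ω {x}).algebraMap_mem b
            · rw [h]
              exact neg_mem ((IntermediateField.adjoin Ω {x}).algebraMap_mem b)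
          exact A13a_contra hK x w hx hgen x hxm hwm
        · -- one root
          obtain ⟨r, hr⟩ := Multiset.card_eq_one.1 h1
          rw [hr, Multiset.map_singleton, Multiset.prod_singleton] at hprod
          have hw : w ^ 2 = algebraMap Ω K q.leadingCoeff * (x - algebraMap Ω K r) := by
            rw [hq]
            conv_lhs => rw [hprod]
            rw [map_mul, aeval_C, map_sub, aeval_X, aeval_C]
          have hwm : w ∈ IntermediateField.adjoin Ω {w} :=
            IntermediateField.mem_adjoin_simple_self Ω w
          have hxe : x = w ^ 2 / algebraMap Ω K q.leadingCoeff + algebraMap Ω K r := by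
            rw [hw, mul_div_cancel_left₀ _ hlc', sub_add_cancel]
          have hxw : x ∈ IntermediateField.adjoin Ω {w} := by
            rw [hxe]
            exact add_mem (div_mem (pow_mem hwm 2)
              ((IntermediateField.adjoin Ω {w}).algebraMap_mem _))
              ((IntermediateField.adjoin Ω {w}).algebraMap_mem _)
          exact A13a_contra hK x w hx hgen w hxw hwm
        · -- two roots
          obtain ⟨r, r', hr⟩ := Multiset.card_eq_two.1 h2
          have hne : r ≠ r' := by
            rintro rfl
            rw [hr] at hnodup
            simp at hnodup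
          rw [hr, Multiset.insert_eq_cons, Multiset.map_cons, Multiset.prod_cons,
            Multiset.map_singleton, Multiset.prod_singleton] at hprod
          have hw : w ^ 2 = algebraMap Ω K q.leadingCoeff * ((x - algebraMap Ω K r) *
              (x - algebraMap Ω K r')) := by
            rw [hq]
            conv_lhs => rw [hprod]
            rw [map_mul, aeval_C, map_mul, map_sub, map_sub, aeval_X, aeval_C, aeval_C]
          have hxr : x - algebraMap Ω K r ≠ 0 := by
            intro e
            apply hx
            refine ⟨X - C r, X_sub_C_ne_zero r, ?_⟩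
            rw [map_sub, aeval_X, aeval_C, e]
          set u : K := w / (x - algebraMap Ω K r) with hu
          have hwu : w = u * (x - algebraMap Ω K r) := by
            rw [hu, div_mul_cancel₀ _ hxr]
          have hu2 : u ^ 2 * (x - algebraMap Ω K r) =
              algebraMap Ω K q.leadingCoeff * (x - algebraMap Ω K r') := by
            have h4 : (u ^ 2 * (x - algebraMap Ω K r)) * (x - algebraMap Ω K r) =
                (algebraMap Ω K q.leadingCoeff * (x - algebraMap Ω K r')) *
                  (x - algebraMap Ω K r) := by
              have h5 : (u ^ 2 * (x - algebraMap Ω K r)) * (x - algebraMap Ω K r) =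
                  (u * (x - algebraMap Ω K r)) ^ 2 := by ring
              rw [h5, ← hwu, hw]
              ring
            exact mul_right_cancel₀ hxr h4
          have hne2 : u ^ 2 - algebraMap Ω K q.leadingCoeff ≠ 0 := by
            intro e
            have h6 : u ^ 2 = algebraMap Ω K q.leadingCoeff := sub_eq_zero.1 e
            rw [h6] at hu2
            have h7 := mul_left_cancel₀ hlc' hu2
            have h8 : algebraMap Ω K r = algebraMap Ω K r' := by
              have := sub_right_injective h7
              exact this
            exact hne ((algebraMap Ω K).injective h8)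
          have hum : u ∈ IntermediateField.adjoin Ω {u} :=
            IntermediateField.mem_adjoin_simple_self Ω u
          have hA : ∀ a : Ω, algebraMap Ω K a ∈ IntermediateField.adjoin Ω {u} :=
            fun a => (IntermediateField.adjoin Ω {u}).algebraMap_mem a
          have hxe : x = (u ^ 2 * algebraMap Ω K r - algebraMap Ω K q.leadingCoeff *
              algebraMap Ω K r') / (u ^ 2 - algebraMap Ω K q.leadingCoeff) := by
            rw [eq_div_iff hne2]
            linear_combination hu2
          have hxw : x ∈ IntermediateField.adjoin Ω {u} := by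
            rw [hxe]
            exact div_mem (sub_mem (mul_mem (pow_mem hum 2) (hA r)) (mul_mem (hA _) (hA r')))
              (sub_mem (pow_mem hum 2) (hA _))
          have hwm : w ∈ IntermediateField.adjoin Ω {u} := by
            rw [hwu]
            exact mul_mem hum (sub_mem hxw (hA r))
          exact A13a_contra hK x w hx hgen u hxw hwm

/-- If `K = Ω(x, w)` with `w ^ 2 = q(x)` is not a rational function field then `q` has at least
three roots. -/
theorem three_roots {Ω K : Type} [Field Ω] [CharZero Ω] [IsAlgClosed Ω] [Field K] [Algebra Ω K]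
    (hK : ∀ u : K, Transcendental Ω u → IntermediateField.adjoin Ω {u} ≠ ⊤) (x w : K)
    (hx : Transcendental Ω x) (hgen : IntermediateField.adjoin Ω {x, w} = ⊤) (q : Polynomial Ω)
    (hq : w ^ 2 = Polynomial.aeval x q) : ∃ S : Finset Ω, 3 ≤ S.card ∧ ∀ r ∈ S, q.eval r = 0 := by
  by_cases hq0 : q = 0
  · exfalso
    rw [hq0, map_zero] at hq
    have hw : w = 0 := by
      exact pow_eq_zero_iff (two_ne_zero) |>.1 hq
    refine A13a_contra hK x w hx hgen x (IntermediateField.mem_adjoin_simple_self Ω x) ?_
    rw [hw]
    exact zero_mem _
  · exact A13a_main hK x hx q.natDegree w q hq0 rfl hgen hq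

end Pool.Agent.LibHP
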