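import Pool.Agent.LibHP4.A6
import Pool.Agent.LibHP3.R5

set_option autoImplicit false

namespace Pool.Agent.LibHP

theorem A13b_mul_lt {K : Type} [Field K] (V : ValuationSubring K) {a b : K}
    (ha : V.valuation a ≤ 1) (hb : V.valuation b < 1) : V.valuation (a * b) < 1 := by
  rw [map_mul]
  exact lt_of_le_of_lt (mul_le_of_le_one_left' ha) hb

theorem A13b_unit_add {K : Type} [Field K] (V : ValuationSubring K) {a b : K}
    (ha : V.valuation a = 1) (hb : V.valuation b < 1) : V.valuation (a + b) = 1 := by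
  rw [← ha]
  exact V.valuation.map_add_eq_of_lt_left (by rw [ha]; exact hb)

theorem A13b_const {Ω K : Type} [Field Ω] [Field K] [Algebra Ω K] (V : ValuationSubring K)
    (hB : ∀ b : Ω, algebraMap Ω K b ∈ V) (a : Ω) (ha : a ≠ 0) :
    V.valuation (algebraMap Ω K a) = 1 := by
  refine le_antisymm ((V.valuation_le_one_iff _).2 (hB a)) ?_
  have h1 : V.valuation (algebraMap Ω K a⁻¹) ≤ 1 := (V.valuation_le_one_iff _).2 (hB a⁻¹)
  have h2 : V.valuation (algebraMap Ω K a) * V.valuation (algebraMap Ω K a⁻¹) = 1 := by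
    rw [← map_mul, ← map_mul, mul_inv_cancel₀ ha, map_one, map_one]
  calc (1 : _) = V.valuation (algebraMap Ω K a) * V.valuation (algebraMap Ω K a⁻¹) := h2.symm
    _ ≤ V.valuation (algebraMap Ω K a) * 1 := by
        exact mul_le_mul_right h1 _
    _ = V.valuation (algebraMap Ω K a) := mul_one _

/-- The tangent at a ramification point of the projection from the point `(0 : 0 : 1)` of the
cubic passes through this point. -/
theorem PMove.place_at_root {Ω K : Type} [Field Ω] [CharZero Ω] [IsAlgClosed Ω] [Field K]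
    [Algebra Ω K] {c : Fin 10 → Ω} {x y : K} {D : K →ₐ[Ω] K} (h : PMove Ω K c x y D)
    (h9 : c 9 = 0) (r : Ω)
    (hr : (c 2 + c 4 * r + c 7 * r ^ 2) ^ 2 -
      4 * (c 5 + c 8 * r) * (c 0 + c 1 * r + c 3 * r ^ 2 + c 6 * r ^ 3) = 0)
    (hα : c 5 + c 8 * r ≠ 0) :
    ∃ V : ValuationSubring K, (∀ b : Ω, algebraMap Ω K b ∈ V) ∧ V ≠ ⊤ ∧
      V.valuation (x - algebraMap Ω K r) < 1 ∧ D y ∉ V ∧ V.valuation (D x / D y) < 1 := by
  have hxt : Transcendental Ω x := h.toPCurve.toPPoint.trx
  obtain ⟨V, hB, hxr⟩ := exists_place_at Ω K x hxt r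
  have heq := h.toPCurve.toPPoint.eq
  have hq3 := h.q3
  have hd1 := h.d1
  have hd2 := h.d2
  have hx : x ∈ V := by
    have h1 : x - algebraMap Ω K r ∈ V := (V.valuation_le_one_iff _).1 hxr.le
    have h2 := V.add_mem _ _ h1 (hB r)
    rwa [sub_add_cancel] at h2
  have h9' : algebraMap Ω K (c 9) = 0 := by rw [h9, map_zero]
  -- names
  set a : Fin 10 → K := fun i => algebraMap Ω K (c i) with ha
  have haV : ∀ i, a i ∈ V := fun i => hB (c i)
  have ha9 : a 9 = 0 := h9'
  set α : K := a 5 + a 8 * x with hαd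
  set β : K := a 2 + a 4 * x + a 7 * x ^ 2 with hβd
  set γ : K := a 0 + a 1 * x + a 3 * x ^ 2 + a 6 * x ^ 3 with hγd
  set X : K := cuX a x y with hX
  set Y : K := cuY a x y with hY
  have hYe : Y = β + 2 * α * y := by
    rw [hY, hβd, hαd]
    simp only [cuY]
    rw [ha9]
    ring
  have hY2 : Y ^ 2 = β ^ 2 - 4 * α * γ := by
    have h1 : α * y ^ 2 + β * y + γ = 0 := by
      rw [← heq, hαd, hβd, hγd]
      simp only [cuF]
      rw [ha9]
      ring
    rw [hYe]
    linear_combination 4 * α * h1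
  have hVpow : ∀ {z : K} (n : ℕ), z ∈ V → z ^ n ∈ V := fun n hz => pow_mem hz n
  have h2V : (2 : K) ∈ V := by
    have : (2 : K) = 1 + 1 := by norm_num
    rw [this]
    exact V.add_mem _ _ V.one_mem V.one_mem
  -- alpha is a unit
  have hαu : V.valuation α = 1 := by
    have e : α = algebraMap Ω K (c 5 + c 8 * r) + a 8 * (x - algebraMap Ω K r) := by
      rw [hαd, map_add, map_mul]
      simp only [ha]
      ring
    rw [e]
    exact A13b_unit_add V (A13b_const V hB _ hα)
      (A13b_mul_lt V ((V.valuation_le_one_iff _).2 (haV 8)) hxr)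
  -- the discriminant
  have hYlt : V.valuation Y < 1 := by
    have hdisc : V.valuation (Y ^ 2) < 1 := by
      rw [hY2]
      let q : Polynomial Ω := (Polynomial.C (c 2) + Polynomial.C (c 4) * Polynomial.X +
        Polynomial.C (c 7) * Polynomial.X ^ 2) ^ 2 - 4 * (Polynomial.C (c 5) +
        Polynomial.C (c 8) * Polynomial.X) * (Polynomial.C (c 0) +
        Polynomial.C (c 1) * Polynomial.X + Polynomial.C (c 3) * Polynomial.X ^ 2 +
        Polynomial.C (c 6) * Polynomial.X ^ 3)
      have hq0 : q.IsRoot r := by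
        show q.eval r = 0
        simp only [q, Polynomial.eval_sub, Polynomial.eval_pow, Polynomial.eval_add,
          Polynomial.eval_mul, Polynomial.eval_C, Polynomial.eval_X, Polynomial.eval_ofNat]
        exact hr
      obtain ⟨g, hg⟩ := Polynomial.dvd_iff_isRoot.2 hq0
      have hqx : Polynomial.aeval x q = β ^ 2 - 4 * α * γ := by
        simp only [q, map_sub, map_pow, map_add, map_mul, Polynomial.aeval_C,
          Polynomial.aeval_X, map_ofNat]
        rfl
      have hgx : Polynomial.aeval x g ∈ V := by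
        have h1 : Algebra.adjoin Ω {x} ≤ (⟨V.toSubring.toSubsemiring, hB⟩ : Subalgebra Ω K) := by
          rw [Algebra.adjoin_le_iff]
          intro z hz
          rw [Set.mem_singleton_iff] at hz
          rw [hz]
          exact hx
        exact h1 (Polynomial.aeval_mem_adjoin_singleton Ω x)
      rw [← hqx, hg, map_mul, map_sub, Polynomial.aeval_X, Polynomial.aeval_C, mul_comm]
      exact A13b_mul_lt V ((V.valuation_le_one_iff _).2 hgx) hxr
    rw [map_pow] at hdisc
    by_contra hcon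
    rw [not_lt] at hcon
    exact absurd hdisc (not_lt.2 (one_le_pow_of_one_le' hcon 2))
  have hYV : Y ∈ V := (V.valuation_le_one_iff _).1 hYlt.le
  have hβV : β ∈ V :=
    V.add_mem _ _ (V.add_mem _ _ (haV 2) (V.mul_mem _ _ (haV 4) hx))
      (V.mul_mem _ _ (haV 7) (hVpow 2 hx))
  have hα0 : α ≠ 0 := by
    intro e
    rw [e, map_zero] at hαu
    exact zero_ne_one hαu
  have h2u : V.valuation (2 : K) = 1 := by
    have := A13b_const V hB (2 : Ω) two_ne_zero
    rwa [map_ofNat] at this
  have hchar : (2 : K) ≠ 0 := by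
    intro e
    rw [e, map_zero] at h2u
    exact zero_ne_one h2u
  have hyV : y ∈ V := by
    have e : y = (Y - β) * (2 * α)⁻¹ := by
      rw [eq_mul_inv_iff_mul_eq₀ (mul_ne_zero hchar hα0), hYe]
      ring
    rw [e]
    refine V.mul_mem _ _ (V.sub_mem hYV hβV) ?_
    rw [← V.valuation_le_one_iff, map_inv₀, map_mul, h2u, hαu, mul_one, inv_one]
  have hXu : V.valuation X = 1 := by
    rcases h.toPCurve.unit_at V hB hx hyV with h1 | h1
    · exact h1
    · exact absurd h1 (ne_of_lt hYlt)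
  have hXV : X ∈ V := (V.valuation_le_one_iff _).1 hXu.le
  -- Q3
  have hQ3lt : V.valuation (cuQ3 a x y) < 1 := by
    have e : cuQ3 a x y = (-(a 6 * Y ^ 2) + a 7 * Y * X - a 8 * X ^ 2) * Y := by
      simp only [cuQ3]
      rw [ha9, ← hX, ← hY]
      ring
    rw [e]
    refine A13b_mul_lt V ((V.valuation_le_one_iff _).2 ?_) hYlt
    exact V.sub_mem (V.add_mem _ _ (V.neg_mem _ (V.mul_mem _ _ (haV 6) (hVpow 2 hYV)))
      (V.mul_mem _ _ (V.mul_mem _ _ (haV 7) hYV) hXV)) (V.mul_mem _ _ (haV 8) (hVpow 2 hXV))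
  -- Q2
  have hQ2u : V.valuation (cuQ2 a x y) = 1 := by
    have e : cuQ2 a x y = α * X ^ 2 + (cuXX a x y * Y - cuXY a x y * X) * Y := by
      have hYY : cuYY a x y = α := by
        simp only [cuYY]
        rw [ha9, hαd]
        ring
      simp only [cuQ2]
      rw [hYY, ← hX, ← hY]
      ring
    rw [e]
    refine A13b_unit_add V ?_ (A13b_mul_lt V ((V.valuation_le_one_iff _).2 ?_) hYlt)
    · rw [map_mul, map_pow, hαu, hXu, one_pow, mul_one]
    · have h3V : (3 : K) ∈ V := by
        have : (3 : K) = 2 + 1 := by norm_num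
        rw [this]
        exact V.add_mem _ _ h2V V.one_mem
      refine V.sub_mem (V.mul_mem _ _ ?_ hYV) (V.mul_mem _ _ ?_ hXV)
      · exact V.add_mem _ _ (V.add_mem _ _ (haV 3) (V.mul_mem _ _ (V.mul_mem _ _ h3V (haV 6)) hx))
          (V.mul_mem _ _ (haV 7) hyV)
      · exact V.add_mem _ _ (V.add_mem _ _ (haV 4) (V.mul_mem _ _ (V.mul_mem _ _ h2V (haV 7)) hx))
          (V.mul_mem _ _ (V.mul_mem _ _ h2V (haV 8)) hyV)
  set Q2 : K := cuQ2 a x y with hQ2
  set Q3 : K := cuQ3 a x y with hQ3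
  -- D y
  have hDy : D y * Q3 = y * Q3 - Q2 * X := by
    linear_combination hd2
  have hDx : D x * Q3 = x * Q3 + Q2 * Y := by
    linear_combination hd1
  have hnum : V.valuation (x * Q3 + Q2 * Y) < 1 := by
    refine V.valuation.map_add_lt ?_ ?_
    · exact A13b_mul_lt V ((V.valuation_le_one_iff _).2 hx) hQ3lt
    · exact A13b_mul_lt V hQ2u.le hYlt
  have hden : V.valuation (y * Q3 - Q2 * X) = 1 := by
    have e : y * Q3 - Q2 * X = -(Q2 * X) + y * Q3 := by ring
    rw [e]
    refine A13b_unit_add V ?_ (A13b_mul_lt V ((V.valuation_le_one_iff _).2 hyV) hQ3lt)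
    rw [Valuation.map_neg, map_mul, hQ2u, hXu, mul_one]
  have hDyn : D y ∉ V := by
    intro hcon
    have h1 := A13b_mul_lt V ((V.valuation_le_one_iff _).2 hcon) hQ3lt
    rw [hDy, hden] at h1
    exact lt_irrefl _ h1
  refine ⟨V, hB, ?_, hxr, hDyn, ?_⟩
  · intro e
    apply hDyn
    rw [e]
    exact ValuationSubring.mem_top _
  · have e : D x / D y = (x * Q3 + Q2 * Y) / (y * Q3 - Q2 * X) := by
      rw [← hDx, ← hDy, mul_div_mul_right _ _ hq3]
    rw [e, map_div₀, hden, div_one]
    exact hnum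

end Pool.Agent.LibHP
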