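import Pool.Agent.LibHP4.A3

set_option autoImplicit false

namespace Pool.Agent.LibHP

section A13c
variable {R : Type} [CommRing R]

private theorem A13c_F (c : Fin 10 → R) (μ x y : R) :
    cuF (cuShear c μ) (y - μ * x) x = cuF c x y := by
  simp only [cuF, cuShear, Matrix.cons_val]
  ring

private theorem A13c_X (c : Fin 10 → R) (μ x y : R) :
    cuX (cuShear c μ) (y - μ * x) x = cuY c x y := by
  simp only [cuX, cuY, cuShear, Matrix.cons_val]
  ring

private theorem A13c_Y (c : Fin 10 → R) (μ x y : R) :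
    cuY (cuShear c μ) (y - μ * x) x = cuX c x y + μ * cuY c x y := by
  simp only [cuX, cuY, cuShear, Matrix.cons_val]
  ring

private theorem A13c_Q2 (c : Fin 10 → R) (μ x y : R) :
    cuQ2 (cuShear c μ) (y - μ * x) x = cuQ2 c x y := by
  have h1 : cuXX (cuShear c μ) (y - μ * x) x = cuYY c x y := by
    simp only [cuXX, cuYY, cuShear, Matrix.cons_val]
    ring
  have h2 : cuXY (cuShear c μ) (y - μ * x) x = cuXY c x y + 2 * μ * cuYY c x y := by
    simp only [cuXY, cuYY, cuShear, Matrix.cons_val]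
    ring
  have h3 : cuYY (cuShear c μ) (y - μ * x) x =
      cuXX c x y + μ * cuXY c x y + μ ^ 2 * cuYY c x y := by
    simp only [cuXX, cuXY, cuYY, cuShear, Matrix.cons_val]
    ring
  simp only [cuQ2, A13c_X, A13c_Y, h1, h2, h3]
  ring

private theorem A13c_Q3 (c : Fin 10 → R) (μ x y : R) :
    cuQ3 (cuShear c μ) (y - μ * x) x = -cuQ3 c x y := by
  simp only [cuQ3, A13c_X, A13c_Y]
  simp only [cuShear, Matrix.cons_val]
  ring

private theorem A13c_map {S : Type} [CommRing S] (f : R →+* S) (c : Fin 10 → R) (μ : R) :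
    (fun i => f (cuShear c μ i)) = cuShear (fun i => f (c i)) (f μ) := by
  funext i
  fin_cases i <;> simp [cuShear, map_ofNat]

private theorem A13c_G (c : Fin 10 → R) (μ : R) (e : Fin 3 → R) :
    cuG (cuShear c μ) e 0 = cuG c ![e 0, e 2, e 1 + μ * e 2] 0 ∧
    cuG (cuShear c μ) e 1 = cuG c ![e 0, e 2, e 1 + μ * e 2] 2 ∧
    cuG (cuShear c μ) e 2 = cuG c ![e 0, e 2, e 1 + μ * e 2] 1 +
      μ * cuG c ![e 0, e 2, e 1 + μ * e 2] 2 := by
  refine ⟨?_, ?_, ?_⟩ <;> simp only [cuG, cuShear, Matrix.cons_val] <;> ring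

end A13c

private theorem A13c_smooth {B : Type} [Field B] (c : Fin 10 → B) (μ : B)
    (h : CubicSmooth c) : CubicSmooth (cuShear c μ) := by
  intro e he
  rw [A13c_map (algebraMap B (AlgebraicClosure B)) c μ]
  set c' : Fin 10 → AlgebraicClosure B := fun i => algebraMap B (AlgebraicClosure B) (c i) with hc'
  set m := algebraMap B (AlgebraicClosure B) μ with hm
  obtain ⟨g0, g1, g2⟩ := A13c_G c' m e
  by_contra hcon
  push Not at hcon
  have hne : (![e 0, e 2, e 1 + m * e 2] : Fin 3 → AlgebraicClosure B) ≠ 0 := by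
    intro h0
    apply he
    have a0 : e 0 = 0 := by simpa using congrFun h0 0
    have a1 : e 2 = 0 := by simpa using congrFun h0 1
    have a2 : e 1 + m * e 2 = 0 := by simpa using congrFun h0 2
    rw [a1, mul_zero, add_zero] at a2
    funext i
    fin_cases i
    · exact a0
    · exact a2
    · exact a1
  obtain ⟨i, hi⟩ := h _ hne
  have e0 := hcon 0
  have e1 := hcon 1
  have e2 := hcon 2
  rw [g0] at e0
  rw [g1] at e1
  rw [g2, e1, mul_zero, add_zero] at e2
  apply hi
  fin_cases i
  · exact e0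
  · exact e2
  · exact e1

/-- After a linear change of coordinates the cubic passes through the point `(0 : 0 : 1)`. -/
theorem PMove.exists_shear {Ω K : Type} [Field Ω] [CharZero Ω] [IsAlgClosed Ω] [Field K]
    [Algebra Ω K] {c : Fin 10 → Ω} {x y : K} {D : K →ₐ[Ω] K} (h : PMove Ω K c x y D) :
    ∃ (c' : Fin 10 → Ω) (x' y' : K), PMove Ω K c' x' y' D ∧ c' 9 = 0 := by
  by_cases h9 : c 9 = 0
  · exact ⟨c, x, y, h, h9⟩
  obtain ⟨μ, hμ⟩ : ∃ μ : Ω, c 6 + μ * c 7 + μ ^ 2 * c 8 + μ ^ 3 * c 9 = 0 := by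
    have hdeg : (Polynomial.C (c 9) * Polynomial.X ^ 3 + Polynomial.C (c 8) * Polynomial.X ^ 2 +
        Polynomial.C (c 7) * Polynomial.X + Polynomial.C (c 6)).degree = 3 :=
      Polynomial.degree_cubic h9
    obtain ⟨μ, hμ⟩ := IsAlgClosed.exists_root (Polynomial.C (c 9) * Polynomial.X ^ 3 +
      Polynomial.C (c 8) * Polynomial.X ^ 2 + Polynomial.C (c 7) * Polynomial.X +
      Polynomial.C (c 6)) (by rw [hdeg]; decide)
    refine ⟨μ, ?_⟩
    simp only [Polynomial.IsRoot, Polynomial.eval_add, Polynomial.eval_mul, Polynomial.eval_C,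
      Polynomial.eval_pow, Polynomial.eval_X] at hμ
    linear_combination hμ
  refine ⟨cuShear c μ, y - algebraMap Ω K μ * x, x, ?_, hμ⟩
  have hmap := A13c_map (algebraMap Ω K) c μ
  have hx : D (y - algebraMap Ω K μ * x) = D y - algebraMap Ω K μ * D x := by
    rw [map_sub, map_mul, AlgHom.commutes]
  refine
    { tr := Or.inr h.toPCurve.toPPoint.trx
      eq := ?_
      smooth := A13c_smooth c μ h.smooth
      gen := ?_
      q3 := ?_
      d1 := ?_
      d2 := ?_ }
  · rw [hmap, A13c_F]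
    exact h.eq
  · rw [eq_top_iff, ← h.gen, IntermediateField.adjoin_le_iff]
    have hxm : x ∈ IntermediateField.adjoin Ω {y - algebraMap Ω K μ * x, x} :=
      IntermediateField.subset_adjoin _ _ (by simp)
    have hym : y - algebraMap Ω K μ * x ∈
        IntermediateField.adjoin Ω {y - algebraMap Ω K μ * x, x} :=
      IntermediateField.subset_adjoin _ _ (by simp)
    intro z hz
    rcases hz with rfl | hz
    · exact hxm
    · rw [Set.mem_singleton_iff] at hz
      subst hz
      have := add_mem hym (mul_mem (IntermediateField.algebraMap_mem _ μ) hxm)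
      rwa [sub_add_cancel] at this
  · rw [hmap, A13c_Q3]
    exact neg_ne_zero.mpr h.q3
  · rw [hmap, A13c_Q3, A13c_Q2, A13c_Y, hx]
    have d1 := h.d1
    have d2 := h.d2
    linear_combination algebraMap Ω K μ * d1 - d2
  · rw [hmap, A13c_Q3, A13c_Q2, A13c_X]
    have d1 := h.d1
    linear_combination -d1

end Pool.Agent.LibHP
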