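import Pool.Agent.LibHP4.A3
import Pool.Agent.LibHP.E3
import Pool.Agent.LibHP2.G3

set_option autoImplicit false

namespace Pool.Agent.LibHP

theorem A5_diff {B K : Type} [Field B] [Field K] [Algebra B K]
    (c : Fin 10 → B) (x y : K) (d : Derivation B K K) :
    d (cuF (fun i => algebraMap B K (c i)) x y) =
      cuX (fun i => algebraMap B K (c i)) x y * d x +
        cuY (fun i => algebraMap B K (c i)) x y * d y := by
  simp only [cuF, cuX, cuY, map_add, Derivation.leibniz, Derivation.leibniz_pow, smul_eq_mul,
    Derivation.map_algebraMap, mul_zero, add_zero, zero_add, nsmul_eq_mul]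
  push_cast
  ring

theorem A5_nonsing {B K : Type} [Field B] [CharZero B] [Field K] [Algebra B K]
    {c : Fin 10 → B} {x y : K} (h : PPoint B K c x y)
    (hX : cuX (fun i => algebraMap B K (c i)) x y = 0)
    (hY : cuY (fun i => algebraMap B K (c i)) x y = 0) : False := by
  have hne : (![1, x, y] : Fin 3 → K) ≠ 0 := fun h0 => by
    have := congrFun h0 0
    simp at this
  obtain ⟨i, hi⟩ := cubicSmooth_ext c h.smooth ![1, x, y] hne
  apply hi
  have h1 : cuG (fun i => algebraMap B K (c i)) ![1, x, y] 1 =
      cuX (fun i => algebraMap B K (c i)) x y := by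
    simp [cuG, cuX]
  have h2 : cuG (fun i => algebraMap B K (c i)) ![1, x, y] 2 =
      cuY (fun i => algebraMap B K (c i)) x y := by
    simp [cuG, cuY]
  have h0 : cuG (fun i => algebraMap B K (c i)) ![1, x, y] 0 =
      3 * cuF (fun i => algebraMap B K (c i)) x y -
        x * cuX (fun i => algebraMap B K (c i)) x y -
        y * cuY (fun i => algebraMap B K (c i)) x y := by
    simp only [cuG, cuX, cuY, cuF, Matrix.cons_val_zero, Matrix.cons_val_one, Matrix.cons_val]
    ring
  rw [h.eq, hX, hY] at h0
  rw [hX] at h1
  rw [hY] at h2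
  fin_cases i
  · rw [show ((fun i => i) (⟨0, by decide⟩ : Fin 3)) = 0 from rfl]
    change cuG _ ![1, x, y] 0 = 0
    rw [h0]; ring
  · exact h1
  · exact h2

/-- A derivation over the base killing `x` and `y` is zero. -/
theorem A5_zero {B K : Type} [Field B] [Field K] [Algebra B K] {x y : K}
    (hg : IntermediateField.adjoin B {x, y} = ⊤) (d : Derivation B K K) (hx : d x = 0)
    (hy : d y = 0) (z : K) : d z = 0 := by
  let S : IntermediateField B K :=
    { carrier := {z | d z = 0}
      mul_mem' := by
        intro a b ha hb
        simp only [Set.mem_ofPred_eq] at ha hb ⊢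
        rw [Derivation.leibniz, ha, hb]; simp
      one_mem' := by simp
      add_mem' := by
        intro a b ha hb
        simp only [Set.mem_ofPred_eq] at ha hb ⊢
        rw [map_add, ha, hb, add_zero]
      zero_mem' := by simp
      algebraMap_mem' := by
        intro b
        simp
      inv_mem' := by
        intro a ha
        simp only [Set.mem_ofPred_eq] at ha ⊢
        rw [Derivation.leibniz_inv, ha, smul_zero] }
  have hS : IntermediateField.adjoin B {x, y} ≤ S := by
    rw [IntermediateField.adjoin_le_iff]
    rintro w (rfl | rfl)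
    · exact hx
    · exact hy
  rw [hg] at hS
  exact hS (IntermediateField.mem_top : z ∈ (⊤ : IntermediateField B K))

/-- A derivation over the base with value one at a transcendental element. -/
theorem A5_exists_der {B K : Type} [Field B] [CharZero B] [Field K] [Algebra B K] (z : K)
    (hz : Transcendental B z) : ∃ d : Derivation B K K, d z = 1 := by
  obtain ⟨D, hD, hDz⟩ := G3_derivation_of_transcendental B K z hz
  refine ⟨Derivation.mk'
    { toFun := D
      map_add' := fun a b => map_add D a b
      map_smul' := fun b a => by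
        rw [Algebra.smul_def, Derivation.leibniz, hD, smul_zero, add_zero, smul_eq_mul,
          RingHom.id_apply, Algebra.smul_def] } ?_, hDz⟩
  intro a b
  exact D.leibniz a b

theorem PCurve.exists_flow {B K : Type} [Field B] [CharZero B] [Field K] [Algebra B K]
    {c : Fin 10 → B} {x y : K} (h : PCurve B K c x y) :
    ∃ δ : Derivation B K K, IsFlow B K c x y δ := by
  obtain ⟨d, hd⟩ := A5_exists_der x h.toPPoint.trx
  have h1 := A5_diff c x y d
  rw [h.eq, map_zero, hd, mul_one] at h1
  refine ⟨cuY (fun i => algebraMap B K (c i)) x y • d, ?_, ?_⟩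
  · rw [Derivation.smul_apply, hd, smul_eq_mul, mul_one]
  · rw [Derivation.smul_apply, smul_eq_mul]
    linear_combination -h1

/-- The kernel of the derivation is algebraic over the base. -/
theorem IsFlow.isAlgebraic {B K : Type} [Field B] [CharZero B] [Field K] [Algebra B K]
    {c : Fin 10 → B} {x y : K} (h : PCurve B K c x y) {δ : Derivation B K K}
    (hδ : IsFlow B K c x y δ) (z : K) (hz : δ z = 0) : IsAlgebraic B z := by
  by_contra hcon
  obtain ⟨d, hd⟩ := A5_exists_der z hcon
  obtain ⟨hδx, hδy⟩ := hδ
  have h1 := A5_diff c x y d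
  rw [h.eq, map_zero] at h1
  set X := cuX (fun i => algebraMap B K (c i)) x y with hX
  set Y := cuY (fun i => algebraMap B K (c i)) x y with hY
  obtain ⟨l, hl1, hl2⟩ : ∃ l : K, d x = l * Y ∧ d y = -(l * X) := by
    by_cases hY0 : Y = 0
    · have hX0 : X ≠ 0 := fun hX0 => A5_nonsing h.toPPoint hX0 hY0
      refine ⟨-(d y / X), ?_, ?_⟩
      · rw [hY0, mul_zero]
        rw [hY0, zero_mul, add_zero] at h1
        exact (mul_eq_zero.mp h1.symm).resolve_left hX0
      · field_simp
    · refine ⟨d x / Y, ?_, ?_⟩
      · field_simp
      · field_simp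
        linear_combination -h1
  have h2 : ∀ w, (d - l • δ) w = 0 := by
    apply A5_zero h.gen
    · rw [Derivation.sub_apply, Derivation.smul_apply, hδx, hl1, smul_eq_mul, sub_self]
    · rw [Derivation.sub_apply, Derivation.smul_apply, hδy, hl2, smul_eq_mul]
      ring
  have h3 := h2 z
  rw [Derivation.sub_apply, Derivation.smul_apply, hz, hd, smul_zero, sub_zero] at h3
  exact one_ne_zero h3

end Pool.Agent.LibHP
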