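import Pool.Agent.LibHP4.A8
import Pool.Agent.LibHP4.A5
import Pool.Agent.LibHP4.A12
import Pool.Agent.LibHP4.A13a
import Pool.Agent.LibHP4.A13b
import Pool.Agent.LibHP4.A13c
import Pool.Agent.LibHP3.E0

set_option autoImplicit false

namespace Pool.Agent.LibHP

section
variable {Ω K : Type} [Field Ω] [Field K] [Algebra Ω K]

/-- The field generated by two elements one of which is in the field generated by the other ones. -/
private theorem A13_adjoin (x y : K) (hgen : IntermediateField.adjoin Ω {x, y} = ⊤)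
    (F : IntermediateField Ω K) (hx : x ∈ F) (hy : y ∈ F) : F = ⊤ := by
  rw [← top_le_iff, ← hgen, IntermediateField.adjoin_le_iff]
  rintro z (rfl | rfl)
  · exact hx
  · exact hy

/-- The polynomials `α`, `β`, `γ` with `F = α Y ^ 2 + β Y + γ`. -/
private theorem A13_cuF (c : Fin 10 → K) (h9 : c 9 = 0) (x y : K) :
    cuF c x y = (c 5 + c 8 * x) * y ^ 2 + (c 2 + c 4 * x + c 7 * x ^ 2) * y +
      (c 0 + c 1 * x + c 3 * x ^ 2 + c 6 * x ^ 3) := by
  unfold cuF
  rw [h9]
  ring

private theorem A13_cuY (c : Fin 10 → K) (h9 : c 9 = 0) (x y : K) :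
    cuY c x y = 2 * (c 5 + c 8 * x) * y + (c 2 + c 4 * x + c 7 * x ^ 2) := by
  unfold cuY
  rw [h9]
  ring

end

/-- The case `c 9 = 0`. -/
private theorem A13_main {Ω K : Type} [Field Ω] [CharZero Ω] [IsAlgClosed Ω] [Field K]
    [Algebra Ω K] {c : Fin 10 → Ω} {x y : K} {D : K →ₐ[Ω] K} (h : PMove Ω K c x y D)
    (h9 : c 9 = 0) : ¬ Function.Surjective D := by
  intro hsurj
  have hC : PCurve Ω K c x y := h.toPCurve
  have htx : Transcendental Ω x := hC.toPPoint.trx
  obtain ⟨δ, hδ⟩ := hC.exists_flow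
  have hreg := hC.regDer hδ
  have hK : ∀ u : K, Transcendental Ω u → IntermediateField.adjoin Ω {u} ≠ ⊤ :=
    fun u hu => hreg.not_rational u hu
  have hF := hC.toPPoint.eq
  have h9' : (fun i => algebraMap Ω K (c i)) 9 = 0 := by
    simp only [h9, map_zero]
  rw [A13_cuF _ h9'] at hF
  have hw0 : cuY (fun i => algebraMap Ω K (c i)) x y ≠ 0 := by
    intro h0
    have h1 : δ x = 0 := by rw [hδ.1, h0]
    exact htx (IsFlow.isAlgebraic hC hδ x h1)
  have hwdef := A13_cuY (fun i => algebraMap Ω K (c i)) h9' x y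
  generalize hw : cuY (fun i => algebraMap Ω K (c i)) x y = w at hw0 hwdef
  generalize hα : algebraMap Ω K (c 5) + algebraMap Ω K (c 8) * x = α at hF hwdef
  generalize hβ : algebraMap Ω K (c 2) + algebraMap Ω K (c 4) * x +
    algebraMap Ω K (c 7) * x ^ 2 = β at hF hwdef
  generalize hγ : algebraMap Ω K (c 0) + algebraMap Ω K (c 1) * x +
    algebraMap Ω K (c 3) * x ^ 2 + algebraMap Ω K (c 6) * x ^ 3 = γ at hF
  -- membership in fields which contain `x`
  have memαβγ : ∀ F : IntermediateField Ω K, x ∈ F → α ∈ F ∧ β ∈ F ∧ γ ∈ F := by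
    intro F hx
    have hc : ∀ a : Ω, algebraMap Ω K a ∈ F := fun a => F.algebraMap_mem a
    refine ⟨?_, ?_, ?_⟩
    · rw [← hα]
      exact F.add_mem (hc _) (F.mul_mem (hc _) hx)
    · rw [← hβ]
      exact F.add_mem (F.add_mem (hc _) (F.mul_mem (hc _) hx)) (F.mul_mem (hc _) (pow_mem hx 2))
    · rw [← hγ]
      exact F.add_mem (F.add_mem (F.add_mem (hc _) (F.mul_mem (hc _) hx))
        (F.mul_mem (hc _) (pow_mem hx 2))) (F.mul_mem (hc _) (pow_mem hx 3))
  have hα0 : α ≠ 0 := by
    intro h0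
    rw [h0, mul_zero, zero_mul, zero_add] at hwdef
    rw [h0, zero_mul, zero_add] at hF
    have hy : y = -γ / β := by
      rw [eq_div_iff (by rw [← hwdef]; exact hw0)]
      linear_combination hF
    refine hK x htx (A13_adjoin x y hC.gen _ (IntermediateField.mem_adjoin_simple_self Ω x) ?_)
    obtain ⟨-, h2, h3⟩ := memαβγ (IntermediateField.adjoin Ω {x})
      (IntermediateField.mem_adjoin_simple_self Ω x)
    rw [hy]
    exact (IntermediateField.adjoin Ω {x}).div_mem (neg_mem h3) h2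
  -- `K = Ω(x, w)`
  have h2 : (2 : K) ≠ 0 := by
    have : CharZero K := charZero_of_injective_algebraMap (algebraMap Ω K).injective
    exact two_ne_zero
  have hgen : IntermediateField.adjoin Ω {x, w} = ⊤ := by
    have hx' : x ∈ IntermediateField.adjoin Ω {x, w} :=
      IntermediateField.subset_adjoin Ω _ (Set.mem_insert _ _)
    have hw' : w ∈ IntermediateField.adjoin Ω {x, w} :=
      IntermediateField.subset_adjoin Ω _ (Set.mem_insert_of_mem _ rfl)
    obtain ⟨h3, h4, -⟩ := memαβγ _ hx'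
    refine A13_adjoin x y hC.gen _ hx' ?_
    have hy : y = (w - β) / (2 * α) := by
      rw [eq_div_iff (mul_ne_zero h2 hα0), hwdef]
      ring
    rw [hy]
    refine (IntermediateField.adjoin Ω {x, w}).div_mem (sub_mem hw' h4) ?_
    exact mul_mem (by
      have := (IntermediateField.adjoin Ω {x, w}).algebraMap_mem 2
      rwa [map_ofNat] at this) h3
  let q : Polynomial Ω := (Polynomial.C (c 2) + Polynomial.C (c 4) * Polynomial.X +
    Polynomial.C (c 7) * Polynomial.X ^ 2) ^ 2 - 4 * (Polynomial.C (c 5) +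
    Polynomial.C (c 8) * Polynomial.X) * (Polynomial.C (c 0) + Polynomial.C (c 1) * Polynomial.X +
    Polynomial.C (c 3) * Polynomial.X ^ 2 + Polynomial.C (c 6) * Polynomial.X ^ 3)
  have hq : w ^ 2 = Polynomial.aeval x q := by
    have h3 : Polynomial.aeval x q = β ^ 2 - 4 * α * γ := by
      rw [← hα, ← hβ, ← hγ]
      simp only [q, map_sub, map_pow, map_add, map_mul, Polynomial.aeval_C, Polynomial.aeval_X,
        map_ofNat]
    rw [h3, hwdef]
    linear_combination 4 * α * hF
  obtain ⟨S, hS, hroot⟩ := three_roots hK x w htx hgen q hq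
  -- two roots with `α(r) ≠ 0`
  classical
  have hS1 : (S.filter (fun r => c 5 + c 8 * r = 0)).card ≤ 1 := by
    rw [Finset.card_le_one]
    intro r hr r' hr'
    rw [Finset.mem_filter] at hr hr'
    by_contra hne
    have h3 : c 8 * (r - r') = 0 := by linear_combination hr.2 - hr'.2
    have h4 : c 8 = 0 := (mul_eq_zero.1 h3).resolve_right (sub_ne_zero.2 hne)
    have h5 : c 5 = 0 := by
      have := hr.2
      rwa [h4, zero_mul, add_zero] at this
    apply hα0
    rw [← hα, h4, h5, map_zero, zero_mul, add_zero]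
  have hS2 : 1 < (S.filter (fun r => ¬ (c 5 + c 8 * r = 0))).card := by
    have := Finset.card_filter_add_card_filter_not (s := S) (fun r => c 5 + c 8 * r = 0)
    omega
  obtain ⟨r₁, hr₁, r₂, hr₂, hne⟩ := Finset.one_lt_card.1 hS2
  rw [Finset.mem_filter] at hr₁ hr₂
  have hdisc : ∀ r ∈ S, (c 2 + c 4 * r + c 7 * r ^ 2) ^ 2 -
      4 * (c 5 + c 8 * r) * (c 0 + c 1 * r + c 3 * r ^ 2 + c 6 * r ^ 3) = 0 := by
    intro r hr
    have h3 := hroot r hr
    simpa [q] using h3
  obtain ⟨V₁, hV₁, hT₁, hx₁, hy₁, hxy₁⟩ := h.place_at_root h9 r₁ (hdisc r₁ hr₁.1) hr₁.2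
  obtain ⟨V₂, hV₂, hT₂, hx₂, hy₂, hxy₂⟩ := h.place_at_root h9 r₂ (hdisc r₂ hr₂.1) hr₂.2
  -- the places have different centres
  have hV : V₁ ≠ V₂ := by
    intro hV
    subst hV
    have h3 : V₁.valuation (algebraMap Ω K (r₂ - r₁)) < 1 := by
      have h4 : algebraMap Ω K (r₂ - r₁) =
          (x - algebraMap Ω K r₁) - (x - algebraMap Ω K r₂) := by
        rw [map_sub]
        ring
      rw [h4]
      exact lt_of_le_of_lt (Valuation.map_sub _ _ _) (max_lt hx₁ hx₂)
    have h5 : V₁.valuation (algebraMap Ω K ((r₂ - r₁)⁻¹)) ≤ 1 :=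
      (ValuationSubring.valuation_le_one_iff _ _).2 (hV₁ _)
    have h6 : V₁.valuation (algebraMap Ω K (r₂ - r₁)) *
        V₁.valuation (algebraMap Ω K ((r₂ - r₁)⁻¹)) = 1 := by
      rw [← map_mul, ← map_mul, mul_inv_cancel₀ (sub_ne_zero.2 (Ne.symm hne)), map_one, map_one]
    have h7 : V₁.valuation (algebraMap Ω K (r₂ - r₁)) *
        V₁.valuation (algebraMap Ω K ((r₂ - r₁)⁻¹)) < 1 :=
      lt_of_le_of_lt (mul_le_mul_right h5 _) (by rwa [mul_one])
    rw [h6] at h7
    exact lt_irrefl _ h7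
  -- the images under `D`
  have key : ∀ V : ValuationSubring K, (∀ b : Ω, algebraMap Ω K b ∈ V) → D y ∉ V →
      V.valuation (D x / D y) < 1 → (∀ b : Ω, algebraMap Ω K b ∈ V.comap (D : K →+* K)) ∧
      V.comap (D : K →+* K) ≠ ⊤ ∧
      (V.comap (D : K →+* K)).valuation (y⁻¹ - algebraMap Ω K 0) < 1 ∧
      (V.comap (D : K →+* K)).valuation (x / y - algebraMap Ω K 0) < 1 := by
    intro V hV hyV hxyV
    have hb : ∀ b : Ω, algebraMap Ω K b ∈ V.comap (D : K →+* K) := fun b => by
      rw [ValuationSubring.mem_comap]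
      have : (D : K →+* K) (algebraMap Ω K b) = algebraMap Ω K b := D.commutes b
      rw [this]
      exact hV b
    have hy' : y ∉ V.comap (D : K →+* K) := by
      rw [ValuationSubring.mem_comap]
      exact hyV
    refine ⟨hb, ?_, ?_, ?_⟩
    · intro htop
      apply hy'
      rw [htop]
      exact ValuationSubring.mem_top _
    · rw [map_zero, sub_zero, map_inv₀]
      have h3 : 1 < (V.comap (D : K →+* K)).valuation y := by
        rw [← not_le, ValuationSubring.valuation_le_one_iff]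
        exact hy'
      exact inv_lt_one_of_one_lt₀ h3
    · rw [map_zero, sub_zero, comap_val_lt_one, map_div₀]
      exact hxyV
  obtain ⟨k1, k2, k3, k4⟩ := key V₁ hV₁ hy₁ hxy₁
  obtain ⟨l1, l2, l3, l4⟩ := key V₂ hV₂ hy₂ hxy₂
  have hcurve := hC.swap.inv
  have heq : V₁.comap (D : K →+* K) = V₂.comap (D : K →+* K) :=
    hcurve.place_unique 0 0 _ _ k1 l1 k2 l2 k3 k4 l3 l4
  apply hV
  ext z
  obtain ⟨z', rfl⟩ := hsurj z
  have h3 : z' ∈ V₁.comap (D : K →+* K) ↔ z' ∈ V₂.comap (D : K →+* K) := by rw [heq]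
  rw [ValuationSubring.mem_comap, ValuationSubring.mem_comap] at h3
  exact h3

/-- The tangent residual map is not an automorphism. -/
theorem PMove.not_surjective {Ω K : Type} [Field Ω] [CharZero Ω] [IsAlgClosed Ω] [Field K]
    [Algebra Ω K] {c : Fin 10 → Ω} {x y : K} {D : K →ₐ[Ω] K} (h : PMove Ω K c x y D) :
    ¬ Function.Surjective D := by
  obtain ⟨c', x', y', h', h9⟩ := h.exists_shear
  exact A13_main h' h9

end Pool.Agent.LibHP
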