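import Pool.Agent.LibHP4.Defs
import Pool.Agent.LibHP3.R5

set_option autoImplicit false

namespace Pool.Agent.LibHP

/-- The residue field of a place over an algebraically closed field. -/
theorem IsCurve.exists_residue {Ω K : Type} [Field Ω] [IsAlgClosed Ω] [Field K] [Algebra Ω K]
    (h : IsCurve Ω K) (V : ValuationSubring K) (hΩ : ∀ b : Ω, algebraMap Ω K b ∈ V) (hV : V ≠ ⊤)
    (z : K) (hz : z ∈ V) : ∃ e : Ω, V.valuation (z - algebraMap Ω K e) < 1 := by
  by_contra hcon
  push Not at hcon
  have hunit : ∀ e : Ω, V.valuation (z - algebraMap Ω K e) = 1 := fun e =>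
    le_antisymm ((V.valuation_le_one_iff _).2 (V.sub_mem hz (hΩ e))) (hcon e)
  -- the values of polynomials
  have hpoly : ∀ p : Polynomial Ω, p ≠ 0 → V.valuation (Polynomial.aeval z p) = 1 := by
    intro p hp
    have hs := (IsAlgClosed.splits p).eq_prod_roots
    rw [hs, map_mul, Polynomial.aeval_C, map_mul, map_multiset_prod, Multiset.map_map,
      map_multiset_prod, Multiset.map_map]
    have h1 : V.valuation (algebraMap Ω K p.leadingCoeff) = 1 := by
      have hl : p.leadingCoeff ≠ 0 := Polynomial.leadingCoeff_ne_zero.2 hp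
      refine le_antisymm ((V.valuation_le_one_iff _).2 (hΩ _)) ?_
      have h2 := (V.valuation_le_one_iff _).2 (hΩ (p.leadingCoeff)⁻¹)
      rw [map_inv₀, map_inv₀] at h2
      have h3 : V.valuation (algebraMap Ω K p.leadingCoeff) ≠ 0 := by
        rw [Valuation.ne_zero_iff]
        exact (map_ne_zero _).2 hl
      exact (inv_le_one₀ (zero_lt_iff.2 h3)).1 h2
    rw [h1, one_mul]
    apply Multiset.prod_eq_one
    intro w hw
    obtain ⟨r, -, rfl⟩ := Multiset.mem_map.1 hw
    simp only [Function.comp_apply, map_sub, Polynomial.aeval_X, Polynomial.aeval_C]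
    exact hunit r
  have htr : Transcendental Ω z := by
    intro halg
    obtain ⟨p, hp, hp0⟩ := halg
    have := hpoly p hp
    rw [hp0, map_zero] at this
    exact zero_ne_one this
  have hM : ∀ c : IntermediateField.adjoin Ω {z}, algebraMap _ K c ∈ V := by
    intro c
    obtain ⟨p, q, hpq⟩ := (IntermediateField.mem_adjoin_simple_iff Ω (c : K)).1 c.2
    show (c : K) ∈ V
    rw [hpq, ← V.valuation_le_one_iff, map_div₀]
    by_cases hq : q = 0
    · rw [hq, map_zero, map_zero, div_zero]
      exact zero_le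
    · rw [hpoly q hq, div_one]
      by_cases hp : p = 0
      · rw [hp, map_zero, map_zero]
        exact zero_le
      · rw [hpoly p hp]
  have halg := h.alg z htr
  apply hV
  rw [eq_top_iff]
  intro w _
  exact mem_of_isAlgebraic _ K V hM w (halg.isAlgebraic w)

/-- Every nonconstant function has a zero. -/
theorem exists_zero_place {B K : Type} [Field B] [Field K] [Algebra B K]
    (z : K) (hz : Transcendental B z) : ∃ V : ValuationSubring K,
      (∀ b : B, algebraMap B K b ∈ V) ∧ V ≠ ⊤ ∧ V.valuation z < 1 := by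
  obtain ⟨V, hV, h1⟩ := exists_place_at B K z hz 0
  rw [map_zero, sub_zero] at h1
  refine ⟨V, hV, ?_, h1⟩
  rintro rfl
  have hz0 : z ≠ 0 := by
    rintro rfl
    exact hz isAlgebraic_zero
  have h2 := ((⊤ : ValuationSubring K).valuation_le_one_iff z⁻¹).2 trivial
  rw [map_inv₀] at h2
  have h3 : (⊤ : ValuationSubring K).valuation z ≠ 0 := (Valuation.ne_zero_iff _).2 hz0
  exact absurd ((inv_le_one₀ (zero_lt_iff.2 h3)).1 h2) (not_le.2 h1)

/-- The restriction of a place under an endomorphism is a place. -/
theorem IsCurve.comap_ne_top {B K : Type} [Field B] [Field K] [Algebra B K]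
    (h : IsCurve B K) (D : K →ₐ[B] K) (V : ValuationSubring K)
    (hB : ∀ b : B, algebraMap B K b ∈ V) (hV : V ≠ ⊤) : V.comap (D : K →+* K) ≠ ⊤ := by
  intro htop
  obtain ⟨x, hx⟩ := h.tr
  have hDx : Transcendental B (D x) := by
    intro halg
    exact hx ((isAlgebraic_algHom_iff D D.toRingHom.injective).1 halg)
  have hmem : ∀ w : K, D w ∈ V := by
    intro w
    have : w ∈ V.comap (D : K →+* K) := by rw [htop]; trivial
    exact this
  have hle : IntermediateField.adjoin B {D x} ≤ D.fieldRange := by
    rw [IntermediateField.adjoin_le_iff]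
    rintro _ rfl
    exact ⟨x, rfl⟩
  have hM : ∀ c : IntermediateField.adjoin B {D x}, algebraMap _ K c ∈ V := by
    intro c
    obtain ⟨w, hw⟩ := hle c.2
    show (c : K) ∈ V
    rw [← hw]
    exact hmem w
  apply hV
  rw [eq_top_iff]
  intro w _
  exact mem_of_isAlgebraic _ K V hM w ((h.alg _ hDx).isAlgebraic w)

end Pool.Agent.LibHP
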