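import Pool.Agent.LibHP4.A14
import Pool.Agent.LibHP2.D1
import Mathlib.RingTheory.DedekindDomain.IntegralClosure
import Mathlib.RingTheory.Nakayama
import Mathlib.RingTheory.Valuation.LocalSubring

set_option autoImplicit false

namespace Pool.Agent.LibHP

/-- a function of value less than one is a multiple of the uniformizer -/
theorem A15_div {L : Type} [Field L] (W : ValuationSubring L) (t : L) (ht : IsUnif W t) (a : L)
    (ha : W.valuation a < 1) : ∃ w ∈ W, a = t * w := by
  obtain ⟨htW, -, -, hf⟩ := ht
  by_cases ha0 : a = 0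
  · exact ⟨0, W.zero_mem, by rw [ha0, mul_zero]⟩
  have haW : a ∈ W := (W.valuation_le_one_iff a).1 ha.le
  obtain ⟨n, u, hu, hui, hau⟩ := hf a haW ha0
  rcases n with _ | n
  · exfalso
    rw [pow_zero, mul_one] at hau
    subst hau
    have h1 : W.valuation a⁻¹ ≤ 1 := (W.valuation_le_one_iff _).2 hui
    have h2 : W.valuation a * W.valuation a⁻¹ = 1 := by
      rw [← map_mul, mul_inv_cancel₀ ha0, map_one]
    have h3 : W.valuation a * W.valuation a⁻¹ ≤ W.valuation a * 1 := mul_le_mul_right h1 _
    rw [h2, mul_one] at h3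
    exact absurd ha (not_lt.2 h3)
  · exact ⟨u * t ^ n, W.mul_mem _ _ hu (pow_mem htW n), by rw [hau]; ring⟩

/-- a valuation ring above one with a uniformizer -/
theorem A15_max {F : Type} [Field F] (V U : ValuationSubring F) (t : F) (ht : IsUnif V t)
    (hVU : ∀ a ∈ V, a ∈ U) : U = V ∨ ∀ a : F, a ∈ U := by
  obtain ⟨htV, ht0, hti, hf⟩ := ht
  by_cases h : t⁻¹ ∈ U
  · right
    intro a
    rcases V.mem_or_inv_mem a with ha | ha
    · exact hVU a ha
    · by_cases ha0 : a = 0
      · rw [ha0]; exact U.zero_mem
      obtain ⟨n, u, hu, hui, hau⟩ := hf a⁻¹ ha (inv_ne_zero ha0)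
      have : a = u⁻¹ * (t⁻¹) ^ n := by
        rw [← inv_inv a, hau, mul_inv, inv_pow]
      rw [this]
      exact U.mul_mem _ _ (hVU _ hui) (pow_mem h n)
  · left
    ext a
    refine ⟨fun ha => ?_, fun ha => hVU a ha⟩
    by_contra haV
    have ha0 : a ≠ 0 := by rintro rfl; exact haV V.zero_mem
    have hai : a⁻¹ ∈ V := (V.mem_or_inv_mem a).resolve_left haV
    obtain ⟨n, u, hu, hui, hau⟩ := hf a⁻¹ hai (inv_ne_zero ha0)
    have hu0 : u ≠ 0 := by
      rintro rfl
      rw [zero_mul] at hau
      exact inv_ne_zero ha0 hau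
    rcases n with _ | n
    · rw [pow_zero, mul_one] at hau
      rw [← hau, inv_inv] at hui
      exact haV hui
    · apply h
      have h1 : t⁻¹ = a * (u * t ^ n) := by
        have h2 : a * (u * t ^ (n + 1)) = 1 := by rw [← hau, mul_inv_cancel₀ ha0]
        symm
        apply eq_inv_of_mul_eq_one_left
        rw [← h2]; ring
      rw [h1]
      exact U.mul_mem _ _ ha (hVU _ (V.mul_mem _ _ hu (pow_mem htV n)))

theorem A15_core (F L : Type) [Field F] [CharZero F] [Field L] [Algebra F L]
    [FiniteDimensional F L] (V : ValuationSubring F) (t : F) (ht : IsUnif V t)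
    (W : ValuationSubring L) (hWV : W.comap (algebraMap F L) = V)
    (huniq : ∀ W' : ValuationSubring L, W'.comap (algebraMap F L) = V → W' = W)
    (hWt : IsUnif W (algebraMap F L t))
    (hres : ∀ z ∈ W, ∃ e ∈ V, W.valuation (z - algebraMap F L e) < 1) :
    Function.Surjective (algebraMap F L) := by
  classical
  have hdvr : IsDiscreteValuationRing V := D1_isDVR V t ht
  have hV : ∀ a ∈ V, algebraMap F L a ∈ W := by
    intro a ha
    rw [← hWV] at ha
    exact ha
  letI : Algebra V L := ((algebraMap F L).comp (algebraMap V F)).toAlgebra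
  have : IsScalarTower V F L := IsScalarTower.of_algebraMap_eq (fun _ => rfl)
  have hint : ∀ z ∈ W, IsIntegral V z := by
    intro z hz
    by_contra hni
    have hzR : z ∉ (integralClosure V L).toSubring := fun h => hni h
    have : IsIntegrallyClosedIn (integralClosure V L).toSubring L :=
      inferInstanceAs (IsIntegrallyClosedIn (integralClosure V L) L)
    obtain ⟨U, hU, hzU⟩ :=
      Subring.exists_le_valuationSubring_of_isIntegrallyClosedIn hzR
    have hVU : ∀ a ∈ V, a ∈ U.comap (algebraMap F L) := by
      intro a ha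
      exact hU ((integralClosure V L).algebraMap_mem ⟨a, ha⟩)
    rcases A15_max V _ t ht hVU with h | h
    · rw [huniq U h] at hzU
      exact hzU hz
    · exact hzU (mem_of_isAlgebraic F L U h z (Algebra.IsAlgebraic.isAlgebraic z))
  have hfin : Module.Finite V (integralClosure V L) :=
    IsIntegralClosure.finite V F L (integralClosure V L)
  let tV : V := ⟨t, ht.1⟩
  have htm : tV ∈ IsLocalRing.maximalIdeal V := by
    rw [IsLocalRing.mem_maximalIdeal, mem_nonunits_iff]
    intro hu
    obtain ⟨b, hb⟩ := hu.exists_right_inv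
    have h1 : t * (b : F) = 1 := congrArg Subtype.val hb
    exact ht.2.2.1 (by rw [← eq_inv_of_mul_eq_one_right h1]; exact b.2)
  have hNak : (⊤ : Submodule V (integralClosure V L)) ≤
      Submodule.span V {(1 : integralClosure V L)} := by
    refine Submodule.le_of_le_smul_of_le_jacobson_bot (I := IsLocalRing.maximalIdeal V)
      hfin.fg_top (IsLocalRing.maximalIdeal_le_jacobson _) ?_
    intro z _
    have hzW : (z : L) ∈ W := by
      have h1 : IsIntegral V (z : L) := z.2
      obtain ⟨p, hp, hp0⟩ := h1
      let ρ : V →+* W := ((algebraMap F L).comp V.subtype).codRestrict W (fun x => hV x x.2)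
      have h2 : IsIntegral W (z : L) := by
        refine ⟨p.map ρ, hp.map ρ, ?_⟩
        rw [Polynomial.eval₂_map]
        exact hp0
      obtain ⟨y, hy⟩ := IsIntegrallyClosed.isIntegral_iff.mp h2
      rw [← hy]
      exact y.2
    obtain ⟨e, heV, he⟩ := hres z hzW
    obtain ⟨w, hw, hzw⟩ := A15_div W _ hWt _ he
    have hz : z = (⟨e, heV⟩ : V) • (1 : integralClosure V L) +
        tV • (⟨w, hint w hw⟩ : integralClosure V L) := by
      apply Subtype.ext
      show (z : L) = algebraMap F L e * 1 + algebraMap F L t * w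
      rw [← hzw]; ring
    rw [hz]
    exact Submodule.add_mem_sup (Submodule.smul_mem _ _ (Submodule.mem_span_singleton_self _))
      (Submodule.smul_mem_smul htm trivial)
  have hWF : ∀ z ∈ W, ∃ a : F, algebraMap F L a = z := by
    intro z hz
    obtain ⟨a, ha⟩ := Submodule.mem_span_singleton.1
      (hNak (Submodule.mem_top : (⟨z, hint z hz⟩ : integralClosure V L) ∈ ⊤))
    refine ⟨a, ?_⟩
    have h1 := congrArg Subtype.val ha
    have h2 : algebraMap F L (a : F) * 1 = z := h1
    rw [← h2, mul_one]
  intro z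
  rcases W.mem_or_inv_mem z with hz | hz
  · exact hWF z hz
  · obtain ⟨a, ha⟩ := hWF _ hz
    exact ⟨a⁻¹, by rw [map_inv₀, ha, inv_inv]⟩

theorem A15_fin (Ω F L : Type) [Field Ω] [Field F] [Field L] [Algebra Ω F] [Algebra Ω L]
    (D : F →ₐ[Ω] L) (s : Finset L) (hs : IntermediateField.adjoin Ω (s : Set L) = ⊤)
    (halg : ∀ z : L, IsAlgebraic D.fieldRange z) :
    @FiniteDimensional F L _ _ (D : F →+* L).toAlgebra.toModule := by
  letI := (D : F →+* L).toAlgebra
  have : IsScalarTower Ω F L := IsScalarTower.of_algebraMap_eq (fun x => (D.commutes x).symm)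
  have halg' : ∀ z : L, IsAlgebraic F z := by
    intro z
    refine IsAlgebraic.of_ringHom_of_comp_eq (S := D.fieldRange) (B := L)
      (f := (D.rangeRestrict : F →+* D.range)) (g := RingHom.id L) (a := z) (halg z)
      (AlgHom.rangeRestrict_surjective D) Function.injective_id ?_
    rfl
  have h1 : IntermediateField.adjoin F (s : Set L) = ⊤ := by
    rw [eq_top_iff]
    intro z _
    have h2 : z ∈ IntermediateField.adjoin Ω (s : Set L) := by rw [hs]; trivial
    have h3 : IntermediateField.adjoin Ω (s : Set L) ≤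
        (IntermediateField.adjoin F (s : Set L)).restrictScalars Ω := by
      rw [IntermediateField.adjoin_le_iff]
      exact IntermediateField.subset_adjoin F _
    exact h3 h2
  have h4 : FiniteDimensional F (IntermediateField.adjoin F (s : Set L)) :=
    IntermediateField.finiteDimensional_adjoin fun x _ => (halg' x).isIntegral
  rw [h1] at h4
  exact (IntermediateField.topEquiv (F := F) (E := L)).toLinearEquiv.finiteDimensional

theorem A15_gen (F L : Type) [Field F] [CharZero F] [Field L] (f : F →+* L)
    (hfin : @FiniteDimensional F L _ _ f.toAlgebra.toModule)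
    (V : ValuationSubring F) (t : F) (ht : IsUnif V t)
    (W : ValuationSubring L) (hWV : W.comap f = V)
    (huniq : ∀ W' : ValuationSubring L, W'.comap f = V → W' = W)
    (hWt : IsUnif W (f t))
    (hres : ∀ z ∈ W, ∃ e ∈ V, W.valuation (z - f e) < 1) :
    Function.Surjective f := by
  letI := f.toAlgebra
  have : FiniteDimensional F L := hfin
  exact A15_core F L V t ht W hWV huniq hWt hres

/-- Over every place there are at least two places if the endomorphism is unramified and not
surjective. -/
theorem IsCurve.exists_two {Ω K : Type} [Field Ω] [CharZero Ω] [IsAlgClosed Ω] [Field K]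
    [Algebra Ω K] (h : IsCurve Ω K) (D : K →ₐ[Ω] K) (hD : EtaleEndo Ω K D)
    (hns : ¬ Function.Surjective D) (V : ValuationSubring K)
    (hΩ : ∀ b : Ω, algebraMap Ω K b ∈ V) (t : K) (ht : IsUnif V t) :
    ∃ V₁ V₂ : ValuationSubring K, V₁ ≠ V₂ ∧ V₁.comap (D : K →+* K) = V ∧
      V₂.comap (D : K →+* K) = V := by
  obtain ⟨W, hW⟩ := exists_extension K K (D : K →+* K) V
  by_contra hcon
  have huniq : ∀ W' : ValuationSubring K, W'.comap (D : K →+* K) = V → W' = W := by
    intro W' hW'
    by_contra hne
    exact hcon ⟨W', W, hne, hW', hW⟩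
  apply hns
  have : CharZero K := charZero_of_injective_algebraMap (algebraMap Ω K).injective
  have hWΩ : ∀ b : Ω, algebraMap Ω K b ∈ W := by
    intro b
    have h1 : algebraMap Ω K b ∈ W.comap (D : K →+* K) := by rw [hW]; exact hΩ b
    have h2 : D (algebraMap Ω K b) ∈ W := h1
    rwa [D.commutes] at h2
  have hWt : IsUnif W (D t) := hD W hWΩ t (by rw [hW]; exact ht)
  have hWtop : W ≠ ⊤ := by
    rintro rfl
    exact hWt.2.2.1 trivial
  have hfin : @FiniteDimensional K K _ _ (D : K →+* K).toAlgebra.toModule := by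
    obtain ⟨s, hs⟩ := h.fg
    refine A15_fin Ω K K D s hs ?_
    intro z
    obtain ⟨x, hx⟩ := h.tr
    have hDx : Transcendental Ω (D x) := by
      intro halg
      apply hx
      obtain ⟨p, hp, hp0⟩ := halg
      refine ⟨p, hp, D.toRingHom.injective ?_⟩
      show D (Polynomial.aeval x p) = D 0
      rw [← Polynomial.aeval_algHom_apply, hp0, map_zero]
    have h1 := (h.alg (D x) hDx).isAlgebraic z
    have hle : IntermediateField.adjoin Ω {D x} ≤ D.fieldRange := by
      rw [IntermediateField.adjoin_le_iff, Set.singleton_subset_iff]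
      exact ⟨x, rfl⟩
    obtain ⟨p, hp, hp0⟩ := h1
    refine ⟨p.map (IntermediateField.inclusion hle).toRingHom, ?_, ?_⟩
    · exact (Polynomial.map_ne_zero_iff (IntermediateField.inclusion hle).toRingHom.injective).2 hp
    · rw [Polynomial.aeval_def, Polynomial.eval₂_map]
      exact hp0
  exact A15_gen K K (D : K →+* K) hfin V t ht W hW huniq hWt (by
    intro z hz
    obtain ⟨e, he⟩ := h.exists_residue W hWΩ hWtop z hz
    refine ⟨algebraMap Ω K e, hΩ e, ?_⟩
    have : (D : K →+* K) (algebraMap Ω K e) = algebraMap Ω K e := D.commutes e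
    rw [this]
    exact he)

end Pool.Agent.LibHP
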