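import Pool.Agent.LibHP4.A15

set_option autoImplicit false

namespace Pool.Agent.LibHP

/-- Over every place there are at least `2 ^ n` places for the `n`-th iterate. -/
theorem IsCurve.exists_many {Ω K : Type} [Field Ω] [CharZero Ω] [IsAlgClosed Ω] [Field K]
    [Algebra Ω K] (h : IsCurve Ω K)
    (hunif : ∀ V : ValuationSubring K, (∀ b : Ω, algebraMap Ω K b ∈ V) → V ≠ ⊤ →
      ∃ t, IsUnif V t) (D : K →ₐ[Ω] K) (hD : EtaleEndo Ω K D)
    (hns : ¬ Function.Surjective D) (n : ℕ) (V : ValuationSubring K)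
    (hΩ : ∀ b : Ω, algebraMap Ω K b ∈ V) (hV : V ≠ ⊤) :
    ∃ S : Finset (ValuationSubring K), S.card = 2 ^ n ∧ ∀ W ∈ S,
      (∀ b : Ω, algebraMap Ω K b ∈ W) ∧ W ≠ ⊤ ∧ W.comap ((D ^ n : K →ₐ[Ω] K) : K →+* K) = V := by
  classical
  induction n generalizing V with
  | zero =>
    refine ⟨{V}, by simp, fun W hW => ?_⟩
    rw [Finset.mem_singleton] at hW
    subst hW
    refine ⟨hΩ, hV, ?_⟩
    ext z
    rw [ValuationSubring.mem_comap, RingHom.coe_coe, pow_zero, AlgHom.one_apply]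
  | succ n ih =>
    obtain ⟨t, ht⟩ := hunif V hΩ hV
    obtain ⟨V₁, V₂, hne, h1, h2⟩ := h.exists_two D hD hns V hΩ t ht
    have hc : ∀ W : ValuationSubring K, W.comap (D : K →+* K) = V →
        (∀ b : Ω, algebraMap Ω K b ∈ W) ∧ W ≠ ⊤ := by
      intro W hW
      constructor
      · intro b
        have h3 := hΩ b
        rw [← hW, ValuationSubring.mem_comap, RingHom.coe_coe, AlgHom.commutes] at h3
        exact h3
      · intro htop
        apply hV
        rw [← hW, htop]
        ext z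
        rw [ValuationSubring.mem_comap]
        exact ⟨fun _ => ValuationSubring.mem_top _, fun _ => ValuationSubring.mem_top _⟩
    obtain ⟨S₁, hc1, hS1⟩ := ih V₁ (hc V₁ h1).1 (hc V₁ h1).2
    obtain ⟨S₂, hc2, hS2⟩ := ih V₂ (hc V₂ h2).1 (hc V₂ h2).2
    have hcomp : ∀ W V' : ValuationSubring K,
        W.comap ((D ^ n : K →ₐ[Ω] K) : K →+* K) = V' → V'.comap (D : K →+* K) = V →
        W.comap ((D ^ (n + 1) : K →ₐ[Ω] K) : K →+* K) = V := by
      intro W V' hW hV'
      rw [← hV', ← hW]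
      ext z
      rw [ValuationSubring.mem_comap, ValuationSubring.mem_comap, ValuationSubring.mem_comap,
        RingHom.coe_coe, RingHom.coe_coe, RingHom.coe_coe, pow_succ, AlgHom.mul_apply]
    refine ⟨S₁ ∪ S₂, ?_, ?_⟩
    · rw [Finset.card_union_of_disjoint, hc1, hc2, pow_succ]
      · ring
      · rw [Finset.disjoint_left]
        intro W hW1 hW2
        apply hne
        rw [← (hS1 W hW1).2.2, ← (hS2 W hW2).2.2]
    · intro W hW
      rcases Finset.mem_union.1 hW with hW | hW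
      · obtain ⟨a, b, c⟩ := hS1 W hW
        exact ⟨a, b, hcomp W V₁ c h1⟩
      · obtain ⟨a, b, c⟩ := hS2 W hW
        exact ⟨a, b, hcomp W V₂ c h2⟩

end Pool.Agent.LibHP
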