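import Pool.Agent.LibHP4.Defs
import Pool.Agent.LibHP3.R5

set_option autoImplicit false

namespace Pool.Agent.LibHP

open scoped IntermediateField.algebraAdjoinAdjoin

theorem A17_val_eq_one {K : Type} [Field K] (V : ValuationSubring K) (a : K) (ha : a ∈ V)
    (h : ¬ V.valuation a < 1) : V.valuation a = 1 :=
  le_antisymm ((V.valuation_le_one_iff a).2 ha) (not_lt.1 h)

/-- a valuation ring containing a Dedekind domain is contained in any other one with the same
nonzero centre -/
theorem A17_det {C K : Type} [CommRing C] [IsDedekindDomain C] [Field K] [Algebra C K]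
    [IsFractionRing C K] (P : Ideal C) [P.IsPrime] (hP : P ≠ ⊥) (V V' : ValuationSubring K)
    (hV : ∀ c, algebraMap C K c ∈ V) (hV' : ∀ c, algebraMap C K c ∈ V')
    (h : ∀ c, c ∈ P ↔ V.valuation (algebraMap C K c) < 1)
    (h' : ∀ c, c ∈ P ↔ V'.valuation (algebraMap C K c) < 1) : V ≤ V' := by
  intro x hx
  rcases eq_or_ne x 0 with rfl | hx0
  · exact V'.zero_mem
  have hinjK : Function.Injective (algebraMap C K) := IsFractionRing.injective C K
  have hdvr := IsLocalization.AtPrime.isDiscreteValuationRing_of_dedekind_domain C hP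
    (Localization.AtPrime P)
  have hinj : Function.Injective (algebraMap C (Localization.AtPrime P)) :=
    IsLocalization.injective _ P.primeCompl_le_nonZeroDivisors
  have key : ∀ c d : C, algebraMap C (Localization.AtPrime P) d ∣
      algebraMap C (Localization.AtPrime P) c → ∃ a s : C, s ∉ P ∧ c * s = d * a := by
    rintro c d ⟨l, hl⟩
    obtain ⟨a, s, has⟩ := IsLocalization.exists_mk'_eq P.primeCompl l
    refine ⟨a, s, s.2, ?_⟩
    apply hinj
    have h1 : l * algebraMap C (Localization.AtPrime P) s =
        algebraMap C (Localization.AtPrime P) a := by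
      rw [← has]
      exact IsLocalization.mk'_spec _ _ _
    rw [map_mul, map_mul, hl, mul_assoc, h1]
  obtain ⟨c, d, hd, hcd⟩ := IsFractionRing.div_surjective (A := C) x
  have hd0 : algebraMap C K d ≠ 0 := by
    intro e
    exact nonZeroDivisors.ne_zero hd (hinjK (by rw [e, map_zero]))
  rcases ValuationRing.dvd_total (algebraMap C (Localization.AtPrime P) d)
    (algebraMap C (Localization.AtPrime P) c) with hdc | hdc
  · obtain ⟨a, s, hs, he⟩ := key c d hdc
    have hs0 : algebraMap C K s ≠ 0 := by
      intro e
      have : s = 0 := hinjK (by rw [e, map_zero])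
      rw [this] at hs
      exact hs P.zero_mem
    have hxe : x = algebraMap C K a * (algebraMap C K s)⁻¹ := by
      rw [← hcd, eq_mul_inv_iff_mul_eq₀ hs0, div_mul_eq_mul_div, div_eq_iff hd0, ← map_mul,
        ← map_mul, he, mul_comm]
    rw [hxe]
    refine V'.mul_mem _ _ (hV' a) ?_
    have h1 := A17_val_eq_one V' _ (hV' s) (fun e => hs ((h' s).2 e))
    rw [← V'.valuation_le_one_iff, map_inv₀, h1, inv_one]
  · obtain ⟨a, s, hs, he⟩ := key d c hdc
    have hs0 : algebraMap C K s ≠ 0 := by
      intro e
      have : s = 0 := hinjK (by rw [e, map_zero])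
      rw [this] at hs
      exact hs P.zero_mem
    have hc0 : algebraMap C K c ≠ 0 := by
      intro e
      apply hx0
      rw [← hcd, e, zero_div]
    have hxe : x * algebraMap C K a = algebraMap C K s := by
      rw [← hcd, div_mul_eq_mul_div, div_eq_iff hd0, ← map_mul, ← map_mul, ← he, mul_comm]
    have ha : a ∉ P := by
      intro ha
      have h1 := (h a).1 ha
      have h2 := A17_val_eq_one V _ (hV s) (fun e => hs ((h s).2 e))
      have h3 : V.valuation x ≤ 1 := (V.valuation_le_one_iff x).2 hx
      rw [← hxe, map_mul] at h2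
      have h4 : V.valuation x * V.valuation (algebraMap C K a) < 1 :=
        lt_of_le_of_lt (mul_le_of_le_one_left' h3) h1
      exact absurd h2 (ne_of_lt h4)
    have ha0 : algebraMap C K a ≠ 0 := by
      intro e
      have : a = 0 := hinjK (by rw [e, map_zero])
      rw [this] at ha
      exact ha P.zero_mem
    have hxe' : x = algebraMap C K s * (algebraMap C K a)⁻¹ := by
      rw [eq_mul_inv_iff_mul_eq₀ ha0, hxe]
    rw [hxe']
    refine V'.mul_mem _ _ (hV' s) ?_
    have h1 := A17_val_eq_one V' _ (hV' a) (fun e => ha ((h' a).2 e))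
    rw [← V'.valuation_le_one_iff, map_inv₀, h1, inv_one]

/-- finiteness for Dedekind domains -/
theorem A17_fin {C K : Type} [CommRing C] [IsDedekindDomain C] [Field K] [Algebra C K]
    [IsFractionRing C K] (z : C) (hz : z ≠ 0) :
    {V : ValuationSubring K | (∀ c : C, algebraMap C K c ∈ V) ∧
      V.valuation (algebraMap C K z) < 1}.Finite := by
  have hfin := Ideal.finite_factors (R := C) (I := Ideal.span {z})
    (by rw [Ne, Ideal.zero_eq_bot, Ideal.span_singleton_eq_bot]; exact hz)
  -- the centre
  have hcen : ∀ V : ValuationSubring K, (∀ c : C, algebraMap C K c ∈ V) →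
      V.valuation (algebraMap C K z) < 1 → ∃ P : IsDedekindDomain.HeightOneSpectrum C,
        P.asIdeal ∣ Ideal.span {z} ∧ ∀ c, c ∈ P.asIdeal ↔ V.valuation (algebraMap C K c) < 1 := by
    intro V hV hzV
    let φ : C →+* V := (algebraMap C K).codRestrict V hV
    have hφ : ∀ c, c ∈ Ideal.comap φ (IsLocalRing.maximalIdeal V) ↔
        V.valuation (algebraMap C K c) < 1 := by
      intro c
      rw [Ideal.mem_comap]
      exact V.valuation_lt_one_iff (φ c)
    have hprime : (Ideal.comap φ (IsLocalRing.maximalIdeal V)).IsPrime :=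
      Ideal.comap_isPrime φ _
    refine ⟨⟨Ideal.comap φ (IsLocalRing.maximalIdeal V), hprime, ?_⟩, ?_, hφ⟩
    · intro hbot
      have h1 : z ∈ Ideal.comap φ (IsLocalRing.maximalIdeal V) := (hφ z).2 hzV
      rw [hbot, Ideal.mem_bot] at h1
      exact hz h1
    · rw [Ideal.dvd_span_singleton]
      exact (hφ z).2 hzV
  refine Set.Finite.of_injOn (f := fun V : ValuationSubring K =>
    {c : C | V.valuation (algebraMap C K c) < 1})
    (t := (fun P : IsDedekindDomain.HeightOneSpectrum C => (P.asIdeal : Set C)) ''
      {v | v.asIdeal ∣ Ideal.span {z}}) ?_ ?_ (hfin.image _)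
  · rintro V ⟨hV, hzV⟩
    obtain ⟨P, hP, hPV⟩ := hcen V hV hzV
    refine ⟨P, hP, ?_⟩
    ext c
    exact hPV c
  · rintro V ⟨hV, hzV⟩ V' ⟨hV', hzV'⟩ he
    obtain ⟨P, hP, hPV⟩ := hcen V hV hzV
    have hPV' : ∀ c, c ∈ P.asIdeal ↔ V'.valuation (algebraMap C K c) < 1 := by
      intro c
      rw [hPV c]
      have := Set.ext_iff.1 he c
      exact this
    have := P.isPrime
    exact le_antisymm (A17_det P.asIdeal P.ne_bot V V' hV hV' hPV hPV')
      (A17_det P.asIdeal P.ne_bot V' V hV' hV hPV' hPV)

/-- A function has finitely many zeros. -/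
theorem IsCurve.finite_zeros {B K : Type} [Field B] [CharZero B] [Field K] [Algebra B K]
    (h : IsCurve B K) (z : K) (hz : z ≠ 0) :
    {V : ValuationSubring K | (∀ b : B, algebraMap B K b ∈ V) ∧ V.valuation z < 1}.Finite := by
  by_cases hz1 : IsAlgebraic B z
  · -- no zeros
    have : {V : ValuationSubring K | (∀ b : B, algebraMap B K b ∈ V) ∧ V.valuation z < 1} = ∅ := by
      rw [Set.eq_empty_iff_forall_notMem]
      rintro V ⟨hB, hlt⟩
      have h1 : z⁻¹ ∈ V := mem_of_isAlgebraic B K V hB _ hz1.inv
      have h2 := (V.valuation_le_one_iff z⁻¹).2 h1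
      rw [map_inv₀, inv_le_one₀ (by rw [zero_lt_iff]; exact (map_ne_zero _).2 hz)] at h2
      exact absurd hlt (not_lt.2 h2)
    rw [this]
    exact Set.finite_empty
  · -- transcendental
    have htr : Transcendental B z := hz1
    have halg : Algebra.IsAlgebraic (IntermediateField.adjoin B {z}) K := h.alg z htr
    obtain ⟨s, hs⟩ := h.fg
    have hfd : FiniteDimensional (IntermediateField.adjoin B {z}) K := by
      have h1 : IntermediateField.adjoin (IntermediateField.adjoin B {z}) (s : Set K) = ⊤ := by
        rw [← top_le_iff]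
        intro x _
        have hx : x ∈ IntermediateField.adjoin B (s : Set K) := by
          rw [hs]
          exact IntermediateField.mem_top
        have h2 : IntermediateField.adjoin B (s : Set K) ≤
            (IntermediateField.adjoin (IntermediateField.adjoin B {z})
              (s : Set K)).restrictScalars B := by
          rw [IntermediateField.adjoin_le_iff]
          intro y hy
          exact IntermediateField.subset_adjoin _ _ hy
        exact h2 hx
      have h2 : FiniteDimensional (IntermediateField.adjoin B {z})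
          (IntermediateField.adjoin (IntermediateField.adjoin B {z}) (s : Set K)) :=
        IntermediateField.finiteDimensional_adjoin
          (fun x _ => (Algebra.IsAlgebraic.isAlgebraic x).isIntegral)
      rw [h1] at h2
      exact IntermediateField.topEquiv.toLinearEquiv.finiteDimensional
    -- the polynomial ring
    have hpid : IsPrincipalIdealRing (Algebra.adjoin B {z}) := by
      have hsurj : Function.Surjective
          ((Polynomial.aeval (⟨z, Algebra.self_mem_adjoin_singleton B z⟩ :
            Algebra.adjoin B {z}) : Polynomial B →ₐ[B] Algebra.adjoin B {z}) :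
              Polynomial B →+* Algebra.adjoin B {z}) := by
        rintro ⟨x, hx⟩
        have hx' := hx
        rw [Algebra.adjoin_singleton_eq_range_aeval] at hx'
        obtain ⟨p, hp⟩ := hx'
        refine ⟨p, ?_⟩
        apply Subtype.ext
        rw [RingHom.coe_coe]
        have h3 := Polynomial.aeval_algebraMap_apply K
          (⟨z, Algebra.self_mem_adjoin_singleton B z⟩ : Algebra.adjoin B {z}) p
        change Polynomial.aeval z p = _ at h3
        have hp' : Polynomial.aeval z p = x := hp
        rw [hp'] at h3
        exact h3.symm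
      exact IsPrincipalIdealRing.of_surjective _ hsurj
    have hded0 : IsDedekindDomain (Algebra.adjoin B {z}) := inferInstance
    have hded : IsDedekindDomain (integralClosure (Algebra.adjoin B {z}) K) :=
      integralClosure.isDedekindDomain (Algebra.adjoin B {z}) (IntermediateField.adjoin B {z}) K
    have hfr : IsFractionRing (integralClosure (Algebra.adjoin B {z}) K) K :=
      integralClosure.isFractionRing_of_finite_extension (IntermediateField.adjoin B {z}) K
    let z' : integralClosure (Algebra.adjoin B {z}) K :=
      algebraMap (Algebra.adjoin B {z}) (integralClosure (Algebra.adjoin B {z}) K)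
        ⟨z, Algebra.self_mem_adjoin_singleton B z⟩
    have hz' : algebraMap (integralClosure (Algebra.adjoin B {z}) K) K z' = z := rfl
    have hz0' : z' ≠ 0 := by
      intro e
      apply hz
      rw [← hz', e, map_zero]
    refine (A17_fin (K := K) z' hz0').subset ?_
    rintro V ⟨hB, hlt⟩
    have hzV : z ∈ V := (V.valuation_le_one_iff z).1 hlt.le
    have hA : ∀ a : Algebra.adjoin B {z}, (a : K) ∈ V := by
      rintro ⟨a, ha⟩
      have h1 : Algebra.adjoin B {z} ≤ (⟨V.toSubring.toSubsemiring, hB⟩ : Subalgebra B K) := by
        rw [Algebra.adjoin_le_iff]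
        intro y hy
        rw [Set.mem_singleton_iff] at hy
        rw [hy]
        exact hzV
      exact h1 ha
    refine ⟨?_, by rw [hz']; exact hlt⟩
    rintro ⟨c, hc⟩
    show c ∈ V
    obtain ⟨f, hf, hf0⟩ := hc
    let ρ : Algebra.adjoin B {z} →+* V :=
      (algebraMap (Algebra.adjoin B {z}) K).codRestrict V hA
    have h2 : IsIntegral V c := by
      refine ⟨f.map ρ, hf.map ρ, ?_⟩
      rw [Polynomial.eval₂_map]
      exact hf0
    obtain ⟨y, hy⟩ := IsIntegrallyClosed.isIntegral_iff.mp h2
    rw [← hy]
    exact y.2

end Pool.Agent.LibHP
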