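import Pool.Agent.LibHP4.A4

set_option autoImplicit false

namespace Pool.Agent.LibHP

/-- the polynomial expressions of a plane cubic are natural -/
theorem A18_map {R S : Type} [CommRing R] [CommRing S] (f : R →+* S) (c : Fin 10 → R) (x y : R) :
    f (cuF c x y) = cuF (fun i => f (c i)) (f x) (f y) ∧
    f (cuX c x y) = cuX (fun i => f (c i)) (f x) (f y) ∧
    f (cuY c x y) = cuY (fun i => f (c i)) (f x) (f y) ∧
    f (cuQ2 c x y) = cuQ2 (fun i => f (c i)) (f x) (f y) ∧
    f (cuQ3 c x y) = cuQ3 (fun i => f (c i)) (f x) (f y) := by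
  refine ⟨?_, ?_, ?_, ?_, ?_⟩ <;>
  simp only [cuF, cuX, cuY, cuQ2, cuQ3, cuXX, cuXY, cuYY, map_add, map_mul, map_pow, map_sub,
    map_neg, map_ofNat]

/-- Two homomorphisms from the function field agreeing on the constants, `x` and `y`. -/
theorem A18_ext (B K L : Type) [Field B] [Field K] [Field L] [Algebra B K] (x w : K)
    (hgen : IntermediateField.adjoin B {x, w} = ⊤) (f g : K →+* L)
    (h0 : ∀ b, f (algebraMap B K b) = g (algebraMap B K b)) (hx : f x = g x) (hw : f w = g w)
    (z : K) : f z = g z := by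
  have hz : z ∈ IntermediateField.adjoin B {x, w} := by
    rw [hgen]
    exact IntermediateField.mem_top
  refine IntermediateField.adjoin_induction B (p := fun z _ => f z = g z) ?_ ?_ ?_ ?_ ?_ hz
  · intro y hy
    rcases hy with rfl | hy
    · exact hx
    · rw [Set.mem_singleton_iff] at hy
      rw [hy]
      exact hw
  · exact h0
  · intro y z _ _ h1 h2
    rw [map_add, map_add, h1, h2]
  · intro y _ h1
    rw [map_inv₀, map_inv₀, h1]
  · intro y z _ _ h1 h2
    rw [map_mul, map_mul, h1, h2]

/-- Extension of the constants, without the endomorphism. -/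
theorem A18_curve (B K : Type) [Field B] [Field K] [Algebra B K]
    (c : Fin 10 → B) (x y : K) (h : PCurve B K c x y) :
    ∃ (Ω : Type) (_ : Field Ω) (_ : Algebra B Ω) (KK : Type) (_ : Field KK) (_ : Algebra Ω KK)
      (φ : K →+* KK), IsAlgClosed Ω ∧ Algebra.IsAlgebraic B Ω ∧
      (∀ b : B, φ (algebraMap B K b) = algebraMap Ω KK (algebraMap B Ω b)) ∧
      (∀ z : K, Transcendental B z → Transcendental Ω (φ z)) ∧
      PCurve Ω KK (fun i => algebraMap B Ω (c i)) (φ x) (φ y) := by
  obtain ⟨x', hx'⟩ : ∃ x' : AlgebraicClosure K, x' = algebraMap K (AlgebraicClosure K) x := ⟨_, rfl⟩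
  obtain ⟨w', hw'⟩ : ∃ w' : AlgebraicClosure K, w' = algebraMap K (AlgebraicClosure K) y := ⟨_, rfl⟩
  let Ω : IntermediateField B (AlgebraicClosure K) := algebraicClosure B (AlgebraicClosure K)
  let KK : IntermediateField Ω (AlgebraicClosure K) := IntermediateField.adjoin Ω {x', w'}
  have hxK : x' ∈ KK := IntermediateField.subset_adjoin Ω _ (Set.mem_insert _ _)
  have hwK : w' ∈ KK := IntermediateField.subset_adjoin Ω _ (Set.mem_insert_of_mem _ rfl)
  have hBK : ∀ b : B, algebraMap K (AlgebraicClosure K) (algebraMap B K b) ∈ KK := by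
    intro b
    rw [← IsScalarTower.algebraMap_apply B K (AlgebraicClosure K)]
    exact KK.algebraMap_mem (algebraMap B Ω b)
  have hKK : ∀ z : K, algebraMap K (AlgebraicClosure K) z ∈ KK := by
    intro z
    have hz : z ∈ IntermediateField.adjoin B {x, y} := by
      rw [h.gen]
      exact IntermediateField.mem_top
    refine IntermediateField.adjoin_induction B
      (p := fun z _ => algebraMap K (AlgebraicClosure K) z ∈ KK) ?_ hBK ?_ ?_ ?_ hz
    · intro y hy
      rcases hy with rfl | hy
      · rw [← hx']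
        exact hxK
      · rw [Set.mem_singleton_iff] at hy
        rw [hy, ← hw']
        exact hwK
    · intro y z _ _ h1 h2
      rw [map_add]
      exact add_mem h1 h2
    · intro y _ h1
      rw [map_inv₀]
      exact inv_mem h1
    · intro y z _ _ h1 h2
      rw [map_mul]
      exact mul_mem h1 h2
  let ρ : K →+* KK := (algebraMap K (AlgebraicClosure K)).codRestrict KK.toSubring hKK
  have hρ : ∀ z, ((ρ z : KK) : AlgebraicClosure K) = algebraMap K (AlgebraicClosure K) z :=
    fun _ => rfl
  have hρB : ∀ b : B, ρ (algebraMap B K b) = algebraMap Ω KK (algebraMap B Ω b) := by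
    intro b
    apply Subtype.ext
    rw [hρ, ← IsScalarTower.algebraMap_apply B K (AlgebraicClosure K)]
    rfl
  have halgc : IsAlgClosure B Ω := algebraicClosure.isAlgClosure B (AlgebraicClosure K)
  have htr : ∀ z : K, Transcendental B z → Transcendental Ω (ρ z) := by
    intro z hz halg
    apply hz
    have h1 : IsAlgebraic Ω (algebraMap K (AlgebraicClosure K) z) := by
      have := halg.algebraMap (A := AlgebraicClosure K)
      exact this
    have h2 : IsAlgebraic B (algebraMap K (AlgebraicClosure K) z) := by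
      have : Algebra.IsAlgebraic B Ω := algebraicClosure.isAlgebraic B (AlgebraicClosure K)
      exact IsAlgebraic.restrictScalars B h1
    exact (isAlgebraic_algebraMap_iff (algebraMap K (AlgebraicClosure K)).injective).1 h2
  have hcurve : PCurve Ω KK (fun i => algebraMap B Ω (c i)) (ρ x) (ρ y) := by
    refine ⟨⟨?_, ?_, h.smooth.map⟩, ?_⟩
    · rcases h.tr with h1 | h1
      · exact Or.inl (htr _ h1)
      · exact Or.inr (htr _ h1)
    · have h1 := congrArg ρ h.eq
      rw [map_zero, (A18_map ρ _ _ _).1] at h1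
      have hc : (fun i => algebraMap Ω KK (algebraMap B Ω (c i))) =
          fun i => ρ (algebraMap B K (c i)) := funext fun i => (hρB (c i)).symm
      rw [hc]
      exact h1
    · apply IntermediateField.lift_injective KK
      rw [IntermediateField.lift_adjoin, IntermediateField.lift_top]
      congr 1
      rw [Set.image_pair]
      change ({algebraMap K (AlgebraicClosure K) x, algebraMap K (AlgebraicClosure K) y} :
        Set (AlgebraicClosure K)) = {x', w'}
      rw [hx', hw']
  exact ⟨Ω, inferInstance, inferInstance, KK, inferInstance, inferInstance, ρ,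
    halgc.isAlgClosed, algebraicClosure.isAlgebraic B (AlgebraicClosure K), hρB, htr, hcurve⟩

/-- Extension of the base field to its algebraic closure. -/
theorem PMove.exists_geometric {B K : Type} [Field B] [CharZero B] [Field K] [Algebra B K]
    {c : Fin 10 → B} {x y : K} {D : K →ₐ[B] K} (h : PMove B K c x y D) :
    ∃ (Ω : Type) (_ : Field Ω) (_ : Algebra B Ω) (KK : Type) (_ : Field KK) (_ : Algebra Ω KK)
      (φ : K →+* KK) (D' : KK →ₐ[Ω] KK),
      IsAlgClosed Ω ∧ CharZero Ω ∧ Algebra.IsAlgebraic B Ω ∧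
      (∀ b : B, φ (algebraMap B K b) = algebraMap Ω KK (algebraMap B Ω b)) ∧
      (∀ z : K, D' (φ z) = φ (D z)) ∧
      PMove Ω KK (fun i => algebraMap B Ω (c i)) (φ x) (φ y) D' := by
  obtain ⟨Ω, iΩ, iBΩ, KK, iKK, iΩKK, φ, h1, h2, h3, h4, h5⟩ := A18_curve B K c x y h.toPCurve
  have hcΩ : CharZero Ω := charZero_of_injective_algebraMap (algebraMap B Ω).injective
  have hc : (fun i => φ (algebraMap B K (c i))) =
      fun i => algebraMap Ω KK (algebraMap B Ω (c i)) := by
    funext i
    exact h3 (c i)
  have hDtr : ∀ z : K, Transcendental B z → Transcendental B (D z) := fun z hz halg =>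
    hz ((isAlgebraic_algHom_iff D (D : K →+* K).injective).mp halg)
  have hP : PPoint Ω KK (fun i => algebraMap B Ω (c i)) (φ (D x)) (φ (D y)) := by
    refine ⟨?_, ?_, h.smooth.map⟩
    · exact Or.inl (h4 _ (hDtr _ h.trx))
    · have e1 := congrArg (fun z => φ (D z)) h.eq
      simp only [map_zero] at e1
      have e2 : D (cuF (fun i => algebraMap B K (c i)) x y) =
          cuF (fun i => algebraMap B K (c i)) (D x) (D y) := by
        have := (A18_map (D : K →+* K) (fun i => algebraMap B K (c i)) x y).1
        simp only [RingHom.coe_coe, AlgHom.commutes] at this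
        exact this
      rw [e2, (A18_map φ _ _ _).1, hc] at e1
      exact e1
  obtain ⟨D', hD1, hD2⟩ := h5.exists_hom _ _ hP
  obtain ⟨_, mX, mY, m2, m3⟩ := A18_map φ (fun i => algebraMap B K (c i)) x y
  rw [hc] at mX mY m2 m3
  refine ⟨Ω, iΩ, iBΩ, KK, iKK, iΩKK, φ, D', h1, hcΩ, h2, h3, ?_, ⟨h5, ?_, ?_, ?_⟩⟩
  · refine A18_ext B K KK x y h.gen ((D' : KK →+* KK).comp φ) (φ.comp (D : K →+* K)) ?_ ?_ ?_
    · intro b
      change D' (φ (algebraMap B K b)) = φ (D (algebraMap B K b))
      rw [D.commutes, h3, D'.commutes]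
    · exact hD1
    · exact hD2
  · rw [← m3]
    exact (_root_.map_ne_zero φ).2 h.q3
  · rw [hD1, ← m3, ← m2, ← mY, ← map_sub, ← map_mul, ← map_mul, h.d1]
  · rw [hD2, ← m3, ← m2, ← mX, ← map_sub, ← map_mul, ← map_mul, ← map_neg, h.d2]

end Pool.Agent.LibHP
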