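import Pool.Agent.LibHP4.A3

set_option autoImplicit false

namespace Pool.Agent.LibHP

theorem A7_swap_F {R : Type} [CommRing R] (c : Fin 10 → R) (x y : R) :
    cuF (cuSwap c) y x = cuF c x y := by
  simp only [cuF, cuSwap, Matrix.cons_val]
  ring

theorem A7_swap_X {R : Type} [CommRing R] (c : Fin 10 → R) (x y : R) :
    cuX (cuSwap c) y x = cuY c x y := by
  simp only [cuX, cuY, cuSwap, Matrix.cons_val]
  ring

theorem A7_swap_Y {R : Type} [CommRing R] (c : Fin 10 → R) (x y : R) :
    cuY (cuSwap c) y x = cuX c x y := by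
  simp only [cuX, cuY, cuSwap, Matrix.cons_val]
  ring

theorem A7_swap_map {R S : Type} [CommRing R] [CommRing S] (f : R → S) (c : Fin 10 → R) :
    (fun i => f (cuSwap c i)) = cuSwap (fun i => f (c i)) := by
  funext i
  fin_cases i <;> rfl

theorem A7_inv_map {R S : Type} [CommRing R] [CommRing S] (f : R → S) (c : Fin 10 → R) :
    (fun i => f (cuInv c i)) = cuInv (fun i => f (c i)) := by
  funext i
  fin_cases i <;> rfl

theorem A7_swap_G {R : Type} [CommRing R] (c : Fin 10 → R) (e : Fin 3 → R) :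
    cuG c ![e 0, e 2, e 1] 0 = cuG (cuSwap c) e 0 ∧ cuG c ![e 0, e 2, e 1] 1 = cuG (cuSwap c) e 2 ∧
      cuG c ![e 0, e 2, e 1] 2 = cuG (cuSwap c) e 1 := by
  simp only [cuG, cuSwap, Matrix.cons_val]
  refine ⟨?_, ?_, ?_⟩ <;> ring

theorem A7_inv_G {R : Type} [CommRing R] (c : Fin 10 → R) (e : Fin 3 → R) :
    cuG c ![e 1, e 0, e 2] 0 = cuG (cuInv c) e 1 ∧ cuG c ![e 1, e 0, e 2] 1 = cuG (cuInv c) e 0 ∧
      cuG c ![e 1, e 0, e 2] 2 = cuG (cuInv c) e 2 := by
  simp only [cuG, cuInv, Matrix.cons_val]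
  refine ⟨?_, ?_, ?_⟩ <;> ring

theorem A7_inv_F {K : Type} [Field K] (c : Fin 10 → K) (x y : K) (hx : x ≠ 0) :
    cuF (cuInv c) x⁻¹ (y / x) * x ^ 3 = cuF c x y := by
  simp only [cuF, cuInv, Matrix.cons_val]
  field_simp
  ring

theorem A7_inv_Y {K : Type} [Field K] (c : Fin 10 → K) (x y : K) (hx : x ≠ 0) :
    cuY (cuInv c) x⁻¹ (y / x) * x ^ 2 = cuY c x y := by
  simp only [cuY, cuInv, Matrix.cons_val]
  field_simp
  ring

theorem A7_inv_X {K : Type} [Field K] (c : Fin 10 → K) (x y : K) (hx : x ≠ 0) :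
    cuX (cuInv c) x⁻¹ (y / x) * x ^ 2 = 3 * cuF c x y - x * cuX c x y - y * cuY c x y := by
  simp only [cuX, cuY, cuF, cuInv, Matrix.cons_val]
  field_simp
  ring

theorem A7_smooth_swap {B : Type} [Field B] {c : Fin 10 → B} (h : CubicSmooth c) :
    CubicSmooth (cuSwap c) := by
  intro e he
  have he' : (![e 0, e 2, e 1] : Fin 3 → AlgebraicClosure B) ≠ 0 := by
    intro h0
    apply he
    have h1 := congrFun h0 0
    have h2 := congrFun h0 1
    have h3 := congrFun h0 2
    funext i
    fin_cases i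
    · exact h1
    · exact h3
    · exact h2
  obtain ⟨i, hi⟩ := h _ he'
  rw [A7_swap_map]
  obtain ⟨g0, g1, g2⟩ := A7_swap_G (fun j => algebraMap B (AlgebraicClosure B) (c j)) e
  fin_cases i
  · exact ⟨0, fun h => hi (g0.trans h)⟩
  · exact ⟨2, fun h => hi (g1.trans h)⟩
  · exact ⟨1, fun h => hi (g2.trans h)⟩

theorem A7_smooth_inv {B : Type} [Field B] {c : Fin 10 → B} (h : CubicSmooth c) :
    CubicSmooth (cuInv c) := by
  intro e he
  have he' : (![e 1, e 0, e 2] : Fin 3 → AlgebraicClosure B) ≠ 0 := by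
    intro h0
    apply he
    have h1 := congrFun h0 0
    have h2 := congrFun h0 1
    have h3 := congrFun h0 2
    funext i
    fin_cases i
    · exact h2
    · exact h1
    · exact h3
  obtain ⟨i, hi⟩ := h _ he'
  rw [A7_inv_map]
  obtain ⟨g0, g1, g2⟩ := A7_inv_G (fun j => algebraMap B (AlgebraicClosure B) (c j)) e
  fin_cases i
  · exact ⟨1, fun h => hi (g0.trans h)⟩
  · exact ⟨0, fun h => hi (g1.trans h)⟩
  · exact ⟨2, fun h => hi (g2.trans h)⟩

/-- Exchange of the coordinates. -/
theorem PCurve.swap {B K : Type} [Field B] [CharZero B] [Field K] [Algebra B K]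
    {c : Fin 10 → B} {x y : K} (h : PCurve B K c x y) : PCurve B K (cuSwap c) y x where
  tr := h.tr.symm
  eq := by
    rw [A7_swap_map, A7_swap_F]
    exact h.eq
  smooth := A7_smooth_swap h.smooth
  gen := by
    rw [Set.pair_comm]
    exact h.gen

theorem IsFlow.swap {B K : Type} [Field B] [CharZero B] [Field K] [Algebra B K]
    {c : Fin 10 → B} {x y : K} {δ : Derivation B K K}
    (hδ : IsFlow B K c x y δ) : IsFlow B K (cuSwap c) y x (-δ) := by
  obtain ⟨h1, h2⟩ := hδ
  constructor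
  · rw [A7_swap_map, A7_swap_Y, Derivation.neg_apply, h2, neg_neg]
  · rw [A7_swap_map, A7_swap_X, Derivation.neg_apply, h1]

/-- The coordinates near a point at infinity. -/
theorem PCurve.inv {B K : Type} [Field B] [CharZero B] [Field K] [Algebra B K]
    {c : Fin 10 → B} {x y : K} (h : PCurve B K c x y) : PCurve B K (cuInv c) x⁻¹ (y / x) := by
  have htx : Transcendental B x := h.toPPoint.trx
  have hx : x ≠ 0 := by
    rintro rfl
    exact htx isAlgebraic_zero
  refine ⟨⟨Or.inl ?_, ?_, A7_smooth_inv h.smooth⟩, ?_⟩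
  · intro hal
    apply htx
    rw [← inv_inv x]
    exact hal.inv
  · rw [A7_inv_map]
    have h1 := A7_inv_F (fun i => algebraMap B K (c i)) x y hx
    have h2 := h.eq
    rw [h2] at h1
    exact (mul_eq_zero.1 h1).resolve_right (pow_ne_zero 3 hx)
  · rw [eq_top_iff, ← h.gen, IntermediateField.adjoin_le_iff]
    have hx' : x⁻¹ ∈ IntermediateField.adjoin B {x⁻¹, y / x} :=
      IntermediateField.subset_adjoin _ _ (Set.mem_insert _ _)
    have hy' : y / x ∈ IntermediateField.adjoin B {x⁻¹, y / x} :=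
      IntermediateField.subset_adjoin _ _ (Set.mem_insert_of_mem _ rfl)
    have hx1 : x ∈ IntermediateField.adjoin B {x⁻¹, y / x} := by
      have h1 := inv_mem hx'
      rwa [inv_inv] at h1
    intro z hz
    rcases hz with rfl | hz
    · exact hx1
    · rw [Set.mem_singleton_iff] at hz
      have h1 := mul_mem hy' hx1
      rw [div_mul_cancel₀ y hx] at h1
      rw [hz]
      exact h1

theorem IsFlow.inv {B K : Type} [Field B] [CharZero B] [Field K] [Algebra B K]
    {c : Fin 10 → B} {x y : K} (h : PCurve B K c x y) {δ : Derivation B K K}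
    (hδ : IsFlow B K c x y δ) : IsFlow B K (cuInv c) x⁻¹ (y / x) (-δ) := by
  have htx : Transcendental B x := h.toPPoint.trx
  have hx : x ≠ 0 := by
    rintro rfl
    exact htx isAlgebraic_zero
  obtain ⟨h1, h2⟩ := hδ
  have hx2 : x ^ 2 ≠ 0 := pow_ne_zero 2 hx
  constructor
  · rw [A7_inv_map, Derivation.neg_apply, Derivation.leibniz_inv, h1, smul_eq_mul]
    have e1 := A7_inv_Y (fun i => algebraMap B K (c i)) x y hx
    rw [← e1]
    field_simp
  · rw [A7_inv_map, Derivation.neg_apply, Derivation.leibniz_div, h1, h2]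
    simp only [smul_eq_mul]
    have e1 := A7_inv_X (fun i => algebraMap B K (c i)) x y hx
    have e2 := h.eq
    rw [e2] at e1
    have e3 : cuX (cuInv fun i => algebraMap B K (c i)) x⁻¹ (y / x) =
        (x ^ 2)⁻¹ * (3 * 0 - x * cuX (fun i => algebraMap B K (c i)) x y -
          y * cuY (fun i => algebraMap B K (c i)) x y) := by
      rw [← e1]
      field_simp
    rw [e3]
    ring

end Pool.Agent.LibHP
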