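import Pool.Agent.LibHP4.A6
import Pool.Agent.LibHP4.A7

set_option autoImplicit false

namespace Pool.Agent.LibHP

private theorem A8_mem {B K : Type} [Field B] [Field K] [Algebra B K] (x y : K)
    (V : ValuationSubring K) (hB : ∀ b : B, algebraMap B K b ∈ V) (hx : x ∈ V) (hy : y ∈ V)
    (a : K) (ha : a ∈ Algebra.adjoin B {x, y}) : a ∈ V := by
  refine Algebra.adjoin_induction (p := fun a _ => a ∈ V) ?_ ?_ ?_ ?_ ha
  · rintro z (rfl | hz)
    · exact hx
    · rw [Set.mem_singleton_iff] at hz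
      rw [hz]
      exact hy
  · exact hB
  · intro a b _ _ h1 h2
    exact V.add_mem _ _ h1 h2
  · intro a b _ _ h1 h2
    exact V.mul_mem _ _ h1 h2

private theorem A8_cuY {B K : Type} [Field B] [Field K] [Algebra B K] (c : Fin 10 → B) (x y : K) :
    cuY (fun i => algebraMap B K (c i)) x y ∈ Algebra.adjoin B {x, y} := by
  have hx : x ∈ Algebra.adjoin B {x, y} := Algebra.subset_adjoin (Set.mem_insert x {y})
  have hy : y ∈ Algebra.adjoin B {x, y} := Algebra.subset_adjoin (Set.mem_insert_of_mem x rfl)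
  have hc : ∀ i, algebraMap B K (c i) ∈ Algebra.adjoin B {x, y} :=
    fun i => Subalgebra.algebraMap_mem _ _
  have hn : ∀ n : ℕ, (n : K) ∈ Algebra.adjoin B {x, y} := fun n => natCast_mem _ n
  have h2 : (2 : K) ∈ Algebra.adjoin B {x, y} := by exact_mod_cast hn 2
  have h3 : (3 : K) ∈ Algebra.adjoin B {x, y} := by exact_mod_cast hn 3
  unfold cuY
  exact add_mem (add_mem (add_mem (add_mem (add_mem (hc 2) (mul_mem (hc 4) hx))
    (mul_mem (mul_mem h2 (hc 5)) hy)) (mul_mem (hc 7) (pow_mem hx 2)))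
    (mul_mem (mul_mem (mul_mem h2 (hc 8)) hx) hy)) (mul_mem (mul_mem h3 (hc 9)) (pow_mem hy 2))

private theorem A8_cuX {B K : Type} [Field B] [Field K] [Algebra B K] (c : Fin 10 → B) (x y : K) :
    cuX (fun i => algebraMap B K (c i)) x y ∈ Algebra.adjoin B {x, y} := by
  have hx : x ∈ Algebra.adjoin B {x, y} := Algebra.subset_adjoin (Set.mem_insert x {y})
  have hy : y ∈ Algebra.adjoin B {x, y} := Algebra.subset_adjoin (Set.mem_insert_of_mem x rfl)
  have hc : ∀ i, algebraMap B K (c i) ∈ Algebra.adjoin B {x, y} :=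
    fun i => Subalgebra.algebraMap_mem _ _
  have hn : ∀ n : ℕ, (n : K) ∈ Algebra.adjoin B {x, y} := fun n => natCast_mem _ n
  have h2 : (2 : K) ∈ Algebra.adjoin B {x, y} := by exact_mod_cast hn 2
  have h3 : (3 : K) ∈ Algebra.adjoin B {x, y} := by exact_mod_cast hn 3
  unfold cuX
  exact add_mem (add_mem (add_mem (add_mem (add_mem (hc 1) (mul_mem (mul_mem h2 (hc 3)) hx))
    (mul_mem (hc 4) hy)) (mul_mem (mul_mem h3 (hc 6)) (pow_mem hx 2)))
    (mul_mem (mul_mem (mul_mem h2 (hc 7)) hx) hy)) (mul_mem (hc 8) (pow_mem hy 2))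

private theorem A8_swap {B K : Type} [Field B] [Field K] [Algebra B K] (c : Fin 10 → B) (x y : K) :
    cuY (fun i => algebraMap B K (cuSwap c i)) y x = cuX (fun i => algebraMap B K (c i)) x y := by
  simp only [cuY, cuX, cuSwap]
  simp
  ring

/-- the derivation maps the coordinate ring to itself -/
private theorem A8_der_mem {B K : Type} [Field B] [Field K] [Algebra B K]
    {c : Fin 10 → B} {x y : K} {δ : Derivation B K K}
    (hδ : IsFlow B K c x y δ) (a : K) (ha : a ∈ Algebra.adjoin B {x, y}) :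
    δ a ∈ Algebra.adjoin B {x, y} := by
  refine Algebra.adjoin_induction (p := fun a _ => δ a ∈ Algebra.adjoin B {x, y}) ?_ ?_ ?_ ?_ ha
  · rintro z (hz | hz)
    · rw [hz, hδ.1]
      exact A8_cuY c x y
    · rw [Set.mem_singleton_iff] at hz
      rw [hz, hδ.2]
      exact neg_mem (A8_cuX c x y)
  · intro b
    rw [Derivation.map_algebraMap]
    exact zero_mem _
  · intro a b _ _ h1 h2
    rw [map_add]
    exact add_mem h1 h2
  · intro a b ha hb h1 h2
    rw [Derivation.leibniz, smul_eq_mul, smul_eq_mul]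
    exact add_mem (mul_mem ha h2) (mul_mem hb h1)

private theorem A8_affY {B K : Type} [Field B] [CharZero B] [Field K] [Algebra B K]
    {c : Fin 10 → B} {x y : K} (h : PCurve B K c x y) {δ : Derivation B K K}
    (hδ : IsFlow B K c x y δ) (V : ValuationSubring K)
    (hB : ∀ b : B, algebraMap B K b ∈ V) (hV : V ≠ ⊤) (hx : x ∈ V) (hy : y ∈ V)
    (hu : V.valuation (cuY (fun i => algebraMap B K (c i)) x y) = 1) :
    (∀ z ∈ V, δ z ∈ V) ∧ ∃ t : K, IsUnif V t ∧ V.valuation (δ t) = 1 := by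
  obtain ⟨hloc, p, hp, hp'⟩ := h.local_ring V hB hV hx hy hu
  refine ⟨?_, Polynomial.aeval x p, hp, ?_⟩
  · intro z hz
    obtain ⟨a, ha, b, hb, hvb, hzb⟩ := hloc z hz
    have hb0 : b ≠ 0 := by
      rintro rfl
      rw [map_zero] at hvb
      exact zero_ne_one hvb
    have h1 : δ z = (δ a - z * δ b) * b⁻¹ := by
      have h2 := congrArg δ hzb
      rw [Derivation.leibniz, smul_eq_mul, smul_eq_mul] at h2
      rw [eq_mul_inv_iff_mul_eq₀ hb0]
      linear_combination h2
    rw [h1]
    have hbinv : b⁻¹ ∈ V := by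
      rw [← V.valuation_le_one_iff, map_inv₀, hvb, inv_one]
    exact V.mul_mem _ _ (V.toSubring.sub_mem (A8_mem x y V hB hx hy _ (A8_der_mem hδ a ha))
      (V.mul_mem _ _ hz (A8_mem x y V hB hx hy _ (A8_der_mem hδ b hb)))) hbinv
  · rw [Derivation.map_aeval, smul_eq_mul, map_mul, hp', hδ.1, hu, one_mul]

private theorem A8_neg {B K : Type} [Field B] [Field K] [Algebra B K] {δ : Derivation B K K}
    (V : ValuationSubring K)
    (h : (∀ z ∈ V, (-δ) z ∈ V) ∧ ∃ t : K, IsUnif V t ∧ V.valuation ((-δ) t) = 1) :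
    (∀ z ∈ V, δ z ∈ V) ∧ ∃ t : K, IsUnif V t ∧ V.valuation (δ t) = 1 := by
  obtain ⟨h1, t, ht, h2⟩ := h
  refine ⟨fun z hz => ?_, t, ht, ?_⟩
  · have h3 := h1 z hz
    rw [Derivation.neg_apply] at h3
    have h4 := V.neg_mem _ h3
    rwa [neg_neg] at h4
  · rw [Derivation.neg_apply, Valuation.map_neg] at h2
    exact h2

private theorem A8_aff {B K : Type} [Field B] [CharZero B] [Field K] [Algebra B K]
    {c : Fin 10 → B} {x y : K} (h : PCurve B K c x y) {δ : Derivation B K K}
    (hδ : IsFlow B K c x y δ) (V : ValuationSubring K)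
    (hB : ∀ b : B, algebraMap B K b ∈ V) (hV : V ≠ ⊤) (hx : x ∈ V) (hy : y ∈ V) :
    (∀ z ∈ V, δ z ∈ V) ∧ ∃ t : K, IsUnif V t ∧ V.valuation (δ t) = 1 := by
  rcases h.unit_at V hB hx hy with hu | hu
  · exact A8_neg V (A8_affY h.swap hδ.swap V hB hV hy hx (by rw [A8_swap]; exact hu))
  · exact A8_affY h hδ V hB hV hx hy hu

private theorem A8_inf {B K : Type} [Field B] [CharZero B] [Field K] [Algebra B K]
    {c : Fin 10 → B} {x y : K} (h : PCurve B K c x y) {δ : Derivation B K K}
    (hδ : IsFlow B K c x y δ) (V : ValuationSubring K)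
    (hB : ∀ b : B, algebraMap B K b ∈ V) (hV : V ≠ ⊤) (hx : x⁻¹ ∈ V) (hy : y / x ∈ V) :
    (∀ z ∈ V, δ z ∈ V) ∧ ∃ t : K, IsUnif V t ∧ V.valuation (δ t) = 1 :=
  A8_neg V (A8_aff h.inv (IsFlow.inv h hδ) V hB hV hx hy)

/-- The derivation of a smooth plane cubic is a regular vector field without zeros. -/
theorem PCurve.regDer {B K : Type} [Field B] [CharZero B] [Field K] [Algebra B K]
    {c : Fin 10 → B} {x y : K} (h : PCurve B K c x y) {δ : Derivation B K K}
    (hδ : IsFlow B K c x y δ) : RegDer B K δ := by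
  intro V hB hV
  by_cases hx : x ∈ V
  · by_cases hy : y ∈ V
    · exact A8_aff h hδ V hB hV hx hy
    · have hy' : y⁻¹ ∈ V := (V.mem_or_inv_mem y).resolve_left hy
      exact A8_neg V (A8_inf h.swap hδ.swap V hB hV hy' (by rw [div_eq_mul_inv]; exact V.mul_mem _ _ hx hy'))
  · have hx' : x⁻¹ ∈ V := (V.mem_or_inv_mem x).resolve_left hx
    by_cases hyx : y / x ∈ V
    · exact A8_inf h hδ V hB hV hx' hyx
    · have hxy : x / y ∈ V := by
        have h1 := (V.mem_or_inv_mem (y / x)).resolve_left hyx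
        rwa [inv_div] at h1
      have hy : y ∉ V := fun hy => hyx (by rw [div_eq_mul_inv]; exact V.mul_mem _ _ hy hx')
      have hy' : y⁻¹ ∈ V := (V.mem_or_inv_mem y).resolve_left hy
      exact A8_neg V (A8_inf h.swap hδ.swap V hB hV hy' hxy)

/-- elements of the coordinate ring have a value in `B` at a rational centre -/
private theorem A8_val {B K : Type} [Field B] [Field K] [Algebra B K] (x y : K) (e₁ e₂ : B)
    (V V' : ValuationSubring K)
    (hB : ∀ b : B, algebraMap B K b ∈ V) (hB' : ∀ b : B, algebraMap B K b ∈ V')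
    (h1 : V.valuation (x - algebraMap B K e₁) < 1) (h2 : V.valuation (y - algebraMap B K e₂) < 1)
    (h1' : V'.valuation (x - algebraMap B K e₁) < 1)
    (h2' : V'.valuation (y - algebraMap B K e₂) < 1)
    (a : K) (ha : a ∈ Algebra.adjoin B {x, y}) :
    ∃ e : B, V.valuation (a - algebraMap B K e) < 1 ∧ V'.valuation (a - algebraMap B K e) < 1 := by
  have hadd : ∀ (W : ValuationSubring K) (a b : K) (e f : B),
      W.valuation (a - algebraMap B K e) < 1 → W.valuation (b - algebraMap B K f) < 1 →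
      W.valuation (a + b - algebraMap B K (e + f)) < 1 := by
    intro W a b e f ha hb
    have h3 : a + b - algebraMap B K (e + f) = (a - algebraMap B K e) + (b - algebraMap B K f) := by
      rw [map_add]
      ring
    rw [h3]
    exact lt_of_le_of_lt (W.valuation.map_add _ _) (max_lt ha hb)
  have hmul : ∀ (W : ValuationSubring K) (_ : ∀ b : B, algebraMap B K b ∈ W) (a b : K) (e f : B),
      W.valuation (a - algebraMap B K e) < 1 → W.valuation (b - algebraMap B K f) < 1 →
      W.valuation (a * b - algebraMap B K (e * f)) < 1 := by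
    intro W hW a b e f ha hb
    have h3 : a * b - algebraMap B K (e * f) =
        (a - algebraMap B K e) * (b - algebraMap B K f) +
          (algebraMap B K e * (b - algebraMap B K f) +
            algebraMap B K f * (a - algebraMap B K e)) := by
      rw [map_mul]
      ring
    rw [h3]
    have h4 : W.valuation ((a - algebraMap B K e) * (b - algebraMap B K f)) < 1 := by
      rw [map_mul]
      exact lt_of_le_of_lt (mul_le_of_le_one_left' ha.le) hb
    have h5 : W.valuation (algebraMap B K e * (b - algebraMap B K f)) < 1 := by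
      rw [map_mul]
      exact lt_of_le_of_lt (mul_le_of_le_one_left' ((W.valuation_le_one_iff _).2 (hW e))) hb
    have h6 : W.valuation (algebraMap B K f * (a - algebraMap B K e)) < 1 := by
      rw [map_mul]
      exact lt_of_le_of_lt (mul_le_of_le_one_left' ((W.valuation_le_one_iff _).2 (hW f))) ha
    exact lt_of_le_of_lt (W.valuation.map_add _ _)
      (max_lt h4 (lt_of_le_of_lt (W.valuation.map_add _ _) (max_lt h5 h6)))
  refine Algebra.adjoin_induction (p := fun a _ => ∃ e : B, V.valuation (a - algebraMap B K e) < 1 ∧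
    V'.valuation (a - algebraMap B K e) < 1) ?_ ?_ ?_ ?_ ha
  · rintro z (hz | hz)
    · rw [hz]
      exact ⟨e₁, h1, h1'⟩
    · rw [Set.mem_singleton_iff] at hz
      rw [hz]
      exact ⟨e₂, h2, h2'⟩
  · intro b
    refine ⟨b, ?_, ?_⟩
    · rw [sub_self, map_zero]
      exact zero_lt_one
    · rw [sub_self, map_zero]
      exact zero_lt_one
  · rintro a b _ _ ⟨e, he, he'⟩ ⟨f, hf, hf'⟩
    exact ⟨e + f, hadd V a b e f he hf, hadd V' a b e f he' hf'⟩
  · rintro a b _ _ ⟨e, he, he'⟩ ⟨f, hf, hf'⟩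
    exact ⟨e * f, hmul V hB a b e f he hf, hmul V' hB' a b e f he' hf'⟩

private theorem A8_unit_iff {B K : Type} [Field B] [Field K] [Algebra B K]
    (V : ValuationSubring K) (hB : ∀ b : B, algebraMap B K b ∈ V) (a : K) (e : B)
    (h : V.valuation (a - algebraMap B K e) < 1) : V.valuation a = 1 ↔ e ≠ 0 := by
  constructor
  · rintro h1 rfl
    rw [map_zero, sub_zero, h1] at h
    exact lt_irrefl _ h
  · intro he
    have h2 : V.valuation (algebraMap B K e) = 1 := by
      refine le_antisymm ((V.valuation_le_one_iff _).2 (hB e)) ?_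
      have h3 := (V.valuation_le_one_iff _).2 (hB e⁻¹)
      rw [map_inv₀, map_inv₀] at h3
      have h4 : V.valuation (algebraMap B K e) ≠ 0 :=
        (Valuation.ne_zero_iff _).2 ((map_ne_zero _).2 he)
      exact (inv_le_one₀ (zero_lt_iff.2 h4)).1 h3
    have h5 : a = (a - algebraMap B K e) + algebraMap B K e := by ring
    rw [h5, Valuation.map_add_eq_of_lt_right _ (by rw [h2]; exact h), h2]

private theorem A8_le {B K : Type} [Field B] [CharZero B] [Field K] [Algebra B K]
    {c : Fin 10 → B} {x y : K} (h : PCurve B K c x y) (e₁ e₂ : B) (V V' : ValuationSubring K)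
    (hB : ∀ b : B, algebraMap B K b ∈ V) (hB' : ∀ b : B, algebraMap B K b ∈ V')
    (hV : V ≠ ⊤)
    (h1 : V.valuation (x - algebraMap B K e₁) < 1) (h2 : V.valuation (y - algebraMap B K e₂) < 1)
    (h1' : V'.valuation (x - algebraMap B K e₁) < 1)
    (h2' : V'.valuation (y - algebraMap B K e₂) < 1)
    (hu : V.valuation (cuY (fun i => algebraMap B K (c i)) x y) = 1) : V ≤ V' := by
  have hmem : ∀ (W : ValuationSubring K) (_ : ∀ b : B, algebraMap B K b ∈ W) (z : K) (e : B),
      W.valuation (z - algebraMap B K e) < 1 → z ∈ W := by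
    intro W hW z e hz
    have h3 := W.add_mem _ _ ((W.valuation_le_one_iff _).1 hz.le) (hW e)
    rwa [sub_add_cancel] at h3
  intro z hz
  obtain ⟨a, ha, b, hb, hvb, hzb⟩ := (h.local_ring V hB hV (hmem V hB x e₁ h1)
    (hmem V hB y e₂ h2) hu).1 z hz
  obtain ⟨e, he, he'⟩ := A8_val x y e₁ e₂ V V' hB hB' h1 h2 h1' h2' b hb
  have hvb' : V'.valuation b = 1 :=
    (A8_unit_iff V' hB' b e he').2 ((A8_unit_iff V hB b e he).1 hvb)
  have hb0 : b ≠ 0 := by
    rintro rfl
    rw [map_zero] at hvb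
    exact zero_ne_one hvb
  have hz' : z = a * b⁻¹ := (eq_mul_inv_iff_mul_eq₀ hb0).2 hzb
  rw [hz']
  have hbinv : b⁻¹ ∈ V' := by
    rw [← V'.valuation_le_one_iff, map_inv₀, hvb', inv_one]
  exact V'.mul_mem _ _
    (A8_mem x y V' hB' (hmem V' hB' x e₁ h1') (hmem V' hB' y e₂ h2') a ha) hbinv

private theorem A8_uniqY {B K : Type} [Field B] [CharZero B] [Field K] [Algebra B K]
    {c : Fin 10 → B} {x y : K} (h : PCurve B K c x y) (e₁ e₂ : B) (V V' : ValuationSubring K)
    (hB : ∀ b : B, algebraMap B K b ∈ V) (hB' : ∀ b : B, algebraMap B K b ∈ V')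
    (hV : V ≠ ⊤) (hV' : V' ≠ ⊤)
    (h1 : V.valuation (x - algebraMap B K e₁) < 1) (h2 : V.valuation (y - algebraMap B K e₂) < 1)
    (h1' : V'.valuation (x - algebraMap B K e₁) < 1)
    (h2' : V'.valuation (y - algebraMap B K e₂) < 1)
    (hu : V.valuation (cuY (fun i => algebraMap B K (c i)) x y) = 1) : V = V' := by
  obtain ⟨e, he, he'⟩ := A8_val x y e₁ e₂ V V' hB hB' h1 h2 h1' h2' _ (A8_cuY c x y)
  have hu' : V'.valuation (cuY (fun i => algebraMap B K (c i)) x y) = 1 :=
    (A8_unit_iff V' hB' _ e he').2 ((A8_unit_iff V hB _ e he).1 hu)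
  exact le_antisymm (A8_le h e₁ e₂ V V' hB hB' hV h1 h2 h1' h2' hu)
    (A8_le h e₁ e₂ V' V hB' hB hV' h1' h2' h1 h2 hu')

/-- A place is determined by its centre in the affine plane. -/
theorem PCurve.place_unique {B K : Type} [Field B] [CharZero B] [Field K] [Algebra B K]
    {c : Fin 10 → B} {x y : K} (h : PCurve B K c x y) (e₁ e₂ : B) (V V' : ValuationSubring K)
    (hB : ∀ b : B, algebraMap B K b ∈ V) (hB' : ∀ b : B, algebraMap B K b ∈ V')
    (hV : V ≠ ⊤) (hV' : V' ≠ ⊤)
    (h1 : V.valuation (x - algebraMap B K e₁) < 1) (h2 : V.valuation (y - algebraMap B K e₂) < 1)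
    (h1' : V'.valuation (x - algebraMap B K e₁) < 1)
    (h2' : V'.valuation (y - algebraMap B K e₂) < 1) : V = V' := by
  have hmem : ∀ (z : K) (e : B), V.valuation (z - algebraMap B K e) < 1 → z ∈ V := by
    intro z e hz
    have h3 := V.add_mem _ _ ((V.valuation_le_one_iff _).1 hz.le) (hB e)
    rwa [sub_add_cancel] at h3
  rcases h.unit_at V hB (hmem x e₁ h1) (hmem y e₂ h2) with hu | hu
  · exact A8_uniqY h.swap e₂ e₁ V V' hB hB' hV hV' h2 h1 h2' h1' (by rw [A8_swap]; exact hu)
  · exact A8_uniqY h e₁ e₂ V V' hB hB' hV hV' h1 h2 h1' h2' hu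

end Pool.Agent.LibHP
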