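import Pool.Agent.LibHP4.A5
import Pool.Agent.LibHP4.A8
import Pool.Agent.LibHP4.A10
import Pool.Agent.LibHP4.A11
import Pool.Agent.LibHP4.A13
import Pool.Agent.LibHP4.A16
import Pool.Agent.LibHP4.A17
import Pool.Agent.LibHP4.A18
import Pool.Agent.LibHP3.R5

set_option autoImplicit false

namespace Pool.Agent.LibHP

theorem A19_val_lt {L : Type} [Field L] (W : ValuationSubring L) {x : L} (hx : x ≠ 0) :
    W.valuation x < 1 ↔ x⁻¹ ∉ W := by
  rw [← W.valuation_le_one_iff x⁻¹, map_inv₀, not_le, one_lt_inv₀]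
  exact (Valuation.pos_iff W.valuation).2 hx

theorem A19_val_eq {L : Type} [Field L] (W : ValuationSubring L) {x : L} (hx : x ≠ 0) :
    W.valuation x = 1 ↔ x ∈ W ∧ x⁻¹ ∈ W := by
  constructor
  · intro h
    refine ⟨(W.valuation_le_one_iff x).1 h.le, ?_⟩
    by_contra hcon
    exact absurd ((A19_val_lt W hx).2 hcon) (by rw [h]; exact lt_irrefl 1)
  · rintro ⟨h1, h2⟩
    refine le_antisymm ((W.valuation_le_one_iff x).2 h1) ?_
    by_contra hcon
    exact (A19_val_lt W hx).1 (not_le.1 hcon) h2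

theorem A19_finite_not_mem {B K : Type} [Field B] [CharZero B] [Field K] [Algebra B K]
    (h : IsCurve B K) (u : K) :
    {V : ValuationSubring K | (∀ b : B, algebraMap B K b ∈ V) ∧ u ∉ V}.Finite := by
  rcases eq_or_ne u 0 with rfl | hu
  · refine Set.finite_empty.subset ?_
    rintro V ⟨-, h0⟩
    exact absurd V.zero_mem h0
  · refine (h.finite_zeros u⁻¹ (inv_ne_zero hu)).subset ?_
    rintro V ⟨hB, h0⟩
    refine ⟨hB, (A19_val_lt V (inv_ne_zero hu)).2 ?_⟩
    rwa [inv_inv]

theorem A19_pow {K KK B Ω : Type} [Field B] [Field Ω] [Field K] [Field KK] [Algebra B K]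
    [Algebra Ω KK] (φ : K →+* KK) (D : K →ₐ[B] K) (D' : KK →ₐ[Ω] KK)
    (hc : ∀ z : K, D' (φ z) = φ (D z)) (n : ℕ) (z : K) : (D' ^ n) (φ z) = φ ((D ^ n) z) := by
  induction n generalizing z with
  | zero => simp
  | succ n ih =>
    rw [pow_succ, pow_succ]
    change (D' ^ n) (D' (φ z)) = φ ((D ^ n) (D z))
    rw [hc, ih]

/-- A place over `B` extends to a place over the algebraic extension `Ω`. -/
theorem A19_extension {B Ω K KK : Type} [Field B] [Field Ω] [Field K] [Field KK] [Algebra B Ω]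
    [Algebra B K] [Algebra Ω KK] (φ : K →+* KK) (halg : Algebra.IsAlgebraic B Ω)
    (hφ : ∀ b : B, φ (algebraMap B K b) = algebraMap Ω KK (algebraMap B Ω b))
    (W : ValuationSubring KK) (hB : ∀ b : B, φ (algebraMap B K b) ∈ W) (b : Ω) :
    algebraMap Ω KK b ∈ W := by
  letI : Algebra B KK := ((algebraMap Ω KK).comp (algebraMap B Ω)).toAlgebra
  have hmap : ∀ c : B, algebraMap B KK c = algebraMap Ω KK (algebraMap B Ω c) := fun c => rfl
  refine mem_of_isAlgebraic B KK W (fun c => ?_) (algebraMap Ω KK b) ?_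
  · rw [hmap, ← hφ]
    exact hB c
  · obtain ⟨p, hp0, hp⟩ := halg.isAlgebraic b
    refine ⟨p, hp0, ?_⟩
    have h1 : Polynomial.aeval (algebraMap Ω KK b) p =
        algebraMap Ω KK (Polynomial.aeval b p) := by
      rw [Polynomial.aeval_def, Polynomial.aeval_def, Polynomial.hom_eval₂]
      rfl
    rw [h1, hp, map_zero]

/-- Transcendental functions stay transcendental. -/
theorem A19_transcendental {B Ω K KK : Type} [Field B] [Field Ω] [Field K] [Field KK]
    [Algebra B Ω] [Algebra B K] [Algebra Ω KK] (φ : K →+* KK) (halg : Algebra.IsAlgebraic B Ω)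
    (hφ : ∀ b : B, φ (algebraMap B K b) = algebraMap Ω KK (algebraMap B Ω b)) (f : K)
    (hf : Transcendental B f) : Transcendental Ω (φ f) := by
  intro hcon
  letI : Algebra B KK := ((algebraMap Ω KK).comp (algebraMap B Ω)).toAlgebra
  haveI : IsScalarTower B Ω KK := IsScalarTower.of_algebraMap_eq (fun c => rfl)
  have h1 : IsAlgebraic B (φ f) := hcon.restrictScalars B
  obtain ⟨p, hp0, hp⟩ := h1
  apply hf
  refine ⟨p, hp0, φ.injective ?_⟩
  have h2 : φ (Polynomial.aeval f p) = Polynomial.aeval (φ f) p := by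
    rw [Polynomial.aeval_def, Polynomial.aeval_def, Polynomial.hom_eval₂]
    congr 1
    ext c
    exact hφ c
  rw [h2, hp, map_zero]

/-- The tangent residual map is unramified. -/
theorem PMove.etale {B K : Type} [Field B] [CharZero B] [Field K] [Algebra B K]
    {c : Fin 10 → B} {x y : K} {D : K →ₐ[B] K} (h : PMove B K c x y D) : EtaleEndo B K D := by
  obtain ⟨δ, hδ⟩ := h.toPCurve.exists_flow
  refine etale_of_regDer (h.toPCurve.regDer hδ) D (-2) (by norm_num) fun z => ?_
  rw [h.flow_comm hδ z, map_neg, map_ofNat]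

/-- For large `n` there is over every place a place for `D ^ n` at which a given function is a
unit and `x`, `y` are regular. -/
theorem PMove.place_choice {B K : Type} [Field B] [CharZero B] [Field K] [Algebra B K]
    {c : Fin 10 → B} {x y : K} {D : K →ₐ[B] K} (h : PMove B K c x y D) (z : K) (hz : z ≠ 0) :
    ∃ n₀ : ℕ, ∀ n, n₀ ≤ n → ∀ V' : ValuationSubring K, (∀ b : B, algebraMap B K b ∈ V') →
      V' ≠ ⊤ → ∃ V : ValuationSubring K, (∀ b : B, algebraMap B K b ∈ V) ∧
        V.comap ((D ^ n : K →ₐ[B] K) : K →+* K) = V' ∧ x ∈ V ∧ y ∈ V ∧ V.valuation z = 1 := by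
  classical
  obtain ⟨Ω, _, _, KK, _, _, φ, D', hac, hcz, halg, hφB, hφD, hM⟩ := h.exists_geometric
  have hcur : IsCurve Ω KK := hM.toPCurve.isCurve
  have hfin : ({V : ValuationSubring KK | (∀ b : Ω, algebraMap Ω KK b ∈ V) ∧ φ x ∉ V} ∪
      {V : ValuationSubring KK | (∀ b : Ω, algebraMap Ω KK b ∈ V) ∧ φ y ∉ V} ∪
      ({V : ValuationSubring KK | (∀ b : Ω, algebraMap Ω KK b ∈ V) ∧ φ z ∉ V} ∪
      {V : ValuationSubring KK | (∀ b : Ω, algebraMap Ω KK b ∈ V) ∧ φ z⁻¹ ∉ V})).Finite :=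
    ((A19_finite_not_mem hcur _).union (A19_finite_not_mem hcur _)).union
      ((A19_finite_not_mem hcur _).union (A19_finite_not_mem hcur _))
  set bad : Finset (ValuationSubring KK) := hfin.toFinset with hbad
  refine ⟨bad.card + 1, fun n hn V' hB' hV' => ?_⟩
  obtain ⟨W', hW'⟩ := exists_extension K KK φ V'
  have hBW' : ∀ b : B, φ (algebraMap B K b) ∈ W' := by
    intro b
    have h1 := hB' b
    rw [← hW', ValuationSubring.mem_comap] at h1
    exact h1
  have hΩW' : ∀ b : Ω, algebraMap Ω KK b ∈ W' := A19_extension φ halg hφB W' hBW'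
  have hW'top : W' ≠ ⊤ := by
    intro htop
    apply hV'
    rw [← hW', htop]
    ext a
    simp [ValuationSubring.mem_comap]
  obtain ⟨δ, hδ⟩ := hM.toPCurve.exists_flow
  have hreg := hM.toPCurve.regDer hδ
  obtain ⟨S, hScard, hS⟩ := hcur.exists_many
    (fun V hΩ hV => by
      obtain ⟨t, ht, _⟩ := (hreg V hΩ hV).2
      exact ⟨t, ht⟩) D' hM.etale hM.not_surjective n W' hΩW' hW'top
  have hex : ∃ W ∈ S, W ∉ bad := by
    by_contra hcon
    push Not at hcon
    have h1 : S.card ≤ bad.card := Finset.card_le_card (fun W hW => hcon W hW)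
    have h2 : n < 2 ^ n := Nat.lt_two_pow_self
    omega
  obtain ⟨W, hWS, hWbad⟩ := hex
  obtain ⟨hΩW, _, hWcomap⟩ := hS W hWS
  rw [hbad, Set.Finite.mem_toFinset] at hWbad
  simp only [Set.mem_union, Set.mem_setOf_eq, not_or, not_and, not_not] at hWbad
  obtain ⟨⟨hx, hy⟩, hz1, hz2⟩ := hWbad
  refine ⟨W.comap φ, fun b => ?_, ?_, ?_, ?_, ?_⟩
  · rw [ValuationSubring.mem_comap, hφB]
    exact hΩW _
  · ext a
    rw [ValuationSubring.mem_comap, ValuationSubring.mem_comap, ← hW',
      ValuationSubring.mem_comap, ← hWcomap, ValuationSubring.mem_comap]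
    have h1 := A19_pow φ D D' hφD n a
    change φ ((D ^ n) a) ∈ W ↔ (D' ^ n) (φ a) ∈ W
    rw [h1]
  · rw [ValuationSubring.mem_comap]
    exact hx hΩW
  · rw [ValuationSubring.mem_comap]
    exact hy hΩW
  · rw [A19_val_eq _ hz, ValuationSubring.mem_comap, ValuationSubring.mem_comap]
    exact ⟨hz1 hΩW, hz2 hΩW⟩

/-- The zeros of `D ^ n f` are at least `2 ^ n` in number: a nonconstant function is not in the
image of all the iterates. -/
theorem PMove.not_mem_all {B K : Type} [Field B] [CharZero B] [Field K] [Algebra B K]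
    {c : Fin 10 → B} {x y : K} {D : K →ₐ[B] K} (h : PMove B K c x y D) (f : K)
    (hf : ∀ n : ℕ, ∃ g : K, (D ^ n) g = f) : IsAlgebraic B f := by
  classical
  by_contra htr
  obtain ⟨Ω, _, _, KK, _, _, φ, D', hac, hcz, halg, hφB, hφD, hM⟩ := h.exists_geometric
  have hcur : IsCurve Ω KK := hM.toPCurve.isCurve
  have hftr : Transcendental Ω (φ f) := A19_transcendental φ halg hφB f htr
  have hf0 : φ f ≠ 0 := by
    intro h0
    apply hftr
    rw [h0]
    exact isAlgebraic_zero
  have hfin := hcur.finite_zeros (φ f) hf0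
  set N : ℕ := hfin.toFinset.card with hN
  obtain ⟨g, hg⟩ := hf N
  have hgD : (D' ^ N) (φ g) = φ f := by
    rw [A19_pow φ D D' hφD N g, hg]
  have hgtr : Transcendental Ω (φ g) := by
    intro hcon
    apply hftr
    rw [← hgD]
    exact hcon.algHom (D' ^ N)
  obtain ⟨W', hΩW', hW'top, hW'g⟩ := exists_zero_place (φ g) hgtr
  obtain ⟨δ, hδ⟩ := hM.toPCurve.exists_flow
  have hreg := hM.toPCurve.regDer hδ
  obtain ⟨S, hScard, hS⟩ := hcur.exists_many
    (fun V hΩ hV => by
      obtain ⟨t, ht, _⟩ := (hreg V hΩ hV).2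
      exact ⟨t, ht⟩) D' hM.etale hM.not_surjective N W' hΩW' hW'top
  have hsub : S ⊆ hfin.toFinset := by
    intro W hW
    obtain ⟨hΩW, _, hWcomap⟩ := hS W hW
    rw [Set.Finite.mem_toFinset]
    refine ⟨hΩW, ?_⟩
    have hg0 : φ g ≠ 0 := by
      intro h0
      apply hgtr
      rw [h0]
      exact isAlgebraic_zero
    rw [A19_val_lt W hf0]
    intro hmem
    rw [A19_val_lt W' hg0] at hW'g
    apply hW'g
    rw [← hWcomap, ValuationSubring.mem_comap]
    change (D' ^ N) (φ g)⁻¹ ∈ W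
    rw [map_inv₀, hgD]
    exact hmem
  have h1 := Finset.card_le_card hsub
  have h2 : N < 2 ^ N := Nat.lt_two_pow_self
  omega

end Pool.Agent.LibHP
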