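import Pool.Agent.LibHP4.Defs

set_option autoImplicit false

namespace Pool.Agent.LibHP

private theorem A1b_two {B K : Type} [Field B] [Field K] [Algebra B K] (δ : Derivation B K K) :
    δ (2 : K) = 0 := by
  have h := δ.map_natCast 2
  simpa using h

private theorem A1b_three {B K : Type} [Field B] [Field K] [Algebra B K] (δ : Derivation B K K) :
    δ (3 : K) = 0 := by
  have h := δ.map_natCast 3
  simpa using h

private theorem A1b_id1 {K : Type} [Field K] (X Y XX XY YY c6 c7 c8 c9 : K) :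
    Y * (-(c6 * Y ^ 3) + c7 * Y ^ 2 * X - c8 * Y * X ^ 2 + c9 * X ^ 3) ^ 2 +
      (((3 * c6 * Y - c7 * X) * Y ^ 2 + XX * (2 * Y * (XY * Y - 2 * YY * X)) -
        ((2 * c7 * Y - 2 * c8 * X) * X * Y + XY * (2 * XX * Y - XY * X) * Y +
          XY * X * (XY * Y - 2 * YY * X)) +
        ((c8 * Y - 3 * c9 * X) * X ^ 2 + YY * (2 * X * (2 * XX * Y - XY * X)))) * Y +
        (XX * Y ^ 2 - XY * X * Y + YY * X ^ 2) * (XY * Y - 2 * YY * X)) *
        (-(c6 * Y ^ 3) + c7 * Y ^ 2 * X - c8 * Y * X ^ 2 + c9 * X ^ 3) -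
      (XX * Y ^ 2 - XY * X * Y + YY * X ^ 2) * Y *
        (-(c6 * (3 * Y ^ 2 * (XY * Y - 2 * YY * X))) +
          (c7 * (2 * Y * (XY * Y - 2 * YY * X)) * X + c7 * Y ^ 2 * (2 * XX * Y - XY * X)) -
          (c8 * (XY * Y - 2 * YY * X) * X ^ 2 + c8 * Y * (2 * X * (2 * XX * Y - XY * X))) +
          c9 * (3 * X ^ 2 * (2 * XX * Y - XY * X))) =
    -2 * (Y * (-(c6 * Y ^ 3) + c7 * Y ^ 2 * X - c8 * Y * X ^ 2 + c9 * X ^ 3) ^ 2 +
      XY * ((XX * Y ^ 2 - XY * X * Y + YY * X ^ 2) * Y) *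
        (-(c6 * Y ^ 3) + c7 * Y ^ 2 * X - c8 * Y * X ^ 2 + c9 * X ^ 3) +
      2 * YY * (-((XX * Y ^ 2 - XY * X * Y + YY * X ^ 2) * X)) *
        (-(c6 * Y ^ 3) + c7 * Y ^ 2 * X - c8 * Y * X ^ 2 + c9 * X ^ 3) +
      c7 * ((XX * Y ^ 2 - XY * X * Y + YY * X ^ 2) * Y) ^ 2 +
      2 * c8 * ((XX * Y ^ 2 - XY * X * Y + YY * X ^ 2) * Y) *
        (-((XX * Y ^ 2 - XY * X * Y + YY * X ^ 2) * X)) +
      3 * c9 * (-((XX * Y ^ 2 - XY * X * Y + YY * X ^ 2) * X)) ^ 2) := by
  ring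

private theorem A1b_id2 {K : Type} [Field K] (X Y XX XY YY c6 c7 c8 c9 : K) :
    -X * (-(c6 * Y ^ 3) + c7 * Y ^ 2 * X - c8 * Y * X ^ 2 + c9 * X ^ 3) ^ 2 -
      (((3 * c6 * Y - c7 * X) * Y ^ 2 + XX * (2 * Y * (XY * Y - 2 * YY * X)) -
        ((2 * c7 * Y - 2 * c8 * X) * X * Y + XY * (2 * XX * Y - XY * X) * Y +
          XY * X * (XY * Y - 2 * YY * X)) +
        ((c8 * Y - 3 * c9 * X) * X ^ 2 + YY * (2 * X * (2 * XX * Y - XY * X)))) * X +
        (XX * Y ^ 2 - XY * X * Y + YY * X ^ 2) * (2 * XX * Y - XY * X)) *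
        (-(c6 * Y ^ 3) + c7 * Y ^ 2 * X - c8 * Y * X ^ 2 + c9 * X ^ 3) +
      (XX * Y ^ 2 - XY * X * Y + YY * X ^ 2) * X *
        (-(c6 * (3 * Y ^ 2 * (XY * Y - 2 * YY * X))) +
          (c7 * (2 * Y * (XY * Y - 2 * YY * X)) * X + c7 * Y ^ 2 * (2 * XX * Y - XY * X)) -
          (c8 * (XY * Y - 2 * YY * X) * X ^ 2 + c8 * Y * (2 * X * (2 * XX * Y - XY * X))) +
          c9 * (3 * X ^ 2 * (2 * XX * Y - XY * X))) =
    2 * (X * (-(c6 * Y ^ 3) + c7 * Y ^ 2 * X - c8 * Y * X ^ 2 + c9 * X ^ 3) ^ 2 +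
      2 * XX * ((XX * Y ^ 2 - XY * X * Y + YY * X ^ 2) * Y) *
        (-(c6 * Y ^ 3) + c7 * Y ^ 2 * X - c8 * Y * X ^ 2 + c9 * X ^ 3) +
      XY * (-((XX * Y ^ 2 - XY * X * Y + YY * X ^ 2) * X)) *
        (-(c6 * Y ^ 3) + c7 * Y ^ 2 * X - c8 * Y * X ^ 2 + c9 * X ^ 3) +
      3 * c6 * ((XX * Y ^ 2 - XY * X * Y + YY * X ^ 2) * Y) ^ 2 +
      2 * c7 * ((XX * Y ^ 2 - XY * X * Y + YY * X ^ 2) * Y) *
        (-((XX * Y ^ 2 - XY * X * Y + YY * X ^ 2) * X)) +
      c8 * (-((XX * Y ^ 2 - XY * X * Y + YY * X ^ 2) * X)) ^ 2) := by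
  ring

section

variable {B K : Type} [Field B] [Field K] [Algebra B K] {δ : Derivation B K K} {c : Fin 10 → B}
  {x y : K}

private theorem A1b_X (hδ : IsFlow B K c x y δ) :
    δ (cuX (fun i => algebraMap B K (c i)) x y) =
      2 * cuXX (fun i => algebraMap B K (c i)) x y * cuY (fun i => algebraMap B K (c i)) x y -
      cuXY (fun i => algebraMap B K (c i)) x y * cuX (fun i => algebraMap B K (c i)) x y := by
  have h2 := A1b_two δ
  have h3 := A1b_three δ
  obtain ⟨hx, hy⟩ := hδ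
  have e : δ (cuX (fun i => algebraMap B K (c i)) x y) =
      2 * algebraMap B K (c 3) * δ x + algebraMap B K (c 4) * δ y +
        3 * algebraMap B K (c 6) * (2 * x * δ x) +
        2 * algebraMap B K (c 7) * (x * δ y + y * δ x) + algebraMap B K (c 8) * (2 * y * δ y) := by
    unfold cuX
    simp only [map_add, Derivation.leibniz, Derivation.leibniz_pow, smul_eq_mul,
      Derivation.map_algebraMap, h2, h3, nsmul_eq_mul]
    push_cast
    ring
  rw [e, hx, hy]
  unfold cuXX cuXY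
  ring

private theorem A1b_Y (hδ : IsFlow B K c x y δ) :
    δ (cuY (fun i => algebraMap B K (c i)) x y) =
      cuXY (fun i => algebraMap B K (c i)) x y * cuY (fun i => algebraMap B K (c i)) x y -
      2 * cuYY (fun i => algebraMap B K (c i)) x y * cuX (fun i => algebraMap B K (c i)) x y := by
  have h2 := A1b_two δ
  have h3 := A1b_three δ
  obtain ⟨hx, hy⟩ := hδ
  have e : δ (cuY (fun i => algebraMap B K (c i)) x y) =
      algebraMap B K (c 4) * δ x + 2 * algebraMap B K (c 5) * δ y +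
        algebraMap B K (c 7) * (2 * x * δ x) +
        2 * algebraMap B K (c 8) * (x * δ y + y * δ x) +
        3 * algebraMap B K (c 9) * (2 * y * δ y) := by
    unfold cuY
    simp only [map_add, Derivation.leibniz, Derivation.leibniz_pow, smul_eq_mul,
      Derivation.map_algebraMap, h2, h3, nsmul_eq_mul]
    push_cast
    ring
  rw [e, hx, hy]
  unfold cuXY cuYY
  ring

private theorem A1b_XX (hδ : IsFlow B K c x y δ) :
    δ (cuXX (fun i => algebraMap B K (c i)) x y) =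
      3 * algebraMap B K (c 6) * cuY (fun i => algebraMap B K (c i)) x y -
      algebraMap B K (c 7) * cuX (fun i => algebraMap B K (c i)) x y := by
  have h2 := A1b_two δ
  have h3 := A1b_three δ
  obtain ⟨hx, hy⟩ := hδ
  have e : δ (cuXX (fun i => algebraMap B K (c i)) x y) =
      3 * algebraMap B K (c 6) * δ x + algebraMap B K (c 7) * δ y := by
    unfold cuXX
    simp only [map_add, Derivation.leibniz, smul_eq_mul,
      Derivation.map_algebraMap, h3]
    ring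
  rw [e, hx, hy]
  ring

private theorem A1b_XY (hδ : IsFlow B K c x y δ) :
    δ (cuXY (fun i => algebraMap B K (c i)) x y) =
      2 * algebraMap B K (c 7) * cuY (fun i => algebraMap B K (c i)) x y -
      2 * algebraMap B K (c 8) * cuX (fun i => algebraMap B K (c i)) x y := by
  have h2 := A1b_two δ
  obtain ⟨hx, hy⟩ := hδ
  have e : δ (cuXY (fun i => algebraMap B K (c i)) x y) =
      2 * algebraMap B K (c 7) * δ x + 2 * algebraMap B K (c 8) * δ y := by
    unfold cuXY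
    simp only [map_add, Derivation.leibniz, smul_eq_mul,
      Derivation.map_algebraMap, h2]
    ring
  rw [e, hx, hy]
  ring

private theorem A1b_YY (hδ : IsFlow B K c x y δ) :
    δ (cuYY (fun i => algebraMap B K (c i)) x y) =
      algebraMap B K (c 8) * cuY (fun i => algebraMap B K (c i)) x y -
      3 * algebraMap B K (c 9) * cuX (fun i => algebraMap B K (c i)) x y := by
  have h3 := A1b_three δ
  obtain ⟨hx, hy⟩ := hδ
  have e : δ (cuYY (fun i => algebraMap B K (c i)) x y) =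
      algebraMap B K (c 8) * δ x + 3 * algebraMap B K (c 9) * δ y := by
    unfold cuYY
    simp only [map_add, Derivation.leibniz, smul_eq_mul,
      Derivation.map_algebraMap, h3]
    ring
  rw [e, hx, hy]
  ring

end

/-- The invariant derivation at the tangent residual point. -/
theorem cu_move_der {B K : Type} [Field B] [Field K] [Algebra B K] (δ : Derivation B K K)
    (c : Fin 10 → B) (x y x' y' : K) (hδ : IsFlow B K c x y δ)
    (hq : cuQ3 (fun i => algebraMap B K (c i)) x y ≠ 0)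
    (h1 : (x' - x) * cuQ3 (fun i => algebraMap B K (c i)) x y =
      cuQ2 (fun i => algebraMap B K (c i)) x y * cuY (fun i => algebraMap B K (c i)) x y)
    (h2 : (y' - y) * cuQ3 (fun i => algebraMap B K (c i)) x y =
      -(cuQ2 (fun i => algebraMap B K (c i)) x y * cuX (fun i => algebraMap B K (c i)) x y)) :
    δ x' = -2 * cuY (fun i => algebraMap B K (c i)) x' y' ∧
      δ y' = 2 * cuX (fun i => algebraMap B K (c i)) x' y' := by
  have dX := A1b_X hδ
  have dY := A1b_Y hδ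
  have dXX := A1b_XX hδ
  have dXY := A1b_XY hδ
  have dYY := A1b_YY hδ
  obtain ⟨hx, hy⟩ := hδ
  obtain ⟨h, hh⟩ : ∃ h, h = x' - x := ⟨_, rfl⟩
  obtain ⟨l, hl⟩ : ∃ l, l = y' - y := ⟨_, rfl⟩
  have ex : x' = x + h := by rw [hh]; ring
  have ey : y' = y + l := by rw [hl]; ring
  rw [← hh] at h1
  rw [← hl] at h2
  -- Taylor
  have tY : cuY (fun i => algebraMap B K (c i)) x' y' =
      cuY (fun i => algebraMap B K (c i)) x y + cuXY (fun i => algebraMap B K (c i)) x y * h +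
        2 * cuYY (fun i => algebraMap B K (c i)) x y * l + algebraMap B K (c 7) * h ^ 2 +
        2 * algebraMap B K (c 8) * h * l + 3 * algebraMap B K (c 9) * l ^ 2 := by
    rw [ex, ey]
    unfold cuY cuXY cuYY
    ring
  have tX : cuX (fun i => algebraMap B K (c i)) x' y' =
      cuX (fun i => algebraMap B K (c i)) x y + 2 * cuXX (fun i => algebraMap B K (c i)) x y * h +
        cuXY (fun i => algebraMap B K (c i)) x y * l + 3 * algebraMap B K (c 6) * h ^ 2 +
        2 * algebraMap B K (c 7) * h * l + algebraMap B K (c 8) * l ^ 2 := by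
    rw [ex, ey]
    unfold cuX cuXX cuXY
    ring
  -- derivatives of `h` and `l`
  have dh := congrArg δ h1
  have dl := congrArg δ h2
  have m6 : δ (algebraMap B K (c 6)) = 0 := Derivation.map_algebraMap _ _
  have m7 : δ (algebraMap B K (c 7)) = 0 := Derivation.map_algebraMap _ _
  have m8 : δ (algebraMap B K (c 8)) = 0 := Derivation.map_algebraMap _ _
  have m9 : δ (algebraMap B K (c 9)) = 0 := Derivation.map_algebraMap _ _
  rw [tX, tY, ex, ey, map_add, map_add, hx, hy]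
  unfold cuQ2 cuQ3 at h1 h2
  unfold cuQ3 at hq
  unfold cuQ2 cuQ3 at dh dl
  generalize cuX (fun i => algebraMap B K (c i)) x y = X at *
  generalize cuY (fun i => algebraMap B K (c i)) x y = Y at *
  generalize cuXX (fun i => algebraMap B K (c i)) x y = XX at *
  generalize cuXY (fun i => algebraMap B K (c i)) x y = XY at *
  generalize cuYY (fun i => algebraMap B K (c i)) x y = YY at *
  simp only [] at h1 h2 hq dh dl
  generalize algebraMap B K (c 6) = c6 at *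
  generalize algebraMap B K (c 7) = c7 at *
  generalize algebraMap B K (c 8) = c8 at *
  generalize algebraMap B K (c 9) = c9 at *
  simp only [map_add, map_sub, map_neg, Derivation.leibniz, Derivation.leibniz_pow, smul_eq_mul,
    m6, m7, m8, m9, nsmul_eq_mul, dX, dY, dXX, dXY, dYY] at dh dl
  push_cast at dh dl
  have id1 := A1b_id1 X Y XX XY YY c6 c7 c8 c9
  have id2 := A1b_id2 X Y XX XY YY c6 c7 c8 c9
  obtain ⟨Q, hQ⟩ : ∃ Q, Q = -(c6 * Y ^ 3) + c7 * Y ^ 2 * X - c8 * Y * X ^ 2 + c9 * X ^ 3 := ⟨_, rfl⟩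
  rw [← hQ] at h1 h2 hq dh dl id1 id2
  obtain ⟨P, hP⟩ : ∃ P, P = XX * Y ^ 2 - XY * X * Y + YY * X ^ 2 := ⟨_, rfl⟩
  rw [← hP] at h1 h2 dh dl id1 id2
  have hQ2 : Q ^ 2 ≠ 0 := pow_ne_zero _ hq
  constructor
  · apply mul_right_cancel₀ hQ2
    have g1 : (Y + δ h) * Q ^ 2 = Y * Q ^ 2 + (δ h * Q) * Q := by ring
    have g2 : (-2 * (Y + XY * h + 2 * YY * l + c7 * h ^ 2 + 2 * c8 * h * l + 3 * c9 * l ^ 2)) * Q ^ 2 =
        -2 * (Y * Q ^ 2 + XY * (h * Q) * Q + 2 * YY * (l * Q) * Q + c7 * (h * Q) ^ 2 +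
          2 * c8 * (h * Q) * (l * Q) + 3 * c9 * (l * Q) ^ 2) := by ring
    rw [g1, g2, h1, h2, ← id1]
    linear_combination Q * dh + (-(3 * Y ^ 2 * (XY * Y - 2 * YY * X) * c6) +
      (c7 * (2 * Y * (XY * Y - 2 * YY * X)) * X + c7 * Y ^ 2 * (2 * XX * Y - XY * X)) -
      (c8 * (XY * Y - 2 * YY * X) * X ^ 2 + c8 * Y * (2 * X * (2 * XX * Y - XY * X))) +
      c9 * (3 * X ^ 2 * (2 * XX * Y - XY * X))) * (-h1)
  · apply mul_right_cancel₀ hQ2
    have g1 : (-X + δ l) * Q ^ 2 = -X * Q ^ 2 + (δ l * Q) * Q := by ring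
    have g2 : (2 * (X + 2 * XX * h + XY * l + 3 * c6 * h ^ 2 + 2 * c7 * h * l + c8 * l ^ 2)) * Q ^ 2 =
        2 * (X * Q ^ 2 + 2 * XX * (h * Q) * Q + XY * (l * Q) * Q + 3 * c6 * (h * Q) ^ 2 +
          2 * c7 * (h * Q) * (l * Q) + c8 * (l * Q) ^ 2) := by ring
    rw [g1, g2, h1, h2, ← id2]
    linear_combination Q * dl + (-(3 * Y ^ 2 * (XY * Y - 2 * YY * X) * c6) +
      (c7 * (2 * Y * (XY * Y - 2 * YY * X)) * X + c7 * Y ^ 2 * (2 * XX * Y - XY * X)) -
      (c8 * (XY * Y - 2 * YY * X) * X ^ 2 + c8 * Y * (2 * X * (2 * XX * Y - XY * X))) +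
      c9 * (3 * X ^ 2 * (2 * XX * Y - XY * X))) * (-h2)

end Pool.Agent.LibHP
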