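import Pool.Agent.LibHP4.Defs
import Pool.Agent.LibHP2.G7

set_option autoImplicit false

namespace Pool.Agent.LibHP

/-- A smooth cubic has no singular points over any field extension. -/
theorem cubicSmooth_ext {B E : Type} [Field B] [Field E] [Algebra B E] (c : Fin 10 → B)
    (h : CubicSmooth c) (e : Fin 3 → E) (he : e ≠ 0) :
    ∃ i, cuG (fun j => algebraMap B E (c j)) e i ≠ 0 := by
  by_contra hcon
  push Not at hcon
  obtain ⟨s, hs⟩ := Function.ne_iff.1 he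
  obtain ⟨z', h1, -, h3⟩ := G7_spec B E e s s hs hs
  obtain ⟨i, hi⟩ := h z' (fun h0 => h1 (congrFun h0 s))
  apply hi
  have key : ∀ {A : Type} [Field A] [Algebra B A] (z : Fin 3 → A) (i : Fin 3),
      MvPolynomial.aeval z (cuG (fun j => MvPolynomial.C (c j)) (MvPolynomial.X) i :
        MvPolynomial (Fin 3) B) = cuG (fun j => algebraMap B A (c j)) z i := by
    intro A _ _ z i
    fin_cases i <;> simp [cuG]
  rw [← key]
  apply h3
  rw [key]
  exact hcon i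

theorem CubicSmooth.map {B E : Type} [Field B] [Field E] [Algebra B E] {c : Fin 10 → B}
    (h : CubicSmooth c) : CubicSmooth (fun i => algebraMap B E (c i)) := by
  intro e he
  obtain ⟨i, hi⟩ := cubicSmooth_ext (E := AlgebraicClosure E) c h e he
  refine ⟨i, ?_⟩
  have : (fun j => algebraMap E (AlgebraicClosure E) (algebraMap B E (c j))) =
      fun j => algebraMap B (AlgebraicClosure E) (c j) := by
    funext j
    rw [← IsScalarTower.algebraMap_apply]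
  rw [this]
  exact hi

theorem A2_quad {F : Type} [Field F] [CharZero F] [IsAlgClosed F] (α β γ : F) :
    ∃ s t : F, (s ≠ 0 ∨ t ≠ 0) ∧ α * s ^ 2 + β * s * t + γ * t ^ 2 = 0 := by
  by_cases hα : α = 0
  · exact ⟨1, 0, Or.inl one_ne_zero, by rw [hα]; ring⟩
  · obtain ⟨z, hz⟩ := IsAlgClosed.exists_pow_nat_eq (β ^ 2 - 4 * α * γ) (n := 2) (by norm_num)
    refine ⟨(-β + z) / (2 * α), 1, Or.inr one_ne_zero, ?_⟩
    field_simp
    linear_combination hz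

theorem A2_aux {F : Type} [Field F] [CharZero F] [IsAlgClosed F] (c : Fin 10 → F)
    (hs : ∀ e : Fin 3 → F, e ≠ 0 → ∃ i, cuG c e i ≠ 0) (a₀ a₁ b₀ b₁ : F) (h1 : a₁ ≠ 0 ∨ b₁ ≠ 0)
    (h : ∀ t : F, cuF c (a₀ + a₁ * t) (b₀ + b₁ * t) = 0) : False := by
  set k0 := cuF c a₀ b₀ with hk0
  set k1 := c 1 * a₁ + c 2 * b₁ + 2 * c 3 * a₀ * a₁ + c 4 * (a₀ * b₁ + a₁ * b₀) +
    2 * c 5 * b₀ * b₁ + 3 * c 6 * a₀ ^ 2 * a₁ + c 7 * (a₀ ^ 2 * b₁ + 2 * a₀ * a₁ * b₀) +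
    c 8 * (a₁ * b₀ ^ 2 + 2 * a₀ * b₀ * b₁) + 3 * c 9 * b₀ ^ 2 * b₁ with hk1
  set k2 := c 3 * a₁ ^ 2 + c 4 * a₁ * b₁ + c 5 * b₁ ^ 2 + 3 * c 6 * a₀ * a₁ ^ 2 +
    c 7 * (a₁ ^ 2 * b₀ + 2 * a₀ * a₁ * b₁) + c 8 * (a₀ * b₁ ^ 2 + 2 * a₁ * b₀ * b₁) +
    3 * c 9 * b₀ * b₁ ^ 2 with hk2
  set k3 := c 6 * a₁ ^ 3 + c 7 * a₁ ^ 2 * b₁ + c 8 * a₁ * b₁ ^ 2 + c 9 * b₁ ^ 3 with hk3
  have hall : ∀ t : F, k0 + k1 * t + k2 * t ^ 2 + k3 * t ^ 3 = 0 := by
    intro t
    rw [← h t, hk0, hk1, hk2, hk3]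
    unfold cuF
    ring
  have e0 : k0 = 0 := by have := hall 0; linear_combination this
  have e1 := hall 1
  have e2 := hall (-1)
  have e3 := hall 2
  have z2 : k2 = 0 := by linear_combination (1 / 2 : F) * e1 + (1 / 2 : F) * e2 - e0
  have z3 : k3 = 0 := by
    linear_combination (1 / 6 : F) * e3 - (1 / 3 : F) * e1 + (1 / 6 : F) * e0 - (1 / 3 : F) * z2
  have z1 : k1 = 0 := by linear_combination e1 - e0 - z2 - z3
  -- orthogonality
  have hu : ∀ s t : F, cuG c ![s, s * a₀ + t * a₁, s * b₀ + t * b₁] 0 +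
      a₀ * cuG c ![s, s * a₀ + t * a₁, s * b₀ + t * b₁] 1 +
      b₀ * cuG c ![s, s * a₀ + t * a₁, s * b₀ + t * b₁] 2 = 0 := by
    intro s t
    have : cuG c ![s, s * a₀ + t * a₁, s * b₀ + t * b₁] 0 +
      a₀ * cuG c ![s, s * a₀ + t * a₁, s * b₀ + t * b₁] 1 +
      b₀ * cuG c ![s, s * a₀ + t * a₁, s * b₀ + t * b₁] 2 =
        3 * k0 * s ^ 2 + 2 * k1 * s * t + k2 * t ^ 2 := by
      rw [hk0, hk1, hk2]
      simp only [cuG, cuF, Matrix.cons_val]
      ring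
    rw [this, e0, z1, z2]
    ring
  have hv : ∀ s t : F, a₁ * cuG c ![s, s * a₀ + t * a₁, s * b₀ + t * b₁] 1 +
      b₁ * cuG c ![s, s * a₀ + t * a₁, s * b₀ + t * b₁] 2 = 0 := by
    intro s t
    have : a₁ * cuG c ![s, s * a₀ + t * a₁, s * b₀ + t * b₁] 1 +
      b₁ * cuG c ![s, s * a₀ + t * a₁, s * b₀ + t * b₁] 2 =
        k1 * s ^ 2 + 2 * k2 * s * t + 3 * k3 * t ^ 2 := by
      rw [hk1, hk2, hk3]
      simp only [cuG, Matrix.cons_val]
      ring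
    rw [this, z1, z2, z3]
    ring
  have hp : ∀ s t : F, (s ≠ 0 ∨ t ≠ 0) →
      (![s, s * a₀ + t * a₁, s * b₀ + t * b₁] : Fin 3 → F) ≠ 0 := by
    intro s t hst h0
    have p0 : s = 0 := by simpa using congrFun h0 0
    have p1 : s * a₀ + t * a₁ = 0 := by simpa using congrFun h0 1
    have p2 : s * b₀ + t * b₁ = 0 := by simpa using congrFun h0 2
    rw [p0, zero_mul, zero_add] at p1 p2
    have ht : t ≠ 0 := hst.resolve_left (fun h => h p0)
    rcases h1 with h1 | h1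
    · exact mul_ne_zero ht h1 p1
    · exact mul_ne_zero ht h1 p2
  have fin : ∀ s t : F, (s ≠ 0 ∨ t ≠ 0) →
      cuG c ![s, s * a₀ + t * a₁, s * b₀ + t * b₁] 1 = 0 →
      cuG c ![s, s * a₀ + t * a₁, s * b₀ + t * b₁] 2 = 0 → False := by
    intro s t hst g1 g2
    obtain ⟨i, hi⟩ := hs _ (hp s t hst)
    have g0 := hu s t
    rw [g1, g2, mul_zero, mul_zero, add_zero, add_zero] at g0
    fin_cases i
    · exact hi g0
    · exact hi g1
    · exact hi g2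
  rcases h1 with h1 | h1
  · obtain ⟨s, t, hst, hq⟩ := A2_quad
      (c 2 + c 4 * a₀ + 2 * c 5 * b₀ + c 7 * a₀ ^ 2 + 2 * c 8 * a₀ * b₀ + 3 * c 9 * b₀ ^ 2)
      (c 4 * a₁ + 2 * c 5 * b₁ + 2 * c 7 * a₀ * a₁ + 2 * c 8 * (a₀ * b₁ + a₁ * b₀) +
        6 * c 9 * b₀ * b₁)
      (c 7 * a₁ ^ 2 + 2 * c 8 * a₁ * b₁ + 3 * c 9 * b₁ ^ 2)
    have g2 : cuG c ![s, s * a₀ + t * a₁, s * b₀ + t * b₁] 2 = 0 := by
      rw [← hq]
      simp only [cuG, Matrix.cons_val]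
      ring
    have g1 : cuG c ![s, s * a₀ + t * a₁, s * b₀ + t * b₁] 1 = 0 := by
      have := hv s t
      rw [g2, mul_zero, add_zero] at this
      exact (mul_eq_zero.1 this).resolve_left h1
    exact fin s t hst g1 g2
  · obtain ⟨s, t, hst, hq⟩ := A2_quad
      (c 1 + 2 * c 3 * a₀ + c 4 * b₀ + 3 * c 6 * a₀ ^ 2 + 2 * c 7 * a₀ * b₀ + c 8 * b₀ ^ 2)
      (2 * c 3 * a₁ + c 4 * b₁ + 6 * c 6 * a₀ * a₁ + 2 * c 7 * (a₀ * b₁ + a₁ * b₀) +
        2 * c 8 * b₀ * b₁)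
      (3 * c 6 * a₁ ^ 2 + 2 * c 7 * a₁ * b₁ + c 8 * b₁ ^ 2)
    have g1 : cuG c ![s, s * a₀ + t * a₁, s * b₀ + t * b₁] 1 = 0 := by
      rw [← hq]
      simp only [cuG, Matrix.cons_val]
      ring
    have g2 : cuG c ![s, s * a₀ + t * a₁, s * b₀ + t * b₁] 2 = 0 := by
      have := hv s t
      rw [g1, mul_zero, zero_add] at this
      exact (mul_eq_zero.1 this).resolve_left h1
    exact fin s t hst g1 g2

/-- A smooth cubic contains no lines. -/
theorem cubic_no_line {B E : Type} [Field B] [CharZero B] [Field E] [Algebra B E] (c : Fin 10 → B)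
    (h : CubicSmooth c) (a₀ a₁ b₀ b₁ : E) (h1 : a₁ ≠ 0 ∨ b₁ ≠ 0) :
    cuF (fun i => Polynomial.C (algebraMap B E (c i)))
      (Polynomial.C a₀ + Polynomial.C a₁ * Polynomial.X)
      (Polynomial.C b₀ + Polynomial.C b₁ * Polynomial.X) ≠ 0 := by
  intro h0
  have : CharZero E := charZero_of_injective_algebraMap (algebraMap B E).injective
  have : CharZero (AlgebraicClosure E) :=
    charZero_of_injective_algebraMap (algebraMap E (AlgebraicClosure E)).injective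
  refine A2_aux (fun j => algebraMap B (AlgebraicClosure E) (c j))
    (fun e he => cubicSmooth_ext c h e he)
    (algebraMap E _ a₀) (algebraMap E _ a₁) (algebraMap E _ b₀) (algebraMap E _ b₁) ?_ ?_
  · rcases h1 with h1 | h1
    · exact Or.inl ((map_ne_zero _).2 h1)
    · exact Or.inr ((map_ne_zero _).2 h1)
  · intro t
    have h2 := congrArg (Polynomial.eval₂RingHom (algebraMap E (AlgebraicClosure E)) t) h0
    rw [map_zero] at h2
    rw [← h2]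
    simp only [cuF, map_add, map_mul, map_pow, Polynomial.coe_eval₂RingHom, Polynomial.eval₂_C,
      Polynomial.eval₂_X, ← IsScalarTower.algebraMap_apply]

end Pool.Agent.LibHP
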