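import Pool.Agent.LibHP4.A2
import Pool.Agent.LibHP2.C1b

set_option autoImplicit false

namespace Pool.Agent.LibHP

/-- evaluation of the cubic polynomial -/
private theorem A3_map {A C : Type} [CommRing A] [CommRing C] (φ : A →+* C) (c : Fin 10 → A)
    (x y : A) : φ (cuF c x y) = cuF (fun i => φ (c i)) (φ x) (φ y) := by
  unfold cuF
  simp only [map_add, map_mul, map_pow]

private theorem A3_aeval {B A : Type} [Field B] [CommRing A] [Algebra B A] (c : Fin 10 → B)
    (z : Fin 2 → A) :
    MvPolynomial.aeval z (cuPoly c) = cuF (fun i => algebraMap B A (c i)) (z 0) (z 1) := by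
  unfold cuPoly
  have h := A3_map (MvPolynomial.aeval z : MvPolynomial (Fin 2) B →ₐ[B] A).toRingHom
    (fun i => MvPolynomial.C (c i)) (MvPolynomial.X 0) (MvPolynomial.X 1)
  simp only [AlgHom.toRingHom_eq_coe, RingHom.coe_coe, MvPolynomial.aeval_C,
    MvPolynomial.aeval_X] at h
  exact h

/-- a smooth cubic has degree three -/
private theorem A3_top {B : Type} [Field B] (c : Fin 10 → B) (h : CubicSmooth c) :
    ¬ (c 6 = 0 ∧ c 7 = 0 ∧ c 8 = 0 ∧ c 9 = 0) := by
  rintro ⟨h6, h7, h8, h9⟩
  have key : ∃ s t : AlgebraicClosure B, (s ≠ 0 ∨ t ≠ 0) ∧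
      algebraMap B (AlgebraicClosure B) (c 3) * s ^ 2 +
        algebraMap B (AlgebraicClosure B) (c 4) * s * t +
        algebraMap B (AlgebraicClosure B) (c 5) * t ^ 2 = 0 := by
    by_cases h3 : c 3 = 0
    · refine ⟨1, 0, Or.inl one_ne_zero, ?_⟩
      rw [h3]
      simp
    · have h3' : algebraMap B (AlgebraicClosure B) (c 3) ≠ 0 := by
        intro hh
        exact h3 ((map_eq_zero _).1 hh)
      obtain ⟨s, hs⟩ := IsAlgClosed.exists_root
        (Polynomial.C (algebraMap B (AlgebraicClosure B) (c 3)) * Polynomial.X ^ 2 +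
          Polynomial.C (algebraMap B (AlgebraicClosure B) (c 4)) * Polynomial.X +
          Polynomial.C (algebraMap B (AlgebraicClosure B) (c 5)))
        (by rw [Polynomial.degree_quadratic h3']; norm_num)
      refine ⟨s, 1, Or.inr one_ne_zero, ?_⟩
      rw [Polynomial.IsRoot.def] at hs
      simp only [Polynomial.eval_add, Polynomial.eval_mul, Polynomial.eval_C,
        Polynomial.eval_pow, Polynomial.eval_X] at hs
      linear_combination hs
  obtain ⟨s, t, hst, hq⟩ := key
  obtain ⟨i, hi⟩ := h ![0, s, t] (by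
    intro hh
    have e1 := congrFun hh 1
    have e2 := congrFun hh 2
    simp only [Matrix.cons_val, Pi.zero_apply] at e1 e2
    rcases hst with h1 | h1
    · exact h1 e1
    · exact h1 e2)
  apply hi
  fin_cases i
  · simp only [cuG, Matrix.cons_val, Fin.zero_eta]
    linear_combination hq
  · simp only [cuG, Matrix.cons_val, Fin.mk_one, h6, h7, h8, map_zero]
    ring
  · simp only [cuG, Matrix.cons_val, Fin.reduceFinMk, h7, h8, h9, map_zero]
    ring

/-- polynomials of degree at most one -/
private theorem A3_linear {B : Type} [Field B] (g : MvPolynomial (Fin 2) B)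
    (hg : g.totalDegree ≤ 1) : ∃ a b d : B,
      g = MvPolynomial.C a + MvPolynomial.C b * MvPolynomial.X 0 +
        MvPolynomial.C d * MvPolynomial.X 1 := by
  classical
  refine ⟨MvPolynomial.coeff 0 g, MvPolynomial.coeff (Finsupp.single 0 1) g,
    MvPolynomial.coeff (Finsupp.single 1 1) g, ?_⟩
  ext m
  simp only [MvPolynomial.coeff_add, MvPolynomial.coeff_C, MvPolynomial.coeff_C_mul,
    MvPolynomial.coeff_X, mul_ite, mul_one, mul_zero]
  have hm : m = Finsupp.single 0 (m 0) + Finsupp.single 1 (m 1) := by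
    ext i
    fin_cases i <;> simp
  have hne : (Finsupp.single (0 : Fin 2) 1) ≠ Finsupp.single 1 1 := by
    intro hh
    have := DFunLike.congr_fun hh 0
    simp at this
  by_cases h0 : m = 0
  · subst h0
    have e1 : ¬ (Finsupp.single (0 : Fin 2) 1 = (0 : Fin 2 →₀ ℕ)) := by simp
    have e2 : ¬ (Finsupp.single (1 : Fin 2) 1 = (0 : Fin 2 →₀ ℕ)) := by simp
    rw [if_pos rfl, if_neg e1, if_neg e2]
    simp
  by_cases h1 : m = Finsupp.single 0 1
  · subst h1
    rw [if_neg (fun hh => h0 hh.symm), if_pos rfl, if_neg (fun hh => hne hh.symm)]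
    simp
  by_cases h2 : m = Finsupp.single 1 1
  · subst h2
    rw [if_neg (fun hh => h0 hh.symm), if_neg hne, if_pos rfl]
    simp
  rw [if_neg (fun hh => h0 hh.symm), if_neg (fun hh => h1 hh.symm), if_neg (fun hh => h2 hh.symm)]
  rw [add_zero, add_zero]
  apply MvPolynomial.coeff_eq_zero_of_totalDegree_lt
  refine lt_of_le_of_lt hg ?_
  have hsum : ∑ i ∈ m.support, m i = m 0 + m 1 := by
    have h3 := Finsupp.sum_fintype m (fun _ n => n) (fun _ => rfl)
    rw [Fin.sum_univ_two] at h3
    exact h3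
  rw [hsum]
  by_contra hcon
  have h3 : m 0 + m 1 ≤ 1 := by omega
  rcases Nat.eq_zero_or_pos (m 0) with h4 | h4
  · rcases Nat.eq_zero_or_pos (m 1) with h5 | h5
    · apply h0
      rw [hm, h4, h5]
      simp
    · apply h2
      rw [hm, h4, show m 1 = 1 by omega]
      simp
  · apply h1
    rw [hm, show m 0 = 1 by omega, show m 1 = 0 by omega]
    simp

private theorem A3_deg {B : Type} [Field B] (c : Fin 10 → B) : (cuPoly c).totalDegree ≤ 3 := by
  have hC : ∀ b : B, (MvPolynomial.C b : MvPolynomial (Fin 2) B).totalDegree = 0 :=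
    fun b => MvPolynomial.totalDegree_C b
  have hX : ∀ i : Fin 2, (MvPolynomial.X i : MvPolynomial (Fin 2) B).totalDegree ≤ 1 :=
    fun i => (MvPolynomial.totalDegree_X i).le
  have hm : ∀ p q : MvPolynomial (Fin 2) B, ∀ a b : ℕ, p.totalDegree ≤ a → q.totalDegree ≤ b →
      (p * q).totalDegree ≤ a + b := fun p q a b h1 h2 =>
    (MvPolynomial.totalDegree_mul p q).trans (Nat.add_le_add h1 h2)
  have hp : ∀ p : MvPolynomial (Fin 2) B, ∀ n : ℕ, p.totalDegree ≤ 1 →
      (p ^ n).totalDegree ≤ n := fun p n h1 =>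
    (MvPolynomial.totalDegree_pow p n).trans (by nlinarith)
  have ha : ∀ p q : MvPolynomial (Fin 2) B, p.totalDegree ≤ 3 → q.totalDegree ≤ 3 →
      (p + q).totalDegree ≤ 3 := fun p q h1 h2 =>
    (MvPolynomial.totalDegree_add p q).trans (max_le h1 h2)
  have hle : ∀ p : MvPolynomial (Fin 2) B, ∀ a : ℕ, p.totalDegree ≤ a → a ≤ 3 →
      p.totalDegree ≤ 3 := fun p a h1 h2 => h1.trans h2
  unfold cuPoly cuF
  refine ha _ _ (ha _ _ (ha _ _ (ha _ _ (ha _ _ (ha _ _ (ha _ _ (ha _ _ (ha _ _ ?_ ?_) ?_) ?_)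
    ?_) ?_) ?_) ?_) ?_) ?_
  · exact hle _ 0 (hC _).le (by norm_num)
  · exact hle _ (0 + 1) (hm _ _ _ _ (hC _).le (hX 0)) (by norm_num)
  · exact hle _ (0 + 1) (hm _ _ _ _ (hC _).le (hX 1)) (by norm_num)
  · exact hle _ (0 + 2) (hm _ _ _ _ (hC _).le (hp _ 2 (hX 0))) (by norm_num)
  · exact hle _ (0 + 1 + 1) (hm _ _ _ _ (hm _ _ _ _ (hC _).le (hX 0)) (hX 1)) (by norm_num)
  · exact hle _ (0 + 2) (hm _ _ _ _ (hC _).le (hp _ 2 (hX 1))) (by norm_num)
  · exact hle _ (0 + 3) (hm _ _ _ _ (hC _).le (hp _ 3 (hX 0))) (by norm_num)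
  · exact hle _ (0 + 2 + 1) (hm _ _ _ _ (hm _ _ _ _ (hC _).le (hp _ 2 (hX 0))) (hX 1))
      (by norm_num)
  · exact hle _ (0 + 1 + 2) (hm _ _ _ _ (hm _ _ _ _ (hC _).le (hX 0)) (hp _ 2 (hX 1)))
      (by norm_num)
  · exact hle _ (0 + 3) (hm _ _ _ _ (hC _).le (hp _ 3 (hX 1))) (by norm_num)

/-- a constant cubic polynomial has no terms of degree three -/
private theorem A3_const {B : Type} [Field B] [CharZero B] (c : Fin 10 → B) (r : B)
    (hr : cuPoly c = MvPolynomial.C r) : c 6 = 0 ∧ c 7 = 0 ∧ c 8 = 0 ∧ c 9 = 0 := by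
  have key : ∀ α β : B, c 6 * α ^ 3 + c 7 * α ^ 2 * β + c 8 * α * β ^ 2 + c 9 * β ^ 3 = 0 := by
    intro α β
    have h1 := congrArg (MvPolynomial.aeval ![Polynomial.C α * Polynomial.X,
      Polynomial.C β * (Polynomial.X : Polynomial B)]) hr
    rw [A3_aeval, MvPolynomial.aeval_C] at h1
    simp only [Matrix.cons_val_zero, Matrix.cons_val_one, Polynomial.algebraMap_eq] at h1
    have h2 : cuF (fun i => Polynomial.C (c i)) (Polynomial.C α * Polynomial.X)
        (Polynomial.C β * Polynomial.X) =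
        Polynomial.C (c 6 * α ^ 3 + c 7 * α ^ 2 * β + c 8 * α * β ^ 2 + c 9 * β ^ 3) *
          Polynomial.X ^ 3 + Polynomial.C (c 3 * α ^ 2 + c 4 * α * β + c 5 * β ^ 2) *
          Polynomial.X ^ 2 + Polynomial.C (c 1 * α + c 2 * β) * Polynomial.X +
          Polynomial.C (c 0) := by
      unfold cuF
      simp only [map_add, map_mul, map_pow]
      ring
    rw [h2] at h1
    have h3 := congrArg (fun p => Polynomial.coeff p 3) h1
    simp only [Polynomial.coeff_add, Polynomial.coeff_C_mul, Polynomial.coeff_X_pow,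
      Polynomial.coeff_X, Polynomial.coeff_C] at h3
    simpa using h3
  have k1 := key 1 0
  have k2 := key 0 1
  have k3 := key 1 1
  have k4 := key 1 (-1)
  have e6 : c 6 = 0 := by linear_combination k1
  have e9 : c 9 = 0 := by linear_combination k2
  have e8 : c 8 = 0 := by
    have h2 : (2 : B) ≠ 0 := two_ne_zero
    apply mul_left_cancel₀ h2
    linear_combination k3 + k4 - 2 * e6
  have e7 : c 7 = 0 := by linear_combination k3 - e6 - e8 - e9
  exact ⟨e6, e7, e8, e9⟩

private theorem A3_factor {B : Type} [Field B] [CharZero B] (c : Fin 10 → B)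
    (h : CubicSmooth c) (f g : MvPolynomial (Fin 2) B) (hfg : cuPoly c = f * g)
    (hf : f.totalDegree = 1) : False := by
  obtain ⟨a, b, d, hlin⟩ := A3_linear f hf.le
  have hbd : b ≠ 0 ∨ d ≠ 0 := by
    by_contra hcon
    rw [not_or, not_not, not_not] at hcon
    rw [hlin, hcon.1, hcon.2] at hf
    simp at hf
  have hline : ∃ a₀ a₁ b₀ b₁ : B, (a₁ ≠ 0 ∨ b₁ ≠ 0) ∧ a + b * a₀ + d * b₀ = 0 ∧
      b * a₁ + d * b₁ = 0 := by
    by_cases hd : d = 0
    · have hb : b ≠ 0 := by
        rcases hbd with h1 | h1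
        · exact h1
        · exact absurd hd h1
      refine ⟨-(a / b), 0, 0, 1, Or.inr one_ne_zero, ?_, ?_⟩
      · rw [hd]; field_simp; ring
      · rw [hd]; ring
    · refine ⟨0, 1, -(a / d), -(b / d), Or.inl one_ne_zero, ?_, ?_⟩
      · field_simp; ring
      · field_simp; ring
  obtain ⟨a₀, a₁, b₀, b₁, h1, h2, h3⟩ := hline
  have hno := cubic_no_line (B := B) (E := B) c h a₀ a₁ b₀ b₁ h1
  apply hno
  have h4 := congrArg (MvPolynomial.aeval
    ![Polynomial.C a₀ + Polynomial.C a₁ * Polynomial.X,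
      Polynomial.C b₀ + Polynomial.C b₁ * (Polynomial.X : Polynomial B)]) hfg
  rw [A3_aeval, map_mul] at h4
  simp only [Matrix.cons_val_zero, Matrix.cons_val_one, Polynomial.algebraMap_eq] at h4
  have h5 : MvPolynomial.aeval ![Polynomial.C a₀ + Polynomial.C a₁ * Polynomial.X,
      Polynomial.C b₀ + Polynomial.C b₁ * (Polynomial.X : Polynomial B)] f = 0 := by
    rw [hlin]
    simp only [map_add, map_mul, MvPolynomial.aeval_C, MvPolynomial.aeval_X,
      Matrix.cons_val_zero, Matrix.cons_val_one, Polynomial.algebraMap_eq]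
    have e1 : Polynomial.C a + Polynomial.C b * (Polynomial.C a₀ + Polynomial.C a₁ * Polynomial.X) +
        Polynomial.C d * (Polynomial.C b₀ + Polynomial.C b₁ * Polynomial.X) =
        Polynomial.C (a + b * a₀ + d * b₀) + Polynomial.C (b * a₁ + d * b₁) *
          (Polynomial.X : Polynomial B) := by
      simp only [map_add, map_mul]
      ring
    rw [e1, h2, h3]
    simp
  rw [h5, zero_mul] at h4
  exact h4

theorem cuPoly_irreducible {B : Type} [Field B] [CharZero B] (c : Fin 10 → B)
    (h : CubicSmooth c) : Irreducible (cuPoly c) := by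
  have htop := A3_top c h
  have h0 : cuPoly c ≠ 0 := by
    intro hh
    exact htop (A3_const c 0 (by rw [hh, map_zero]))
  refine ⟨?_, ?_⟩
  · intro hu
    rw [MvPolynomial.isUnit_iff_eq_C_of_isReduced] at hu
    obtain ⟨r, -, hr⟩ := hu
    exact htop (A3_const c r hr)
  · intro f g hfg
    have hf0 : f ≠ 0 := by
      intro hh
      rw [hh, zero_mul] at hfg
      exact h0 hfg
    have hg0 : g ≠ 0 := by
      intro hh
      rw [hh, mul_zero] at hfg
      exact h0 hfg
    have hunit : ∀ p : MvPolynomial (Fin 2) B, p ≠ 0 → p.totalDegree = 0 → IsUnit p := by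
      intro p hp hd
      rw [MvPolynomial.totalDegree_eq_zero_iff_eq_C] at hd
      rw [hd]
      apply IsUnit.map
      rw [isUnit_iff_ne_zero]
      intro hh
      apply hp
      rw [hd, hh, map_zero]
    by_contra hcon
    rw [not_or] at hcon
    have hf1 : f.totalDegree ≠ 0 := fun hh => hcon.1 (hunit f hf0 hh)
    have hg1 : g.totalDegree ≠ 0 := fun hh => hcon.2 (hunit g hg0 hh)
    have hdeg := A3_deg c
    rw [hfg, MvPolynomial.totalDegree_mul_of_isDomain hf0 hg0] at hdeg
    rcases Nat.lt_or_ge f.totalDegree 2 with h1 | h1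
    · exact A3_factor c h f g hfg (by omega)
    · exact A3_factor c h g f (by rw [hfg, mul_comm]) (by omega)

private theorem A3_tr {B K : Type} [Field B] [CharZero B] [Field K] [Algebra B K]
    {c : Fin 10 → B} {x y : K} (h : PPoint B K c x y) :
    Transcendental B x ∧ Transcendental B y := by
  have hE : Algebra.IsAlgebraic B (algebraicClosure B K) := inferInstance
  constructor
  · intro hx
    have hy : Transcendental B y := by
      rcases h.tr with h1 | h1
      · exact absurd hx h1
      · exact h1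
    have hxE : x ∈ algebraicClosure B K := mem_algebraicClosure_iff.2 hx
    have hno := cubic_no_line (E := algebraicClosure B K) c h.smooth ⟨x, hxE⟩ 0 0 1
      (Or.inr one_ne_zero)
    apply hy
    apply IsAlgebraic.restrictScalars B (S := algebraicClosure B K)
    refine ⟨_, hno, ?_⟩
    have h1 := A3_map (Polynomial.aeval y : Polynomial (algebraicClosure B K) →ₐ[_] K).toRingHom
      (fun i => Polynomial.C (algebraMap B (algebraicClosure B K) (c i)))
      (Polynomial.C (⟨x, hxE⟩ : algebraicClosure B K) + Polynomial.C 0 * Polynomial.X)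
      (Polynomial.C 0 + Polynomial.C 1 * Polynomial.X)
    simp only [AlgHom.toRingHom_eq_coe, RingHom.coe_coe, map_add, map_mul, Polynomial.aeval_C,
      Polynomial.aeval_X, map_zero, map_one, zero_mul, add_zero, zero_add, one_mul] at h1
    simp only [map_zero, map_one, zero_mul, add_zero, zero_add, one_mul]
    rw [h1]
    exact h.eq
  · intro hy
    have hx : Transcendental B x := by
      rcases h.tr with h1 | h1
      · exact h1
      · exact absurd hy h1
    have hyE : y ∈ algebraicClosure B K := mem_algebraicClosure_iff.2 hy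
    have hno := cubic_no_line (E := algebraicClosure B K) c h.smooth 0 1 ⟨y, hyE⟩ 0
      (Or.inl one_ne_zero)
    apply hx
    apply IsAlgebraic.restrictScalars B (S := algebraicClosure B K)
    refine ⟨_, hno, ?_⟩
    have h1 := A3_map (Polynomial.aeval x : Polynomial (algebraicClosure B K) →ₐ[_] K).toRingHom
      (fun i => Polynomial.C (algebraMap B (algebraicClosure B K) (c i)))
      (Polynomial.C 0 + Polynomial.C 1 * Polynomial.X)
      (Polynomial.C (⟨y, hyE⟩ : algebraicClosure B K) + Polynomial.C 0 * Polynomial.X)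
    simp only [AlgHom.toRingHom_eq_coe, RingHom.coe_coe, map_add, map_mul, Polynomial.aeval_C,
      Polynomial.aeval_X, map_zero, map_one, zero_mul, add_zero, zero_add, one_mul] at h1
    simp only [map_zero, map_one, zero_mul, add_zero, zero_add, one_mul]
    rw [h1]
    exact h.eq

theorem PPoint.trx {B K : Type} [Field B] [CharZero B] [Field K] [Algebra B K] {c : Fin 10 → B}
    {x y : K} (h : PPoint B K c x y) : Transcendental B x := (A3_tr h).1

theorem PPoint.try' {B K : Type} [Field B] [CharZero B] [Field K] [Algebra B K] {c : Fin 10 → B}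
    {x y : K} (h : PPoint B K c x y) : Transcendental B y := (A3_tr h).2

/-- `(x, y)` is a generic point of the cubic. -/
theorem PPoint.generic {B K : Type} [Field B] [CharZero B] [Field K] [Algebra B K]
    {c : Fin 10 → B} {x y : K} (h : PPoint B K c x y) (G : MvPolynomial (Fin 2) B) :
    MvPolynomial.aeval ![x, y] G = 0 ↔ cuPoly c ∣ G := by
  have hz : MvPolynomial.aeval ![x, y] (cuPoly c) = 0 := by
    rw [A3_aeval]
    exact h.eq
  constructor
  · intro hG
    refine dvd_of_algebraicIndependent B K (cuPoly c) (cuPoly_irreducible c h.smooth) ![x, y] hz 1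
      ?_ G hG
    let _ : Unique {i : Fin 2 // i ≠ 1} :=
      ⟨⟨⟨0, by decide⟩⟩, fun ⟨i, hi⟩ => by
        apply Subtype.ext
        show i = 0
        fin_cases i
        · rfl
        · exact absurd rfl hi⟩
    rw [algebraicIndependent_unique_type_iff]
    exact h.trx
  · rintro ⟨H, rfl⟩
    rw [map_mul, hz, zero_mul]

end Pool.Agent.LibHP
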