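import Pool.Agent.LibHP4.A3

set_option autoImplicit false

namespace Pool.Agent.LibHP

open IntermediateField.algebraAdjoinAdjoin in
/-- algebraicity over the subalgebra generated by one element -/
theorem A4_alg_of_field {B K : Type} [Field B] [Field K] [Algebra B K] (S : Set K)
    (h : Algebra.IsAlgebraic (IntermediateField.adjoin B S) K) :
    Algebra.IsAlgebraic (Algebra.adjoin B S) K :=
  (IsFractionRing.comap_isAlgebraic_iff (A := Algebra.adjoin B S)
    (K := IntermediateField.adjoin B S) (C := K)).mpr h

/-- exchange: over a field of transcendence degree one -/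
theorem A4_exchange {B K : Type} [Field B] [Field K] [Algebra B K] (x z : K)
    (h : Algebra.IsAlgebraic (IntermediateField.adjoin B {x}) K) (hz : Transcendental B z) :
    Algebra.IsAlgebraic (IntermediateField.adjoin B {z}) K := by
  have h1 : Algebra.IsAlgebraic (Algebra.adjoin B {x}) K := A4_alg_of_field {x} h
  have h2 : Algebra.trdeg B K ≤ Cardinal.mk ({x} : Set K) := Algebra.IsAlgebraic.trdeg_le_cardinalMk B {x}
  have h3 : AlgebraicIndependent B (fun _ : Unit => z) :=
    algebraicIndependent_unique_type_iff.mpr hz
  have h4 : IsTranscendenceBasis B (fun _ : Unit => z) := by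
    refine h3.isTranscendenceBasis_of_trdeg_le_of_finite (h2.trans ?_)
    simp
  have h5 := h4.isAlgebraic_field
  rw [Set.range_const] at h5
  exact h5

/-- the second coordinate is algebraic over the first one -/
theorem A4_alg {B K : Type} [Field B] [CharZero B] [Field K] [Algebra B K] {c : Fin 10 → B}
    {x y : K} (h : PPoint B K c x y) : IsAlgebraic (IntermediateField.adjoin B {x}) y := by
  let gx : IntermediateField.adjoin B {x} := ⟨x, IntermediateField.mem_adjoin_simple_self B x⟩
  refine ⟨cuF (fun i => Polynomial.C (algebraMap B (IntermediateField.adjoin B {x}) (c i)))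
    (Polynomial.C gx + Polynomial.C 0 * Polynomial.X)
    (Polynomial.C 0 + Polynomial.C 1 * Polynomial.X),
    cubic_no_line c h.smooth gx 0 0 1 (Or.inr one_ne_zero), ?_⟩
  have e1 : ∀ b : B, algebraMap (IntermediateField.adjoin B {x}) K
      (algebraMap B (IntermediateField.adjoin B {x}) b) = algebraMap B K b := fun _ => rfl
  have e2 : algebraMap (IntermediateField.adjoin B {x}) K gx = x := rfl
  have h1 := h.eq
  simp only [cuF] at h1 ⊢
  simp only [map_add, map_mul, map_pow, Polynomial.aeval_C, Polynomial.aeval_X, e1, e2, map_zero,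
    map_one]
  linear_combination h1

/-- the function field of a plane cubic is algebraic over the field generated by `x` -/
theorem A4_alg_x {B K : Type} [Field B] [CharZero B] [Field K] [Algebra B K]
    {c : Fin 10 → B} {x y : K} (h : PCurve B K c x y) :
    Algebra.IsAlgebraic (IntermediateField.adjoin B {x}) K := by
  have h1 := A4_alg h.toPPoint
  have h2 : IntermediateField.adjoin (IntermediateField.adjoin B {x}) {y} = ⊤ := by
    have h3 := IntermediateField.adjoin_adjoin_left B {x} {y}
    rw [show ({x} ∪ {y} : Set K) = {x, y} from rfl, h.gen] at h3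
    rw [← IntermediateField.restrictScalars_eq_top_iff (K := B)]
    exact h3
  have h3 : Algebra.IsAlgebraic (IntermediateField.adjoin B {x})
      (IntermediateField.adjoin (IntermediateField.adjoin B {x}) {y}) :=
    IntermediateField.isAlgebraic_adjoin_simple h1.isIntegral
  rw [h2] at h3
  exact ⟨fun z => by
    have h4 := h3.isAlgebraic (⟨z, IntermediateField.mem_top⟩ :
      (⊤ : IntermediateField (IntermediateField.adjoin B {x}) K))
    exact (isAlgebraic_algebraMap_iff (algebraMap
      (⊤ : IntermediateField (IntermediateField.adjoin B {x}) K) K).injective).mpr h4⟩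

theorem PCurve.isCurve {B K : Type} [Field B] [CharZero B] [Field K] [Algebra B K]
    {c : Fin 10 → B} {x y : K} (h : PCurve B K c x y) : IsCurve B K := by
  classical
  refine ⟨⟨{x, y}, ?_⟩, ⟨x, h.trx⟩, fun z hz => A4_exchange x z (A4_alg_x h) hz⟩
  rw [Finset.coe_insert, Finset.coe_singleton]
  exact h.gen

/-- extension of a map from generators to the field of fractions -/
theorem A4_hom {B K K' : Type} [Field B] [Field K] [Algebra B K]
    [Field K'] [Algebra B K'] (a : Fin 2 → K) (b : Fin 2 → K')
    (hgen : IntermediateField.adjoin B (Set.range a) = ⊤)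
    (hker : ∀ G : MvPolynomial (Fin 2) B, MvPolynomial.aeval a G = 0 ↔
      MvPolynomial.aeval b G = 0) : ∃ D : K →ₐ[B] K', ∀ i, D (a i) = b i := by
  classical
  -- choose polynomials
  have h0 : ∀ z : Algebra.adjoin B (Set.range a), ∃ G : MvPolynomial (Fin 2) B,
      MvPolynomial.aeval a G = (z : K) := by
    intro z
    obtain ⟨z, hz⟩ := z
    rw [Algebra.adjoin_range_eq_range_aeval] at hz
    exact hz
  choose G hG using h0
  have key : ∀ (z : Algebra.adjoin B (Set.range a)) (P : MvPolynomial (Fin 2) B),
      MvPolynomial.aeval a P = (z : K) → MvPolynomial.aeval b (G z) = MvPolynomial.aeval b P := by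
    intro z P hP
    have h1 : MvPolynomial.aeval a (G z - P) = 0 := by rw [map_sub, hG, hP, sub_self]
    have h2 := (hker _).mp h1
    rw [map_sub] at h2
    exact sub_eq_zero.mp h2
  let ψ : Algebra.adjoin B (Set.range a) →ₐ[B] K' :=
    { toFun := fun z => MvPolynomial.aeval b (G z)
      map_one' := by
        rw [key 1 1 (by simp), map_one]
      map_mul' := fun z w => by
        rw [key (z * w) (G z * G w) (by rw [map_mul, hG, hG]; rfl), map_mul]
      map_zero' := by
        rw [key 0 0 (by simp), map_zero]
      map_add' := fun z w => by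
        rw [key (z + w) (G z + G w) (by rw [map_add, hG, hG]; rfl), map_add]
      commutes' := fun r => by
        rw [key (algebraMap B _ r) (MvPolynomial.C r) (by
          rw [MvPolynomial.aeval_C]; rfl), MvPolynomial.aeval_C] }
  have hψ : Function.Injective ψ := by
    rw [injective_iff_map_eq_zero]
    intro z hz
    have h1 : MvPolynomial.aeval b (G z) = 0 := hz
    have h2 := (hker _).mpr h1
    rw [hG] at h2
    exact Subtype.ext h2
  open IntermediateField.algebraAdjoinAdjoin in
  let D0 : IntermediateField.adjoin B (Set.range a) →ₐ[B] K' :=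
    IsFractionRing.liftAlgHom (A := Algebra.adjoin B (Set.range a)) (g := ψ) hψ
  let e : K →ₐ[B] IntermediateField.adjoin B (Set.range a) :=
    ((IntermediateField.equivOfEq hgen).symm.toAlgHom).comp
      IntermediateField.topEquiv.symm.toAlgHom
  refine ⟨D0.comp e, fun i => ?_⟩
  have hmem : a i ∈ Algebra.adjoin B (Set.range a) := Algebra.subset_adjoin ⟨i, rfl⟩
  open IntermediateField.algebraAdjoinAdjoin in
  have h1 : e (a i) = algebraMap (Algebra.adjoin B (Set.range a))
      (IntermediateField.adjoin B (Set.range a)) ⟨a i, hmem⟩ := rfl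
  open IntermediateField.algebraAdjoinAdjoin in
  have h2 : D0 (algebraMap (Algebra.adjoin B (Set.range a))
      (IntermediateField.adjoin B (Set.range a)) ⟨a i, hmem⟩) = ψ ⟨a i, hmem⟩ :=
    IsFractionRing.lift_algebraMap hψ _
  show D0 (e (a i)) = b i
  rw [h1, h2]
  show MvPolynomial.aeval b (G ⟨a i, hmem⟩) = b i
  rw [key ⟨a i, hmem⟩ (MvPolynomial.X i) (by rw [MvPolynomial.aeval_X]), MvPolynomial.aeval_X]

/-- Points of the cubic in a field `K'` give embeddings of the function field. -/
theorem PCurve.exists_hom {B K K' : Type} [Field B] [CharZero B] [Field K] [Algebra B K]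
    [Field K'] [Algebra B K'] {c : Fin 10 → B} {x y : K} (h : PCurve B K c x y) (x' y' : K')
    (h' : PPoint B K' c x' y') : ∃ D : K →ₐ[B] K', D x = x' ∧ D y = y' := by
  obtain ⟨D, hD⟩ := A4_hom (B := B) ![x, y] ![x', y']
    (by rw [Matrix.range_cons, Matrix.range_cons, Matrix.range_empty, Set.union_empty]; exact h.gen)
    (fun G => (h.toPPoint.generic G).trans (h'.generic G).symm)
  exact ⟨D, hD 0, hD 1⟩

end Pool.Agent.LibHP
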