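import Pool.Agent.LibHP4.A3
import Pool.Agent.LibHP3.R5

set_option autoImplicit false
open Polynomial

namespace Pool.Agent.LibHP

theorem A6_mapF {R S : Type} [CommRing R] [CommRing S] (f : R →+* S) (c : Fin 10 → R) (x y : R) :
    f (cuF c x y) = cuF (fun i => f (c i)) (f x) (f y) := by
  simp only [cuF, map_add, map_mul, map_pow]

theorem A6_mapX {R S : Type} [CommRing R] [CommRing S] (f : R →+* S) (c : Fin 10 → R) (x y : R) :
    f (cuX c x y) = cuX (fun i => f (c i)) (f x) (f y) := by
  simp only [cuX, map_add, map_mul, map_pow, map_ofNat]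

theorem A6_mapY {R S : Type} [CommRing R] [CommRing S] (f : R →+* S) (c : Fin 10 → R) (x y : R) :
    f (cuY c x y) = cuY (fun i => f (c i)) (f x) (f y) := by
  simp only [cuY, map_add, map_mul, map_pow, map_ofNat]

/-- A point of the cubic over an extension field is not singular. -/
theorem A6_nonsing {B E : Type} [Field B] [CharZero B] [Field E] [Algebra B E]
    {c : Fin 10 → B} {x y : E} (h : CubicSmooth c)
    (hF : cuF (fun i => algebraMap B E (c i)) x y = 0)
    (hX : cuX (fun i => algebraMap B E (c i)) x y = 0)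
    (hY : cuY (fun i => algebraMap B E (c i)) x y = 0) : False := by
  have hne : (![1, x, y] : Fin 3 → E) ≠ 0 := fun h0 => by
    have := congrFun h0 0
    simp at this
  obtain ⟨i, hi⟩ := cubicSmooth_ext c h ![1, x, y] hne
  apply hi
  have h1 : cuG (fun i => algebraMap B E (c i)) ![1, x, y] 1 =
      cuX (fun i => algebraMap B E (c i)) x y := by
    simp [cuG, cuX]
  have h2 : cuG (fun i => algebraMap B E (c i)) ![1, x, y] 2 =
      cuY (fun i => algebraMap B E (c i)) x y := by
    simp [cuG, cuY]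
  have h0 : cuG (fun i => algebraMap B E (c i)) ![1, x, y] 0 =
      3 * cuF (fun i => algebraMap B E (c i)) x y -
        x * cuX (fun i => algebraMap B E (c i)) x y -
        y * cuY (fun i => algebraMap B E (c i)) x y := by
    simp only [cuG, cuX, cuY, cuF, Matrix.cons_val_zero, Matrix.cons_val_one, Matrix.cons_val]
    ring
  rw [hF, hX, hY] at h0
  rw [hX] at h1
  rw [hY] at h2
  fin_cases i
  · change cuG _ ![1, x, y] 0 = 0
    rw [h0]; ring
  · exact h1
  · exact h2

/-- The structure map of a place. -/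
noncomputable def A6_i {B K : Type} [Field B] [Field K] [Algebra B K] (V : ValuationSubring K)
    (hB : ∀ b : B, algebraMap B K b ∈ V) : B →+* V :=
  (algebraMap B K).codRestrict V hB

theorem A6_val {K : Type} [Field K] (V : ValuationSubring K) (z : V) :
    V.valuation (z : K) = 1 ↔ IsLocalRing.residue V z ≠ 0 := by
  rw [← V.valuation_eq_one_iff, ne_eq, IsLocalRing.residue_eq_zero_iff,
    IsLocalRing.mem_maximalIdeal, mem_nonunits_iff, not_not]

theorem A6_coeF {B K : Type} [Field B] [Field K] [Algebra B K] (V : ValuationSubring K)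
    (hB : ∀ b : B, algebraMap B K b ∈ V) (c : Fin 10 → B) (x y : V) :
    ((cuF (fun i => A6_i V hB (c i)) x y : V) : K) =
      cuF (fun i => algebraMap B K (c i)) (x : K) (y : K) := by
  have h1 := A6_mapF V.subtype (fun i => A6_i V hB (c i)) x y
  exact h1

theorem A6_coeX {B K : Type} [Field B] [Field K] [Algebra B K] (V : ValuationSubring K)
    (hB : ∀ b : B, algebraMap B K b ∈ V) (c : Fin 10 → B) (x y : V) :
    ((cuX (fun i => A6_i V hB (c i)) x y : V) : K) =
      cuX (fun i => algebraMap B K (c i)) (x : K) (y : K) := by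
  have h1 := A6_mapX V.subtype (fun i => A6_i V hB (c i)) x y
  exact h1

theorem A6_coeY {B K : Type} [Field B] [Field K] [Algebra B K] (V : ValuationSubring K)
    (hB : ∀ b : B, algebraMap B K b ∈ V) (c : Fin 10 → B) (x y : V) :
    ((cuY (fun i => A6_i V hB (c i)) x y : V) : K) =
      cuY (fun i => algebraMap B K (c i)) (x : K) (y : K) := by
  have h1 := A6_mapY V.subtype (fun i => A6_i V hB (c i)) x y
  exact h1

/-- The partial derivatives do not both vanish at a place with centre in the affine plane. -/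
theorem PCurve.unit_at {B K : Type} [Field B] [CharZero B] [Field K] [Algebra B K]
    {c : Fin 10 → B} {x y : K} (h : PCurve B K c x y) (V : ValuationSubring K)
    (hB : ∀ b : B, algebraMap B K b ∈ V) (hx : x ∈ V) (hy : y ∈ V) :
    V.valuation (cuX (fun i => algebraMap B K (c i)) x y) = 1 ∨
      V.valuation (cuY (fun i => algebraMap B K (c i)) x y) = 1 := by
  by_contra hcon
  push Not at hcon
  obtain ⟨h1, h2⟩ := hcon
  let x' : V := ⟨x, hx⟩
  let y' : V := ⟨y, hy⟩
  have hXe := A6_coeX V hB c x' y'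
  have hYe := A6_coeY V hB c x' y'
  have hFe := A6_coeF V hB c x' y'
  change _ = cuX (fun i => algebraMap B K (c i)) x y at hXe
  change _ = cuY (fun i => algebraMap B K (c i)) x y at hYe
  change _ = cuF (fun i => algebraMap B K (c i)) x y at hFe
  rw [← hXe, ne_eq, A6_val, not_not] at h1
  rw [← hYe, ne_eq, A6_val, not_not] at h2
  rw [h.eq] at hFe
  have h3 : cuF (fun i => A6_i V hB (c i)) x' y' = 0 := Subtype.ext hFe
  have h4 := A6_mapF (IsLocalRing.residue V) (fun i => A6_i V hB (c i)) x' y'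
  rw [h3, map_zero] at h4
  rw [A6_mapX] at h1
  rw [A6_mapY] at h2
  let inst : Algebra B (IsLocalRing.ResidueField V) :=
    ((IsLocalRing.residue V).comp (A6_i V hB)).toAlgebra
  exact A6_nonsing (E := IsLocalRing.ResidueField V) h.smooth h4.symm h1 h2

/-- Evaluation of polynomials in two variables. -/
noncomputable def A6_ev {B S : Type} [Field B] [CommRing S] (i : B →+* S) (x y : S) :
    B[X][X] →+* S := eval₂RingHom (eval₂RingHom i x) y

theorem A6_ev_map {B S T : Type} [Field B] [CommRing S] [CommRing T] (i : B →+* S) (x y : S)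
    (f : S →+* T) (G : B[X][X]) :
    f (A6_ev i x y G) = A6_ev (f.comp i) (f x) (f y) G := by
  unfold A6_ev
  rw [coe_eval₂RingHom, coe_eval₂RingHom, hom_eval₂]
  congr 1
  ext <;> simp

theorem A6_ev_F {B S : Type} [Field B] [CommRing S] (i : B →+* S) (x y : S) (c : Fin 10 → B) :
    A6_ev i x y (cuF (fun k => C (C (c k))) (C X) X) = cuF (fun k => i (c k)) x y := by
  rw [A6_mapF]
  simp [A6_ev]

theorem A6_ev_Y {B S : Type} [Field B] [CommRing S] (i : B →+* S) (x y : S) (c : Fin 10 → B) :
    A6_ev i x y (cuY (fun k => C (C (c k))) (C X) X) = cuY (fun k => i (c k)) x y := by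
  rw [A6_mapY]
  simp [A6_ev]

theorem A6_der {B : Type} [Field B] (c : Fin 10 → B) :
    derivative (cuF (fun k => C (C (c k))) (C X) X : B[X][X]) =
      cuY (fun k => C (C (c k))) (C X) X := by
  simp only [cuF, cuY, derivative_add, derivative_mul, derivative_C, derivative_X,
    derivative_pow]
  simp only [map_natCast, zero_mul, mul_zero, add_zero, zero_add, mul_one]
  push_cast
  ring

theorem A6_key {B O κ : Type} [Field B] [CommRing O] [Field κ] (i : B →+* O) (ρ : O →+* κ)
    (c : Fin 10 → B) (x y : O) (hF : cuF (fun k => i (c k)) x y = 0)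
    (hY : ρ (cuY (fun k => i (c k)) x y) ≠ 0) (p : B[X]) (hp : Irreducible p)
    (hpx : eval₂ (ρ.comp i) (ρ x) p = 0) (G : B[X][X]) (hG : ρ (A6_ev i x y G) = 0) :
    ∃ H r : B[X][X], ρ (A6_ev i x y H) ≠ 0 ∧
      A6_ev i x y H * A6_ev i x y G = A6_ev i x y (C p) * A6_ev i x y r := by
  have : Fact (Irreducible p) := ⟨hp⟩
  let j : AdjoinRoot p →+* κ := AdjoinRoot.lift (ρ.comp i) (ρ x) hpx
  let inst : Algebra (AdjoinRoot p) κ := j.toAlgebra
  have hev : ∀ Q : B[X][X], ρ (A6_ev i x y Q) = aeval (ρ y) (Q.map (AdjoinRoot.mk p)) := by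
    intro Q
    rw [A6_ev_map, aeval_def, eval₂_map]
    unfold A6_ev
    rw [coe_eval₂RingHom]
    have hj : eval₂RingHom (ρ.comp i) (ρ x) = j.comp (AdjoinRoot.mk p) := by
      apply RingHom.ext
      intro q
      rw [coe_eval₂RingHom, RingHom.comp_apply]
      exact (AdjoinRoot.lift_mk hpx q).symm
    rw [hj]
    rfl
  set F : B[X][X] := cuF (fun k => C (C (c k))) (C X) X with hFdef
  have h1 : aeval (ρ y) (F.map (AdjoinRoot.mk p)) = 0 := by
    rw [← hev, hFdef, A6_ev_F, hF, map_zero]
  have h2 : aeval (ρ y) (derivative (F.map (AdjoinRoot.mk p))) ≠ 0 := by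
    rw [derivative_map, ← hev, hFdef, A6_der, A6_ev_Y]
    exact hY
  have hint : IsIntegral (AdjoinRoot p) (ρ y) := by
    refine IsAlgebraic.isIntegral ⟨F.map (AdjoinRoot.mk p), ?_, h1⟩
    intro h0
    rw [h0, derivative_zero, map_zero] at h2
    exact h2 rfl
  obtain ⟨q, hq⟩ := minpoly.dvd (AdjoinRoot p) (ρ y) h1
  have hq0 : aeval (ρ y) q ≠ 0 := by
    intro h0
    apply h2
    rw [hq, derivative_mul, map_add, map_mul, map_mul, minpoly.aeval, h0, mul_zero, zero_mul,
      add_zero]
  obtain ⟨k, hk⟩ := minpoly.dvd (AdjoinRoot p) (ρ y) (show aeval (ρ y) (G.map _) = 0 by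
    rw [← hev, hG])
  obtain ⟨H, hH⟩ := map_surjective (AdjoinRoot.mk p) AdjoinRoot.mk_surjective q
  obtain ⟨L, hL⟩ := map_surjective (AdjoinRoot.mk p) AdjoinRoot.mk_surjective k
  have h3 : (H * G - F * L).map (AdjoinRoot.mk p) = 0 := by
    rw [Polynomial.map_sub, Polynomial.map_mul, Polynomial.map_mul, hH, hL, hk, hq]
    ring
  obtain ⟨r, hr⟩ : C p ∣ H * G - F * L := by
    rw [C_dvd_iff_dvd_coeff]
    intro n
    rw [← AdjoinRoot.mk_eq_zero, ← coeff_map, h3, coeff_zero]
  refine ⟨H, r, ?_, ?_⟩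
  · rw [hev, hH]
    exact hq0
  · have h4 := congrArg (A6_ev i x y) hr
    rw [map_sub, map_mul, map_mul, map_mul, hFdef, A6_ev_F, hF, zero_mul, sub_zero] at h4
    exact h4

theorem A6_dvr {A K : Type} [CommRing A] [IsDomain A] [IsNoetherianRing A] [Field K] (g : A →+* K)
    (hinj : Function.Injective g) (V : ValuationSubring K) (hA : ∀ a, g a ∈ V) (π : A)
    (hπ0 : π ≠ 0) (hπ1 : V.valuation (g π) < 1)
    (hkey : ∀ a, V.valuation (g a) < 1 → ∃ b r, V.valuation (g b) = 1 ∧ b * a = π * r)
    (hfrac : ∀ z : K, ∃ a b : A, b ≠ 0 ∧ z * g b = g a) :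
    (∀ z ∈ V, ∃ a b : A, V.valuation (g b) = 1 ∧ z * g b = g a) ∧ IsUnif V (g π) := by
  classical
  let i : A →+* V := g.codRestrict V hA
  let m : Ideal A := Ideal.comap i (IsLocalRing.maximalIdeal V)
  have hm : ∀ a : A, a ∈ m ↔ V.valuation (g a) < 1 := by
    intro a
    rw [Ideal.mem_comap, V.valuation_lt_one_iff]
    rfl
  have hle : ∀ a : A, V.valuation (g a) ≤ 1 := fun a => (V.valuation_le_one_iff _).mpr (hA a)
  have hm' : ∀ a : A, a ∉ m ↔ V.valuation (g a) = 1 := by
    intro a
    rw [hm, not_lt]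
    exact ⟨fun h => le_antisymm (hle a) h, fun h => h.ge⟩
  have hmp : m.IsPrime := Ideal.comap_isPrime i _
  let R := Localization.AtPrime m
  have hu : ∀ s : m.primeCompl, IsUnit (g s) := by
    intro s
    have h1 : V.valuation (g s) = 1 := (hm' s).mp s.2
    rw [isUnit_iff_ne_zero]
    intro h0
    rw [h0, map_zero] at h1
    exact zero_ne_one h1
  let f : R →+* K := IsLocalization.lift (M := m.primeCompl) (S := R) hu
  have hf : ∀ a : A, f (algebraMap A R a) = g a := fun a => IsLocalization.lift_eq hu a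
  have hfV : ∀ r : R, f r ∈ V := by
    intro r
    obtain ⟨a, s, rfl⟩ := IsLocalization.exists_mk'_eq m.primeCompl r
    have h1 : f (IsLocalization.mk' R a s) * g s = g a := by
      rw [← hf, ← hf, ← map_mul, IsLocalization.mk'_spec]
    have h2 : V.valuation (g s) = 1 := (hm' s).mp s.2
    have h3 := congrArg V.valuation h1
    rw [map_mul, h2, mul_one] at h3
    rw [← V.valuation_le_one_iff, h3]
    exact hle a
  have hinjR : Function.Injective (algebraMap A R) :=
    IsLocalization.injective R (Ideal.primeCompl_le_nonZeroDivisors m)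
  have hdom : IsDomain R := inferInstance
  have hnoeth : IsNoetherianRing R := IsLocalization.isNoetherianRing m.primeCompl R inferInstance
  let ϖ : R := algebraMap A R π
  have hϖ0 : ϖ ≠ 0 := by
    intro h0
    apply hπ0
    apply hinjR
    rw [map_zero]
    exact h0
  have hmax : IsLocalRing.maximalIdeal R = Ideal.span {ϖ} := by
    apply le_antisymm
    · intro r hr
      obtain ⟨a, s, rfl⟩ := IsLocalization.exists_mk'_eq m.primeCompl r
      have ha : a ∈ m := by
        rw [← IsLocalization.AtPrime.to_map_mem_maximal_iff R m a]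
        rw [← IsLocalization.mk'_spec R a s]
        exact Ideal.mul_mem_right _ _ hr
      obtain ⟨b, r0, hb, hr0⟩ := hkey a ((hm a).mp ha)
      have hbu : IsUnit (algebraMap A R b) :=
        IsLocalization.map_units R (⟨b, (hm' b).mpr hb⟩ : m.primeCompl)
      have hsu : IsUnit (algebraMap A R s) := IsLocalization.map_units R s
      rw [Ideal.mem_span_singleton]
      rw [← (hbu.mul hsu).dvd_mul_right]
      refine ⟨algebraMap A R r0, ?_⟩
      have h1 := IsLocalization.mk'_spec R a s
      have h2 := congrArg (algebraMap A R) hr0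
      rw [map_mul, map_mul] at h2
      change _ = algebraMap A R π * _
      linear_combination (algebraMap A R b) * h1 + h2
    · rw [Ideal.span_singleton_le_iff_mem]
      exact (IsLocalization.AtPrime.to_map_mem_maximal_iff R m π).mpr ((hm π).mpr hπ1)
  have hnf : ¬ IsField R := by
    rw [IsLocalRing.isField_iff_maximalIdeal_eq, hmax, Ideal.span_singleton_eq_bot]
    exact hϖ0
  have hpr : Submodule.IsPrincipal (IsLocalRing.maximalIdeal R) := ⟨⟨ϖ, hmax⟩⟩
  have hdvr : IsDiscreteValuationRing R :=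
    ((IsDiscreteValuationRing.TFAE R hnf).out 0 4).mpr hpr
  have hirr : Irreducible ϖ :=
    IsDiscreteValuationRing.irreducible_of_span_eq_maximalIdeal ϖ hϖ0 hmax
  have hunitV : ∀ u : Rˣ, f u ∈ V ∧ (f u)⁻¹ ∈ V := by
    intro u
    refine ⟨hfV _, ?_⟩
    have h1 : f u * f (u⁻¹ : Rˣ) = 1 := by rw [← map_mul, Units.mul_inv, map_one]
    rw [inv_eq_of_mul_eq_one_right h1]
    exact hfV _
  -- every nonzero element of V is a unit times a power
  have hrep : ∀ z ∈ V, z ≠ 0 → ∃ (n : ℕ) (u : Rˣ), z = f (u * ϖ ^ n) := by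
    intro z hz hz0
    obtain ⟨a, b, hb0, hab⟩ := hfrac z
    have ha0 : a ≠ 0 := by
      rintro rfl
      rw [map_zero] at hab
      rcases mul_eq_zero.mp hab with h | h
      · exact hz0 h
      · exact hb0 (hinj (by rw [h, map_zero]))
    have ha0' : algebraMap A R a ≠ 0 := fun h => ha0 (hinjR (by rw [h, map_zero]))
    have hb0' : algebraMap A R b ≠ 0 := fun h => hb0 (hinjR (by rw [h, map_zero]))
    obtain ⟨j, u, hu1⟩ := IsDiscreteValuationRing.eq_unit_mul_pow_irreducible ha0' hirr
    obtain ⟨l, w, hw1⟩ := IsDiscreteValuationRing.eq_unit_mul_pow_irreducible hb0' hirr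
    have hfϖ : f ϖ = g π := hf π
    have hga : g a = f u * g π ^ j := by rw [← hf, hu1, map_mul, map_pow, hfϖ]
    have hgb : g b = f w * g π ^ l := by rw [← hf, hw1, map_mul, map_pow, hfϖ]
    have hw0 : f w * f (w⁻¹ : Rˣ) = 1 := by rw [← map_mul, Units.mul_inv, map_one]
    have hu0 : f u * f (u⁻¹ : Rˣ) = 1 := by rw [← map_mul, Units.mul_inv, map_one]
    have hgπ : g π ≠ 0 := fun h => hπ0 (hinj (by rw [h, map_zero]))
    rcases le_or_gt l j with hlj | hlj
    · refine ⟨j - l, u * w⁻¹, ?_⟩
      have h1 : z * g b = f ((u * w⁻¹ : Rˣ) * ϖ ^ (j - l)) * g b := by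
        rw [hab, hga, hgb, Units.val_mul, map_mul, map_mul, map_pow, hfϖ]
        have h2 : g π ^ j = g π ^ (j - l) * g π ^ l := by rw [← pow_add, Nat.sub_add_cancel hlj]
        rw [h2]
        linear_combination (-(f u * g π ^ (j - l) * g π ^ l)) * hw0
      exact mul_right_cancel₀ (fun h => hb0 (hinj (by rw [h, map_zero]))) h1
    · exfalso
      have h1 : z * g π ^ (l - j) * f w = f u := by
        have h2 : z * g π ^ (l - j) * f w * g π ^ j = f u * g π ^ j := by
          have h3 : g π ^ l = g π ^ (l - j) * g π ^ j := by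
            rw [← pow_add, Nat.sub_add_cancel hlj.le]
          rw [← hga, ← hab, hgb, h3]
          ring
        exact mul_right_cancel₀ (pow_ne_zero _ hgπ) h2
      have h4 := congrArg V.valuation h1
      have h5 : V.valuation (f u) = 1 := by
        have h6 := congrArg V.valuation hu0
        rw [map_mul, map_one] at h6
        have h7 : V.valuation (f u) ≤ 1 := (V.valuation_le_one_iff _).mpr (hfV _)
        have h8 : V.valuation (f (u⁻¹ : Rˣ)) ≤ 1 := (V.valuation_le_one_iff _).mpr (hfV _)
        refine le_antisymm h7 ?_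
        calc (1 : V.ValueGroup) = V.valuation (f u) * V.valuation (f (u⁻¹ : Rˣ)) := h6.symm
          _ ≤ V.valuation (f u) * 1 := mul_le_mul_right h8 _
          _ = V.valuation (f u) := mul_one _
      rw [h5, map_mul, map_mul, map_pow] at h4
      have h9 : V.valuation z ≤ 1 := (V.valuation_le_one_iff _).mpr hz
      have h10 : V.valuation (f w) ≤ 1 := (V.valuation_le_one_iff _).mpr (hfV _)
      have h11 : V.valuation (g π) ^ (l - j) < 1 := pow_lt_one₀ (zero_le) hπ1 (by omega)
      have h12 : V.valuation z * V.valuation (g π) ^ (l - j) * V.valuation (f w) < 1 := by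
        calc V.valuation z * V.valuation (g π) ^ (l - j) * V.valuation (f w)
            ≤ 1 * V.valuation (g π) ^ (l - j) * 1 :=
              mul_le_mul' (mul_le_mul' h9 le_rfl) h10
          _ < 1 := by rw [one_mul, mul_one]; exact h11
      exact h12.ne h4
  refine ⟨?_, hA π, fun h => hπ0 (hinj (by rw [h, map_zero])), ?_, ?_⟩
  · intro z hz
    by_cases hz0 : z = 0
    · exact ⟨0, 1, by rw [map_one, map_one], by rw [hz0, map_zero, zero_mul]⟩
    obtain ⟨n, u, hzu⟩ := hrep z hz hz0
    obtain ⟨a, s, has⟩ := IsLocalization.exists_mk'_eq m.primeCompl ((u : R) * ϖ ^ n)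
    refine ⟨a, s, (hm' s).mp s.2, ?_⟩
    rw [hzu, ← has, ← hf, ← hf, ← map_mul, IsLocalization.mk'_spec]
  · intro h
    have h1 := (V.valuation_le_one_iff _).mpr h
    rw [map_inv₀] at h1
    have h2 : V.valuation (g π) ≠ 0 := by
      rw [ne_eq, map_eq_zero]
      exact fun h => hπ0 (hinj (by rw [h, map_zero]))
    have h3 : V.valuation (g π) * (V.valuation (g π))⁻¹ = 1 := mul_inv_cancel₀ h2
    have h4 : V.valuation (g π) * (V.valuation (g π))⁻¹ < 1 :=
      lt_of_le_of_lt (mul_le_mul_right h1 _) (by rw [mul_one]; exact hπ1)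
    exact h4.ne h3
  · intro a ha ha0
    obtain ⟨n, u, hu1⟩ := hrep a ha ha0
    refine ⟨n, f u, (hunitV u).1, (hunitV u).2, ?_⟩
    rw [hu1, map_mul, map_pow]
    congr 2
    exact hf π

theorem A6_ev_mem {B K : Type} [Field B] [Field K] [Algebra B K] (x y : K) (G : B[X][X]) :
    A6_ev (algebraMap B K) x y G ∈ Algebra.adjoin B {x, y} := by
  have hx : x ∈ Algebra.adjoin B {x, y} := Algebra.subset_adjoin (by simp)
  have hy : y ∈ Algebra.adjoin B {x, y} := Algebra.subset_adjoin (by simp)
  induction G using Polynomial.induction_on' with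
  | add p q hp hq => rw [map_add]; exact add_mem hp hq
  | monomial n q =>
    have h1 : A6_ev (algebraMap B K) x y (monomial n q) = aeval x q * y ^ n := by
      unfold A6_ev
      rw [coe_eval₂RingHom, eval₂_monomial, coe_eval₂RingHom, aeval_def]
    rw [h1]
    refine mul_mem ?_ (pow_mem hy n)
    have h2 := aeval_mem_adjoin_singleton B x (p := q)
    exact Algebra.adjoin_mono (by simp) h2

theorem A6_exists_ev {B K : Type} [Field B] [Field K] [Algebra B K] (x y : K) (a : K)
    (ha : a ∈ Algebra.adjoin B {x, y}) : ∃ G : B[X][X], A6_ev (algebraMap B K) x y G = a := by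
  induction ha using Algebra.adjoin_induction with
  | mem z hz =>
    rcases hz with rfl | rfl
    · exact ⟨C X, by simp [A6_ev]⟩
    · exact ⟨X, by simp [A6_ev]⟩
  | algebraMap r => exact ⟨C (C r), by simp [A6_ev]⟩
  | add z w _ _ hz hw =>
    obtain ⟨G, hG⟩ := hz
    obtain ⟨H, hH⟩ := hw
    exact ⟨G + H, by rw [map_add, hG, hH]⟩
  | mul z w _ _ hz hw =>
    obtain ⟨G, hG⟩ := hz
    obtain ⟨H, hH⟩ := hw
    exact ⟨G * H, by rw [map_mul, hG, hH]⟩

theorem A6_coe_ev {B K : Type} [Field B] [Field K] [Algebra B K] (V : ValuationSubring K)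
    (hB : ∀ b : B, algebraMap B K b ∈ V) (x y : V) (G : B[X][X]) :
    ((A6_ev (A6_i V hB) x y G : V) : K) = A6_ev (algebraMap B K) (x : K) (y : K) G := by
  have h1 := A6_ev_map (A6_i V hB) x y V.subtype G
  exact h1

/-- The residue of `x` at a nontrivial place is algebraic over the base. -/
theorem A6_alg {B K : Type} [Field B] [CharZero B] [Field K] [Algebra B K]
    {c : Fin 10 → B} {x y : K} (h : PCurve B K c x y) (V : ValuationSubring K)
    (hB : ∀ b : B, algebraMap B K b ∈ V) (hV : V ≠ ⊤) (hx : x ∈ V) :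
    ∃ q : B[X], q ≠ 0 ∧ V.valuation (aeval x q) < 1 := by
  by_contra hcon
  push Not at hcon
  apply hV
  let M := IntermediateField.adjoin B {x}
  have hpoly : ∀ q : B[X], aeval x q ∈ V := by
    intro q
    have h1 : ((eval₂ (A6_i V hB) ⟨x, hx⟩ q : V) : K) = aeval x q := by
      have h2 := hom_eval₂ q (A6_i V hB) V.subtype ⟨x, hx⟩
      exact h2
    rw [← h1]
    exact SetLike.coe_mem _
  have hM : ∀ m : M, algebraMap M K m ∈ V := by
    rintro ⟨m, hm⟩
    change m ∈ V
    rw [IntermediateField.mem_adjoin_iff_div] at hm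
    obtain ⟨r, hr, s, hs, rfl⟩ := hm
    rw [Algebra.adjoin_singleton_eq_range_aeval] at hr hs
    obtain ⟨r, rfl⟩ := hr
    obtain ⟨s, rfl⟩ := hs
    change aeval x r / aeval x s ∈ V
    by_cases hs0 : s = 0
    · rw [hs0, map_zero, div_zero]
      exact V.zero_mem
    have h1 := hcon s hs0
    rw [← V.valuation_le_one_iff, map_div₀]
    have h2 : V.valuation (aeval x s) = 1 :=
      le_antisymm ((V.valuation_le_one_iff _).mpr (hpoly s)) h1
    rw [h2, div_one]
    exact (V.valuation_le_one_iff _).mpr (hpoly r)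
  have hxM : x ∈ M := IntermediateField.mem_adjoin_simple_self B x
  have hyalg : IsAlgebraic M y := by
    have h1 := cubic_no_line (E := M) c h.smooth ⟨x, hxM⟩ 0 0 1 (Or.inr one_ne_zero)
    refine ⟨_, h1, ?_⟩
    have h2 := A6_mapF (aeval y : M[X] →ₐ[M] K).toRingHom
      (fun i => C (algebraMap B M (c i))) (C ⟨x, hxM⟩ + C 0 * X) (C 0 + C 1 * X)
    have h3 : (aeval y : M[X] →ₐ[M] K).toRingHom (C (⟨x, hxM⟩ : M) + C 0 * X) = x := by
      simp
    have h4 : (aeval y : M[X] →ₐ[M] K).toRingHom (C (0 : M) + C 1 * X) = y := by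
      simp
    have h5 : (fun i => (aeval y : M[X] →ₐ[M] K).toRingHom (C (algebraMap B M (c i)))) =
        fun i => algebraMap B K (c i) := by
      funext i
      simp
    rw [h3, h4, h5, h.eq] at h2
    exact h2
  rw [eq_top_iff]
  intro z _
  have hz : z ∈ IntermediateField.adjoin B {x, y} := by
    rw [h.gen]
    exact IntermediateField.mem_top
  have hle : IntermediateField.adjoin B {x, y} ≤
      (algebraicClosure M K).restrictScalars B := by
    rw [IntermediateField.adjoin_le_iff]
    rintro w (rfl | rfl)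
    · exact mem_algebraicClosure_iff.mpr (isAlgebraic_algebraMap (⟨w, hxM⟩ : M))
    · exact mem_algebraicClosure_iff.mpr hyalg
  have hz2 : IsAlgebraic M z := mem_algebraicClosure_iff.mp (hle hz)
  exact mem_of_isAlgebraic M K V hM z hz2

/-- The local ring at a smooth point. -/
theorem PCurve.local_ring {B K : Type} [Field B] [CharZero B] [Field K] [Algebra B K]
    {c : Fin 10 → B} {x y : K} (h : PCurve B K c x y) (V : ValuationSubring K)
    (hB : ∀ b : B, algebraMap B K b ∈ V) (hV : V ≠ ⊤) (hx : x ∈ V) (hy : y ∈ V)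
    (hu : V.valuation (cuY (fun i => algebraMap B K (c i)) x y) = 1) :
    (∀ z ∈ V, ∃ a ∈ Algebra.adjoin B {x, y}, ∃ b ∈ Algebra.adjoin B {x, y},
      V.valuation b = 1 ∧ z * b = a) ∧
    ∃ p : B[X], IsUnif V (aeval x p) ∧ V.valuation (aeval x (derivative p)) = 1 := by
  classical
  let x' : V := ⟨x, hx⟩
  let y' : V := ⟨y, hy⟩
  let ι := A6_i V hB
  let ρ := IsLocalRing.residue V
  have hcoe : ∀ q : B[X], ((eval₂ ι x' q : V) : K) = aeval x q := by
    intro q
    have h2 := hom_eval₂ q ι V.subtype x'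
    exact h2
  have hρ : ∀ q : B[X], ρ (eval₂ ι x' q) = eval₂ (ρ.comp ι) (ρ x') q := fun q =>
    hom_eval₂ q ι ρ x'
  have hval : ∀ z : V, V.valuation (z : K) = 1 ↔ ρ z ≠ 0 := A6_val V
  have hval2 : ∀ z : V, V.valuation (z : K) < 1 ↔ ρ z = 0 := by
    intro z
    rw [← not_iff_not, ← ne_eq, ← hval, not_lt]
    exact ⟨fun h => le_antisymm ((V.valuation_le_one_iff _).mpr z.2) h, fun h => h.ge⟩
  -- the minimal polynomial of the residue of x
  let inst : Algebra B (IsLocalRing.ResidueField V) := (ρ.comp ι).toAlgebra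
  have hae : ∀ q : B[X], aeval (ρ x') q = eval₂ (ρ.comp ι) (ρ x') q := fun q => rfl
  obtain ⟨q0, hq0, hq1⟩ := A6_alg h V hB hV hx
  rw [← hcoe, hval2, hρ, ← hae] at hq1
  have hint : IsIntegral B (ρ x') := IsAlgebraic.isIntegral ⟨q0, hq0, hq1⟩
  set p := minpoly B (ρ x') with hp
  have hpirr : Irreducible p := minpoly.irreducible hint
  have hpx : eval₂ (ρ.comp ι) (ρ x') p = 0 := by
    rw [← hae]
    exact minpoly.aeval B (ρ x')
  have hpd : eval₂ (ρ.comp ι) (ρ x') (derivative p) ≠ 0 := by
    rw [← hae]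
    exact hpirr.separable.aeval_derivative_ne_zero (by rw [hae]; exact hpx)
  have hp0 : aeval x p ≠ 0 := by
    intro h0
    exact h.toPPoint.trx ⟨p, hpirr.ne_zero, h0⟩
  have hFe : cuF (fun k => ι (c k)) x' y' = 0 := by
    apply Subtype.ext
    have h1 := A6_coeF V hB c x' y'
    change _ = cuF (fun i => algebraMap B K (c i)) x y at h1
    rw [h.eq] at h1
    exact h1
  have hYe : ρ (cuY (fun k => ι (c k)) x' y') ≠ 0 := by
    rw [← hval]
    have h1 := A6_coeY V hB c x' y'
    change _ = cuY (fun i => algebraMap B K (c i)) x y at h1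
    rw [h1]
    exact hu
  let A := Algebra.adjoin B {x, y}
  have hfin : Algebra.FiniteType B A := by
    rw [← Subalgebra.fg_iff_finiteType]
    have h1 := Subalgebra.fg_adjoin_finset (R := B) ({x, y} : Finset K)
    have h2 : ((({x, y} : Finset K)) : Set K) = {x, y} := by simp
    rw [h2] at h1
    exact h1
  have hnoeth : IsNoetherianRing A := Algebra.FiniteType.isNoetherianRing B A
  have hevA : ∀ G : B[X][X], A6_ev (algebraMap B K) x y G ∈ A := A6_ev_mem x y
  have hevV : ∀ G : B[X][X], ((A6_ev ι x' y' G : V) : K) = A6_ev (algebraMap B K) x y G :=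
    A6_coe_ev V hB x' y'
  have hpC : A6_ev (algebraMap B K) x y (C p) = aeval x p := by
    simp [A6_ev, aeval_def]
  have hpA : aeval x p ∈ A := by
    rw [← hpC]
    exact hevA _
  have hAV : ∀ a : A, (a : K) ∈ V := by
    intro a
    obtain ⟨G, hG⟩ := A6_exists_ev x y a a.2
    rw [← hG, ← hevV]
    exact SetLike.coe_mem _
  obtain ⟨h1, h2⟩ := A6_dvr (A := A) (K := K) A.val.toRingHom Subtype.val_injective V hAV
    ⟨aeval x p, hpA⟩ (fun h0 => hp0 (congrArg Subtype.val h0)) (by
      change V.valuation (aeval x p) < 1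
      rw [← hcoe, hval2, hρ]
      exact hpx) (by
      intro a ha
      change V.valuation (a : K) < 1 at ha
      obtain ⟨G, hG⟩ := A6_exists_ev x y a a.2
      rw [← hG, ← hevV, hval2] at ha
      obtain ⟨H, r, hH, hr⟩ := A6_key ι ρ c x' y' hFe hYe p hpirr hpx G ha
      refine ⟨⟨_, hevA H⟩, ⟨_, hevA r⟩, ?_, ?_⟩
      · change V.valuation (A6_ev (algebraMap B K) x y H) = 1
        rw [← hevV, hval]
        exact hH
      · apply Subtype.ext
        change A6_ev (algebraMap B K) x y H * (a : K) =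
          aeval x p * A6_ev (algebraMap B K) x y r
        have h3 := congrArg (Subtype.val : V → K) hr
        change ((A6_ev ι x' y' H : V) : K) * ((A6_ev ι x' y' G : V) : K) =
          ((A6_ev ι x' y' (C p) : V) : K) * ((A6_ev ι x' y' r : V) : K) at h3
        rw [hevV, hevV, hevV, hevV, hG, hpC] at h3
        exact h3) (by
      intro z
      have hz : z ∈ IntermediateField.adjoin B {x, y} := by
        rw [h.gen]
        exact IntermediateField.mem_top
      rw [IntermediateField.mem_adjoin_iff_div] at hz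
      obtain ⟨r, hr, s, hs, rfl⟩ := hz
      by_cases hs0 : s = 0
      · refine ⟨0, 1, one_ne_zero, ?_⟩
        rw [hs0, div_zero, zero_mul, map_zero]
      · refine ⟨⟨r, hr⟩, ⟨s, hs⟩, fun h0 => hs0 (congrArg Subtype.val h0), ?_⟩
        change r / s * s = r
        exact div_mul_cancel₀ r hs0)
  refine ⟨?_, p, h2, ?_⟩
  · intro z hz
    obtain ⟨a, b, hb, hab⟩ := h1 z hz
    exact ⟨a, a.2, b, b.2, hb, hab⟩
  · rw [← hcoe, hval, hρ]
    exact hpd

end Pool.Agent.LibHP
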