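import Pool.Agent.LibHP4.A1
import Pool.Agent.LibHP4.A1b
import Pool.Agent.LibHP4.A4
import Pool.Agent.LibHP4.A5

set_option autoImplicit false

namespace Pool.Agent.LibHP

/-- a derivation over the base kills the algebraic elements -/
theorem A9_der_alg {B K : Type} [Field B] [CharZero B] [Field K] [Algebra B K]
    (δ : Derivation B K K) (z : K) (hz : IsAlgebraic B z) : δ z = 0 := by
  have h1 : (minpoly B z).Separable := (minpoly.irreducible hz.isIntegral).separable
  have h2 : Polynomial.aeval z (Polynomial.derivative (minpoly B z)) ≠ 0 :=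
    h1.aeval_derivative_ne_zero (minpoly.aeval B z)
  have h3 := δ.map_aeval (minpoly B z) z
  rw [minpoly.aeval, map_zero, smul_eq_mul] at h3
  exact (mul_eq_zero.mp h3.symm).resolve_left h2

/-- a point of the cubic is not singular -/
theorem A9_nonsing {B K : Type} [Field B] [Field K] [Algebra B K] (c : Fin 10 → B)
    (h : CubicSmooth c) (x y : K) (h0 : cuF (fun i => algebraMap B K (c i)) x y = 0)
    (hX : cuX (fun i => algebraMap B K (c i)) x y = 0)
    (hY : cuY (fun i => algebraMap B K (c i)) x y = 0) : False := by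
  obtain ⟨i, hi⟩ := cubicSmooth_ext (E := K) c h ![1, x, y] (by
    intro h1
    have := congrFun h1 0
    simp at this)
  obtain ⟨h1, h2, h3⟩ := cuG_affine (fun i => algebraMap B K (c i)) x y
  rw [hX] at h1
  rw [hY] at h2
  rw [hX, hY, h0, mul_zero, mul_zero, mul_zero, add_zero, add_zero] at h3
  fin_cases i
  · exact hi h3
  · exact hi h1
  · exact hi h2

/-- the terms of degree three do not vanish -/
theorem A9_top {B : Type} [Field B] (c : Fin 10 → B) (h : CubicSmooth c) :
    ¬ (c 6 = 0 ∧ c 7 = 0 ∧ c 8 = 0 ∧ c 9 = 0) := by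
  rintro ⟨h6, h7, h8, h9⟩
  -- a nontrivial zero of the quadratic part
  obtain ⟨s, t, hst, h0⟩ : ∃ s t : AlgebraicClosure B, (s ≠ 0 ∨ t ≠ 0) ∧
      algebraMap B (AlgebraicClosure B) (c 3) * s ^ 2 +
      algebraMap B (AlgebraicClosure B) (c 4) * s * t +
      algebraMap B (AlgebraicClosure B) (c 5) * t ^ 2 = 0 := by
    by_cases h5 : c 5 = 0
    · exact ⟨0, 1, Or.inr one_ne_zero, by rw [h5, map_zero]; ring⟩
    · have h5' : algebraMap B (AlgebraicClosure B) (c 5) ≠ 0 :=
        (map_ne_zero (algebraMap B (AlgebraicClosure B))).mpr h5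
      obtain ⟨t, ht⟩ := IsAlgClosed.exists_root
        (Polynomial.C (algebraMap B (AlgebraicClosure B) (c 5)) * Polynomial.X ^ 2 +
          Polynomial.C (algebraMap B (AlgebraicClosure B) (c 4)) * Polynomial.X +
          Polynomial.C (algebraMap B (AlgebraicClosure B) (c 3)))
        (by rw [Polynomial.degree_quadratic h5']; decide)
      refine ⟨1, t, Or.inl one_ne_zero, ?_⟩
      have h1 : Polynomial.eval t
        (Polynomial.C (algebraMap B (AlgebraicClosure B) (c 5)) * Polynomial.X ^ 2 +
          Polynomial.C (algebraMap B (AlgebraicClosure B) (c 4)) * Polynomial.X +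
          Polynomial.C (algebraMap B (AlgebraicClosure B) (c 3))) = 0 := ht
      simp only [Polynomial.eval_add, Polynomial.eval_mul, Polynomial.eval_C,
        Polynomial.eval_pow, Polynomial.eval_X] at h1
      linear_combination h1
  obtain ⟨i, hi⟩ := h ![0, s, t] (by
    intro h1
    have h2 := congrFun h1 1
    have h3 := congrFun h1 2
    simp at h2 h3
    rcases hst with h4 | h4
    · exact h4 h2
    · exact h4 h3)
  apply hi
  fin_cases i <;> simp [cuG, h6, h7, h8, h9] <;> linear_combination h0

theorem A9_cuY_ne_zero {B K : Type} [Field B] [CharZero B] [Field K] [Algebra B K]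
    {c : Fin 10 → B} {x y : K} (h : PCurve B K c x y) :
    cuY (fun i => algebraMap B K (c i)) x y ≠ 0 := by
  intro hY
  obtain ⟨δ, hδ⟩ := h.exists_flow
  exact h.trx (hδ.isAlgebraic h x (by rw [hδ.1, hY]))

theorem PCurve.cuQ3_ne_zero {B K : Type} [Field B] [CharZero B] [Field K] [Algebra B K]
    {c : Fin 10 → B} {x y : K} (h : PCurve B K c x y) :
    cuQ3 (fun i => algebraMap B K (c i)) x y ≠ 0 := by
  intro hQ
  have hY := A9_cuY_ne_zero h
  obtain ⟨δ, hδ⟩ := h.exists_flow
  set X := cuX (fun i => algebraMap B K (c i)) x y with hXdef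
  set Y := cuY (fun i => algebraMap B K (c i)) x y with hYdef
  set r := X / Y with hr
  have hrY : r * Y = X := by rw [hr]; field_simp
  have h1 : -(algebraMap B K (c 6)) + algebraMap B K (c 7) * r - algebraMap B K (c 8) * r ^ 2 +
      algebraMap B K (c 9) * r ^ 3 = 0 := by
    have h2 : (-(algebraMap B K (c 6)) + algebraMap B K (c 7) * r -
        algebraMap B K (c 8) * r ^ 2 + algebraMap B K (c 9) * r ^ 3) * Y ^ 3 = 0 := by
      have h3 : cuQ3 (fun i => algebraMap B K (c i)) x y =
          -(algebraMap B K (c 6) * Y ^ 3) + algebraMap B K (c 7) * Y ^ 2 * X -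
          algebraMap B K (c 8) * Y * X ^ 2 + algebraMap B K (c 9) * X ^ 3 := rfl
      rw [hQ, ← hrY] at h3
      linear_combination -h3
    exact (mul_eq_zero.mp h2).resolve_right (pow_ne_zero 3 hY)
  have hralg : IsAlgebraic B r := by
    refine ⟨Polynomial.C (c 9) * Polynomial.X ^ 3 + Polynomial.C (-(c 8)) * Polynomial.X ^ 2 +
      Polynomial.C (c 7) * Polynomial.X + Polynomial.C (-(c 6)), ?_, ?_⟩
    · intro h2
      refine A9_top c h.smooth ⟨?_, ?_, ?_, ?_⟩
      · have := congrArg (fun p => Polynomial.coeff p 0) h2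
        simp at this
        exact this
      · have := congrArg (fun p => Polynomial.coeff p 1) h2
        simp [Polynomial.coeff_C] at this
        exact this
      · have := congrArg (fun p => Polynomial.coeff p 2) h2
        simp [Polynomial.coeff_X, Polynomial.coeff_C] at this
        exact this
      · have := congrArg (fun p => Polynomial.coeff p 3) h2
        simp [Polynomial.coeff_X, Polynomial.coeff_C] at this
        exact this
    · simp only [map_add, map_mul, map_pow, Polynomial.aeval_C, Polynomial.aeval_X, map_neg]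
      linear_combination h1
  have hδr : δ r = 0 := A9_der_alg δ r hralg
  have hδβ : δ (y + r * x) = 0 := by
    rw [map_add, Derivation.leibniz, hδr, hδ.1, hδ.2, smul_zero, add_zero, smul_eq_mul]
    rw [← hXdef, ← hYdef]
    linear_combination hrY
  have hβalg : IsAlgebraic B (y + r * x) := hδ.isAlgebraic h _ hδβ
  -- the line
  let E : IntermediateField B K := algebraicClosure B K
  let rE : E := ⟨r, mem_algebraicClosure_iff.mpr hralg⟩
  let βE : E := ⟨y + r * x, mem_algebraicClosure_iff.mpr hβalg⟩
  have hxE : Transcendental E x := by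
    intro halg
    exact h.trx (halg.restrictScalars B)
  refine cubic_no_line (E := E) c h.smooth 0 1 βE (-rE) (Or.inl one_ne_zero) ?_
  by_contra hne
  apply hxE
  refine ⟨_, hne, ?_⟩
  have e1 : ∀ b : B, algebraMap E K (algebraMap B E b) = algebraMap B K b := fun _ => rfl
  have e2 : algebraMap E K rE = r := rfl
  have e3 : algebraMap E K βE = y + r * x := rfl
  have h2 := h.eq
  simp only [cuF] at h2 ⊢
  simp only [map_add, map_mul, map_pow, map_neg, Polynomial.aeval_C, Polynomial.aeval_X, e1, e2,
    e3, map_zero, map_one]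
  linear_combination h2

/-- Existence of the tangent residual map. -/
theorem PCurve.exists_move {B K : Type} [Field B] [CharZero B] [Field K] [Algebra B K]
    {c : Fin 10 → B} {x y : K} (h : PCurve B K c x y) : ∃ D : K →ₐ[B] K, PMove B K c x y D := by
  have hq := h.cuQ3_ne_zero
  obtain ⟨δ, hδ⟩ := h.exists_flow
  have h2K : (2 : K) ≠ 0 := by
    have : CharZero K := charZero_of_injective_algebraMap (algebraMap B K).injective
    exact two_ne_zero
  set x' := x + cuQ2 (fun i => algebraMap B K (c i)) x y *
    cuY (fun i => algebraMap B K (c i)) x y / cuQ3 (fun i => algebraMap B K (c i)) x y with hx'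
  set y' := y + -(cuQ2 (fun i => algebraMap B K (c i)) x y *
    cuX (fun i => algebraMap B K (c i)) x y) / cuQ3 (fun i => algebraMap B K (c i)) x y with hy'
  have h1 : (x' - x) * cuQ3 (fun i => algebraMap B K (c i)) x y =
      cuQ2 (fun i => algebraMap B K (c i)) x y * cuY (fun i => algebraMap B K (c i)) x y := by
    rw [hx', add_sub_cancel_left, div_mul_cancel₀ _ hq]
  have h2 : (y' - y) * cuQ3 (fun i => algebraMap B K (c i)) x y =
      -(cuQ2 (fun i => algebraMap B K (c i)) x y * cuX (fun i => algebraMap B K (c i)) x y) := by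
    rw [hy', add_sub_cancel_left, div_mul_cancel₀ _ hq]
  have h3 := cu_move_eq (fun i => algebraMap B K (c i)) x y x' y' h.eq hq h1 h2
  obtain ⟨h4, h5⟩ := cu_move_der δ c x y x' y' hδ hq h1 h2
  have hP : PPoint B K c x' y' := by
    refine ⟨?_, h3, h.smooth⟩
    by_contra hcon
    rw [not_or] at hcon
    obtain ⟨ha, hb⟩ := hcon
    have ha' : IsAlgebraic B x' := not_not.mp ha
    have hb' : IsAlgebraic B y' := not_not.mp hb
    rw [A9_der_alg δ _ ha'] at h4
    rw [A9_der_alg δ _ hb'] at h5
    exact A9_nonsing c h.smooth x' y' h3 ((mul_eq_zero.mp h5.symm).resolve_left h2K)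
      ((mul_eq_zero.mp h4.symm).resolve_left (neg_ne_zero.mpr h2K))
  obtain ⟨D, hD1, hD2⟩ := h.exists_hom x' y' hP
  exact ⟨D, h, hq, by rw [hD1]; exact h1, by rw [hD2]; exact h2⟩

end Pool.Agent.LibHP
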