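import Pool.Agent.LibHP2.W3
import Pool.Agent.LibHP2.R1
import Pool.Agent.LibHP2.D3b

set_option autoImplicit false

namespace Pool.Agent.LibHP

section B1Aux

open MvPolynomial in
/-- coefficientwise application of a linear functional -/
noncomputable def B1_psi {k k' : Type} [Field k] [Field k'] [Algebra k k'] {m : ℕ}
    (φ : k' →ₗ[k] k) (b : MvPolynomial (Fin m) k') : MvPolynomial (Fin m) k :=
  ∑ s ∈ b.support, monomial s (φ (coeff s b))

open MvPolynomial in
theorem B1_coeff_psi {k k' : Type} [Field k] [Field k'] [Algebra k k'] {m : ℕ}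
    (φ : k' →ₗ[k] k) (b : MvPolynomial (Fin m) k') (s : Fin m →₀ ℕ) :
    coeff s (B1_psi φ b) = φ (coeff s b) := by
  classical
  unfold B1_psi
  rw [coeff_sum]
  by_cases hs : s ∈ b.support
  · rw [Finset.sum_eq_single s]
    · rw [coeff_monomial, if_pos rfl]
    · intro t _ hts
      rw [coeff_monomial, if_neg hts]
    · intro h
      exact absurd hs h
  · rw [Finset.sum_eq_zero, notMem_support_iff.1 hs, map_zero]
    intro t ht
    rw [coeff_monomial, if_neg]
    rintro rfl
    exact hs ht

open MvPolynomial in
theorem B1_psi_mul {k k' : Type} [Field k] [Field k'] [Algebra k k'] {m : ℕ}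
    (φ : k' →ₗ[k] k) (p : MvPolynomial (Fin m) k) (b : MvPolynomial (Fin m) k') :
    B1_psi φ (map (algebraMap k k') p * b) = p * B1_psi φ b := by
  classical
  ext s
  rw [B1_coeff_psi, coeff_mul, coeff_mul, map_sum]
  refine Finset.sum_congr rfl fun x _ => ?_
  rw [coeff_map, B1_coeff_psi, ← Algebra.smul_def, map_smul, smul_eq_mul]

open MvPolynomial in
theorem B1_dvd_iff {k k' : Type} [Field k] [Field k'] [Algebra k k'] {m : ℕ}
    (π : MvPolynomial (Fin m) k) (hπ : Irreducible π) (π' : MvPolynomial (Fin m) k')
    (hπ' : Irreducible π') (hd : π' ∣ map (algebraMap k k') π) (p : MvPolynomial (Fin m) k) :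
    π' ∣ map (algebraMap k k') p ↔ π ∣ p := by
  classical
  constructor
  · rintro ⟨a, ha⟩
    obtain ⟨b, hb⟩ := hd
    by_contra hndvd
    have hinj : Function.Injective (map (σ := Fin m) (algebraMap k k')) :=
      map_injective _ (algebraMap k k').injective
    have hb0 : b ≠ 0 := by
      rintro rfl
      rw [mul_zero] at hb
      exact hπ.ne_zero (hinj (by rw [hb, map_zero]))
    obtain ⟨s, hs⟩ := ne_zero_iff.1 hb0
    have hφ : ∃ φ : k' →ₗ[k] k, φ (coeff s b) ≠ 0 := by
      by_contra hno
      push Not at hno
      exact hs ((Module.forall_dual_apply_eq_zero_iff k (coeff s b)).1 hno)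
    obtain ⟨φ, hφ⟩ := hφ
    have e1 : π * B1_psi φ a = p * B1_psi φ b := by
      rw [← B1_psi_mul, ← B1_psi_mul, hb, ha]
      congr 1
      ring
    have hprime : Prime π := hπ.prime
    have h2 : π ∣ B1_psi φ b := by
      rcases hprime.dvd_or_dvd (⟨_, e1.symm⟩ : π ∣ p * B1_psi φ b) with h | h
      · exact absurd h hndvd
      · exact h
    have h3 : B1_psi φ b ≠ 0 := by
      intro h
      apply hφ
      rw [← B1_coeff_psi, h, coeff_zero]
    have h4 : π.totalDegree ≤ (B1_psi φ b).totalDegree :=
      totalDegree_le_of_dvd_of_isDomain h2 h3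
    have h5 : (B1_psi φ b).totalDegree ≤ b.totalDegree := by
      refine Finset.sup_mono fun t ht => ?_
      rw [mem_support_iff] at ht ⊢
      intro h
      rw [B1_coeff_psi, h, map_zero] at ht
      exact ht rfl
    have h6 : (map (algebraMap k k') π).totalDegree = π'.totalDegree + b.totalDegree := by
      rw [hb, totalDegree_mul_of_isDomain hπ'.ne_zero hb0]
    have h7 : (map (algebraMap k k') π).totalDegree ≤ π.totalDegree := by
      refine Finset.sup_mono fun t ht => ?_
      rw [mem_support_iff] at ht ⊢
      intro h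
      rw [coeff_map, h, map_zero] at ht
      exact ht rfl
    have h8 : π'.totalDegree = 0 := by omega
    have h9 := totalDegree_eq_zero_iff_eq_C.1 h8
    apply hπ'.not_isUnit
    rw [h9]
    have h10 : coeff 0 π' ≠ 0 := by
      intro h
      rw [h, C_0] at h9
      exact hπ'.ne_zero h9
    exact (isUnit_iff_ne_zero.2 h10).map C
  · intro h
    exact hd.trans (map_dvd _ h)

open MvPolynomial in
theorem B1_exists {k k' : Type} [Field k] [Field k'] [Algebra k k'] [Algebra.IsAlgebraic k k']
    {m : ℕ} (π' : MvPolynomial (Fin m) k') (hπ' : Irreducible π') :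
    ∃ π : MvPolynomial (Fin m) k, Irreducible π ∧ π' ∣ map (algebraMap k k') π := by
  classical
  obtain ⟨g, hg0, hg⟩ := exists_dvd_map_of_isAlgebraic (R := k) hπ'.ne_zero
  obtain ⟨u, hu⟩ := UniqueFactorizationMonoid.factors_prod hg0
  have hprime : Prime π' := hπ'.prime
  have h1 : π' ∣ map (algebraMap k k') (UniqueFactorizationMonoid.factors g).prod := by
    rw [← hu, map_mul] at hg
    rcases hprime.dvd_or_dvd hg with h | h
    · exact h
    · exact absurd (isUnit_of_dvd_unit h (u.isUnit.map (map (algebraMap k k')))) hπ'.not_isUnit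
  rw [← Multiset.prod_hom] at h1
  obtain ⟨x, hx, hx'⟩ := hprime.exists_mem_multiset_map_dvd h1
  exact ⟨x, UniqueFactorizationMonoid.irreducible_of_factor x hx, hx'⟩

end B1Aux

/-- The core argument (see `surjective_core_unram`) without the hypothesis that `k` is algebraically
closed in `L`. -/
theorem closure_core_unram (k : Type) [Field k] [CharZero k] (m : ℕ) (M1 K L : Type) [Field M1]
    [Field K] [Field L] [Algebra (MvPolynomial (Fin m) k) M1]
    [IsFractionRing (MvPolynomial (Fin m) k) M1] [Algebra M1 K] [Algebra K L]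
    [Algebra M1 L] [IsScalarTower M1 K L]
    [FiniteDimensional K L] [FiniteDimensional M1 (algebraicClosure M1 L)]
    (hcl : ∀ c : K, IsAlgebraic M1 c → ∃ a : M1, algebraMap M1 K a = c)
    (h1 : Subfield.closure (Set.range (algebraMap K L) ∪ {z : L | IsAlgebraic M1 z}) = ⊤)
    (hval : ∀ π : MvPolynomial (Fin m) k, Irreducible π → ∃ O : ValuationSubring K,
      IsUnif O (algebraMap M1 K (algebraMap (MvPolynomial (Fin m) k) M1 π)) ∧
      (∀ p : MvPolynomial (Fin m) k,
        algebraMap M1 K (algebraMap (MvPolynomial (Fin m) k) M1 p) ∈ O) ∧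
      (∀ p : MvPolynomial (Fin m) k,
        O.valuation (algebraMap M1 K (algebraMap (MvPolynomial (Fin m) k) M1 p)) < 1 ↔ π ∣ p) ∧
      ∀ W : ValuationSubring L, W.comap (algebraMap K L) = O →
        Unram W (algebraMap M1 L (algebraMap (MvPolynomial (Fin m) k) M1 π))) :
    Subfield.closure (Set.range (algebraMap K L) ∪
      {z : L | ∃ P : Polynomial k, P ≠ 0 ∧ P.eval₂ ((algebraMap M1 L).comp
        ((algebraMap (MvPolynomial (Fin m) k) M1).comp MvPolynomial.C)) z = 0}) = ⊤ := by
  classical
  have hinj : Function.Injective (algebraMap (MvPolynomial (Fin m) k) M1) :=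
    IsFractionRing.injective _ _
  have hM1 : CharZero M1 := charZero_of_injective_algebraMap
    (R := MvPolynomial (Fin m) k) (A := M1) hinj
  have hK : CharZero K := charZero_of_injective_algebraMap (R := M1) (A := K)
    (algebraMap M1 K).injective
  let M' := algebraicClosure M1 L
  let f : MvPolynomial (Fin m) k →+* M' :=
    (algebraMap M1 M').comp (algebraMap (MvPolynomial (Fin m) k) M1)
  have hf : Function.Injective f := (algebraMap M1 M').injective.comp hinj
  let _ : Algebra k M' := (f.comp MvPolynomial.C).toAlgebra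
  let k' := algebraicClosure k M'
  let x : Fin m → M' := fun i => f (MvPolynomial.X i)
  have hxf : ∀ p : MvPolynomial (Fin m) k, MvPolynomial.aeval x p = f p := by
    intro p
    have h2 : (MvPolynomial.aeval x : MvPolynomial (Fin m) k →ₐ[k] M').toRingHom = f := by
      refine MvPolynomial.ringHom_ext (fun c => ?_) (fun i => ?_)
      · simp only [AlgHom.toRingHom_eq_coe, RingHom.coe_coe, MvPolynomial.algHom_C]
        rfl
      · simp [x]
    exact RingHom.congr_fun h2 p
  have hx : AlgebraicIndependent k x := by
    rw [algebraicIndependent_iff_injective_aeval]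
    intro p q hpq
    rw [hxf, hxf] at hpq
    exact hf hpq
  have hx' : AlgebraicIndependent k' x := hx.extendScalars k'
  let g : MvPolynomial (Fin m) k' →+* M' := (MvPolynomial.aeval x).toRingHom
  have hg : Function.Injective g := by
    rw [algebraicIndependent_iff_injective_aeval] at hx'
    exact hx'
  have hgf : ∀ p : MvPolynomial (Fin m) k, g (MvPolynomial.map (algebraMap k k') p) = f p := by
    intro p
    rw [← hxf]
    exact MvPolynomial.aeval_map_algebraMap k' x p
  let M2 := FractionRing (MvPolynomial (Fin m) k')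
  let _ : Algebra M2 M' := (IsFractionRing.lift (K := M2) hg).toAlgebra
  have hM2 : ∀ p, algebraMap M2 M' (algebraMap (MvPolynomial (Fin m) k') M2 p) = g p :=
    fun p => IsFractionRing.lift_algebraMap hg p
  have he : Function.Injective ((algebraMap (MvPolynomial (Fin m) k') M2).comp
      (MvPolynomial.map (algebraMap k k'))) :=
    (IsFractionRing.injective (MvPolynomial (Fin m) k') M2).comp
      (MvPolynomial.map_injective _ (algebraMap k k').injective)
  let _ : Algebra M1 M2 := (IsFractionRing.lift (K := M1) he).toAlgebra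
  have hM12 : ∀ p, algebraMap M1 M2 (algebraMap (MvPolynomial (Fin m) k) M1 p) =
      algebraMap (MvPolynomial (Fin m) k') M2 (MvPolynomial.map (algebraMap k k') p) :=
    fun p => IsFractionRing.lift_algebraMap he p
  have htow : IsScalarTower M1 M2 M' := by
    refine IsScalarTower.of_algebraMap_eq' ?_
    refine IsLocalization.ringHom_ext (nonZeroDivisors (MvPolynomial (Fin m) k)) ?_
    refine RingHom.ext fun p => ?_
    simp only [RingHom.comp_apply]
    rw [hM12, hM2, hgf]
    rfl
  have hfin : FiniteDimensional M2 M' := FiniteDimensional.right M1 M2 M'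
  by_cases hsurj : Function.Surjective (algebraMap M2 M')
  · rw [← top_le_iff, ← h1, Subfield.closure_le]
    have hx0 : ∀ i, ((x i : M') : L) = algebraMap K L (algebraMap M1 K
        (algebraMap (MvPolynomial (Fin m) k) M1 (MvPolynomial.X i))) := by
      intro i
      rw [← IsScalarTower.algebraMap_apply]
      rfl
    have hgmem : ∀ p : MvPolynomial (Fin m) k', ((g p : M') : L) ∈
        Subfield.closure (Set.range (algebraMap K L) ∪
          {z : L | ∃ P : Polynomial k, P ≠ 0 ∧ P.eval₂ ((algebraMap M1 L).comp
            ((algebraMap (MvPolynomial (Fin m) k) M1).comp MvPolynomial.C)) z = 0}) := by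
      intro p
      induction p using MvPolynomial.induction_on with
      | C c =>
        refine Subfield.subset_closure (Or.inr ?_)
        have hc : IsAlgebraic k (c : M') := (mem_algebraicClosure_iff).1 c.2
        obtain ⟨P, hP0, hP⟩ := hc
        refine ⟨P, hP0, ?_⟩
        have e1 : g (MvPolynomial.C c) = (c : M') := by
          change MvPolynomial.aeval x (MvPolynomial.C c) = _
          rw [MvPolynomial.aeval_C]
          rfl
        rw [e1]
        have h4 := congrArg (algebraMap M' L) hP
        rw [Polynomial.aeval_def, Polynomial.hom_eval₂, map_zero] at h4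
        exact h4
      | add p q hp hq =>
        rw [map_add]
        exact add_mem hp hq
      | mul_X p i hp =>
        rw [map_mul]
        refine mul_mem hp (Subfield.subset_closure (Or.inl ?_))
        have e1 : g (MvPolynomial.X i) = x i := by
          change MvPolynomial.aeval x (MvPolynomial.X i) = _
          rw [MvPolynomial.aeval_X]
        rw [e1, hx0]
        exact ⟨_, rfl⟩
    rintro z (⟨a, rfl⟩ | hz)
    · exact Subfield.subset_closure (Or.inl ⟨a, rfl⟩)
    · obtain ⟨w, hw⟩ := hsurj ⟨z, (mem_algebraicClosure_iff).2 hz⟩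
      obtain ⟨p, q, -, hpq⟩ := IsFractionRing.div_surjective (A := MvPolynomial (Fin m) k') w
      have e2 : z = ((g p : M') : L) / ((g q : M') : L) := by
        have e3 := congrArg (fun t : M' => (t : L)) hw
        rw [← hpq, map_div₀, hM2, hM2] at e3
        exact e3.symm
      rw [e2]
      exact div_mem (hgmem p) (hgmem q)
  · exfalso
    have hk0 : CharZero k' := charZero_of_injective_algebraMap (algebraMap k k').injective
    obtain ⟨π', W', hπ', hW1, hW2, hW3⟩ := exists_ramified k' m M2 M'
      (by
        rintro z ⟨P, hP0, hP⟩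
        have h4 : IsAlgebraic k' z := by
          refine ⟨P, hP0, ?_⟩
          rw [Polynomial.aeval_def]
          have e4 : (algebraMap M2 M').comp ((algebraMap (MvPolynomial (Fin m) k') M2).comp
              MvPolynomial.C) = algebraMap k' M' := by
            refine RingHom.ext fun c => ?_
            simp only [RingHom.comp_apply]
            rw [hM2]
            change MvPolynomial.aeval x (MvPolynomial.C c) = _
            rw [MvPolynomial.aeval_C]
          rw [e4] at hP
          exact hP
        have h5 : IsAlgebraic k z := IsAlgebraic.restrictScalars k h4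
        refine ⟨⟨z, (mem_algebraicClosure_iff).2 h5⟩, ?_⟩
        rw [hM2]
        change MvPolynomial.aeval x (MvPolynomial.C _) = _
        rw [MvPolynomial.aeval_C]
        rfl) hsurj
    obtain ⟨π, hπ, hdvd⟩ := B1_exists (k := k) (k' := k') π' hπ'
    have hiff := B1_dvd_iff (k := k) (k' := k') π hπ π' hπ' hdvd
    have hfg : ∀ p : MvPolynomial (Fin m) k,
        algebraMap M1 M' (algebraMap (MvPolynomial (Fin m) k) M1 p) =
          algebraMap M2 M' (algebraMap (MvPolynomial (Fin m) k') M2
            (MvPolynomial.map (algebraMap k k') p)) := by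
      intro p
      rw [hM2, hgf]
      rfl
    obtain ⟨O, hO1, hO2, hO3, hO4⟩ := hval π hπ
    obtain ⟨Oπ, hP1, hP2, -⟩ := exists_valPoly k m M1 π hπ
    have e1 : O.comap (algebraMap M1 K) = Oπ := by
      ext z
      rw [hP2]
      refine W3_mem_iff k m M1 π hπ _ (fun p => ?_) (fun p hp => ?_) z
      · rw [ValuationSubring.mem_comap]; exact hO2 p
      · have hp1 : algebraMap (MvPolynomial (Fin m) k) M1 p ≠ 0 :=
          (IsFractionRing.to_map_eq_zero_iff (K := M1)).not.mpr hp
        have hp2 : algebraMap M1 K (algebraMap (MvPolynomial (Fin m) k) M1 p) ≠ 0 := by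
          simpa using hp1
        rw [ValuationSubring.mem_comap, map_inv₀, ← W3_val_lt O hp2]
        exact hO3 p
    have e2 : W'.comap (algebraMap M1 M') = Oπ := by
      ext z
      rw [hP2]
      refine W3_mem_iff k m M1 π hπ _ (fun p => ?_) (fun p hp => ?_) z
      · rw [ValuationSubring.mem_comap, hfg]; exact hW1 _
      · have hp1 : algebraMap (MvPolynomial (Fin m) k) M1 p ≠ 0 :=
          (IsFractionRing.to_map_eq_zero_iff (K := M1)).not.mpr hp
        have hp2 : algebraMap M1 M' (algebraMap (MvPolynomial (Fin m) k) M1 p) ≠ 0 := by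
          intro h
          exact hp1 ((algebraMap M1 M').injective (by rw [h, map_zero]))
        rw [ValuationSubring.mem_comap, map_inv₀, ← W3_val_lt W' hp2, hfg, hW2]
        exact hiff p
    obtain ⟨W, hWO, hWW⟩ := exists_common_valuation M1 K L hcl (algebraicClosure M1 L) O
      (algebraMap (MvPolynomial (Fin m) k) M1 π) hO1 (by rw [e1]; exact hP1) W'
      (e2.trans e1.symm)
    have hU := hO4 W hWO
    apply hW3
    intro z hz
    by_cases hz0 : z = 0
    · rw [hz0, map_zero]
      exact zero_le
    have hmem : ∀ w : M', w ∈ W' ↔ (w : L) ∈ W := by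
      intro w
      rw [← hWW, ValuationSubring.mem_comap]
      rfl
    have hzL : (z : L) ≠ 0 := fun h => hz0 (Subtype.ext h)
    have h5 : W.valuation (z : L) < 1 := by
      rw [W3_val_lt W hzL]
      rw [W3_val_lt W' hz0, hmem] at hz
      exact hz
    have h6 := hU _ h5
    have hπ1 : algebraMap (MvPolynomial (Fin m) k) M1 π ≠ 0 :=
      (IsFractionRing.to_map_eq_zero_iff (K := M1)).not.mpr hπ.ne_zero
    have e3 : algebraMap M1 L (algebraMap (MvPolynomial (Fin m) k) M1 π) =
        ((algebraMap M1 M' (algebraMap (MvPolynomial (Fin m) k) M1 π) : M') : L) := rfl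
    rw [e3] at h6
    set pp : M' := algebraMap M1 M' (algebraMap (MvPolynomial (Fin m) k) M1 π) with hpp
    have hpp0 : pp ≠ 0 := by
      intro h
      exact hπ1 ((algebraMap M1 M').injective (by rw [← hpp, h, map_zero]))
    have hppL : (pp : L) ≠ 0 := fun h => hpp0 (Subtype.ext h)
    have h7 : (z : L) * (pp : L)⁻¹ ∈ W := by
      rw [← W.valuation_le_one_iff, map_mul, map_inv₀]
      exact mul_inv_le_one_of_le₀ h6 zero_le
    have h8 : z * pp⁻¹ ∈ W' := by
      rw [hmem]
      exact h7
    rw [← W'.valuation_le_one_iff, map_mul, map_inv₀] at h8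
    have h9 : W'.valuation pp ≠ 0 := (Valuation.ne_zero_iff _).2 hpp0
    rw [mul_inv_le_iff₀ (zero_lt_iff.2 h9), one_mul] at h8
    refine h8.trans ?_
    obtain ⟨b, hb⟩ := hdvd
    rw [hpp, hfg, hb, map_mul, map_mul, map_mul]
    exact mul_le_of_le_one_right' ((W'.valuation_le_one_iff _).2 (hW1 b))

end Pool.Agent.LibHP
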