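import Pool.Agent.LibHP4.Defs
import Pool.Agent.LibHP4.B1
import Pool.Agent.LibHP3.R4
import Pool.Agent.LibHP3.R5

set_option autoImplicit false

namespace Pool.Agent.LibHP

private theorem B2_range {K : Type} (x y : K) : Set.range ![x, y] = {x, y} := by
  ext z
  rw [Set.mem_range, Set.mem_insert_iff, Set.mem_singleton_iff]
  constructor
  · rintro ⟨i, rfl⟩
    fin_cases i
    · exact Or.inl rfl
    · exact Or.inr rfl
  · rintro (rfl | rfl)
    · exact ⟨0, rfl⟩
    · exact ⟨1, rfl⟩

/-- The field of rational functions in two independent elements. -/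
theorem exists_frac_two (κ K : Type) [Field κ] [Field K] [Algebra κ K] (x y : K)
    (hind : AlgebraicIndependent κ ![x, y]) :
    ∃ alg : Algebra (MvPolynomial (Fin 2) κ) (IntermediateField.adjoin κ {x, y}),
      @IsFractionRing (MvPolynomial (Fin 2) κ) _ (IntermediateField.adjoin κ {x, y}) _ alg ∧
      ∀ p : MvPolynomial (Fin 2) κ,
        ((@algebraMap _ _ _ _ alg p : IntermediateField.adjoin κ {x, y}) : K) =
          MvPolynomial.aeval ![x, y] p := by
  let v : Fin 2 → IntermediateField.adjoin κ {x, y} :=
    ![⟨x, IntermediateField.subset_adjoin _ _ (Set.mem_insert x {y})⟩,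
      ⟨y, IntermediateField.subset_adjoin _ _ (Set.mem_insert_of_mem x rfl)⟩]
  let f : MvPolynomial (Fin 2) κ →ₐ[κ] IntermediateField.adjoin κ {x, y} :=
    MvPolynomial.aeval v
  let alg : Algebra (MvPolynomial (Fin 2) κ) (IntermediateField.adjoin κ {x, y}) :=
    f.toRingHom.toAlgebra
  have halg : ∀ p : MvPolynomial (Fin 2) κ,
      ((algebraMap (MvPolynomial (Fin 2) κ) (IntermediateField.adjoin κ {x, y}) p :
        IntermediateField.adjoin κ {x, y}) : K) = MvPolynomial.aeval ![x, y] p := by
    intro p
    have h := MvPolynomial.comp_aeval (R := κ) v (IntermediateField.adjoin κ {x, y}).val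
    have h' := congrArg (fun g => g p) h
    have h3 : (fun i => (IntermediateField.adjoin κ {x, y}).val (v i)) = ![x, y] := by
      funext i
      fin_cases i <;> rfl
    rw [h3] at h'
    exact h'
  have hinj : Function.Injective
      (algebraMap (MvPolynomial (Fin 2) κ) (IntermediateField.adjoin κ {x, y})) := by
    intro p q hpq
    have h1 := congrArg (fun z : IntermediateField.adjoin κ {x, y} => (z : K)) hpq
    simp only [halg] at h1
    exact hind h1
  have hfaith : FaithfulSMul (MvPolynomial (Fin 2) κ) (IntermediateField.adjoin κ {x, y}) :=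
    (faithfulSMul_iff_algebraMap_injective _ _).2 hinj
  refine ⟨alg, ?_, halg⟩
  apply IsFractionRing.of_field
  intro z
  have hz : (z : K) ∈ IntermediateField.adjoin κ (Set.range ![x, y]) := by
    rw [B2_range]
    exact z.2
  obtain ⟨r, s, hrs⟩ := (IntermediateField.mem_adjoin_range_iff κ ![x, y] (z : K)).1 hz
  refine ⟨r, s, Subtype.ext ?_⟩
  rw [hrs]
  show _ = ((algebraMap (MvPolynomial (Fin 2) κ) (IntermediateField.adjoin κ {x, y}) r :
        IntermediateField.adjoin κ {x, y}) : K) /
      ((algebraMap (MvPolynomial (Fin 2) κ) (IntermediateField.adjoin κ {x, y}) s :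
        IntermediateField.adjoin κ {x, y}) : K)
  rw [halg, halg]

private theorem B2_val_lt {K : Type} [Field K] (V : ValuationSubring K) {t : K} (ht : IsUnif V t) :
    V.valuation t < 1 := (W3_val_lt V ht.2.1).2 ht.2.2.1

private theorem B2_unram {K L : Type} [Field K] [Field L] (W : ValuationSubring L) (V : ValuationSubring K)
    (j : L →+* K) (hV : V.comap j = W) (t : L) (ht : IsUnif V (j t)) : Unram W t := by
  intro z hz
  have ht0 : t ≠ 0 := by
    rintro rfl
    exact ht.2.1 (map_zero j)
  by_cases hz0 : z = 0
  · rw [hz0, map_zero]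
    exact zero_le
  have hmem : ∀ a : L, a ∈ W ↔ j a ∈ V := by
    intro a
    rw [← hV]
    rfl
  have hzW : z ∈ W := (W.valuation_le_one_iff z).1 hz.le
  have hzinv : z⁻¹ ∉ W := (W3_val_lt W hz0).1 hz
  have hjz0 : j z ≠ 0 := (map_ne_zero j).2 hz0
  obtain ⟨n, u, hu, hu', hzu⟩ := ht.2.2.2 (j z) ((hmem z).1 hzW) hjz0
  have hn : n ≠ 0 := by
    rintro rfl
    apply hzinv
    rw [hmem, map_inv₀, hzu, pow_zero, mul_one]
    exact hu'
  obtain ⟨m, rfl⟩ := Nat.exists_eq_succ_of_ne_zero hn
  have hq : z / t ∈ W := by
    rw [hmem, map_div₀, hzu, pow_succ, ← mul_assoc, mul_div_assoc, div_self ht.2.1, mul_one]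
    exact V.mul_mem _ _ hu (pow_mem ht.1 m)
  have h1 : W.valuation z = W.valuation (z / t) * W.valuation t := by
    rw [← map_mul, div_mul_cancel₀ _ ht0]
  rw [h1]
  exact mul_le_of_le_one_left' ((W.valuation_le_one_iff _).2 hq)

private theorem B2_main (κ B K L : Type) [Field κ] [CharZero κ] [Field B] [Field K] [Algebra κ B]
    [Algebra B K] [Algebra κ K] [IsScalarTower κ B K] (x y : K)
    (hind : AlgebraicIndependent κ ![x, y])
    (hκ : ∀ c : K, IsAlgebraic κ c → ∃ b : κ, algebraMap κ K b = c)
    (hM : ∀ c : K, IsAlgebraic (IntermediateField.adjoin κ {x, y}) c →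
      c ∈ IntermediateField.adjoin κ {x, y})
    (hp : HasPlaces κ B K x y) (E : K →ₐ[B] K) (hE : EtaleEndo B K E)
    [Field L] [Algebra K L] [FiniteDimensional K L]
    (j : L →+* K) (hj : ∀ z : K, j (algebraMap K L z) = E z)
    (h1 : Subfield.closure (Set.range (algebraMap K L) ∪
      {z : L | IsAlgebraic (IntermediateField.adjoin κ {x, y}) z}) = ⊤) :
    Function.Surjective (algebraMap K L) := by
  classical
  obtain ⟨alg, hfrac, halg⟩ := exists_frac_two κ K x y hind
  have hcM : CharZero (IntermediateField.adjoin κ {x, y}) :=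
    charZero_of_injective_algebraMap (algebraMap κ (IntermediateField.adjoin κ {x, y})).injective
  have hcl : ∀ c : K, IsAlgebraic (IntermediateField.adjoin κ {x, y}) c →
      ∃ a : IntermediateField.adjoin κ {x, y},
        algebraMap (IntermediateField.adjoin κ {x, y}) K a = c :=
    fun c hc => ⟨⟨c, hM c hc⟩, rfl⟩
  have hfin : FiniteDimensional (IntermediateField.adjoin κ {x, y})
      (algebraicClosure (IntermediateField.adjoin κ {x, y}) L) :=
    finite_algebraicClosure (IntermediateField.adjoin κ {x, y}) K L hcl
  have halg' : ∀ p : MvPolynomial (Fin 2) κ, algebraMap (IntermediateField.adjoin κ {x, y}) K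
      (algebraMap (MvPolynomial (Fin 2) κ) (IntermediateField.adjoin κ {x, y}) p) =
      MvPolynomial.aeval ![x, y] p := halg
  have halgL : ∀ p : MvPolynomial (Fin 2) κ, algebraMap (IntermediateField.adjoin κ {x, y}) L
      (algebraMap (MvPolynomial (Fin 2) κ) (IntermediateField.adjoin κ {x, y}) p) =
      algebraMap K L (MvPolynomial.aeval ![x, y] p) := by
    intro p
    rw [IsScalarTower.algebraMap_apply (IntermediateField.adjoin κ {x, y}) K L, halg']
  have hcore := closure_core_unram κ 2 (IntermediateField.adjoin κ {x, y}) K L hcl h1 ?_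
  · -- elements algebraic over `κ` come from `κ`
    have hle : Subfield.closure (Set.range (algebraMap K L) ∪
      {z : L | ∃ P : Polynomial κ, P ≠ 0 ∧
        P.eval₂ ((algebraMap (IntermediateField.adjoin κ {x, y}) L).comp
        ((algebraMap (MvPolynomial (Fin 2) κ) (IntermediateField.adjoin κ {x, y})).comp
          MvPolynomial.C)) z = 0}) ≤ (algebraMap K L).fieldRange := by
      rw [Subfield.closure_le]
      rintro z (⟨a, rfl⟩ | ⟨P, hP, hPz⟩)
      · exact ⟨a, rfl⟩
      · have h2 := congrArg j hPz
        rw [Polynomial.hom_eval₂, map_zero] at h2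
        have h3 : j.comp ((algebraMap (IntermediateField.adjoin κ {x, y}) L).comp
            ((algebraMap (MvPolynomial (Fin 2) κ) (IntermediateField.adjoin κ {x, y})).comp
              MvPolynomial.C)) = algebraMap κ K := by
          ext b
          show j (algebraMap (IntermediateField.adjoin κ {x, y}) L
            (algebraMap (MvPolynomial (Fin 2) κ) (IntermediateField.adjoin κ {x, y})
              (MvPolynomial.C b))) = _
          rw [halgL, hj, MvPolynomial.aeval_C, IsScalarTower.algebraMap_apply κ B K, E.commutes]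
        rw [h3] at h2
        obtain ⟨b, hb⟩ := hκ (j z) ⟨P, hP, h2⟩
        refine ⟨algebraMap κ K b, j.injective ?_⟩
        rw [hj, IsScalarTower.algebraMap_apply κ B K, E.commutes,
          ← IsScalarTower.algebraMap_apply κ B K, hb]
    rw [hcore] at hle
    intro z
    exact hle (Subfield.mem_top z)
  · intro π hπ
    obtain ⟨V', hV'B, hxV', hyV', hunif, hdvd⟩ := hp π hπ
    have hVκ : ∀ c : κ, algebraMap κ K c ∈ V' := by
      intro c
      rw [IsScalarTower.algebraMap_apply κ B K]
      exact hV'B _
    have hpoly : ∀ p : MvPolynomial (Fin 2) κ, MvPolynomial.aeval ![x, y] p ∈ V' := by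
      intro p
      induction p using MvPolynomial.induction_on with
      | C a =>
        rw [MvPolynomial.aeval_C]
        exact hVκ a
      | add p q hp hq =>
        rw [map_add]
        exact V'.add_mem _ _ hp hq
      | mul_X p i hp =>
        rw [map_mul, MvPolynomial.aeval_X]
        refine V'.mul_mem _ _ hp ?_
        fin_cases i
        · exact hxV'
        · exact hyV'
    refine ⟨V', ?_, ?_, ?_, ?_⟩
    · rw [halg']
      exact hunif
    · intro p
      rw [halg']
      exact hpoly p
    · intro p
      rw [halg']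
      constructor
      · exact hdvd p
      · rintro ⟨r, rfl⟩
        rw [map_mul, map_mul]
        exact lt_of_le_of_lt
          (mul_le_of_le_one_right' ((V'.valuation_le_one_iff _).2 (hpoly r))) (B2_val_lt V' hunif)
    · intro W hW
      rw [halgL]
      obtain ⟨V, hV⟩ := exists_extension L K j W
      have hcomap : V.comap (E : K →+* K) = V' := by
        ext z
        rw [ValuationSubring.mem_comap, ← hW, ValuationSubring.mem_comap, ← hV,
          ValuationSubring.mem_comap, hj]
        rfl
      have hVB : ∀ b : B, algebraMap B K b ∈ V := by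
        intro b
        have h2 : algebraMap B K b ∈ V.comap (E : K →+* K) := by
          rw [hcomap]
          exact hV'B b
        rw [ValuationSubring.mem_comap] at h2
        have h3 : (E : K →+* K) (algebraMap B K b) = algebraMap B K b := E.commutes b
        rw [h3] at h2
        exact h2
      have hEt := hE V hVB (MvPolynomial.aeval ![x, y] π) (by rw [hcomap]; exact hunif)
      refine B2_unram W V j hV _ ?_
      rw [hj]
      exact hEt

private theorem B2_two (κ B K A : Type) [Field κ] [CharZero κ] [Field B] [Field K] [Algebra κ B]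
    [Algebra B K] [Algebra κ K] [IsScalarTower κ B K] (x y : K)
    (hind : AlgebraicIndependent κ ![x, y])
    (hκ : ∀ c : K, IsAlgebraic κ c → ∃ b : κ, algebraMap κ K b = c)
    (hM : ∀ c : K, IsAlgebraic (IntermediateField.adjoin κ {x, y}) c →
      c ∈ IntermediateField.adjoin κ {x, y})
    (hp : HasPlaces κ B K x y) (E : K →ₐ[B] K) (hE : EtaleEndo B K E)
    [Field A] [Algebra K A] (ι : A →+* K) (hι : ∀ z : K, ι (algebraMap K A z) = E z) (c : A)
    (P : Polynomial (IntermediateField.adjoin κ {x, y})) (hP0 : P ≠ 0)
    (hPc : P.eval₂ ((algebraMap K A).comp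
      (algebraMap (IntermediateField.adjoin κ {x, y}) K)) c = 0) :
    ∃ c' : K, algebraMap K A c' = c := by
  classical
  have hcF : IsIntegral K c := by
    refine IsAlgebraic.isIntegral ⟨P.map (algebraMap (IntermediateField.adjoin κ {x, y}) K),
      ?_, ?_⟩
    · exact (Polynomial.map_ne_zero_iff (RingHom.injective _)).2 hP0
    · rw [Polynomial.aeval_def, Polynomial.eval₂_map]
      exact hPc
  have i4 : FiniteDimensional K (IntermediateField.adjoin K {c}) :=
    IntermediateField.adjoin.finiteDimensional hcF
  let cL : IntermediateField.adjoin K {c} := ⟨c, IntermediateField.mem_adjoin_simple_self K c⟩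
  have hcL : IsAlgebraic (IntermediateField.adjoin κ {x, y}) cL := by
    refine ⟨P, hP0, (algebraMap (IntermediateField.adjoin K {c}) A).injective ?_⟩
    rw [Polynomial.aeval_def, Polynomial.hom_eval₂, map_zero]
    exact hPc
  have h1 : Subfield.closure (Set.range (algebraMap K (IntermediateField.adjoin K {c})) ∪
      {z : IntermediateField.adjoin K {c} |
        IsAlgebraic (IntermediateField.adjoin κ {x, y}) z}) = ⊤ := by
    rw [eq_top_iff]
    rintro ⟨z, hz⟩ -
    refine IntermediateField.adjoin_induction K
      (p := fun z hz => (⟨z, hz⟩ : IntermediateField.adjoin K {c}) ∈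
        Subfield.closure (Set.range (algebraMap K (IntermediateField.adjoin K {c})) ∪
          {z : IntermediateField.adjoin K {c} |
            IsAlgebraic (IntermediateField.adjoin κ {x, y}) z})) ?_ ?_ ?_ ?_ ?_ hz
    · intro z hz
      rw [Set.mem_singleton_iff] at hz
      subst hz
      exact Subfield.subset_closure (Or.inr hcL)
    · intro a
      exact Subfield.subset_closure (Or.inl ⟨a, rfl⟩)
    · intro a b _ _ h2 h3
      exact Subfield.add_mem _ h2 h3
    · intro a _ h2
      exact Subfield.inv_mem _ h2
    · intro a b _ _ h2 h3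
      exact Subfield.mul_mem _ h2 h3
  obtain ⟨c', hc'⟩ := B2_main κ B K (IntermediateField.adjoin K {c}) x y hind hκ hM hp E hE
    (ι.comp (algebraMap (IntermediateField.adjoin K {c}) A)) hι h1 cL
  refine ⟨c', ?_⟩
  exact congrArg (algebraMap (IntermediateField.adjoin K {c}) A) hc'

/-- The image of `κ(x, y)` under an unramified endomorphism is algebraically closed in `K`. -/
theorem closed_of_etale (κ B K : Type) [Field κ] [CharZero κ] [Field B] [Field K] [Algebra κ B]
    [Algebra B K] [Algebra κ K] [IsScalarTower κ B K] (x y : K)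
    (hind : AlgebraicIndependent κ ![x, y])
    (hκ : ∀ c : K, IsAlgebraic κ c → ∃ b : κ, algebraMap κ K b = c)
    (hM : ∀ c : K, IsAlgebraic (IntermediateField.adjoin κ {x, y}) c →
      c ∈ IntermediateField.adjoin κ {x, y})
    (hp : HasPlaces κ B K x y) (E : K →ₐ[B] K) (hE : EtaleEndo B K E) (c : K)
    (hc : IsAlgebraic (IntermediateField.adjoin κ {E x, E y}) c) :
    c ∈ IntermediateField.adjoin κ {E x, E y} := by
  classical
  let Eκ : K →ₐ[κ] K := E.restrictScalars κ
  have hmap : IntermediateField.adjoin κ {E x, E y} =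
      (IntermediateField.adjoin κ {x, y}).map Eκ := by
    rw [IntermediateField.adjoin_map, Set.image_pair]
    rfl
  -- `c` is algebraic over `κ(x, y)` through `E`
  have hP : ∃ P : Polynomial (IntermediateField.adjoin κ {x, y}), P ≠ 0 ∧
      P.eval₂ ((E : K →+* K).comp (algebraMap (IntermediateField.adjoin κ {x, y}) K)) c = 0 := by
    rw [hmap] at hc
    obtain ⟨P', hP', hPc⟩ := hc
    let e := (IntermediateField.adjoin κ {x, y}).equivMap Eκ
    refine ⟨P'.map (e.symm : _ →+* IntermediateField.adjoin κ {x, y}), ?_, ?_⟩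
    · exact (Polynomial.map_ne_zero_iff (RingEquiv.injective e.symm.toRingEquiv)).2 hP'
    · rw [Polynomial.eval₂_map]
      have h2 : ((E : K →+* K).comp (algebraMap (IntermediateField.adjoin κ {x, y}) K)).comp
          (e.symm : _ →+* IntermediateField.adjoin κ {x, y}) =
          algebraMap ((IntermediateField.adjoin κ {x, y}).map Eκ) K := by
        ext z
        show E ((e.symm z : IntermediateField.adjoin κ {x, y}) : K) = (z : K)
        have h3 := IntermediateField.coe_equivMap_apply (IntermediateField.adjoin κ {x, y}) Eκ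
          (e.symm z)
        have h4 : e (e.symm z) = z := e.apply_symm_apply z
        have h5 : (((IntermediateField.adjoin κ {x, y}).equivMap Eκ) (e.symm z)) = z := h4
        rw [h5] at h3
        exact h3.symm
      rw [h2]
      exact hPc
  obtain ⟨P, hP0, hPc⟩ := hP
  obtain ⟨c', hc'⟩ := @B2_two κ B K K _ _ _ _ _ _ _ _ x y hind hκ hM hp E hE _
    (E : K →+* K).toAlgebra (RingHom.id K) (fun _ => rfl) c P hP0 hPc
  have hEc : (E : K →+* K) c' = c := hc'
  rw [hmap]
  refine ⟨c', hM c' ⟨P, hP0, (E : K →+* K).injective ?_⟩, hEc⟩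
  rw [Polynomial.aeval_def, Polynomial.hom_eval₂, map_zero, hEc]
  exact hPc

end Pool.Agent.LibHP
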