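import Pool.Agent.LibHP4.Defs
import Pool.Agent.LibHP3.E9a

set_option autoImplicit false
open Polynomial

namespace Pool.Agent.LibHP

/-- Separability after clearing of the denominators. -/
private theorem B3_bezout (R F : Type) [CommRing R] [IsDomain R] [Field F] [Algebra R F]
    [IsFractionRing R F] (f : R[X]) (hf : (f.map (algebraMap R F)).Separable) :
    ∃ P0 : R, P0 ≠ 0 ∧ ∃ A B : R[X], A * f + B * derivative f = C P0 := by
  obtain ⟨a, b, hab⟩ := hf
  obtain ⟨ca, hca0, hca⟩ := IsLocalization.integerNormalization_spec (nonZeroDivisors R) a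
  obtain ⟨cb, hcb0, hcb⟩ := IsLocalization.integerNormalization_spec (nonZeroDivisors R) b
  refine ⟨ca * cb, mul_ne_zero (nonZeroDivisors.ne_zero hca0) (nonZeroDivisors.ne_zero hcb0),
    C cb * IsLocalization.integerNormalization (nonZeroDivisors R) a,
    C ca * IsLocalization.integerNormalization (nonZeroDivisors R) b, ?_⟩
  apply Polynomial.map_injective (algebraMap R F) (IsFractionRing.injective R F)
  rw [Polynomial.map_add, Polynomial.map_mul, Polynomial.map_mul, Polynomial.map_mul,
    Polynomial.map_mul, hca, hcb, map_C, map_C, map_C, ← derivative_map, map_mul, map_mul]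
  rw [derivative_map] at hab
  rw [derivative_map]
  have h1 : ∀ (c : R) (p : F[X]), c • p = C (algebraMap R F c) * p := by
    intro c p
    rw [← smul_eq_C_mul, algebraMap_smul]
  rw [h1, h1]
  linear_combination C (algebraMap R F ca) * C (algebraMap R F cb) * hab

/-- A generator of `L / K` which is a root of a separable polynomial over an open subset of the
plane with coordinates `x, y`. -/
theorem exists_etale_generator_two (κ K L : Type) [Field κ] [CharZero κ] [Field K] [Algebra κ K]
    [Field L] [Algebra K L] [FiniteDimensional K L] (x y : K)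
    (hind : AlgebraicIndependent κ ![x, y])
    (h1 : Subfield.closure (Set.range (algebraMap K L) ∪
      {z : L | IsAlgebraic (IntermediateField.adjoin κ {x, y}) z}) = ⊤) :
    ∃ (θ : L) (f : (MvPolynomial (Fin 2) κ)[X]) (P0 : MvPolynomial (Fin 2) κ), f.Monic ∧ P0 ≠ 0 ∧
      f.eval₂ ((algebraMap K L).comp
        (MvPolynomial.aeval ![x, y] : MvPolynomial (Fin 2) κ →ₐ[κ] K).toRingHom) θ = 0 ∧
      (∀ z : L, ∃ P : K[X], z = aeval θ P) ∧
      ∃ A B' : (MvPolynomial (Fin 2) κ)[X], A * f + B' * derivative f = C P0 := by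
  classical
  have hcK : CharZero K := charZero_of_injective_algebraMap (algebraMap κ K).injective
  have hcL : CharZero L := charZero_of_injective_algebraMap (algebraMap K L).injective
  have hcM : CharZero (IntermediateField.adjoin κ {x, y}) :=
    charZero_of_injective_algebraMap (algebraMap κ (IntermediateField.adjoin κ {x, y})).injective
  -- a generator algebraic over `κ(x, y)`
  obtain ⟨α, hα⟩ := Field.exists_primitive_element K L
  obtain ⟨θ₀, hθ₀, P₁, hP₁⟩ := R2_exists_prim (IntermediateField.adjoin κ {x, y}) K L h1 α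
  have hgen : ∀ z : L, ∃ P : K[X], z = aeval θ₀ P := by
    intro z
    have hz : z ∈ IntermediateField.adjoin K {α} := by
      rw [hα]
      exact IntermediateField.mem_top
    have hαint : IsAlgebraic K α := Algebra.IsAlgebraic.isAlgebraic α
    have hz' : z ∈ (IntermediateField.adjoin K {α}).toSubalgebra := hz
    rw [IntermediateField.adjoin_simple_toSubalgebra_of_isAlgebraic hαint,
      Algebra.adjoin_singleton_eq_range_aeval] at hz'
    obtain ⟨Q, hQ⟩ := hz'
    refine ⟨Q.comp P₁, ?_⟩
    rw [aeval_comp, ← hP₁]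
    exact hQ.symm
  -- the algebra structures over the polynomial ring
  let v : Fin 2 → IntermediateField.adjoin κ {x, y} :=
    ![⟨x, IntermediateField.subset_adjoin _ _ (Set.mem_insert x {y})⟩,
      ⟨y, IntermediateField.subset_adjoin _ _ (Set.mem_insert_of_mem x rfl)⟩]
  let i1 : Algebra (MvPolynomial (Fin 2) κ) L :=
    ((algebraMap K L).comp
      (MvPolynomial.aeval ![x, y] : MvPolynomial (Fin 2) κ →ₐ[κ] K).toRingHom).toAlgebra
  let i2 : Algebra (MvPolynomial (Fin 2) κ) (IntermediateField.adjoin κ {x, y}) :=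
    ((MvPolynomial.aeval v :
      MvPolynomial (Fin 2) κ →ₐ[κ] IntermediateField.adjoin κ {x, y}).toRingHom).toAlgebra
  have hmap : ∀ p : MvPolynomial (Fin 2) κ, algebraMap (MvPolynomial (Fin 2) κ) L p =
      algebraMap K L (MvPolynomial.aeval ![x, y] p) := fun _ => rfl
  have hmap2 : ∀ p : MvPolynomial (Fin 2) κ,
      algebraMap (MvPolynomial (Fin 2) κ) (IntermediateField.adjoin κ {x, y}) p =
      MvPolynomial.aeval v p := fun _ => rfl
  have hv : ∀ p : MvPolynomial (Fin 2) κ,
      ((MvPolynomial.aeval v p : IntermediateField.adjoin κ {x, y}) : K) =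
        MvPolynomial.aeval ![x, y] p := by
    intro p
    have h := MvPolynomial.comp_aeval (R := κ) v (IntermediateField.adjoin κ {x, y}).val
    have h' := congrArg (fun g => g p) h
    have h3 : (fun i => (IntermediateField.adjoin κ {x, y}).val (v i)) = ![x, y] := by
      funext i
      fin_cases i <;> rfl
    rw [h3] at h'
    exact h'
  have i3 : IsScalarTower (MvPolynomial (Fin 2) κ) (IntermediateField.adjoin κ {x, y}) L := by
    refine IsScalarTower.of_algebraMap_eq fun p => ?_
    rw [hmap, hmap2, IsScalarTower.algebraMap_apply (IntermediateField.adjoin κ {x, y}) K L]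
    congr 1
    exact (hv p).symm
  have hinj : Function.Injective (algebraMap (MvPolynomial (Fin 2) κ) L) := by
    intro p q hpq
    rw [hmap, hmap] at hpq
    exact hind ((algebraMap K L).injective hpq)
  have i4 : FaithfulSMul (MvPolynomial (Fin 2) κ) L := (faithfulSMul_iff_algebraMap_injective _ _).2 hinj
  have i5 : Algebra.IsAlgebraic (MvPolynomial (Fin 2) κ) (IntermediateField.adjoin κ {x, y}) := by
    refine ⟨fun z => ?_⟩
    obtain ⟨z, hz⟩ := z
    refine IntermediateField.adjoin_induction κ
      (p := fun z hz => IsAlgebraic (MvPolynomial (Fin 2) κ) (⟨z, hz⟩ : IntermediateField.adjoin κ {x, y}))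
      ?_ ?_ ?_ ?_ ?_ hz
    · intro z hz
      have hx0 : ∀ (i : Fin 2), IsAlgebraic (MvPolynomial (Fin 2) κ) (v i) := by
        intro i
        have h2 : algebraMap (MvPolynomial (Fin 2) κ) (IntermediateField.adjoin κ {x, y})
            (MvPolynomial.X i) = v i := by
          rw [hmap2, MvPolynomial.aeval_X]
        rw [← h2]
        exact isAlgebraic_algebraMap _
      rcases hz with hz | hz
      · subst hz
        exact hx0 0
      · rw [Set.mem_singleton_iff] at hz
        subst hz
        exact hx0 1
    · intro c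
      have h2 : algebraMap (MvPolynomial (Fin 2) κ) (IntermediateField.adjoin κ {x, y})
          (MvPolynomial.C c) = algebraMap κ (IntermediateField.adjoin κ {x, y}) c := by
        rw [hmap2, MvPolynomial.aeval_C]
      have h3 : IsAlgebraic (MvPolynomial (Fin 2) κ)
          (algebraMap (MvPolynomial (Fin 2) κ) (IntermediateField.adjoin κ {x, y})
            (MvPolynomial.C c)) :=
        isAlgebraic_algebraMap _
      rw [h2] at h3
      exact h3
    · intro a b _ _ h2 h3
      exact h2.add h3
    · intro a _ h2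
      exact h2.inv
    · intro a b _ _ h2 h3
      exact h2.mul h3
  have halg : IsAlgebraic (MvPolynomial (Fin 2) κ) θ₀ := hθ₀.restrictScalars (MvPolynomial (Fin 2) κ)
  obtain ⟨r, hr0, hrint⟩ := halg.exists_integral_multiple
  have hrθ : r • θ₀ = algebraMap K L (MvPolynomial.aeval ![x, y] r) * θ₀ := by
    rw [Algebra.smul_def, hmap]
  have hr1 : (MvPolynomial.aeval ![x, y] r : K) ≠ 0 := by
    intro h2
    apply hr0
    apply hinj
    rw [hmap, h2, map_zero, map_zero]
  let i6 : Algebra (FractionRing (MvPolynomial (Fin 2) κ)) L :=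
    FractionRing.liftAlgebra (MvPolynomial (Fin 2) κ) L
  have i7 : IsScalarTower (MvPolynomial (Fin 2) κ) (FractionRing (MvPolynomial (Fin 2) κ)) L :=
    FractionRing.isScalarTower_liftAlgebra (MvPolynomial (Fin 2) κ) L
  have hfrac := minpoly.isIntegrallyClosed_eq_field_fractions'
    (FractionRing (MvPolynomial (Fin 2) κ)) hrint
  have hcF : CharZero (FractionRing (MvPolynomial (Fin 2) κ)) := by
    have : CharZero (MvPolynomial (Fin 2) κ) := inferInstance
    exact charZero_of_injective_algebraMap
      (IsFractionRing.injective (MvPolynomial (Fin 2) κ) (FractionRing (MvPolynomial (Fin 2) κ)))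
  have hsep : ((minpoly (MvPolynomial (Fin 2) κ) (r • θ₀)).map
      (algebraMap (MvPolynomial (Fin 2) κ) (FractionRing (MvPolynomial (Fin 2) κ)))).Separable := by
    rw [← hfrac]
    exact (minpoly.irreducible hrint.tower_top).separable
  obtain ⟨P0, hP0, A, B, hAB⟩ := B3_bezout (MvPolynomial (Fin 2) κ)
    (FractionRing (MvPolynomial (Fin 2) κ)) _ hsep
  refine ⟨r • θ₀, minpoly (MvPolynomial (Fin 2) κ) (r • θ₀), P0, minpoly.monic hrint, hP0, ?_, ?_,
    A, B, hAB⟩
  · exact minpoly.aeval (MvPolynomial (Fin 2) κ) (r • θ₀)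
  · intro z
    obtain ⟨P, hP⟩ := hgen z
    refine ⟨P.comp (C (MvPolynomial.aeval ![x, y] r)⁻¹ * X), ?_⟩
    rw [aeval_comp, map_mul, aeval_C, aeval_X, hrθ, ← mul_assoc, ← map_mul,
      inv_mul_cancel₀ hr1, map_one, one_mul]
    exact hP

end Pool.Agent.LibHP
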