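import Pool.Agent.LibHP4.A19
import Pool.Agent.LibHP4.B2
import Pool.Agent.LibHP4.B3
import Pool.Agent.LibHP3.R3
import Pool.Agent.LibHP3.R4
import Pool.Agent.LibHP3.E7c

set_option autoImplicit false

namespace Pool.Agent.LibHP

/-- a valuation ring containing `κ`, `u`, `v` contains the polynomials in `u`, `v` -/
private theorem B4_mem {κ K : Type} [Field κ] [Field K] [Algebra κ K] (V : ValuationSubring K)
    (hV : ∀ c : κ, algebraMap κ K c ∈ V) (u v : K) (hu : u ∈ V) (hv : v ∈ V)
    (p : MvPolynomial (Fin 2) κ) : MvPolynomial.aeval ![u, v] p ∈ V := by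
  induction p using MvPolynomial.induction_on with
  | C a => rw [MvPolynomial.aeval_C]; exact hV a
  | add p q hp hq => rw [map_add]; exact V.add_mem _ _ hp hq
  | mul_X p i hp =>
    rw [map_mul, MvPolynomial.aeval_X]
    refine V.mul_mem _ _ hp ?_
    fin_cases i
    · exact hu
    · exact hv

/-- If `L` is generated over `K` by elements algebraic over `κ(D ^ n x, D ^ n y)` for all `n`, then
it is generated by elements algebraic over `κ`. -/
theorem gen_of_moves (κ B K L : Type) [Field κ] [CharZero κ] [Field B] [CharZero B] [Field K]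
    [Algebra κ B] [Algebra B K] [Algebra κ K] [IsScalarTower κ B K] [Field L] [Algebra K L]
    [Algebra κ L] [IsScalarTower κ K L] [FiniteDimensional K L] (c : Fin 10 → B) (x y : K)
    (D : K →ₐ[B] K) (h : PMove B K c x y D)
    (hind : AlgebraicIndependent κ ![x, y])
    (hκ : ∀ c : K, IsAlgebraic κ c → ∃ b : κ, algebraMap κ K b = c)
    (hM : ∀ c : K, IsAlgebraic (IntermediateField.adjoin κ {x, y}) c →
      c ∈ IntermediateField.adjoin κ {x, y})
    (hp : HasPlaces κ B K x y)
    (h1 : ∀ n : ℕ, Subfield.closure (Set.range (algebraMap K L) ∪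
      {z : L | IsAlgebraic (IntermediateField.adjoin κ {(D ^ n) x, (D ^ n) y}) z}) = ⊤) :
    Subfield.closure (Set.range (algebraMap K L) ∪ {z : L | IsAlgebraic κ z}) = ⊤ := by
  classical
  have h10 := h1 0
  rw [pow_zero] at h10
  obtain ⟨θ, f, P0, hf, hP0, hθ, hgen, hsep⟩ := exists_etale_generator_two κ K L x y hind h10
  have hz : MvPolynomial.aeval ![x, y] P0 ≠ 0 := by
    intro h0
    exact hP0 ((algebraicIndependent_iff.1 hind) P0 h0)
  obtain ⟨n, hn⟩ := h.place_choice _ hz
  have hE : EtaleEndo B K (D ^ n) := h.etale.pow n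
  set E : K →ₐ[B] K := D ^ n with hEdef
  have hcE : ∀ c : κ, E (algebraMap κ K c) = algebraMap κ K c := by
    intro c
    rw [IsScalarTower.algebraMap_apply κ B K, E.commutes]
  let Eκ : K →ₐ[κ] K := { (E : K →+* K) with commutes' := hcE }
  have haevE : ∀ p : MvPolynomial (Fin 2) κ,
      MvPolynomial.aeval ![E x, E y] p = E (MvPolynomial.aeval ![x, y] p) := by
    intro p
    have h2 : (![E x, E y] : Fin 2 → K) = fun i => Eκ ((![x, y] : Fin 2 → K) i) := by
      funext i
      fin_cases i <;> rfl
    rw [h2]
    have h3 := MvPolynomial.comp_aeval (R := κ) (![x, y] : Fin 2 → K) Eκ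
    exact (congrArg (fun g => g p) h3).symm
  have hindE : AlgebraicIndependent κ ![E x, E y] := by
    rw [algebraicIndependent_iff]
    intro p hp0
    rw [haevE] at hp0
    exact (algebraicIndependent_iff.1 hind) p ((map_eq_zero E).1 hp0)
  obtain ⟨alg, hfrac, halg⟩ := exists_frac_two κ K (E x) (E y) hindE
  have hcl : ∀ c : K, IsAlgebraic (IntermediateField.adjoin κ {E x, E y}) c →
      ∃ b : IntermediateField.adjoin κ {E x, E y},
        algebraMap (IntermediateField.adjoin κ {E x, E y}) K b = c :=
    fun c hc => ⟨⟨c, closed_of_etale κ B K x y hind hκ hM hp E hE c hc⟩, rfl⟩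
  have hM1 : CharZero (IntermediateField.adjoin κ {E x, E y}) :=
    charZero_of_injective_algebraMap
      (algebraMap κ (IntermediateField.adjoin κ {E x, E y})).injective
  have hfin : FiniteDimensional (IntermediateField.adjoin κ {E x, E y})
      (algebraicClosure (IntermediateField.adjoin κ {E x, E y}) L) :=
    finite_algebraicClosure (IntermediateField.adjoin κ {E x, E y}) K L hcl
  have halg' : ∀ p : MvPolynomial (Fin 2) κ, algebraMap (IntermediateField.adjoin κ {E x, E y}) K
      (algebraMap (MvPolynomial (Fin 2) κ) (IntermediateField.adjoin κ {E x, E y}) p) =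
      MvPolynomial.aeval ![E x, E y] p := halg
  have halgL : ∀ p : MvPolynomial (Fin 2) κ, algebraMap (IntermediateField.adjoin κ {E x, E y}) L
      (algebraMap (MvPolynomial (Fin 2) κ) (IntermediateField.adjoin κ {E x, E y}) p) =
      algebraMap K L (MvPolynomial.aeval ![E x, E y] p) := by
    intro p
    rw [IsScalarTower.algebraMap_apply (IntermediateField.adjoin κ {E x, E y}) K L, halg']
  have hcomp : (algebraMap (IntermediateField.adjoin κ {E x, E y}) L).comp
      ((algebraMap (MvPolynomial (Fin 2) κ) (IntermediateField.adjoin κ {E x, E y})).comp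
        MvPolynomial.C) = algebraMap κ L := by
    ext b
    show algebraMap (IntermediateField.adjoin κ {E x, E y}) L
      (algebraMap (MvPolynomial (Fin 2) κ) (IntermediateField.adjoin κ {E x, E y})
        (MvPolynomial.C b)) = _
    rw [halgL, MvPolynomial.aeval_C, ← IsScalarTower.algebraMap_apply]
  have hmain := closure_core_unram κ 2 (IntermediateField.adjoin κ {E x, E y}) K L hcl (h1 n) ?_
  · rw [hcomp] at hmain
    exact hmain
  · intro π hπ
    obtain ⟨V', hV'B, hxV', hV'y, hV'π, hV'p⟩ := hp π hπ
    have hV'top : V' ≠ ⊤ := by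
      rintro rfl
      exact hV'π.2.2.1 (by trivial)
    obtain ⟨V, hVB, hVE, hxV, hyV, hVz⟩ := hn n le_rfl V' hV'B hV'top
    have hVE' : V.comap (E : K →+* K) = V' := hVE
    have hVκ : ∀ c : κ, algebraMap κ K c ∈ V := by
      intro c
      rw [IsScalarTower.algebraMap_apply κ B K]
      exact hVB _
    have hV'κ : ∀ c : κ, algebraMap κ K c ∈ V' := by
      intro c
      rw [IsScalarTower.algebraMap_apply κ B K]
      exact hV'B _
    have hpolyE : ∀ p : MvPolynomial (Fin 2) κ, MvPolynomial.aeval ![E x, E y] p ∈ V := by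
      intro p
      rw [haevE]
      have h2 := B4_mem V' hV'κ x y hxV' hV'y p
      rw [← hVE', ValuationSubring.mem_comap] at h2
      exact h2
    have hunif : IsUnif V (MvPolynomial.aeval ![E x, E y] π) := by
      rw [haevE]
      apply hE V hVB
      rw [hVE']
      exact hV'π
    have hVπ : V.valuation (MvPolynomial.aeval ![E x, E y] π) < 1 :=
      (W3_val_lt V hunif.2.1).2 hunif.2.2.1
    refine ⟨V, ?_, ?_, ?_, ?_⟩
    · rw [halg']
      exact hunif
    · intro p
      rw [halg']
      exact hpolyE p
    · intro p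
      rw [halg']
      constructor
      · intro hlt
        apply hV'p
        rw [haevE] at hlt
        rw [← hVE']
        exact (E7c_val_lt V (E : K →+* K) _).2 hlt
      · rintro ⟨r, rfl⟩
        rw [map_mul, map_mul]
        exact lt_of_le_of_lt
          (mul_le_of_le_one_right' ((V.valuation_le_one_iff _).2 (hpolyE r))) hVπ
    · intro W hW
      rw [halgL]
      let ψ : MvPolynomial (Fin 2) κ →+* V :=
        (MvPolynomial.aeval ![x, y] : MvPolynomial (Fin 2) κ →ₐ[κ] K).toRingHom.codRestrict V
          (fun p => B4_mem V hVκ x y hxV hyV p)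
      obtain ⟨A, B', hAB⟩ := hsep
      refine unram_of_separable K L V (MvPolynomial.aeval ![E x, E y] π) hunif θ hgen (f.map ψ)
        (hf.map ψ) ?_ ?_ W hW
      · rw [Polynomial.eval₂_map]
        exact hθ
      · rw [Polynomial.map_map]
        set χ := (IsLocalRing.residue V).comp ψ with hχ
        have h3 := congrArg (Polynomial.map χ) hAB
        rw [Polynomial.map_add, Polynomial.map_mul, Polynomial.map_mul, Polynomial.map_C,
          ← Polynomial.derivative_map] at h3
        have hne : χ P0 ≠ 0 := by
          intro h0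
          have h4 : IsLocalRing.residue V (ψ P0) = 0 := h0
          rw [IsLocalRing.residue_eq_zero_iff] at h4
          have h5 : V.valuation ((ψ P0 : V) : K) < 1 := (V.valuation_lt_one_iff _).1 h4
          have h6 : ((ψ P0 : V) : K) = MvPolynomial.aeval ![x, y] P0 := rfl
          rw [h6, hVz] at h5
          exact lt_irrefl _ h5
        refine ⟨Polynomial.C (χ P0)⁻¹ * A.map χ, Polynomial.C (χ P0)⁻¹ * B'.map χ, ?_⟩
        rw [mul_assoc, mul_assoc, ← mul_add, h3, ← Polynomial.C_mul, inv_mul_cancel₀ hne,
          Polynomial.C_1]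

end Pool.Agent.LibHP
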