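import Pool.Agent.LibHP4.A19
import Pool.Agent.LibHP4.B2

set_option autoImplicit false

namespace Pool.Agent.LibHP

/-- A field of finite transcendence degree is algebraic over the image of any endomorphism. -/
theorem B5_alg (κ F : Type) [Field κ] [Field F] [Algebra κ F] (φ : F →ₐ[κ] F)
    (hfin : Algebra.trdeg κ F < Cardinal.aleph0) : Algebra.IsAlgebraic φ.range F := by
  have h1 : Algebra.trdeg κ φ.range + Algebra.trdeg φ.range F = Algebra.trdeg κ F :=
    trdeg_add_eq κ φ.range
  have h2 : Algebra.trdeg κ F = Algebra.trdeg κ φ.range :=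
    (AlgEquiv.ofInjectiveField φ).trdeg_eq
  rw [← h2] at h1
  have h3 : Algebra.trdeg φ.range F = 0 := by
    have h4 : Algebra.trdeg κ F + Algebra.trdeg φ.range F = Algebra.trdeg κ F + 0 := by
      rw [h1, add_zero]
    exact Cardinal.eq_of_add_eq_add_left h4 hfin
  exact trdeg_eq_zero_iff.1 h3

/-- The elements of `M` all of whose images are in `M` are images of such elements. -/
theorem B5_surj (κ K : Type) [Field κ] [Field K] [Algebra κ K] (x y : K) (D : K →ₐ[κ] K)
    (hM : ∀ c : K, IsAlgebraic (IntermediateField.adjoin κ {x, y}) c →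
      c ∈ IntermediateField.adjoin κ {x, y})
    (hcl : ∀ c : K, IsAlgebraic (IntermediateField.adjoin κ {D x, D y}) c →
      c ∈ IntermediateField.adjoin κ {D x, D y})
    (N : IntermediateField κ K)
    (hN : ∀ f : K, f ∈ N ↔ ∀ n : ℕ, (D ^ n) f ∈ IntermediateField.adjoin κ {x, y}) :
    ∀ f ∈ N, ∃ g ∈ N, D g = f := by
  have h1 : ∀ f ∈ N, D f ∈ N := by
    intro f hf
    rw [hN] at hf ⊢
    intro n
    have := hf (n + 1)
    rw [pow_succ] at this
    exact this
  have h0 : N ≤ IntermediateField.adjoin κ {x, y} := by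
    intro f hf
    have := (hN f).1 hf 0
    rwa [pow_zero] at this
  have h2 : ∀ c : K, IsAlgebraic N c → c ∈ N := by
    intro c hc
    rw [hN]
    intro n
    apply hM
    let ψ : N →+* IntermediateField.adjoin κ {x, y} :=
      (((D ^ n : K →ₐ[κ] K) : K →+* K).comp (algebraMap N K)).codRestrict
        (IntermediateField.adjoin κ {x, y}).toSubfield.toSubring
        (fun f => (hN (f : K)).1 f.2 n)
    exact hc.ringHom_of_comp_eq ψ ((D ^ n : K →ₐ[κ] K) : K →+* K) ψ.injective rfl
  have hfg : (IntermediateField.adjoin κ {x, y}).FG :=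
    IntermediateField.fg_adjoin_of_finite (Set.toFinite _)
  have hess : Algebra.EssFiniteType κ (IntermediateField.adjoin κ {x, y}) :=
    IntermediateField.essFiniteType_iff.2 hfg
  have htr : Algebra.trdeg κ N < Cardinal.aleph0 := by
    refine lt_of_le_of_lt ?_ (trdeg_lt_aleph0 κ (IntermediateField.adjoin κ {x, y}))
    exact trdeg_le_of_injective (IntermediateField.inclusion h0)
      (IntermediateField.inclusion h0).injective
  let D0 : N →ₐ[κ] N := (D.comp N.val).codRestrict N.toSubalgebra (fun f => h1 _ f.2)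
  have hD0 : ∀ f : N, ((D0 f : N) : K) = D (f : K) := fun f => rfl
  have halg := B5_alg κ N D0 htr
  intro f hf
  have hfa : IsAlgebraic D0.range (⟨f, hf⟩ : N) := halg.isAlgebraic _
  -- `f` is in `D M`
  have hDM : ∀ m ∈ IntermediateField.adjoin κ {x, y}, D m ∈ IntermediateField.adjoin κ {D x, D y} := by
    intro m hm
    have h3 : (IntermediateField.adjoin κ {x, y}).map D = IntermediateField.adjoin κ {D x, D y} := by
      rw [IntermediateField.adjoin_map, Set.image_pair]
    rw [← h3]
    exact ⟨m, hm, rfl⟩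
  have h5 : f ∈ IntermediateField.adjoin κ {D x, D y} := by
    apply hcl
    let ψ : D0.range →+* IntermediateField.adjoin κ {D x, D y} :=
      ((algebraMap N K).comp (algebraMap D0.range N)).codRestrict
        (IntermediateField.adjoin κ {D x, D y}).toSubfield.toSubring
        (fun f => by
          obtain ⟨g, hg⟩ := f.2
          change ((f : N) : K) ∈ IntermediateField.adjoin κ {D x, D y}
          rw [← hg]
          change D (g : K) ∈ _
          exact hDM _ (h0 g.2))
    have hψ : Function.Injective ψ := by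
      intro a b hab
      have := congrArg (fun z : IntermediateField.adjoin κ {D x, D y} => (z : K)) hab
      exact Subtype.ext (Subtype.ext this)
    exact hfa.ringHom_of_comp_eq ψ (algebraMap N K) hψ rfl
  have h6 : f ∈ (IntermediateField.adjoin κ {x, y}).map D := by
    rw [IntermediateField.adjoin_map, Set.image_pair]
    exact h5
  obtain ⟨m, hm, hmf⟩ := h6
  refine ⟨m, h2 m ?_, hmf⟩
  have hfK : IsAlgebraic D0.range f := hfa.algebraMap
  have hmf' : D m = f := hmf
  rw [← hmf'] at hfK
  refine IsAlgebraic.of_ringHom_of_comp_eq (S := D0.range) (B := K) D0.rangeRestrict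
    (D : K →+* K) hfK D0.rangeRestrict_surjective (D : K →+* K).injective ?_
  ext f
  rfl

/-- The nonconstant elements of `κ(x, y)` which are algebraic over `B` have a polynomial
numerator without irreducible factors. -/
theorem B5_num (κ B K : Type) [Field κ] [Field B] [Field K] [Algebra κ B]
    [Algebra B K] [Algebra κ K] [IsScalarTower κ B K] (x y : K)
    (hp : HasPlaces κ B K x y) (f : K)
    (hfB : IsAlgebraic B f) (hf0 : f ≠ 0) (p q : MvPolynomial (Fin 2) κ) (hpq : IsRelPrime p q)
    (hp0 : p ≠ 0) (hfpq : f * MvPolynomial.aeval ![x, y] q = MvPolynomial.aeval ![x, y] p) :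
    IsUnit p := by
  by_contra hpu
  obtain ⟨π, hπ, hdvd⟩ := WfDvdMonoid.exists_irreducible_factor hpu hp0
  obtain ⟨V, hVB, hx, hy, hunif, hV⟩ := hp π hπ
  have hmem : ∀ r : MvPolynomial (Fin 2) κ, MvPolynomial.aeval ![x, y] r ∈ V := by
    intro r
    have h1 : (MvPolynomial.aeval ![x, y] : MvPolynomial (Fin 2) κ →ₐ[κ] K) r ∈
        Algebra.adjoin κ (Set.range ![x, y]) := by
      rw [Algebra.adjoin_range_eq_range_aeval]
      exact ⟨r, rfl⟩
    refine Algebra.adjoin_induction (p := fun z _ => z ∈ V) ?_ ?_ ?_ ?_ h1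
    · rintro z ⟨i, rfl⟩
      fin_cases i
      · exact hx
      · exact hy
    · intro c
      rw [IsScalarTower.algebraMap_apply κ B K]
      exact hVB _
    · intro a b _ _ ha hb
      exact V.add_mem _ _ ha hb
    · intro a b _ _ ha hb
      exact V.mul_mem _ _ ha hb
  have hvπ : V.valuation (MvPolynomial.aeval ![x, y] π) < 1 := by
    by_contra hcon
    apply hunif.2.2.1
    rw [← V.valuation_le_one_iff, map_inv₀]
    exact inv_le_one_of_one_le₀ (not_lt.1 hcon)
  have hvp : V.valuation (MvPolynomial.aeval ![x, y] p) < 1 := by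
    obtain ⟨r, rfl⟩ := hdvd
    rw [map_mul, map_mul]
    exact lt_of_le_of_lt (mul_le_of_le_one_right' ((V.valuation_le_one_iff _).2 (hmem r))) hvπ
  have hvq : V.valuation (MvPolynomial.aeval ![x, y] q) = 1 := by
    refine le_antisymm ((V.valuation_le_one_iff _).2 (hmem q)) (not_lt.1 ?_)
    intro hlt
    exact hπ.not_isUnit (hpq hdvd (hV q hlt))
  have hvf : V.valuation f < 1 := by
    have := congrArg V.valuation hfpq
    rw [map_mul, hvq, mul_one] at this
    rw [this]
    exact hvp
  -- `f⁻¹` is integral over `B`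
  have hinv : f⁻¹ ∈ V := by
    have h1 : IsIntegral B f⁻¹ := (hfB.inv).isIntegral
    let ι : B →+* V := (algebraMap B K).codRestrict V.toSubring hVB
    obtain ⟨P, hP, hP0⟩ := h1
    have h2 : IsIntegral V f⁻¹ := by
      refine ⟨P.map ι, hP.map _, ?_⟩
      rw [Polynomial.eval₂_map]
      exact hP0
    obtain ⟨z, hz⟩ := IsIntegrallyClosed.isIntegral_iff.mp h2
    rw [← hz]
    exact z.2
  rw [← V.valuation_le_one_iff, map_inv₀] at hinv
  have hv0 : 0 < V.valuation f := zero_lt_iff.2 ((Valuation.ne_zero_iff _).2 hf0)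
  exact absurd hinv (not_le.2 ((one_lt_inv₀ hv0).2 hvf))

/-- An element of `κ(x, y)` all of whose images under the iterates of the tangent residual map are
in `κ(x, y)` is a constant. -/
theorem const_of_moves (κ B K : Type) [Field κ] [CharZero κ] [Field B] [CharZero B] [Field K]
    [Algebra κ B] [Algebra B K] [Algebra κ K] [IsScalarTower κ B K] (c : Fin 10 → B) (x y : K)
    (D : K →ₐ[B] K) (h : PMove B K c x y D)
    (hind : AlgebraicIndependent κ ![x, y])
    (hκ : ∀ c : K, IsAlgebraic κ c → ∃ b : κ, algebraMap κ K b = c)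
    (hM : ∀ c : K, IsAlgebraic (IntermediateField.adjoin κ {x, y}) c →
      c ∈ IntermediateField.adjoin κ {x, y})
    (hp : HasPlaces κ B K x y) (f : K)
    (hf : ∀ n : ℕ, (D ^ n) f ∈ IntermediateField.adjoin κ {x, y}) :
    ∃ b : κ, algebraMap κ K b = f := by
  classical
  let D' : K →ₐ[κ] K := D.restrictScalars κ
  have hD' : ∀ (n : ℕ) (z : K), (D' ^ n) z = (D ^ n) z := by
    intro n
    induction n with
    | zero => intro z; rw [pow_zero, pow_zero]; rfl
    | succ n ih =>
      intro z
      rw [pow_succ, pow_succ, AlgHom.mul_apply, AlgHom.mul_apply, ih]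
      rfl
  let N : IntermediateField κ K := ⨅ n : ℕ, (IntermediateField.adjoin κ {x, y}).comap (D' ^ n)
  have hN : ∀ f : K, f ∈ N ↔ ∀ n : ℕ, (D' ^ n) f ∈ IntermediateField.adjoin κ {x, y} := by
    intro f
    rw [← SetLike.mem_coe, IntermediateField.coe_iInf, Set.mem_iInter]
    rfl
  have hcl : ∀ c : K, IsAlgebraic (IntermediateField.adjoin κ {D' x, D' y}) c →
      c ∈ IntermediateField.adjoin κ {D' x, D' y} :=
    fun c hc => closed_of_etale κ B K x y hind hκ hM hp D h.etale c hc
  have hsurj := B5_surj κ K x y D' hM hcl N hN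
  have hfN : f ∈ N := (hN f).2 fun n => by rw [hD']; exact hf n
  have hall : ∀ n : ℕ, ∀ f ∈ N, ∃ g : K, (D ^ n) g = f := by
    intro n
    have h1 : ∀ f ∈ N, ∃ g ∈ N, (D' ^ n) g = f := by
      induction n with
      | zero => intro f hf; exact ⟨f, hf, rfl⟩
      | succ n ih =>
        intro f hf
        obtain ⟨g, hg, hgf⟩ := ih f hf
        obtain ⟨g', hg', hgg⟩ := hsurj g hg
        refine ⟨g', hg', ?_⟩
        rw [pow_succ, AlgHom.mul_apply, hgg, hgf]
    intro f hf
    obtain ⟨g, _, hg⟩ := h1 f hf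
    exact ⟨g, by rw [← hD']; exact hg⟩
  have hfB : IsAlgebraic B f := h.not_mem_all f fun n => hall n f hfN
  by_cases hf0 : f = 0
  · exact ⟨0, by rw [hf0, map_zero]⟩
  have hfM : f ∈ IntermediateField.adjoin κ (Set.range ![x, y]) := by
    have h1 := hf 0
    rw [pow_zero] at h1
    have h2 : Set.range ![x, y] = {x, y} := by
      rw [Matrix.range_cons, Matrix.range_cons, Matrix.range_empty, Set.union_empty]
      rfl
    rw [h2]
    exact h1
  rw [IntermediateField.mem_adjoin_range_iff] at hfM
  obtain ⟨r, s, hrs⟩ := hfM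
  have hs0 : s ≠ 0 := by
    intro h0
    rw [h0, map_zero, div_zero] at hrs
    exact hf0 hrs
  obtain ⟨p, q, d, hpq, hdp, hdq⟩ := UniqueFactorizationMonoid.exists_reduced_factors' r s hs0
  have hinj : ∀ p : MvPolynomial (Fin 2) κ, p ≠ 0 → MvPolynomial.aeval ![x, y] p ≠ 0 := by
    intro p hp0 h0
    exact hp0 (hind.eq_zero_of_aeval_eq_zero p h0)
  have hd0 : d ≠ 0 := by
    rintro rfl
    rw [zero_mul] at hdq
    exact hs0 hdq.symm
  have hq0 : q ≠ 0 := by
    rintro rfl
    rw [mul_zero] at hdq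
    exact hs0 hdq.symm
  have hfpq : f * MvPolynomial.aeval ![x, y] q = MvPolynomial.aeval ![x, y] p := by
    rw [hrs, ← hdp, ← hdq, map_mul, map_mul]
    have h1 := hinj d hd0
    have h2 := hinj q hq0
    field_simp
  have hp0 : p ≠ 0 := by
    rintro rfl
    rw [map_zero] at hfpq
    exact mul_ne_zero hf0 (hinj q hq0) hfpq
  have hpu := B5_num κ B K x y hp f hfB hf0 p q hpq hp0 hfpq
  have hqu := B5_num κ B K x y hp f⁻¹ hfB.inv (inv_ne_zero hf0) q p hpq.symm hq0 (by
    rw [← hfpq, inv_mul_cancel_left₀ hf0])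
  obtain ⟨a, ha, hap⟩ := MvPolynomial.isUnit_iff_eq_C_of_isReduced.1 hpu
  obtain ⟨b, hb, hbq⟩ := MvPolynomial.isUnit_iff_eq_C_of_isReduced.1 hqu
  refine ⟨a / b, ?_⟩
  rw [hap, hbq, MvPolynomial.aeval_C, MvPolynomial.aeval_C] at hfpq
  have hb0 : algebraMap κ K b ≠ 0 := (map_ne_zero _).2 hb.ne_zero
  rw [map_div₀, ← hfpq, mul_div_cancel_right₀ _ hb0]

end Pool.Agent.LibHP
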