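import Pool.Agent.LibHP2.Defs

set_option autoImplicit false

namespace Pool.Agent.LibHP

private theorem B6b_rfmap_algebraMap {K E : Type} [Field K] [Field E] {r : ℕ} (F : K →+* E)
    (p : MvPolynomial (Fin r) K) :
    rfmap F r (algebraMap (MvPolynomial (Fin r) K) (RF K r) p) =
      algebraMap (MvPolynomial (Fin r) E) (RF E r) (MvPolynomial.map F p) := by
  unfold rfmap
  rw [IsFractionRing.lift_algebraMap]
  rfl

/-- Expansion of a polynomial along a basis of the coefficients. -/
private theorem B6b_expand (K E : Type) [Field K] [Field E] [Algebra K E] (τ : Type)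
    (G : MvPolynomial τ E) :
    ∃ (J : Type) (_ : Fintype J) (b : J → E) (Gj : J → MvPolynomial τ K),
      LinearIndependent K b ∧
      G = ∑ j, MvPolynomial.C (b j) * MvPolynomial.map (algebraMap K E) (Gj j) := by
  classical
  let B := Module.Basis.ofVectorSpace K E
  let J : Finset _ := G.support.biUnion (fun d => (B.repr (G.coeff d)).support)
  refine ⟨J, inferInstance, fun j => B j.1,
    fun j => ∑ d ∈ G.support, MvPolynomial.monomial d (B.repr (G.coeff d) j.1), ?_, ?_⟩
  · exact B.linearIndependent.comp (fun j : J => j.1) Subtype.val_injective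
  · have hc : ∀ d ∈ G.support, G.coeff d = ∑ j : J, B j.1 * algebraMap K E (B.repr (G.coeff d) j.1) := by
      intro d hd
      have h1 : G.coeff d = ∑ j ∈ J, B.repr (G.coeff d) j • B j := by
        conv_lhs => rw [← B.linearCombination_repr (G.coeff d)]
        rw [Finsupp.linearCombination_apply, Finsupp.sum_of_support_subset _ (s := J)]
        · intro j hj
          exact Finset.mem_biUnion.2 ⟨d, hd, hj⟩
        · intro i _
          rw [zero_smul]
      refine h1.trans ?_
      rw [← Finset.sum_coe_sort J]
      refine Finset.sum_congr rfl fun j _ => ?_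
      rw [Algebra.smul_def, mul_comm]
    conv_lhs => rw [← MvPolynomial.support_sum_monomial_coeff G]
    simp only [map_sum, Finset.mul_sum, MvPolynomial.map_monomial, MvPolynomial.C_mul_monomial]
    rw [Finset.sum_comm]
    refine Finset.sum_congr rfl fun d hd => ?_
    conv_lhs => rw [hc d hd]
    rw [map_sum]

/-- Extension of the base field for a principal ideal of relations. -/
theorem relations_map_RF (K E : Type) [Field K] [Field E] (Φ : K →+* E) (τ : Type) [Fintype τ]
    (m : ℕ) (e : τ → RF K m) (P : MvPolynomial τ K)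
    (hP : ∀ G : MvPolynomial τ K, MvPolynomial.aeval e G = 0 → P ∣ G)
    (G : MvPolynomial τ E) (hG : MvPolynomial.aeval (fun i => rfmap Φ m (e i)) G = 0) :
    MvPolynomial.map Φ P ∣ G := by
  classical
  let _ : Algebra K E := Φ.toAlgebra
  obtain ⟨J, _, b, Gj, hb, hGj⟩ := B6b_expand K E τ G
  have hconst : ∀ a : K, rfmap Φ m (algebraMap K (RF K m) a) = algebraMap E (RF E m) (Φ a) := by
    intro a
    rw [IsScalarTower.algebraMap_apply K (MvPolynomial (Fin m) K) (RF K m),
      IsScalarTower.algebraMap_apply E (MvPolynomial (Fin m) E) (RF E m),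
      B6b_rfmap_algebraMap, MvPolynomial.algebraMap_eq, MvPolynomial.algebraMap_eq,
      MvPolynomial.map_C]
  -- evaluation
  have hev : ∀ H : MvPolynomial τ K,
      MvPolynomial.aeval (fun i => rfmap Φ m (e i)) (MvPolynomial.map Φ H) =
        rfmap Φ m (MvPolynomial.aeval e H) := by
    intro H
    rw [MvPolynomial.aeval_def, MvPolynomial.aeval_def, MvPolynomial.eval₂_map,
      MvPolynomial.hom_eval₂]
    congr 1
    ext a
    exact (hconst a).symm
  -- common denominator
  obtain ⟨R, hR⟩ := IsLocalization.exist_integer_multiples_of_finite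
    (nonZeroDivisors (MvPolynomial (Fin m) K)) (fun j => MvPolynomial.aeval e (Gj j) : J → RF K m)
  choose A hA using hR
  have hR0 : (algebraMap (MvPolynomial (Fin m) K) (RF K m) (R : MvPolynomial (Fin m) K)) ≠ 0 := by
    intro h
    have := (IsFractionRing.injective (MvPolynomial (Fin m) K) (RF K m)) (h.trans (map_zero _).symm)
    exact nonZeroDivisors.ne_zero R.2 this
  have hsum : ∑ j, MvPolynomial.C (b j) * MvPolynomial.map Φ (A j) = 0 := by
    apply IsFractionRing.injective (MvPolynomial (Fin m) E) (RF E m)
    rw [map_zero, map_sum]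
    have h1 : ∑ j, algebraMap E (RF E m) (b j) * rfmap Φ m (MvPolynomial.aeval e (Gj j)) = 0 := by
      rw [hGj, map_sum] at hG
      rw [← hG]
      refine Finset.sum_congr rfl fun j _ => ?_
      rw [map_mul, MvPolynomial.aeval_C]
      congr 1
      exact (hev (Gj j)).symm
    have h2 : ∑ j, algebraMap (MvPolynomial (Fin m) E) (RF E m)
        (MvPolynomial.C (b j) * MvPolynomial.map Φ (A j)) =
        rfmap Φ m (algebraMap (MvPolynomial (Fin m) K) (RF K m) R) *
        ∑ j, algebraMap E (RF E m) (b j) * rfmap Φ m (MvPolynomial.aeval e (Gj j)) := by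
      rw [Finset.mul_sum]
      refine Finset.sum_congr rfl fun j _ => ?_
      rw [map_mul, ← B6b_rfmap_algebraMap, hA, Algebra.smul_def, map_mul,
        IsScalarTower.algebraMap_apply E (MvPolynomial (Fin m) E) (RF E m),
        MvPolynomial.algebraMap_eq]
      ring
    rw [h2, h1, mul_zero]
  have hA0 : ∀ j, A j = 0 := by
    intro j
    ext s
    have h1 := congrArg (MvPolynomial.coeff s) hsum
    rw [MvPolynomial.coeff_sum, MvPolynomial.coeff_zero] at h1
    have h2 : ∑ j, (MvPolynomial.coeff s (A j)) • b j = 0 := by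
      rw [← h1]
      refine Finset.sum_congr rfl fun j _ => ?_
      rw [MvPolynomial.coeff_C_mul, MvPolynomial.coeff_map, Algebra.smul_def, mul_comm]
      rfl
    have h3 := Fintype.linearIndependent_iff.1 hb _ h2 j
    rw [h3, MvPolynomial.coeff_zero]
  have hrel : ∀ j, MvPolynomial.aeval e (Gj j) = 0 := by
    intro j
    have h1 := hA j
    rw [hA0 j, map_zero, Algebra.smul_def] at h1
    exact (mul_eq_zero.1 h1.symm).resolve_left hR0
  rw [hGj]
  refine Finset.dvd_sum fun j _ => Dvd.dvd.mul_left ?_ _
  exact map_dvd (MvPolynomial.map Φ) (hP (Gj j) (hrel j))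

end Pool.Agent.LibHP
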