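import Pool.Agent.LibHP4.B6a
import Pool.Agent.LibHP4.B6b
import Pool.Agent.LibHP2.C1b
import Pool.Agent.LibHP3.U1

set_option autoImplicit false

namespace Pool.Agent.LibHP

/-- dependent elements satisfy an irreducible relation -/
theorem B6_exists_irreducible (K L : Type) [Field K] [Field L] [Algebra K L] (τ : Type)
    (e : τ → L) (h : ¬ AlgebraicIndependent K e) :
    ∃ P : MvPolynomial τ K, Irreducible P ∧ MvPolynomial.aeval e P = 0 := by
  rw [algebraicIndependent_iff] at h
  push Not at h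
  obtain ⟨G, hG, hG0⟩ := h
  obtain ⟨f, hf, u, hu⟩ := WfDvdMonoid.exists_factors G hG0
  have h1 : MvPolynomial.aeval e f.prod = 0 := by
    have h2 : MvPolynomial.aeval e (f.prod * (u : MvPolynomial τ K)) = 0 := by rw [hu, hG]
    rw [map_mul] at h2
    refine (mul_eq_zero.mp h2).resolve_right fun h3 => ?_
    exact (u.isUnit.map (MvPolynomial.aeval e : MvPolynomial τ K →ₐ[K] L)).ne_zero h3
  rw [map_multiset_prod, Multiset.prod_eq_zero_iff, Multiset.mem_map] at h1
  obtain ⟨P, hP, hP0⟩ := h1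
  exact ⟨P, hf P hP, hP0⟩

/-- a polynomial whose coefficients are, up to a factor, constants -/
theorem B6_descend (κ K : Type) [Field κ] [Field K] [Algebra κ K] (τ : Type)
    (P : MvPolynomial τ K) (a : K)
    (h : ∀ s, ∃ c : κ, algebraMap κ K c = a * P.coeff s) :
    ∃ Q : MvPolynomial τ κ, MvPolynomial.map (algebraMap κ K) Q = MvPolynomial.C a * P := by
  classical
  choose q hq using h
  refine ⟨∑ s ∈ P.support, MvPolynomial.monomial s (q s), ?_⟩
  ext s
  rw [MvPolynomial.coeff_C_mul, map_sum, MvPolynomial.coeff_sum]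
  simp only [MvPolynomial.map_monomial, MvPolynomial.coeff_monomial, hq]
  rw [Finset.sum_ite_eq' P.support s]
  split_ifs with h1
  · rfl
  · rw [MvPolynomial.notMem_support_iff.mp h1, mul_zero]

/-- If only the constants are mapped to constants by all families, and some family moves all but
one of the independent elements `x l` independently, then some family moves all of them
independently. -/
theorem exists_independent_of_fixed (κ K : Type) [Field κ] [Field K] [CharZero K] [Algebra κ K]
    (τ : Type) [Fintype τ] [DecidableEq τ] (x : τ → K) (hx : AlgebraicIndependent κ x)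
    (hfix : ∀ f : K, (∀ (m : ℕ) (Φ : K →+* RF K m),
      (∀ c : κ, Φ (algebraMap κ K c) = algebraMap K (RF K m) (algebraMap κ K c)) →
      ∃ g : K, Φ f = algebraMap K (RF K m) g) → ∃ c : κ, algebraMap κ K c = f)
    (h0 : ∃ (m : ℕ) (Φ : K →+* RF K m) (i : τ),
      (∀ c : κ, Φ (algebraMap κ K c) = algebraMap K (RF K m) (algebraMap κ K c)) ∧
      AlgebraicIndependent K (fun l : {l : τ // l ≠ i} => Φ (x l))) :
    ∃ (m : ℕ) (Φ : K →+* RF K m),
      (∀ c : κ, Φ (algebraMap κ K c) = algebraMap K (RF K m) (algebraMap κ K c)) ∧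
      AlgebraicIndependent K (fun l => Φ (x l)) := by
  by_contra hcon
  obtain ⟨m0, Φ0, i, hΦ0, hind⟩ := h0
  have hdep : ¬ AlgebraicIndependent K (fun l => Φ0 (x l)) := fun h => hcon ⟨m0, Φ0, hΦ0, h⟩
  obtain ⟨P, hPirr, hP0⟩ := B6_exists_irreducible K (RF K m0) τ _ hdep
  have hPdvd : ∀ G : MvPolynomial τ K, MvPolynomial.aeval (fun l => Φ0 (x l)) G = 0 → P ∣ G :=
    fun G hG => dvd_of_algebraicIndependent K (RF K m0) P hPirr _ hP0 i hind G hG
  obtain ⟨s0, hs0⟩ : ∃ s0, P.coeff s0 ≠ 0 := MvPolynomial.ne_zero_iff.mp hPirr.ne_zero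
  -- the coefficients are constants
  have hconst : ∀ s, ∃ c : κ, algebraMap κ K c = (P.coeff s0)⁻¹ * P.coeff s := by
    intro s
    refine hfix _ fun m Φ hΦ => ?_
    have htow : IsScalarTower K (RF K m) (RF (RF K m) m0) := inferInstance
    let Ψ : K →+* RF (RF K m) m0 := (rfmap Φ m0).comp Φ0
    have hΨc : ∀ c : κ, Ψ (algebraMap κ K c) =
        algebraMap K (RF (RF K m) m0) (algebraMap κ K c) := by
      intro c
      show rfmap Φ m0 (Φ0 (algebraMap κ K c)) = _
      rw [hΦ0, rfmap_const, hΦ, ← IsScalarTower.algebraMap_apply K (RF K m) (RF (RF K m) m0)]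
    have hdep' : ¬ AlgebraicIndependent K (fun l => Ψ (x l)) := by
      intro h1
      obtain ⟨e⟩ := exists_algEquiv_RF K m m0
      refine hcon ⟨m + m0, (e : RF (RF K m) m0 →+* RF K (m + m0)).comp Ψ, ?_, ?_⟩
      · intro c
        show e (Ψ (algebraMap κ K c)) = _
        rw [hΨc]
        exact e.commutes _
      · exact h1.map' (f := (e : RF (RF K m) m0 →ₐ[K] RF K (m + m0))) e.injective
    obtain ⟨P', hP'irr, hP'0⟩ := B6_exists_irreducible K (RF (RF K m) m0) τ _ hdep'
    have hirr := irreducible_map_RF K τ m P' hP'irr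
    have h2 : MvPolynomial.aeval (fun l => rfmap Φ m0 (Φ0 (x l)))
        (MvPolynomial.map (algebraMap K (RF K m)) P') = 0 := by
      rw [MvPolynomial.aeval_map_algebraMap]
      exact hP'0
    obtain ⟨Q, hQ⟩ := relations_map_RF K (RF K m) Φ τ m0 (fun l => Φ0 (x l)) P hPdvd _ h2
    -- the first factor is not a unit
    have h3 : ¬ IsUnit (MvPolynomial.map Φ P) := by
      intro hu
      have h4 : MvPolynomial.eval₂Hom (algebraMap (RF K m) (RF (RF K m) m0))
          (fun l => rfmap Φ m0 (Φ0 (x l))) (MvPolynomial.map Φ P) = 0 := by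
        have h5 := congrArg (rfmap Φ m0) hP0
        rw [map_zero] at h5
        rw [← h5]
        show MvPolynomial.eval₂ _ _ (MvPolynomial.map Φ P) =
          rfmap Φ m0 (MvPolynomial.eval₂ (algebraMap K (RF K m0)) (fun l => Φ0 (x l)) P)
        rw [MvPolynomial.eval₂_map, MvPolynomial.eval₂_comp_left]
        congr 1
        ext a
        exact (rfmap_const Φ a).symm
      exact (hu.map (MvPolynomial.eval₂Hom (algebraMap (RF K m) (RF (RF K m) m0))
          (fun l => rfmap Φ m0 (Φ0 (x l))))).ne_zero h4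
    have h4 : IsUnit Q := (hirr.isUnit_or_isUnit hQ).resolve_left h3
    obtain ⟨r, hr, hQr⟩ := MvPolynomial.isUnit_iff_eq_C_of_isReduced.mp h4
    have hcoef : ∀ t, algebraMap K (RF K m) (P'.coeff t) = Φ (P.coeff t) * r := by
      intro t
      have h5 := congrArg (MvPolynomial.coeff t) hQ
      rw [MvPolynomial.coeff_map, hQr, mul_comm, MvPolynomial.coeff_C_mul,
        MvPolynomial.coeff_map] at h5
      rw [h5, mul_comm]
    have hr0 : r ≠ 0 := hr.ne_zero
    have hΦs0 : Φ (P.coeff s0) ≠ 0 := (map_ne_zero Φ).mpr hs0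
    refine ⟨(P'.coeff s0)⁻¹ * P'.coeff s, ?_⟩
    rw [map_mul, map_mul, map_inv₀, map_inv₀, hcoef, hcoef]
    field_simp
  obtain ⟨Q, hQ⟩ := B6_descend κ K τ P (P.coeff s0)⁻¹ hconst
  have h1 : MvPolynomial.aeval x Q = 0 := by
    apply Φ0.injective
    rw [map_zero]
    have h2 : Φ0 (MvPolynomial.aeval x Q) =
        MvPolynomial.aeval (fun l => Φ0 (x l)) (MvPolynomial.map (algebraMap κ K) Q) := by
      show Φ0 (MvPolynomial.eval₂ (algebraMap κ K) x Q) =
        MvPolynomial.eval₂ (algebraMap K (RF K m0)) (fun l => Φ0 (x l))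
          (MvPolynomial.map (algebraMap κ K) Q)
      rw [MvPolynomial.eval₂_map, MvPolynomial.eval₂_comp_left]
      congr 1
      ext a
      exact hΦ0 a
    rw [h2, hQ, map_mul, hP0, mul_zero]
  have h2 : Q = 0 := by
    rw [algebraicIndependent_iff] at hx
    exact hx Q h1
  rw [h2, map_zero] at hQ
  have h3 := mul_eq_zero.mp hQ.symm
  rcases h3 with h3 | h3
  · exact inv_ne_zero hs0 ((MvPolynomial.C_eq_zero).mp h3)
  · exact hPirr.ne_zero h3

end Pool.Agent.LibHP
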