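import Pool.Agent.LibHP2.Defs

set_option autoImplicit false

namespace Pool.Agent.LibHP

theorem B6a_comm_map (K : Type) [Field K] (τ : Type) (m : ℕ) (P : MvPolynomial τ K) :
    MvPolynomial.commAlgEquiv K τ (Fin m)
      (MvPolynomial.map (MvPolynomial.C : K →+* MvPolynomial (Fin m) K) P) =
      MvPolynomial.C P := by
  have h : ((MvPolynomial.commAlgEquiv K τ (Fin m)).toAlgHom.toRingHom.comp
      (MvPolynomial.map (MvPolynomial.C : K →+* MvPolynomial (Fin m) K))) =
      (MvPolynomial.C : MvPolynomial τ K →+* MvPolynomial (Fin m) (MvPolynomial τ K)) := by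
    apply MvPolynomial.ringHom_ext
    · intro r
      change MvPolynomial.commAlgEquiv K τ (Fin m)
        (MvPolynomial.map MvPolynomial.C (MvPolynomial.C r)) = _
      rw [MvPolynomial.map_C, MvPolynomial.commAlgEquiv_C, MvPolynomial.map_C]
    · intro i
      change MvPolynomial.commAlgEquiv K τ (Fin m)
        (MvPolynomial.map MvPolynomial.C (MvPolynomial.X i)) = _
      rw [MvPolynomial.map_X, MvPolynomial.commAlgEquiv_X]
  exact DFunLike.congr_fun h P

/-- An irreducible polynomial over `K` stays irreducible over a rational function field. -/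
theorem irreducible_map_RF (K : Type) [Field K] (τ : Type) [Fintype τ] (m : ℕ)
    (P : MvPolynomial τ K) (hP : Irreducible P) :
    Irreducible (MvPolynomial.map (algebraMap K (RF K m)) P) := by
  classical
  have hPp : Prime P := UniqueFactorizationMonoid.irreducible_iff_prime.mp hP
  letI : Algebra (MvPolynomial τ (MvPolynomial (Fin m) K)) (MvPolynomial τ (RF K m)) :=
    MvPolynomial.algebraMvPolynomial
  set P' : MvPolynomial τ (MvPolynomial (Fin m) K) :=
    MvPolynomial.map (MvPolynomial.C : K →+* MvPolynomial (Fin m) K) P with hP'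
  let e : MvPolynomial τ (MvPolynomial (Fin m) K) ≃ₐ[K]
      MvPolynomial (Fin m) (MvPolynomial τ K) :=
    MvPolynomial.commAlgEquiv K τ (Fin m)
  have heP : e P' = MvPolynomial.C P := B6a_comm_map K τ m P
  have hP'prime : Prime P' := by
    rw [← MulEquiv.prime_iff e, heP]
    exact (MvPolynomial.prime_C_iff _).mpr hPp
  have hdisj : Disjoint (((nonZeroDivisors (MvPolynomial (Fin m) K)).map
      (MvPolynomial.C : MvPolynomial (Fin m) K →+* MvPolynomial τ (MvPolynomial (Fin m) K)) :
        Submonoid (MvPolynomial τ (MvPolynomial (Fin m) K))) :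
        Set (MvPolynomial τ (MvPolynomial (Fin m) K)))
        (Ideal.span {P'} : Ideal (MvPolynomial τ (MvPolynomial (Fin m) K))) := by
    rw [Set.disjoint_left]
    rintro _ ⟨a, ha, rfl⟩ hmem
    have ha0 : a ≠ 0 := nonZeroDivisors.ne_zero ha
    have hdvd : P' ∣ MvPolynomial.C a := Ideal.mem_span_singleton.mp hmem
    have h1 : e P' ∣ e (MvPolynomial.C a) := map_dvd e hdvd
    rw [heP] at h1
    have h2 : e (MvPolynomial.C a) = MvPolynomial.map MvPolynomial.C a :=
      MvPolynomial.commAlgEquiv_C a
    rw [h2, MvPolynomial.C_dvd_iff_dvd_coeff] at h1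
    obtain ⟨s, hs⟩ : ∃ s, MvPolynomial.coeff s a ≠ 0 := by
      by_contra hcon
      push Not at hcon
      exact ha0 (MvPolynomial.ext _ _ (fun s => by rw [hcon s, MvPolynomial.coeff_zero]))
    have h3 := h1 s
    rw [MvPolynomial.coeff_map] at h3
    exact hP.not_isUnit (isUnit_of_dvd_unit h3 ((isUnit_iff_ne_zero.mpr hs).map MvPolynomial.C))
  have hloc : IsLocalization ((nonZeroDivisors (MvPolynomial (Fin m) K)).map
      (MvPolynomial.C : MvPolynomial (Fin m) K →+* MvPolynomial τ (MvPolynomial (Fin m) K)))
      (MvPolynomial τ (RF K m)) :=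
    MvPolynomial.isLocalization (σ := τ) (nonZeroDivisors (MvPolynomial (Fin m) K)) (RF K m)
  have hprime := IsLocalization.isPrime_of_isPrime_disjoint _ (MvPolynomial τ (RF K m))
    (Ideal.span {P'}) ((Ideal.span_singleton_prime hP'prime.ne_zero).mpr hP'prime) hdisj
  rw [Ideal.map_span, Set.image_singleton] at hprime
  have hmap : algebraMap (MvPolynomial τ (MvPolynomial (Fin m) K)) (MvPolynomial τ (RF K m)) P' =
      MvPolynomial.map (algebraMap K (RF K m)) P := by
    rw [hP', MvPolynomial.algebraMap_def, MvPolynomial.map_map]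
    rfl
  rw [hmap] at hprime
  have hne : MvPolynomial.map (algebraMap K (RF K m)) P ≠ 0 := by
    intro h0
    apply hP.ne_zero
    apply MvPolynomial.map_injective _ (algebraMap K (RF K m)).injective
    rw [h0, map_zero]
  exact ((Ideal.span_singleton_prime hne).mp hprime).irreducible

end Pool.Agent.LibHP
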