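import Pool.Agent.LibHP3.Defs

set_option autoImplicit false
open Polynomial

namespace Pool.Agent.LibHP

/-! ### Plane cubics and the tangent residual map -/

section PlaneCubic
variable {R : Type} [CommRing R]

/-- The value at `(x, y)` of the cubic polynomial with coefficients `c`. -/
def cuF (c : Fin 10 → R) (x y : R) : R :=
  c 0 + c 1 * x + c 2 * y + c 3 * x ^ 2 + c 4 * x * y + c 5 * y ^ 2 + c 6 * x ^ 3 +
    c 7 * x ^ 2 * y + c 8 * x * y ^ 2 + c 9 * y ^ 3

/-- The partial derivative with respect to `x`. -/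
def cuX (c : Fin 10 → R) (x y : R) : R :=
  c 1 + 2 * c 3 * x + c 4 * y + 3 * c 6 * x ^ 2 + 2 * c 7 * x * y + c 8 * y ^ 2

/-- The partial derivative with respect to `y`. -/
def cuY (c : Fin 10 → R) (x y : R) : R :=
  c 2 + c 4 * x + 2 * c 5 * y + c 7 * x ^ 2 + 2 * c 8 * x * y + 3 * c 9 * y ^ 2

/-- The second Taylor coefficients. -/
def cuXX (c : Fin 10 → R) (x y : R) : R := c 3 + 3 * c 6 * x + c 7 * y

def cuXY (c : Fin 10 → R) (x y : R) : R := c 4 + 2 * c 7 * x + 2 * c 8 * y

def cuYY (c : Fin 10 → R) (x y : R) : R := c 5 + c 8 * x + 3 * c 9 * y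

/-- The second Taylor coefficient in the direction `(-cuY, cuX)` of the tangent. -/
def cuQ2 (c : Fin 10 → R) (x y : R) : R :=
  cuXX c x y * cuY c x y ^ 2 - cuXY c x y * cuX c x y * cuY c x y + cuYY c x y * cuX c x y ^ 2

/-- The third Taylor coefficient in the direction `(-cuY, cuX)` of the tangent. -/
def cuQ3 (c : Fin 10 → R) (x y : R) : R :=
  -(c 6 * cuY c x y ^ 3) + c 7 * cuY c x y ^ 2 * cuX c x y - c 8 * cuY c x y * cuX c x y ^ 2 +
    c 9 * cuX c x y ^ 3

/-- The gradient of the homogeneous cubic form with coefficients `c`. -/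
def cuG (c : Fin 10 → R) (e : Fin 3 → R) : Fin 3 → R :=
  ![3 * c 0 * e 0 ^ 2 + 2 * c 1 * e 0 * e 1 + 2 * c 2 * e 0 * e 2 + c 3 * e 1 ^ 2 +
      c 4 * e 1 * e 2 + c 5 * e 2 ^ 2,
    c 1 * e 0 ^ 2 + 2 * c 3 * e 0 * e 1 + c 4 * e 0 * e 2 + 3 * c 6 * e 1 ^ 2 +
      2 * c 7 * e 1 * e 2 + c 8 * e 2 ^ 2,
    c 2 * e 0 ^ 2 + c 4 * e 0 * e 1 + 2 * c 5 * e 0 * e 2 + c 7 * e 1 ^ 2 +
      2 * c 8 * e 1 * e 2 + 3 * c 9 * e 2 ^ 2]

/-- The coefficients of the cubic in the coordinates `(y, x)`. -/
def cuSwap (c : Fin 10 → R) : Fin 10 → R :=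
  ![c 0, c 2, c 1, c 5, c 4, c 3, c 9, c 8, c 7, c 6]

/-- The coefficients of the cubic in the coordinates `(1 / x, y / x)`. -/
def cuInv (c : Fin 10 → R) : Fin 10 → R :=
  ![c 6, c 3, c 7, c 1, c 4, c 8, c 0, c 2, c 5, c 9]

/-- The coefficients of the cubic in the coordinates `(y - μ x, x)`. -/
def cuShear (c : Fin 10 → R) (μ : R) : Fin 10 → R :=
  ![c 0, c 2, c 1 + μ * c 2, c 5, c 4 + 2 * μ * c 5, c 3 + μ * c 4 + μ ^ 2 * c 5, c 9,
    c 8 + 3 * μ * c 9, c 7 + 2 * μ * c 8 + 3 * μ ^ 2 * c 9,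
    c 6 + μ * c 7 + μ ^ 2 * c 8 + μ ^ 3 * c 9]

end PlaneCubic

/-- The affine equation of the plane cubic. -/
noncomputable def cuPoly {B : Type} [Field B] (c : Fin 10 → B) : MvPolynomial (Fin 2) B :=
  cuF (fun i => MvPolynomial.C (c i)) (MvPolynomial.X 0) (MvPolynomial.X 1)

/-- The plane cubic with coefficients `c` is smooth (over the algebraic closure). -/
def CubicSmooth {B : Type} [Field B] (c : Fin 10 → B) : Prop :=
  ∀ e : Fin 3 → AlgebraicClosure B, e ≠ 0 →
    ∃ i, cuG (fun j => algebraMap B (AlgebraicClosure B) (c j)) e i ≠ 0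

/-- `(x, y)` is a point of the smooth plane cubic `c` over `B`, not algebraic over `B`. -/
structure PPoint (B K : Type) [Field B] [Field K] [Algebra B K] (c : Fin 10 → B) (x y : K) :
    Prop where
  tr : Transcendental B x ∨ Transcendental B y
  eq : cuF (fun i => algebraMap B K (c i)) x y = 0
  smooth : CubicSmooth c

/-- `K` is the function field of the smooth plane cubic `c` over `B`. -/
structure PCurve (B K : Type) [Field B] [Field K] [Algebra B K] (c : Fin 10 → B) (x y : K) :
    Prop extends PPoint B K c x y where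
  gen : IntermediateField.adjoin B {x, y} = ⊤

/-- `D` is the endomorphism of the plane cubic mapping a point to the third point of the cubic on
its tangent. -/
structure PMove (B K : Type) [Field B] [Field K] [Algebra B K] (c : Fin 10 → B) (x y : K)
    (D : K →ₐ[B] K) : Prop extends PCurve B K c x y where
  q3 : cuQ3 (fun i => algebraMap B K (c i)) x y ≠ 0
  d1 : (D x - x) * cuQ3 (fun i => algebraMap B K (c i)) x y =
    cuQ2 (fun i => algebraMap B K (c i)) x y * cuY (fun i => algebraMap B K (c i)) x y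
  d2 : (D y - y) * cuQ3 (fun i => algebraMap B K (c i)) x y =
    -(cuQ2 (fun i => algebraMap B K (c i)) x y * cuX (fun i => algebraMap B K (c i)) x y)

/-- The derivation `cuY ∂/∂x - cuX ∂/∂y`. -/
def IsFlow (B K : Type) [Field B] [Field K] [Algebra B K] (c : Fin 10 → B) (x y : K)
    (δ : Derivation B K K) : Prop :=
  δ x = cuY (fun i => algebraMap B K (c i)) x y ∧ δ y = -cuX (fun i => algebraMap B K (c i)) x y

/-- `δ` is a regular vector field without zeros: it preserves every valuation ring over `B` and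
maps some uniformizer to a unit. -/
def RegDer (B K : Type) [Field B] [Field K] [Algebra B K] (δ : Derivation B K K) : Prop :=
  ∀ V : ValuationSubring K, (∀ b : B, algebraMap B K b ∈ V) → V ≠ ⊤ →
    (∀ z ∈ V, δ z ∈ V) ∧ ∃ t : K, IsUnif V t ∧ V.valuation (δ t) = 1

/-- `D` is unramified at all places over `B`. -/
def EtaleEndo (B K : Type) [Field B] [Field K] [Algebra B K] (D : K →ₐ[B] K) : Prop :=
  ∀ V : ValuationSubring K, (∀ b : B, algebraMap B K b ∈ V) →
    ∀ t : K, IsUnif (V.comap (D : K →+* K)) t → IsUnif V (D t)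

/-- `K` is a function field of one variable over `B`. -/
structure IsCurve (B K : Type) [Field B] [Field K] [Algebra B K] : Prop where
  fg : ∃ s : Finset K, IntermediateField.adjoin B (s : Set K) = ⊤
  tr : ∃ x : K, Transcendental B x
  alg : ∀ z : K, Transcendental B z → Algebra.IsAlgebraic (IntermediateField.adjoin B {z}) K

/-- Over every irreducible polynomial in `x, y` over `κ` there is a place of `K` over `B`, with a
uniformizer given by the polynomial. -/
def HasPlaces (κ B K : Type) [Field κ] [Field B] [Field K] [Algebra κ K] [Algebra B K] (x y : K) :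
    Prop :=
  ∀ π : MvPolynomial (Fin 2) κ, Irreducible π → ∃ V : ValuationSubring K,
    (∀ b : B, algebraMap B K b ∈ V) ∧ x ∈ V ∧ y ∈ V ∧ IsUnif V (MvPolynomial.aeval ![x, y] π) ∧
    ∀ p : MvPolynomial (Fin 2) κ, V.valuation (MvPolynomial.aeval ![x, y] p) < 1 → π ∣ p

end Pool.Agent.LibHP
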